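import Mathlib

set_option autoImplicit false

namespace Pool.Agent.W72

/-! ## Continued fractions with digits 1 and 2 -/

/-- digits -/
def dg (b : Bool) : ℝ := if b then 2 else 1

theorem dg_ge (b : Bool) : 1 ≤ dg b := by unfold dg; split_ifs <;> norm_num
theorem dg_le (b : Bool) : dg b ≤ 2 := by unfold dg; split_ifs <;> norm_num

/-- shift -/
def stail (s : ℕ → Bool) : ℕ → Bool := fun n => s (n + 1)

/-- adding a letter in front -/
def scons (b : Bool) (s : ℕ → Bool) : ℕ → Bool := fun n => Nat.casesOn n b s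

@[simp] theorem scons_zero (b : Bool) (s : ℕ → Bool) : scons b s 0 = b := rfl
@[simp] theorem scons_succ (b : Bool) (s : ℕ → Bool) (n : ℕ) : scons b s (n + 1) = s n := rfl
@[simp] theorem stail_scons (b : Bool) (s : ℕ → Bool) : stail (scons b s) = s := rfl
theorem scons_stail (s : ℕ → Bool) : scons (s 0) (stail s) = s := by
  funext n; cases n <;> rfl

/-- finite approximations -/
noncomputable def etaN : ℕ → (ℕ → Bool) → ℝ
  | 0, _ => 2
  | n + 1, s => dg (s 0) + 1 / etaN n (stail s)

theorem etaN_mem (n : ℕ) : ∀ s, 4 / 3 ≤ etaN n s ∧ etaN n s ≤ 3 := by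
  induction n with
  | zero => intro s; norm_num [etaN]
  | succ n ih =>
    intro s
    obtain ⟨h1, h2⟩ := ih (stail s)
    have h3 := dg_ge (s 0)
    have h4 := dg_le (s 0)
    have h5 : (1 : ℝ) / 3 ≤ 1 / etaN n (stail s) := one_div_le_one_div_of_le (by linarith) h2
    have h6 : 1 / etaN n (stail s) ≤ 1 / (4 / 3) := one_div_le_one_div_of_le (by norm_num) h1
    have h7 : (1 : ℝ) / (4 / 3) = 3 / 4 := by norm_num
    simp only [etaN]
    constructor <;> linarith

theorem inv_sub_bound {z w : ℝ} (hz : 4 / 3 ≤ z) (hw : 4 / 3 ≤ w) :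
    |1 / z - 1 / w| ≤ 9 / 16 * |z - w| := by
  have hz0 : 0 < z := by linarith
  have hw0 : 0 < w := by linarith
  have e : 1 / z - 1 / w = (w - z) / (z * w) := by field_simp
  rw [e, abs_div, abs_of_pos (mul_pos hz0 hw0), abs_sub_comm, div_le_iff₀ (mul_pos hz0 hw0)]
  have : 16 / 9 ≤ z * w := by nlinarith
  have h0 := abs_nonneg (z - w)
  nlinarith

theorem inv_sub_lower {z w : ℝ} (hz : 4 / 3 ≤ z) (hw : 4 / 3 ≤ w) (hz3 : z ≤ 3) (hw3 : w ≤ 3) :
    1 / 9 * |z - w| ≤ |1 / z - 1 / w| := by
  have hz0 : 0 < z := by linarith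
  have hw0 : 0 < w := by linarith
  have e : 1 / z - 1 / w = (w - z) / (z * w) := by field_simp
  rw [e, abs_div, abs_of_pos (mul_pos hz0 hw0), abs_sub_comm w z, le_div_iff₀ (mul_pos hz0 hw0)]
  have : z * w ≤ 9 := by nlinarith
  have h0 := abs_nonneg (z - w)
  nlinarith

theorem etaN_step (n : ℕ) : ∀ s, |etaN n s - etaN (n + 1) s| ≤ 2 * (9 / 16 : ℝ) ^ n := by
  induction n with
  | zero =>
    intro s
    have h3 := dg_ge (s 0)
    have h4 := dg_le (s 0)
    simp only [etaN, pow_zero, mul_one]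
    rw [abs_le]
    constructor <;> linarith
  | succ n ih =>
    intro s
    have h1 := ih (stail s)
    have h2 := etaN_mem n (stail s)
    have h3 := etaN_mem (n + 1) (stail s)
    have e : etaN (n + 1) s - etaN (n + 1 + 1) s =
        1 / etaN n (stail s) - 1 / etaN (n + 1) (stail s) := by
      change (dg (s 0) + 1 / etaN n (stail s)) - (dg (s 0) + 1 / etaN (n + 1) (stail s)) = _
      ring
    rw [e]
    refine (inv_sub_bound h2.1 h3.1).trans ?_
    rw [pow_succ]
    nlinarith

theorem etaN_cauchy (s : ℕ → Bool) : CauchySeq (fun n => etaN n s) := by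
  apply cauchySeq_of_le_geometric (9 / 16 : ℝ) 2 (by norm_num)
  intro n
  rw [Real.dist_eq]
  exact etaN_step n s

/-- the value of the continued fraction -/
noncomputable def eta (s : ℕ → Bool) : ℝ := Classical.choose (cauchySeq_tendsto_of_complete (etaN_cauchy s))

theorem eta_tendsto (s : ℕ → Bool) : Filter.Tendsto (fun n => etaN n s) Filter.atTop (nhds (eta s)) :=
  Classical.choose_spec (cauchySeq_tendsto_of_complete (etaN_cauchy s))

theorem eta_ge (s : ℕ → Bool) : 4 / 3 ≤ eta s :=
  ge_of_tendsto' (eta_tendsto s) fun n => (etaN_mem n s).1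

theorem eta_le (s : ℕ → Bool) : eta s ≤ 3 :=
  le_of_tendsto' (eta_tendsto s) fun n => (etaN_mem n s).2

theorem eta_pos (s : ℕ → Bool) : 0 < eta s := by have := eta_ge s; linarith

theorem eta_rec (s : ℕ → Bool) : eta s = dg (s 0) + 1 / eta (stail s) := by
  have h1 : Filter.Tendsto (fun n => etaN (n + 1) s) Filter.atTop (nhds (eta s)) :=
    (eta_tendsto s).comp (Filter.tendsto_add_atTop_nat 1)
  have h2 : Filter.Tendsto (fun n => etaN (n + 1) s) Filter.atTop
      (nhds (dg (s 0) + 1 / eta (stail s))) := by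
    change Filter.Tendsto (fun n => dg (s 0) + 1 / etaN n (stail s)) Filter.atTop _
    have h3 := (eta_tendsto (stail s)).inv₀ (eta_pos _).ne'
    simp only [one_div]
    exact h3.const_add _
  exact tendsto_nhds_unique h1 h2

theorem eta_scons (b : Bool) (s : ℕ → Bool) : eta (scons b s) = dg b + 1 / eta s := by
  rw [eta_rec, stail_scons, scons_zero]

/-- agreeing on the first `j` letters -/
def Agr (j : ℕ) (s t : ℕ → Bool) : Prop := ∀ i, i < j → s i = t i

theorem Agr.refl (j : ℕ) (s : ℕ → Bool) : Agr j s s := fun _ _ => rfl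
theorem Agr.symm {j : ℕ} {s t : ℕ → Bool} (h : Agr j s t) : Agr j t s := fun i hi => (h i hi).symm
theorem Agr.trans {j : ℕ} {s t u : ℕ → Bool} (h : Agr j s t) (h' : Agr j t u) : Agr j s u :=
  fun i hi => (h i hi).trans (h' i hi)
theorem Agr.mono {j k : ℕ} {s t : ℕ → Bool} (h : Agr k s t) (hjk : j ≤ k) : Agr j s t :=
  fun i hi => h i (by omega)
theorem Agr.tail {j : ℕ} {s t : ℕ → Bool} (h : Agr (j + 1) s t) : Agr j (stail s) (stail t) :=
  fun i hi => h (i + 1) (by omega)
theorem Agr.of_tail {j : ℕ} {s t : ℕ → Bool} (h0 : s 0 = t 0) (h : Agr j (stail s) (stail t)) :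
    Agr (j + 1) s t := by
  intro i hi
  cases i with
  | zero => exact h0
  | succ i => exact h i (by omega)

/-- contraction -/
theorem eta_close (j : ℕ) : ∀ s t, Agr j s t → |eta s - eta t| ≤ 2 * (9 / 16 : ℝ) ^ j := by
  induction j with
  | zero =>
    intro s t _
    have h1 := eta_ge s
    have h2 := eta_ge t
    have h3 := eta_le s
    have h4 := eta_le t
    rw [pow_zero, abs_le]
    constructor <;> linarith
  | succ j ih =>
    intro s t h
    have h1 := ih _ _ h.tail
    rw [eta_rec s, eta_rec t, h 0 (by omega)]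
    have e : dg (t 0) + 1 / eta (stail s) - (dg (t 0) + 1 / eta (stail t)) =
        1 / eta (stail s) - 1 / eta (stail t) := by ring
    rw [e]
    refine (inv_sub_bound (eta_ge _) (eta_ge _)).trans ?_
    rw [pow_succ]
    nlinarith

/-- separation -/
theorem eta_sep (l : ℕ) : ∀ s t, ¬ Agr l s t → 1 / 2 * (1 / 9 : ℝ) ^ l ≤ |eta s - eta t| := by
  induction l with
  | zero => intro s t h; exact absurd (fun i hi => by omega) h
  | succ l ih =>
    intro s t h
    by_cases h0 : s 0 = t 0
    · have h1 : ¬ Agr l (stail s) (stail t) := fun h2 => h (Agr.of_tail h0 h2)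
      have h2 := ih _ _ h1
      have h3 := inv_sub_lower (eta_ge (stail s)) (eta_ge (stail t)) (eta_le _) (eta_le _)
      rw [eta_rec s, eta_rec t, h0]
      have e : dg (t 0) + 1 / eta (stail s) - (dg (t 0) + 1 / eta (stail t)) =
          1 / eta (stail s) - 1 / eta (stail t) := by ring
      rw [e]
      refine le_trans ?_ h3
      rw [pow_succ]
      nlinarith
    · have hpow : (1 / 9 : ℝ) ^ (l + 1) ≤ 1 := pow_le_one₀ (by norm_num) (by norm_num)
      have a1 : 1 / 3 ≤ 1 / eta (stail s) := one_div_le_one_div_of_le (eta_pos _) (eta_le _)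
      have a2 : 1 / eta (stail s) ≤ 1 / (4 / 3) := one_div_le_one_div_of_le (by norm_num) (eta_ge _)
      have b1 : 1 / 3 ≤ 1 / eta (stail t) := one_div_le_one_div_of_le (eta_pos _) (eta_le _)
      have b2 : 1 / eta (stail t) ≤ 1 / (4 / 3) := one_div_le_one_div_of_le (by norm_num) (eta_ge _)
      have e34 : (1 : ℝ) / (4 / 3) = 3 / 4 := by norm_num
      rw [e34] at a2 b2
      rw [eta_rec s, eta_rec t]
      rcases Bool.eq_false_or_eq_true (s 0) with hs | hs <;>
        rcases Bool.eq_false_or_eq_true (t 0) with ht | ht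
      · rw [hs, ht] at h0; exact absurd rfl h0
      · rw [hs, ht]
        have d1 : dg true = 2 := by simp [dg]
        have d2 : dg false = 1 := by simp [dg]
        rw [d1, d2]
        refine le_trans ?_ (le_abs_self _)
        linarith
      · rw [hs, ht]
        have d1 : dg true = 2 := by simp [dg]
        have d2 : dg false = 1 := by simp [dg]
        rw [d1, d2, abs_sub_comm]
        refine le_trans ?_ (le_abs_self _)
        linarith
      · rw [hs, ht] at h0; exact absurd rfl h0

/-- Möbius maps -/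
noncomputable def mob (a b c e z : ℝ) : ℝ := (a * z + b) / (c * z + e)

theorem mob_sub {a b c e z w : ℝ} (hz : c * z + e ≠ 0) (hw : c * w + e ≠ 0) :
    mob a b c e z - mob a b c e w = (a * e - b * c) * (z - w) / ((c * z + e) * (c * w + e)) := by
  unfold mob
  rw [div_sub_div _ _ hz hw]
  congr 1
  ring

/-- A three point property. -/
def Sep (K : ℝ) (X : (ℕ → Bool) → ℝ) : Prop :=
  ∀ (j l : ℕ) (a b c : ℕ → Bool), Agr j a b → Agr j a c → ¬ Agr (j + l) a b →
    |X c - X a| ≤ K * 9 ^ l * |X a - X b|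

theorem mob_den_pos {c e : ℝ} (hc : 0 ≤ c) (he : 0 ≤ e) (hce : 0 < c + e) (s : ℕ → Bool) :
    0 < c * eta s + e := by
  have h := eta_ge s
  rcases hc.lt_or_eq with h1 | h1
  · have := mul_pos h1 (eta_pos s); linarith
  · rw [← h1] at hce ⊢; linarith

theorem mob_den_le {c e : ℝ} (hc : 0 ≤ c) (he : 0 ≤ e) (s t : ℕ → Bool) :
    c * eta s + e ≤ 9 / 4 * (c * eta t + e) := by
  have h1 := eta_le s
  have h2 := eta_ge t
  nlinarith

theorem mob_sep_aux (j : ℕ) : ∀ (l : ℕ) (a b c e : ℝ), 0 ≤ c → 0 ≤ e → 0 < c + e →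
    ∀ (s t u : ℕ → Bool), Agr j s t → Agr j s u → ¬ Agr (j + l) s t →
    |mob a b c e (eta u) - mob a b c e (eta s)| ≤
      9 * 9 ^ l * |mob a b c e (eta s) - mob a b c e (eta t)| := by
  induction j with
  | zero =>
    intro l a b c e hc he hce s t u _ _ hst
    rw [zero_add] at hst
    have hs := mob_den_pos hc he hce s
    have ht := mob_den_pos hc he hce t
    have hu := mob_den_pos hc he hce u
    rw [mob_sub hu.ne' hs.ne', mob_sub hs.ne' ht.ne', abs_div, abs_div, abs_mul (a * e - b * c),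
      abs_mul (a * e - b * c), abs_of_pos (mul_pos hu hs), abs_of_pos (mul_pos hs ht)]
    have h1 := eta_sep l s t hst
    have h2 : |eta u - eta s| ≤ 2 := by
      have := eta_close 0 u s (fun i hi => by omega)
      simpa using this
    have h3 := mob_den_le hc he t u
    obtain ⟨D, hD⟩ : ∃ D, D = |a * e - b * c| := ⟨_, rfl⟩
    have hD0 : 0 ≤ D := by rw [hD]; exact abs_nonneg _
    rw [← hD]
    have h9 : (0 : ℝ) < 9 ^ l := by positivity
    have h4 : (1 : ℝ) ≤ 9 ^ l * (2 * |eta s - eta t|) := by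
      have : (1 / 9 : ℝ) ^ l = 1 / 9 ^ l := by rw [one_div_pow]
      rw [this] at h1
      have h5 : 9 ^ l * (1 / 2 * (1 / 9 ^ l)) ≤ 9 ^ l * |eta s - eta t| :=
        mul_le_mul_of_nonneg_left h1 h9.le
      have h6 : (9 : ℝ) ^ l * (1 / 2 * (1 / 9 ^ l)) = 1 / 2 := by field_simp
      linarith
    obtain ⟨S, hS⟩ : ∃ S, S = c * eta s + e := ⟨_, rfl⟩
    obtain ⟨T, hT⟩ : ∃ T, T = c * eta t + e := ⟨_, rfl⟩
    obtain ⟨U, hU⟩ : ∃ U, U = c * eta u + e := ⟨_, rfl⟩
    rw [← hS] at hs
    rw [← hT] at ht h3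
    rw [← hU] at hu h3
    rw [← hS, ← hT, ← hU, div_le_iff₀ (mul_pos hu hs)]
    have h7 : 9 * 9 ^ l * (D * |eta s - eta t| / (S * T)) * (U * S) =
        D * (9 ^ l * (2 * |eta s - eta t|)) * (9 / 2 * (U / T)) := by
      have hs' := hs.ne'
      have ht' := ht.ne'
      field_simp
    rw [h7]
    have h8 : 2 ≤ 9 / 2 * (U / T) := by
      have : 4 / 9 ≤ U / T := by
        rw [le_div_iff₀ ht]; linarith
      linarith
    calc D * |eta u - eta s| ≤ D * 1 * 2 := by nlinarith
      _ ≤ _ := by
        apply mul_le_mul _ h8 (by norm_num) (by positivity)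
        exact mul_le_mul_of_nonneg_left h4 hD0
  | succ j ih =>
    intro l a b c e hc he hce s t u hst hsu hn
    have key : ∀ v : ℕ → Bool, v 0 = s 0 → mob a b c e (eta v) =
        mob (a * dg (s 0) + b) a (c * dg (s 0) + e) c (eta (stail v)) := by
      intro v hv
      have hv0 := (eta_pos (stail v)).ne'
      unfold mob
      rw [eta_rec v, hv]
      have e1 : a * (dg (s 0) + 1 / eta (stail v)) + b =
          ((a * dg (s 0) + b) * eta (stail v) + a) / eta (stail v) := by
        field_simp; ring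
      have e2 : c * (dg (s 0) + 1 / eta (stail v)) + e =
          ((c * dg (s 0) + e) * eta (stail v) + c) / eta (stail v) := by
        field_simp; ring
      rw [e1, e2, div_div_div_cancel_right₀ hv0]
    rw [key u (hsu 0 (by omega)).symm, key s rfl, key t (hst 0 (by omega)).symm]
    have hd := dg_ge (s 0)
    apply ih l _ _ _ _ (by positivity) hc
    · rcases hc.lt_or_eq with h1 | h1
      · have : 0 < c * dg (s 0) := by positivity
        linarith
      · rw [← h1] at hce ⊢; linarith
    · exact hst.tail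
    · exact hsu.tail
    · intro h
      apply hn
      have e : j + 1 + l = j + l + 1 := by ring
      rw [e]
      exact Agr.of_tail (hst 0 (by omega)) h

theorem mob_Sep (a b c e : ℝ) (hc : 0 ≤ c) (he : 0 ≤ e) (hce : 0 < c + e) :
    Sep 9 (fun s => mob a b c e (eta s)) :=
  fun j l s t u h1 h2 h3 => mob_sep_aux j l a b c e hc he hce s t u h1 h2 h3

end Pool.Agent.W72
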