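import Mathlib
import Pool.Agent.W72.BaA

set_option autoImplicit false

namespace Pool.Agent.W72

open MeasureTheory Set

/-! ## The coin tossing measure -/

noncomputable def coin : Measure Bool := (PMF.uniformOfFintype Bool).toMeasure

instance : IsProbabilityMeasure coin := by unfold coin; infer_instance

theorem coin_singleton (b : Bool) : coin {b} = 2⁻¹ := by
  unfold coin
  rw [PMF.toMeasure_apply_singleton _ _ (measurableSet_singleton b)]
  simp

noncomputable def bet : Measure (ℕ → Bool) := Measure.infinitePi (fun _ => coin)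

instance : IsProbabilityMeasure bet := by unfold bet; infer_instance

/-- cylinders -/
def cyl (j : ℕ) (s : ℕ → Bool) : Set (ℕ → Bool) := {t | Agr j s t}

theorem mem_cyl_self (j : ℕ) (s : ℕ → Bool) : s ∈ cyl j s := Agr.refl j s

theorem cyl_eq_pi (j : ℕ) (s : ℕ → Bool) :
    cyl j s = Set.pi (Finset.range j : Set ℕ) (fun i => {s i}) := by
  ext t
  simp only [cyl, Agr, Set.mem_ofPred_eq, Set.mem_pi, Finset.coe_range, Set.mem_Iio,
    Set.mem_singleton_iff]
  exact ⟨fun h i hi => (h i hi).symm, fun h i hi => (h i hi).symm⟩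

theorem bet_cyl (j : ℕ) (s : ℕ → Bool) : bet (cyl j s) = (2⁻¹ : ENNReal) ^ j := by
  rw [cyl_eq_pi]
  unfold bet
  rw [Measure.infinitePi_pi _ (fun i _ => measurableSet_singleton _)]
  simp [coin_singleton]

theorem isOpen_cyl (j : ℕ) (s : ℕ → Bool) : IsOpen (cyl j s) := by
  rw [cyl_eq_pi]
  exact isOpen_set_pi (Finset.finite_toSet _) (fun i _ => isOpen_discrete _)

theorem cyl_mem_nhds (j : ℕ) (s : ℕ → Bool) : cyl j s ∈ nhds s :=
  (isOpen_cyl j s).mem_nhds (mem_cyl_self j s)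

theorem cyl_eq_of_mem {j : ℕ} {s t : ℕ → Bool} (h : t ∈ cyl j s) : cyl j t = cyl j s := by
  ext u
  exact ⟨fun hu => Agr.trans h hu, fun hu => Agr.trans (Agr.symm h) hu⟩

theorem cyl_anti {j k : ℕ} (hjk : j ≤ k) (s : ℕ → Bool) : cyl k s ⊆ cyl j s :=
  fun _ ht => Agr.mono ht hjk

/-- cylinders form a neighbourhood basis -/
theorem exists_cyl_sub {U : Set (ℕ → Bool)} (hU : IsOpen U) {s : ℕ → Bool} (hs : s ∈ U) :
    ∃ j, cyl j s ⊆ U := by
  obtain ⟨I, u, hu, hsub⟩ := isOpen_pi_iff.mp hU s hs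
  obtain ⟨N, hN⟩ : ∃ N, ∀ i ∈ I, i < N := by
    refine ⟨I.sup id + 1, fun i hi => ?_⟩
    have := Finset.le_sup (f := id) hi
    simp only [id] at this
    omega
  refine ⟨N, fun t ht => hsub ?_⟩
  intro i hi
  have : t i = s i := (ht i (hN i hi)).symm
  rw [this]
  exact (hu i hi).2

theorem eta_continuous : Continuous eta := by
  rw [continuous_iff_continuousAt]
  intro s
  rw [Metric.continuousAt_iff']
  intro ε hε
  have hlim : Filter.Tendsto (fun j : ℕ => 2 * (9 / 16 : ℝ) ^ j) Filter.atTop (nhds (2 * 0)) :=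
    (tendsto_pow_atTop_nhds_zero_of_lt_one (by norm_num) (by norm_num)).const_mul 2
  rw [mul_zero] at hlim
  obtain ⟨j, hj⟩ := (hlim.eventually_lt_const hε).exists
  filter_upwards [cyl_mem_nhds j s] with t ht
  rw [Real.dist_eq]
  exact lt_of_le_of_lt (eta_close j t s (Agr.symm ht)) hj

/-! ## Lagrange interpolation -/

open Polynomial in
theorem lag_bound {d : ℕ} {f : ℝ[X]} (hf : f.natDegree ≤ d) {s : Finset ℝ}
    (hs : s.card = d + 1) {z R e : ℝ} (he : 0 ≤ e)
    (hsep : ∀ a ∈ s, ∀ b ∈ s, a ≠ b → |z - b| ≤ R * |a - b|) (hv : ∀ a ∈ s, |f.eval a| ≤ e) :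
    |f.eval z| ≤ (d + 1) * (e * R ^ d) := by
  have hdeg : f.degree < s.card := by
    rw [hs]
    refine lt_of_le_of_lt Polynomial.degree_le_natDegree ?_
    exact_mod_cast Nat.lt_succ_of_le hf
  have h1 := Lagrange.eq_interpolate (v := id) (s := s) (f := f) (by simp) hdeg
  have h2 : f.eval z = ∑ i ∈ s, f.eval i * ∏ j ∈ s.erase i, ((i - j)⁻¹ * (z - j)) := by
    conv_lhs => rw [h1]
    simp only [Lagrange.interpolate_apply, eval_finsetSum, eval_mul, eval_C, Lagrange.basis,
      eval_prod, Lagrange.basisDivisor, eval_sub, eval_X, id]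
  have h3 : ∀ i ∈ s, |f.eval i * ∏ j ∈ s.erase i, ((i - j)⁻¹ * (z - j))| ≤ e * R ^ d := by
    intro i hi
    rw [abs_mul]
    have h4 : |∏ j ∈ s.erase i, ((i - j)⁻¹ * (z - j))| ≤ R ^ d := by
      rw [Finset.abs_prod]
      have h5 : (s.erase i).card = d := by rw [Finset.card_erase_of_mem hi, hs]; rfl
      rw [← h5, ← Finset.prod_const]
      refine Finset.prod_le_prod (fun j _ => abs_nonneg _) ?_
      intro j hj
      have hj' := Finset.mem_erase.1 hj
      have hpos : 0 < |i - j| := abs_pos.mpr (sub_ne_zero.mpr hj'.1.symm)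
      rw [abs_mul, abs_inv, inv_mul_le_iff₀ hpos, mul_comm]
      exact hsep i hi j hj'.2 hj'.1.symm
    calc |f.eval i| * |∏ j ∈ s.erase i, ((i - j)⁻¹ * (z - j))|
        ≤ e * R ^ d := mul_le_mul (hv i hi) h4 (abs_nonneg _) he
      _ = _ := rfl
  rw [h2]
  calc |∑ i ∈ s, f.eval i * ∏ j ∈ s.erase i, ((i - j)⁻¹ * (z - j))|
      ≤ ∑ i ∈ s, |f.eval i * ∏ j ∈ s.erase i, ((i - j)⁻¹ * (z - j))| :=
        Finset.abs_sum_le_sum_abs _ _
    _ ≤ ∑ i ∈ s, (e * R ^ d) := Finset.sum_le_sum h3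
    _ = (d + 1) * (e * R ^ d) := by
      rw [Finset.sum_const, hs, nsmul_eq_mul]; push_cast; ring

/-! ## Sublevel sets -/

open Classical in
open Polynomial in
theorem good_one {X : (ℕ → Bool) → ℝ} {K : ℝ} (hX : Sep K X) (hinj : Function.Injective X)
    {d : ℕ} {f : ℝ[X]} (hf : f.natDegree ≤ d) (j l : ℕ) (c : ℕ → Bool) {e M : ℝ} (he : 0 ≤ e)
    (hM : M ≤ |f.eval (X c)|) (heM : (d + 1) * (e * (K * 9 ^ l) ^ d) < M) :
    bet {a ∈ cyl j c | |f.eval (X a)| < e} ≤ (d : ENNReal) * (2⁻¹ : ENNReal) ^ (j + l) := by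
  set A : Set (ℕ → Bool) := {a ∈ cyl j c | |f.eval (X a)| < e} with hA
  let res : (ℕ → Bool) → (Fin (j + l) → Bool) := fun a i => a i
  have hres : ∀ a b, res a = res b ↔ Agr (j + l) a b := by
    intro a b
    constructor
    · intro h i hi
      exact congrFun h ⟨i, hi⟩
    · intro h
      funext i
      exact h i i.2
  set T : Finset (Fin (j + l) → Bool) := Finset.univ.filter (fun w => ∃ a ∈ A, res a = w) with hT
  have hTex : ∀ w ∈ T, ∃ a ∈ A, res a = w := fun w hw => (Finset.mem_filter.mp hw).2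
  have hcard : T.card ≤ d := by
    by_contra hc
    push Not at hc
    obtain ⟨T', hT', hcT'⟩ := Finset.exists_subset_card_eq (show d + 1 ≤ T.card by omega)
    have hTex' : ∀ w : Fin (j + l) → Bool, ∃ a, w ∈ T' → (a ∈ A ∧ res a = w) := by
      intro w
      by_cases hw : w ∈ T'
      · obtain ⟨a, ha, ha'⟩ := hTex w (hT' hw)
        exact ⟨a, fun _ => ⟨ha, ha'⟩⟩
      · exact ⟨c, fun h => absurd h hw⟩
    choose g hg using hTex'
    have hginj : Set.InjOn (fun w => X (g w)) (T' : Set (Fin (j + l) → Bool)) := by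
      intro w hw w' hw' h
      have h1 := hinj h
      rw [← (hg w hw).2, ← (hg w' hw').2, h1]
    have h1 := lag_bound hf (s := T'.image (fun w => X (g w)))
      (by rw [Finset.card_image_of_injOn hginj, hcT']) (z := X c) (R := K * 9 ^ l) he ?_ ?_
    · linarith
    · intro a ha b hb hab
      obtain ⟨w, hw, rfl⟩ := Finset.mem_image.mp ha
      obtain ⟨w', hw', rfl⟩ := Finset.mem_image.mp hb
      have hne : w ≠ w' := fun h => hab (by rw [h])
      have h3 : ¬ Agr (j + l) (g w') (g w) := by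
        rw [← hres, (hg w hw).2, (hg w' hw').2]
        exact hne.symm
      have h4 := hX j l (g w') (g w) c
        (Agr.trans (Agr.symm (hg w' hw').1.1) (hg w hw).1.1) (Agr.symm (hg w' hw').1.1) h3
      rwa [abs_sub_comm (X (g w')) (X (g w))] at h4
    · intro a ha
      obtain ⟨w, hw, rfl⟩ := Finset.mem_image.mp ha
      exact (hg w hw).1.2.le
  have hcov : A ⊆ ⋃ w ∈ T, {a | res a = w} := by
    intro a ha
    simp only [mem_iUnion]
    exact ⟨res a, Finset.mem_filter.mpr ⟨Finset.mem_univ _, a, ha, rfl⟩, rfl⟩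
  calc bet A ≤ bet (⋃ w ∈ T, {a | res a = w}) := measure_mono hcov
    _ ≤ ∑ w ∈ T, bet {a | res a = w} := measure_biUnion_finset_le _ _
    _ ≤ ∑ w ∈ T, (2⁻¹ : ENNReal) ^ (j + l) := by
        refine Finset.sum_le_sum fun w hw => ?_
        obtain ⟨a, _, ha'⟩ := hTex w hw
        have : {b | res b = w} = cyl (j + l) a := by
          ext b
          simp only [Set.mem_ofPred_eq, cyl]
          rw [← ha', hres]
          exact ⟨Agr.symm, Agr.symm⟩
        rw [this, bet_cyl]
    _ = (T.card : ENNReal) * (2⁻¹ : ENNReal) ^ (j + l) := by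
        rw [Finset.sum_const, nsmul_eq_mul]
    _ ≤ _ := by
        gcongr

abbrev Om := (ℕ → Bool) × (ℕ → Bool)

noncomputable def mu : Measure Om := bet.prod bet

instance : IsProbabilityMeasure mu := by unfold mu; infer_instance

def Cell (j : ℕ) (w : Om) : Set Om := cyl j w.1 ×ˢ cyl j w.2

theorem mu_Cell (j : ℕ) (w : Om) : mu (Cell j w) = (2⁻¹ : ENNReal) ^ j * (2⁻¹ : ENNReal) ^ j := by
  unfold mu Cell
  rw [Measure.prod_prod, bet_cyl, bet_cyl]

theorem mem_Cell_self (j : ℕ) (w : Om) : w ∈ Cell j w := ⟨mem_cyl_self _ _, mem_cyl_self _ _⟩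

theorem isOpen_Cell (j : ℕ) (w : Om) : IsOpen (Cell j w) := (isOpen_cyl _ _).prod (isOpen_cyl _ _)

theorem Cell_eq_of_mem {j : ℕ} {v w : Om} (h : v ∈ Cell j w) : Cell j v = Cell j w := by
  unfold Cell
  rw [cyl_eq_of_mem h.1, cyl_eq_of_mem h.2]

theorem Cell_anti {j k : ℕ} (hjk : j ≤ k) (w : Om) : Cell k w ⊆ Cell j w :=
  Set.prod_mono (cyl_anti hjk _) (cyl_anti hjk _)

theorem exists_Cell_sub {U : Set Om} (hU : IsOpen U) {w : Om} (hw : w ∈ U) :
    ∃ j, Cell j w ⊆ U := by
  obtain ⟨u, v, hu, hv, hwu, hwv, hsub⟩ := isOpen_prod_iff.mp hU w.1 w.2 hw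
  obtain ⟨j, hj⟩ := exists_cyl_sub hu hwu
  obtain ⟨k, hk⟩ := exists_cyl_sub hv hwv
  refine ⟨max j k, fun z hz => hsub ⟨hj (cyl_anti (le_max_left _ _) _ hz.1),
    hk (cyl_anti (le_max_right _ _) _ hz.2)⟩⟩

open Classical in
open Polynomial in
theorem good_two {X Y : (ℕ → Bool) → ℝ} {K : ℝ} (hX : Sep K X) (hXi : Function.Injective X)
    (hY : Sep K Y) (hYi : Function.Injective Y) {d : ℕ} {F : Om → ℝ} (hF : Continuous F)
    (h1 : ∀ t, ∃ f : ℝ[X], f.natDegree ≤ d ∧ ∀ s, F (s, t) = f.eval (Y s))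
    (h2 : ∀ s, ∃ f : ℝ[X], f.natDegree ≤ d ∧ ∀ t, F (s, t) = f.eval (X t))
    (j l : ℕ) (w0 w1 : Om) (hw : w1 ∈ Cell j w0) (hF1 : 1 ≤ |F w1|) {e : ℝ} (he : 0 < e)
    (heM : (d + 1) * (e * (K * 9 ^ l) ^ d) < 1) :
    mu {w ∈ Cell j w0 | |F w| < e ^ 2} ≤
      2 * ((d : ENNReal) * (2⁻¹ : ENNReal) ^ l) * mu (Cell j w0) := by
  have hcell : Cell j w0 = Cell j w1 := (Cell_eq_of_mem hw).symm
  rw [hcell]
  obtain ⟨s1, t1⟩ := w1
  set G : Set Om := {w ∈ Cell j (s1, t1) | |F w| < e ^ 2} with hG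
  have hGopen : IsOpen G := (isOpen_Cell _ _).inter (isOpen_lt (hF.abs) continuous_const)
  have hGm : MeasurableSet G := hGopen.measurableSet
  set A1 : Set (ℕ → Bool) := {s ∈ cyl j s1 | |F (s, t1)| < e} with hA1
  have hA1open : IsOpen A1 := (isOpen_cyl _ _).inter
    (isOpen_lt ((hF.comp (continuous_id.prodMk continuous_const)).abs) continuous_const)
  have hA1m := hA1open.measurableSet
  have hA1b : bet A1 ≤ (d : ENNReal) * (2⁻¹ : ENNReal) ^ (j + l) := by
    obtain ⟨f, hf, hff⟩ := h1 t1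
    have := good_one hY hYi hf j l s1 he.le (M := 1) (by rw [← hff]; exact hF1) heM
    refine le_trans (measure_mono ?_) this
    rintro s ⟨hs1, hs2⟩
    exact ⟨hs1, by rw [← hff]; exact hs2⟩
  have hcylm : MeasurableSet (cyl j s1) := (isOpen_cyl j s1).measurableSet
  have hsec : ∀ s, bet (Prod.mk s ⁻¹' G) ≤ A1.indicator (fun _ => (2⁻¹ : ENNReal) ^ j) s +
      (cyl j s1).indicator (fun _ => (d : ENNReal) * (2⁻¹ : ENNReal) ^ (j + l)) s := by
    intro s
    by_cases hs : s ∈ cyl j s1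
    · by_cases hsA : s ∈ A1
      · rw [Set.indicator_of_mem hsA]
        refine le_trans ?_ (le_add_right le_rfl)
        rw [← bet_cyl j t1]
        exact measure_mono fun t ht => ht.1.2
      · rw [Set.indicator_of_notMem hsA, Set.indicator_of_mem hs, zero_add]
        have h3 : e ≤ |F (s, t1)| := by
          by_contra hc
          exact hsA ⟨hs, not_le.mp hc⟩
        obtain ⟨f, hf, hff⟩ := h2 s
        have h4 := good_one hX hXi hf j l t1 (e := e ^ 2) (M := e) (by positivity)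
          (by rw [← hff]; exact h3) (by
            have : (d + 1) * (e ^ 2 * (K * 9 ^ l) ^ d) = e * ((d + 1) * (e * (K * 9 ^ l) ^ d)) := by
              ring
            rw [this]
            calc e * ((d + 1) * (e * (K * 9 ^ l) ^ d)) < e * 1 := by gcongr
              _ = e := mul_one e)
        refine le_trans (measure_mono ?_) h4
        intro t ht
        exact ⟨ht.1.2, by rw [← hff]; exact ht.2⟩
    · have : Prod.mk s ⁻¹' G = ∅ := by
        rw [Set.eq_empty_iff_forall_notMem]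
        intro t ht
        exact hs ht.1.1
      rw [this, measure_empty]
      exact zero_le
  have hmu : mu G = ∫⁻ s, bet (Prod.mk s ⁻¹' G) ∂bet := by
    unfold mu
    exact Measure.prod_apply hGm
  rw [hmu]
  calc ∫⁻ s, bet (Prod.mk s ⁻¹' G) ∂bet ≤ ∫⁻ s, (A1.indicator (fun _ => (2⁻¹ : ENNReal) ^ j) s +
      (cyl j s1).indicator (fun _ => (d : ENNReal) * (2⁻¹ : ENNReal) ^ (j + l)) s) ∂bet :=
        lintegral_mono hsec
    _ = (2⁻¹ : ENNReal) ^ j * bet A1 +
        ((d : ENNReal) * (2⁻¹ : ENNReal) ^ (j + l)) * bet (cyl j s1) := by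
        rw [lintegral_add_left (measurable_const.indicator hA1m),
          lintegral_indicator_const hA1m, lintegral_indicator_const hcylm]
    _ ≤ (2⁻¹ : ENNReal) ^ j * ((d : ENNReal) * (2⁻¹ : ENNReal) ^ (j + l)) +
        ((d : ENNReal) * (2⁻¹ : ENNReal) ^ (j + l)) * (2⁻¹ : ENNReal) ^ j := by
        rw [bet_cyl]
        gcongr
    _ = 2 * ((d : ENNReal) * (2⁻¹ : ENNReal) ^ l) * mu (Cell j (s1, t1)) := by
        rw [mu_Cell, pow_add]
        ring

/-! ## Abstract nondivergence on the product tree -/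

section poset

variable {P : Type*} [PartialOrder P] (ψ : P → Om → ℝ) (ε : ℝ)

/-- marked points -/
def MarkedT (S : Set P) (y : Om) : Prop :=
  ∃ F : Finset P, (F : Set P) ⊆ S ∧ IsChain (· ≤ ·) (F : Set P) ∧
    (∀ s ∈ F, ε ≤ ψ s y ∧ ψ s y ≤ 1) ∧
    ∀ s ∈ S, s ∉ F → (∀ f ∈ F, s ≤ f ∨ f ≤ s) → 1 ≤ ψ s y

/-- the constants -/
noncomputable def kapT : ℕ → ENNReal
  | 0 => 0
  | m + 1 => 4 * (kapT m + 1)

open Classical in
theorem nondivT {g : ENNReal} (hcont : ∀ s, Continuous (ψ s))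
    (hgood : ∀ s j w, (∃ y ∈ Cell j w, 1 ≤ ψ s y) →
      mu {z ∈ Cell j w | ψ s z < ε} ≤ g * mu (Cell j w)) :
    ∀ (m : ℕ) (S : Set P),
      (∀ F : Finset P, (F : Set P) ⊆ S → IsChain (· ≤ ·) (F : Set P) → F.card ≤ m) →
      ∀ (j : ℕ) (w : Om), (∀ s ∈ S, ∃ y ∈ Cell j w, 1 ≤ ψ s y) →
        mu {x ∈ Cell j w | ¬ MarkedT ψ ε S x} ≤ kapT m * g * mu (Cell j w) := by
  intro m
  induction m with
  | zero =>
    intro S hS j w _
    have hemp : {x ∈ Cell j w | ¬ MarkedT ψ ε S x} = ∅ := by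
      rw [Set.eq_empty_iff_forall_notMem]
      rintro x ⟨_, hx⟩
      apply hx
      refine ⟨∅, by simp, by simp, by simp, ?_⟩
      intro s hs
      exfalso
      have := hS {s} (by simpa using hs) (by simp)
      simp at this
    rw [hemp]
    simp
  | succ m ih =>
    intro S hS j w hA2
    set E := {x ∈ Cell j w | ¬ MarkedT ψ ε S x} with hE
    -- choice of the cell
    have hex : ∀ x ∈ E, ∃ i, ∃ s ∈ S, ∀ z ∈ Cell i x, ψ s z < 1 := by
      rintro x ⟨hxb, hx⟩
      have h0 : ∃ s ∈ S, ψ s x < 1 := by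
        by_contra! hc
        apply hx
        refine ⟨∅, by simp, by simp, by simp, ?_⟩
        intro s hs _ _
        exact hc s hs
      obtain ⟨s, hs, hsx⟩ := h0
      have hopen : IsOpen {z | ψ s z < 1} := isOpen_lt (hcont s) continuous_const
      obtain ⟨i, hi⟩ := exists_Cell_sub hopen hsx
      exact ⟨i, s, hs, fun z hz => hi hz⟩
    have hsel : ∀ x : Om, ∃ i, x ∈ E → (∃ s ∈ S, ∀ z ∈ Cell i x, ψ s z < 1) ∧
        ∀ i' < i, ¬ ∃ s ∈ S, ∀ z ∈ Cell i' x, ψ s z < 1 := by
      intro x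
      by_cases hx : x ∈ E
      · refine ⟨Nat.find (hex x hx), fun _ => ⟨Nat.find_spec (hex x hx), fun i' hi' => ?_⟩⟩
        exact Nat.find_min (hex x hx) hi'
      · exact ⟨0, fun h => absurd h hx⟩
    choose i hi using hsel
    have hij : ∀ x ∈ E, j < i x := by
      intro x hx
      by_contra hc
      push Not at hc
      obtain ⟨s, hs, hlt⟩ := (hi x hx).1
      obtain ⟨y, hy, hy1⟩ := hA2 s hs
      have : y ∈ Cell (i x) x := by
        apply Cell_anti hc x
        rwa [Cell_eq_of_mem hx.1]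
      exact absurd hy1 (not_le.mpr (hlt y this))
    -- local estimate
    have hloc : ∀ x ∈ E, mu (E ∩ Cell (i x) x) ≤ 4 * (kapT m + 1) * g * mu (Cell (i x) x) := by
      intro x hx
      obtain ⟨s0, hs0, hlt⟩ := (hi x hx).1
      have hlast := (hi x hx).2 (i x - 1) (by have := hij x hx; omega)
      push Not at hlast
      set S'' : Set P := {t ∈ S | t ≠ s0 ∧ (t ≤ s0 ∨ s0 ≤ t)} with hS''
      have hchain : ∀ F : Finset P, (F : Set P) ⊆ S'' → IsChain (· ≤ ·) (F : Set P) →
          F.card ≤ m := by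
        intro F hF hch
        have hnot : s0 ∉ F := fun hh => (hF hh).2.1 rfl
        have h1 := hS (insert s0 F) (by
          rw [Finset.coe_insert]
          exact Set.insert_subset hs0 fun t ht => (hF ht).1) (by
          rw [Finset.coe_insert]
          refine hch.insert ?_
          intro b hb _
          exact (hF hb).2.2.symm)
        rw [Finset.card_insert_of_notMem hnot] at h1
        omega
      have h1 := ih S'' hchain (i x - 1) x (fun t ht => hlast t ht.1)
      have h2 := hgood s0 (i x - 1) x (hlast s0 hs0)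
      have hsub : E ∩ Cell (i x) x ⊆ {y ∈ Cell (i x - 1) x | ¬ MarkedT ψ ε S'' y} ∪
          {z ∈ Cell (i x - 1) x | ψ s0 z < ε} := by
        rintro y ⟨hyE, hyb⟩
        have hyb2 : y ∈ Cell (i x - 1) x := Cell_anti (by omega) x hyb
        by_cases hlt2 : ψ s0 y < ε
        · exact Or.inr ⟨hyb2, hlt2⟩
        · left
          refine ⟨hyb2, ?_⟩
          rintro ⟨F, hF, hch, hM, hM3⟩
          apply hyE.2
          refine ⟨insert s0 F, ?_, ?_, ?_, ?_⟩
          · rw [Finset.coe_insert]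
            exact Set.insert_subset hs0 fun t ht => (hF ht).1
          · rw [Finset.coe_insert]
            refine hch.insert ?_
            intro b hb _
            exact (hF hb).2.2.symm
          · intro t ht
            rcases Finset.mem_insert.1 ht with rfl | ht
            · exact ⟨not_lt.1 hlt2, (hlt y hyb).le⟩
            · exact hM t ht
          · intro t ht htF hcomp
            rw [Finset.mem_insert, not_or] at htF
            refine hM3 t ⟨ht, htF.1, ?_⟩ htF.2 ?_
            · exact hcomp s0 (Finset.mem_insert_self _ _)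
            · intro f hf
              exact hcomp f (Finset.mem_insert_of_mem hf)
      have hmeas : mu (Cell (i x - 1) x) = 4 * mu (Cell (i x) x) := by
        obtain ⟨r, hr⟩ : ∃ r, i x = r + 1 := ⟨i x - 1, by have := hij x hx; omega⟩
        rw [hr, Nat.add_sub_cancel, mu_Cell, mu_Cell, pow_succ]
        have h22 : (2 : ENNReal) * 2⁻¹ = 1 :=
          ENNReal.mul_inv_cancel (by norm_num) (by norm_num)
        have : (4 : ENNReal) = 2 * 2 := by norm_num
        rw [this]
        calc (2⁻¹ : ENNReal) ^ r * 2⁻¹ ^ r = (2⁻¹ ^ r * 2⁻¹ ^ r) * (2 * 2⁻¹) * (2 * 2⁻¹) := by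
              rw [h22, mul_one, mul_one]
          _ = _ := by ring
      calc mu (E ∩ Cell (i x) x) ≤ mu ({y ∈ Cell (i x - 1) x | ¬ MarkedT ψ ε S'' y} ∪
          {z ∈ Cell (i x - 1) x | ψ s0 z < ε}) := measure_mono hsub
        _ ≤ mu {y ∈ Cell (i x - 1) x | ¬ MarkedT ψ ε S'' y} +
          mu {z ∈ Cell (i x - 1) x | ψ s0 z < ε} := measure_union_le _ _
        _ ≤ kapT m * g * mu (Cell (i x - 1) x) + g * mu (Cell (i x - 1) x) := add_le_add h1 h2
        _ = 4 * (kapT m + 1) * g * mu (Cell (i x) x) := by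
          rw [hmeas]; ring
    -- covering by disjoint cells
    set 𝒞 : Set (Set Om) := (fun x => Cell (i x) x) '' E with h𝒞
    have hdisj : 𝒞.PairwiseDisjoint id := by
      rintro _ ⟨x, hx, rfl⟩ _ ⟨y, hy, rfl⟩ hne
      simp only [Function.onFun, id]
      by_contra hnd
      rw [Set.not_disjoint_iff] at hnd
      obtain ⟨z, hzx, hzy⟩ := hnd
      apply hne
      wlog hle : i x ≤ i y generalizing x y
      · exact (this y hy x hx (Ne.symm hne) hzy hzx (by omega)).symm
      have e1 : Cell (i x) x = Cell (i x) y := by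
        rw [← Cell_eq_of_mem hzx, ← Cell_eq_of_mem (Cell_anti hle y hzy)]
      have e2 : i y ≤ i x := by
        by_contra hc
        push Not at hc
        apply (hi y hy).2 (i x) hc
        rw [← e1]
        exact (hi x hx).1
      have e3 : i x = i y := le_antisymm hle e2
      change Cell (i x) x = Cell (i y) y
      rw [e1, e3]
    have hopen : ∀ C ∈ 𝒞, IsOpen (id C) := by
      rintro _ ⟨x, hx, rfl⟩
      exact isOpen_Cell _ _
    have hne : ∀ C ∈ 𝒞, (id C).Nonempty := by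
      rintro _ ⟨x, hx, rfl⟩
      exact ⟨x, mem_Cell_self _ _⟩
    have hcount : 𝒞.Countable := hdisj.countable_of_isOpen hopen hne
    have hcover : E ⊆ ⋃ C ∈ 𝒞, E ∩ C := by
      intro x hx
      simp only [mem_iUnion]
      exact ⟨Cell (i x) x, ⟨x, hx, rfl⟩, hx, mem_Cell_self _ _⟩
    calc mu E ≤ mu (⋃ C ∈ 𝒞, E ∩ C) := measure_mono hcover
      _ ≤ ∑' C : 𝒞, mu (E ∩ (C : Set Om)) := measure_biUnion_le _ hcount _
      _ ≤ ∑' C : 𝒞, (4 * (kapT m + 1) * g) * mu (C : Set Om) := by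
        refine ENNReal.tsum_le_tsum fun C => ?_
        obtain ⟨x, hx, hxC⟩ := C.2
        rw [← hxC]
        exact hloc x hx
      _ = (4 * (kapT m + 1) * g) * ∑' C : 𝒞, mu (C : Set Om) := ENNReal.tsum_mul_left
      _ = (4 * (kapT m + 1) * g) * mu (⋃ C ∈ 𝒞, C) := by
        have h5 := measure_biUnion (μ := mu) hcount hdisj
          (fun C hC => (hopen C hC).measurableSet)
        simp only [id] at h5
        rw [h5]
      _ ≤ (4 * (kapT m + 1) * g) * mu (Cell j w) := by
        gcongr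
        intro z hz
        simp only [mem_iUnion] at hz
        obtain ⟨C, ⟨x, hx, rfl⟩, hz⟩ := hz
        rw [← Cell_eq_of_mem hx.1]
        exact Cell_anti (hij x hx).le x hz
      _ = _ := by simp only [kapT]

end poset

end Pool.Agent.W72
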