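import Mathlib
import Pool.Agent.W72.BaB
import Pool.Agent.Results.MP_c5a493_nt.UniformBound

set_option autoImplicit false

namespace Pool.Agent.W72

open MeasureTheory Set Polynomial Matrix Module
open Pool.Agent.Results.MP_c5a493_nt.UniformBound (cv cv_sum cv_inj rk tup rk_eq tup_mem tup_ind
  tup_rep tup_span exists_minor)

variable {n : ℕ}

/-- the real polynomial of an integer vector -/
noncomputable def toP (a : Fin (n + 1) → ℤ) : ℝ[X] := ∑ j : Fin (n + 1), C (a j : ℝ) * X ^ (j : ℕ)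

theorem toP_coeff (a : Fin (n + 1) → ℤ) (i : Fin (n + 1)) : (toP a).coeff i = a i := by
  unfold toP
  simp only [finsetSum_coeff, coeff_C_mul, coeff_X_pow]
  rw [Finset.sum_eq_single i]
  · simp
  · intro k _ hk
    have : ¬ ((i : ℕ) = k) := fun h => hk (Fin.ext h.symm)
    simp [this]
  · simp

theorem toP_natDegree (a : Fin (n + 1) → ℤ) : (toP a).natDegree ≤ n := by
  refine natDegree_sum_le_of_forall_le _ _ fun j _ => ?_
  refine (natDegree_C_mul_X_pow_le _ _).trans ?_
  omega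

theorem toP_sum {ι : Type*} (s : Finset ι) (m : ι → ℤ) (w : ι → Fin (n + 1) → ℤ) :
    toP (∑ l ∈ s, m l • w l) = ∑ l ∈ s, C (m l : ℝ) * toP (w l) := by
  unfold toP
  simp only [Finset.sum_apply, Pi.smul_apply, smul_eq_mul, Int.cast_sum, Int.cast_mul, map_sum,
    map_mul, Finset.sum_mul, Finset.mul_sum]
  rw [Finset.sum_comm]
  refine Finset.sum_congr rfl fun l _ => Finset.sum_congr rfl fun j _ => ?_
  ring

/-- a general bound for the degree of a determinant -/
theorem natDegree_det_le {j n : ℕ} (M : Matrix (Fin j) (Fin j) ℝ[X])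
    (h : ∀ a b, (M a b).natDegree ≤ n) : M.det.natDegree ≤ j * n := by
  rw [Matrix.det_apply]
  refine natDegree_sum_le_of_forall_le _ _ fun σ _ => ?_
  have h1 : (Equiv.Perm.sign σ • ∏ c, M (σ c) c).natDegree ≤ (∏ c, M (σ c) c).natDegree := by
    rcases Int.units_eq_one_or (Equiv.Perm.sign σ) with h | h <;> rw [h] <;> simp
  refine h1.trans ((natDegree_prod_le _ _).trans ?_)
  calc ∑ c, (M (σ c) c).natDegree ≤ ∑ _c : Fin j, n := Finset.sum_le_sum fun c _ => h _ _
    _ = j * n := by simp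

section forms

variable (A : Fin (n + 1) → ℝ) (B : ℝ)

/-- the forms -/
noncomputable def hT (y x : ℝ) (a : Fin (n + 1) → ℤ) : Option (Fin (n + 1)) → ℝ
  | none => B * (toP a).eval x
  | some i => A i * (hasseDeriv i (toP a)).eval y

/-- the forms as polynomials in `y` -/
noncomputable def pY (x : ℝ) (a : Fin (n + 1) → ℤ) : Option (Fin (n + 1)) → ℝ[X]
  | none => C (B * (toP a).eval x)
  | some i => C (A i) * hasseDeriv i (toP a)

/-- the forms as polynomials in `x` -/
noncomputable def pX (y : ℝ) (a : Fin (n + 1) → ℤ) : Option (Fin (n + 1)) → ℝ[X]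
  | none => C B * toP a
  | some i => C (A i * (hasseDeriv i (toP a)).eval y)

theorem eval_pY (y x : ℝ) (a : Fin (n + 1) → ℤ) (i : Option (Fin (n + 1))) :
    (pY A B x a i).eval y = hT A B y x a i := by
  cases i <;> simp [pY, hT]

theorem eval_pX (y x : ℝ) (a : Fin (n + 1) → ℤ) (i : Option (Fin (n + 1))) :
    (pX A B y a i).eval x = hT A B y x a i := by
  cases i <;> simp [pX, hT]

theorem natDegree_pY (x : ℝ) (a : Fin (n + 1) → ℤ) (i : Option (Fin (n + 1))) :
    (pY A B x a i).natDegree ≤ n := by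
  cases i with
  | none => simp only [pY]; rw [natDegree_C]; omega
  | some i =>
    simp only [pY]
    refine (natDegree_C_mul_le _ _).trans ?_
    exact (natDegree_hasseDeriv_le _ _).trans ((Nat.sub_le _ _).trans (toP_natDegree a))

theorem natDegree_pX (y : ℝ) (a : Fin (n + 1) → ℤ) (i : Option (Fin (n + 1))) :
    (pX A B y a i).natDegree ≤ n := by
  cases i with
  | none =>
    simp only [pX]
    exact (natDegree_C_mul_le _ _).trans (toP_natDegree a)
  | some i => simp only [pX]; rw [natDegree_C]; omega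

/-- minors -/
noncomputable def mT {j : ℕ} (w : Fin j → Fin (n + 1) → ℤ) (I : Fin j → Option (Fin (n + 1)))
    (y x : ℝ) : ℝ := (Matrix.of fun l c => hT A B y x (w l) (I c)).det

theorem mT_poly_y {j : ℕ} (hj : j ≤ n + 1) (w : Fin j → Fin (n + 1) → ℤ)
    (I : Fin j → Option (Fin (n + 1))) (x : ℝ) :
    ∃ f : ℝ[X], f.natDegree ≤ (n + 1) * n ∧ ∀ y, mT A B w I y x = f.eval y := by
  refine ⟨(Matrix.of fun l c => pY A B x (w l) (I c)).det, ?_, fun y => ?_⟩
  · refine (natDegree_det_le _ fun a b => natDegree_pY A B x _ _).trans ?_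
    exact Nat.mul_le_mul_right _ hj
  · have h := (Polynomial.evalRingHom y).map_det (Matrix.of fun l c => pY A B x (w l) (I c))
    rw [Polynomial.coe_evalRingHom] at h
    rw [h]
    unfold mT
    congr 1
    ext l c
    simp [eval_pY]

theorem mT_poly_x {j : ℕ} (hj : j ≤ n + 1) (w : Fin j → Fin (n + 1) → ℤ)
    (I : Fin j → Option (Fin (n + 1))) (y : ℝ) :
    ∃ f : ℝ[X], f.natDegree ≤ (n + 1) * n ∧ ∀ x, mT A B w I y x = f.eval x := by
  refine ⟨(Matrix.of fun l c => pX A B y (w l) (I c)).det, ?_, fun x => ?_⟩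
  · refine (natDegree_det_le _ fun a b => natDegree_pX A B y _ _).trans ?_
    exact Nat.mul_le_mul_right _ hj
  · have h := (Polynomial.evalRingHom x).map_det (Matrix.of fun l c => pX A B y (w l) (I c))
    rw [Polynomial.coe_evalRingHom] at h
    rw [h]
    unfold mT
    congr 1
    ext l c
    simp [eval_pX]

theorem mT_cont {j : ℕ} (w : Fin j → Fin (n + 1) → ℤ) (I : Fin j → Option (Fin (n + 1))) :
    Continuous fun p : ℝ × ℝ => mT A B w I p.1 p.2 := by
  unfold mT
  apply Continuous.matrix_det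
  apply continuous_matrix
  intro l c
  simp only [Matrix.of_apply]
  cases I c with
  | none =>
    simp only [hT]
    exact continuous_const.mul ((toP (w l)).continuous.comp continuous_snd)
  | some i =>
    simp only [hT]
    exact continuous_const.mul ((hasseDeriv i (toP (w l))).continuous.comp continuous_fst)

/-- covolume-like function of a tuple -/
noncomputable def PsT {j : ℕ} (w : Fin j → Fin (n + 1) → ℤ) (y x : ℝ) : ℝ :=
  ‖fun I : Fin j → Option (Fin (n + 1)) => mT A B w I y x‖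

theorem PsT_cont {j : ℕ} (w : Fin j → Fin (n + 1) → ℤ) :
    Continuous fun p : ℝ × ℝ => PsT A B w p.1 p.2 := by
  unfold PsT
  exact continuous_norm.comp (continuous_pi fun I => mT_cont A B w I)

theorem le_PsT {j : ℕ} (w : Fin j → Fin (n + 1) → ℤ) (y x : ℝ)
    (I : Fin j → Option (Fin (n + 1))) : |mT A B w I y x| ≤ PsT A B w y x :=
  norm_le_pi_norm (fun I : Fin j → Option (Fin (n + 1)) => mT A B w I y x) I

theorem PsT_le {j : ℕ} (w : Fin j → Fin (n + 1) → ℤ) (y x : ℝ) {c : ℝ} (hc : 0 ≤ c)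
    (h : ∀ I : Fin j → Option (Fin (n + 1)), |mT A B w I y x| ≤ c) : PsT A B w y x ≤ c :=
  (pi_norm_le_iff_of_nonneg hc).2 h

theorem PsT_nonneg {j : ℕ} (w : Fin j → Fin (n + 1) → ℤ) (y x : ℝ) : 0 ≤ PsT A B w y x :=
  norm_nonneg _

theorem PsT_empty {j : ℕ} (hj : j = 0) (w : Fin j → Fin (n + 1) → ℤ) (y x : ℝ) :
    PsT A B w y x ≤ 1 := by
  subst hj
  refine PsT_le A B w y x zero_le_one fun I => ?_
  unfold mT
  rw [Matrix.det_isEmpty]
  simp

theorem PsT_cons {j : ℕ} (w : Fin j → Fin (n + 1) → ℤ) (v : Fin (n + 1) → ℤ) (y x : ℝ) :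
    PsT A B (Fin.cons v w : Fin (j + 1) → Fin (n + 1) → ℤ) y x ≤
      (j + 1) * (‖hT A B y x v‖ * PsT A B w y x) := by
  refine PsT_le A B _ y x (by have := PsT_nonneg A B w y x; positivity) fun I => ?_
  unfold mT
  rw [Matrix.det_succ_row_zero]
  refine (Finset.abs_sum_le_sum_abs _ _).trans ?_
  have h : ∀ c ∈ (Finset.univ : Finset (Fin (j + 1))), |(-1) ^ (c : ℕ) * (Matrix.of fun l c => hT A B y x
      ((Fin.cons v w : Fin (j + 1) → Fin (n + 1) → ℤ) l) (I c)) 0 c *
      ((Matrix.of fun l c => hT A B y x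
      ((Fin.cons v w : Fin (j + 1) → Fin (n + 1) → ℤ) l) (I c)).submatrix Fin.succ
        c.succAbove).det| ≤ ‖hT A B y x v‖ * PsT A B w y x := by
    intro c _
    rw [abs_mul, abs_mul, abs_pow, abs_neg, abs_one, one_pow, one_mul]
    refine mul_le_mul ?_ ?_ (abs_nonneg _) (norm_nonneg _)
    · simp only [Matrix.of_apply, Fin.cons_zero]
      exact norm_le_pi_norm (hT A B y x v) (I c)
    · have := le_PsT A B w y x (fun d => I (c.succAbove d))
      unfold mT at this
      refine le_trans (le_of_eq ?_) this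
      congr 2
  refine (Finset.sum_le_sum h).trans ?_
  rw [Finset.sum_const, Finset.card_univ, Fintype.card_fin, nsmul_eq_mul]
  push_cast
  exact le_rfl

theorem hT_sum {ι : Type*} (s : Finset ι) (y x : ℝ) (m : ι → ℤ) (w : ι → Fin (n + 1) → ℤ)
    (i : Option (Fin (n + 1))) :
    hT A B y x (∑ l ∈ s, m l • w l) i = ∑ l ∈ s, (m l : ℝ) * hT A B y x (w l) i := by
  cases i with
  | none =>
    simp only [hT, toP_sum, eval_finsetSum, eval_mul, eval_C, Finset.mul_sum]
    refine Finset.sum_congr rfl fun l _ => ?_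
    ring
  | some i =>
    simp only [hT, toP_sum, map_sum, eval_finsetSum, Finset.mul_sum]
    refine Finset.sum_congr rfl fun l _ => ?_
    rw [← smul_eq_C_mul, map_smul, eval_smul, smul_eq_mul]
    ring

theorem det_coef_ne {j : ℕ} (w : Fin j → Fin (n + 1) → ℤ)
    (u : Fin j → Fin (n + 1) → ℤ) (M : Fin j → Fin j → ℤ) (hu : ∀ l, u l = ∑ m, M l m • w m)
    (hind : LinearIndependent ℚ fun l => cv (u l)) : (Matrix.of M).det ≠ 0 := by
  intro h0
  obtain ⟨c, hc, hc0⟩ := Matrix.exists_vecMul_eq_zero_iff.2 h0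
  apply hc
  have h1 : ∑ l, (c l : ℚ) • cv (u l) = 0 := by
    rw [← cv_sum]
    have : ∑ l, c l • u l = 0 := by
      have h2 : ∑ l, c l • u l = ∑ m, (∑ l, c l * M l m) • w m := by
        simp only [hu, Finset.smul_sum, Finset.sum_smul, smul_smul]
        rw [Finset.sum_comm]
      rw [h2]
      refine Finset.sum_eq_zero fun m _ => ?_
      have h3 := congrFun hc0 m
      simp only [Matrix.vecMul, dotProduct, Matrix.of_apply, Pi.zero_apply] at h3
      rw [h3, zero_smul]
    rw [this]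
    funext i
    simp [cv]
  have h2 := Fintype.linearIndependent_iff.1 hind (fun l => (c l : ℚ)) h1
  funext l
  have := h2 l
  simpa using this

theorem PsT_change {j j' : ℕ} (hj : j' = j) (w : Fin j' → Fin (n + 1) → ℤ)
    (u : Fin j → Fin (n + 1) → ℤ) (M : Fin j → Fin j' → ℤ) (hu : ∀ l, u l = ∑ m, M l m • w m)
    (hind : LinearIndependent ℚ fun l => cv (u l)) (y x : ℝ) :
    PsT A B w y x ≤ PsT A B u y x := by
  subst hj
  have hdet : (Matrix.of M).det ≠ 0 := det_coef_ne w u M hu hind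
  refine PsT_le A B w y x (PsT_nonneg A B u y x) fun I => ?_
  have h1 : (Matrix.of fun l c => hT A B y x (u l) (I c)) =
      ((Matrix.of M).map (Int.cast : ℤ → ℝ)) * (Matrix.of fun l c => hT A B y x (w l) (I c)) := by
    ext l c
    rw [Matrix.mul_apply]
    simp only [Matrix.of_apply, Matrix.map_apply, hu, hT_sum]
  have h2 : mT A B u I y x = ((Matrix.of M).det : ℝ) * mT A B w I y x := by
    unfold mT
    rw [h1, Matrix.det_mul]
    congr 1
    exact ((Int.castRingHom ℝ).map_det (Matrix.of M)).symm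
  have h3 := le_PsT A B u y x I
  rw [h2, abs_mul] at h3
  have h4 : (1 : ℝ) ≤ |((Matrix.of M).det : ℝ)| := by
    have : 1 ≤ |(Matrix.of M).det| := Int.one_le_abs hdet
    exact_mod_cast this
  nlinarith [abs_nonneg (mT A B w I y x)]

/-- The function of a subspace. -/
noncomputable def psV (V : Submodule ℚ (Fin (n + 1) → ℚ)) (y x : ℝ) : ℝ :=
  PsT A B (tup V) y x

theorem psV_step (V : Submodule ℚ (Fin (n + 1) → ℚ)) (v : Fin (n + 1) → ℤ)
    (hv' : cv v ∉ V) (y x : ℝ) :
    psV A B (V ⊔ Submodule.span ℚ {cv v}) y x ≤ (n + 1) * (‖hT A B y x v‖ * psV A B V y x) := by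
  set V' := V ⊔ Submodule.span ℚ {cv v} with hV'
  let u : Fin (rk V + 1) → Fin (n + 1) → ℤ := Fin.cons v (tup V)
  have hu : (fun l => cv (u l)) = Fin.cons (cv v) (fun l => cv (tup V l)) := by
    funext l
    refine Fin.cases ?_ (fun i => ?_) l
    · rfl
    · rfl
  have hind : LinearIndependent ℚ fun l => cv (u l) := by
    rw [hu]
    rw [linearIndependent_finCons]
    refine ⟨tup_ind V, ?_⟩
    rw [tup_span]
    exact hv'
  have huV : ∀ l, cv (u l) ∈ V' := by
    intro l
    refine Fin.cases ?_ (fun i => ?_) l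
    · exact (le_sup_right : _ ≤ V') (Submodule.mem_span_singleton_self _)
    · exact (le_sup_left : _ ≤ V') (tup_mem V i)
  have hspanu : Submodule.span ℚ (Set.range fun l => cv (u l)) = V' := by
    rw [hu, Fin.range_cons, Submodule.span_insert, tup_span, hV', sup_comm]
  have hrk : rk V' = rk V + 1 := by
    rw [rk_eq]
    have := finrank_span_eq_card hind
    rw [hspanu, Fintype.card_fin] at this
    exact this
  choose M hM using fun l => tup_rep V' (u l) (huV l)
  have h1 : psV A B V' y x ≤ PsT A B u y x := PsT_change A B hrk (tup V') u M hM hind y x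
  have h2 := PsT_cons A B (tup V) v y x
  have hle : rk V + 1 ≤ n + 1 := by
    rw [← hrk, rk_eq]
    have := Submodule.finrank_le V'
    rwa [Module.finrank_fin_fun] at this
  have hle' : ((rk V : ℝ) + 1) ≤ n + 1 := by exact_mod_cast hle
  have h3 : 0 ≤ ‖hT A B y x v‖ * psV A B V y x :=
    mul_nonneg (norm_nonneg _) (PsT_nonneg _ _ _ _ _)
  calc psV A B V' y x ≤ PsT A B u y x := h1
    _ ≤ (rk V + 1) * (‖hT A B y x v‖ * PsT A B (tup V) y x) := h2
    _ ≤ (n + 1) * (‖hT A B y x v‖ * psV A B V y x) := mul_le_mul_of_nonneg_right hle' h3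

/-- proper subspaces not contained in `L` -/
def SL (L : Submodule ℚ (Fin (n + 1) → ℚ)) : Set (Submodule ℚ (Fin (n + 1) → ℚ)) :=
  {V | ¬ V ≤ L ∧ V ≠ ⊤}

theorem SL_chain (L : Submodule ℚ (Fin (n + 1) → ℚ))
    (F : Finset (Submodule ℚ (Fin (n + 1) → ℚ))) (hF : (F : Set _) ⊆ SL L)
    (hch : IsChain (· ≤ ·) (F : Set (Submodule ℚ (Fin (n + 1) → ℚ)))) : F.card ≤ n := by
  refine Pool.Agent.Results.MP_c5a493_nt.UniformBound.chain_card F ?_ hch
  intro V hV
  have h := hF hV
  exact ⟨fun h0 => h.1 (by rw [h0]; exact bot_le), h.2⟩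

open Classical in
/-- marked points have no short vectors outside `L` -/
theorem markedT_bound (L : Submodule ℚ (Fin (n + 1) → ℚ)) {ρ ε : ℝ} (hρ : 0 < ρ) (hρ1 : ρ ≤ 1)
    (Y X : (ℕ → Bool) → ℝ) {w : Om}
    (hfull : 1 ≤ psV A B ⊤ (Y w.1) (X w.2))
    (hm : MarkedT (fun V w => psV (n := n) A B V (Y w.1) (X w.2) / ρ) ε (SL L) w)
    (v : Fin (n + 1) → ℤ) (hvL : cv v ∉ L) :
    ρ * min ε 1 ≤ (n + 1) * ‖hT A B (Y w.1) (X w.2) v‖ := by
  obtain ⟨F, hF, hch, hM, hM3⟩ := hm
  obtain ⟨y, hy⟩ : ∃ y, y = Y w.1 := ⟨_, rfl⟩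
  obtain ⟨x, hx⟩ : ∃ x, x = X w.2 := ⟨_, rfl⟩
  simp only [← hy, ← hx] at hM hM3 hfull ⊢
  -- the subspace below
  have hcv0 : cv v ≠ 0 := by
    intro h
    apply hvL
    rw [h]
    exact L.zero_mem
  have hV0 : ∃ V0 : Submodule ℚ (Fin (n + 1) → ℚ), cv v ∉ V0 ∧ psV A B V0 y x ≤ 1 ∧
      ∀ f ∈ F, f ≤ V0 ∨ (V0 ≤ f ∧ cv v ∈ f) := by
    by_cases hne : (F.filter fun f => cv v ∉ f).Nonempty
    · obtain ⟨V0, hV0, hmax⟩ := Finset.exists_max_image _
        (fun f : Submodule ℚ (Fin (n + 1) → ℚ) => finrank ℚ f) hne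
      rw [Finset.mem_filter] at hV0
      have h1 := (hM V0 hV0.1).2
      rw [div_le_one hρ] at h1
      refine ⟨V0, hV0.2, h1.trans hρ1, ?_⟩
      intro f hf
      by_cases hvf : cv v ∈ f
      · right
        refine ⟨?_, hvf⟩
        by_cases hfe : V0 = f
        · exact hfe.le
        · rcases hch hV0.1 hf hfe with h | h
          · exact h
          · exact absurd (h hvf) hV0.2
      · left
        by_cases hfe : f = V0
        · exact hfe.le
        · rcases hch hf hV0.1 hfe with h | h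
          · exact h
          · have := hmax f (Finset.mem_filter.2 ⟨hf, hvf⟩)
            exact (Submodule.eq_of_le_of_finrank_le h this).ge
    · rw [Finset.not_nonempty_iff_eq_empty, Finset.filter_eq_empty_iff] at hne
      refine ⟨⊥, by simpa using hcv0, ?_, ?_⟩
      · exact PsT_empty A B (by rw [rk_eq]; simp) _ y x
      · intro f hf
        right
        exact ⟨bot_le, not_not.1 (hne hf)⟩
  obtain ⟨V0, hv0V, hle1, hcomp⟩ := hV0
  set V' := V0 ⊔ Submodule.span ℚ {cv v} with hV'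
  have hstep := psV_step A B V0 v hv0V y x
  rw [← hV'] at hstep
  have hmemV' : cv v ∈ V' := (le_sup_right : _ ≤ V') (Submodule.mem_span_singleton_self _)
  have hlow : ρ * min ε 1 ≤ psV A B V' y x := by
    by_cases htop : V' = ⊤
    · rw [htop]
      refine le_trans ?_ hfull
      calc ρ * min ε 1 ≤ ρ * 1 := by gcongr; exact min_le_right _ _
        _ ≤ 1 := by rw [mul_one]; exact hρ1
    · by_cases hVF : V' ∈ F
      · have h1 := (hM V' hVF).1
        rw [le_div_iff₀ hρ] at h1
        calc ρ * min ε 1 ≤ ρ * ε := by gcongr; exact min_le_left _ _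
          _ = ε * ρ := mul_comm _ _
          _ ≤ _ := h1
      · have h1 := hM3 V' ⟨fun h => hvL (h hmemV'), htop⟩ hVF ?_
        · rw [le_div_iff₀ hρ] at h1
          calc ρ * min ε 1 ≤ ρ * 1 := by gcongr; exact min_le_right _ _
            _ = 1 * ρ := mul_comm _ _
            _ ≤ _ := h1
        · intro f hf
          rcases hcomp f hf with h | ⟨h, hvf⟩
          · right
            exact h.trans le_sup_left
          · left
            refine sup_le h ?_
            rw [Submodule.span_singleton_le_iff_mem]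
            exact hvf
  have hn0 : 0 ≤ ‖hT A B y x v‖ := norm_nonneg _
  calc ρ * min ε 1 ≤ psV A B V' y x := hlow
    _ ≤ (n + 1) * (‖hT A B y x v‖ * psV A B V0 y x) := hstep
    _ ≤ (n + 1) * (‖hT A B y x v‖ * 1) := by gcongr
    _ = (n + 1) * ‖hT A B y x v‖ := by ring

/-- The measure estimate, from lower bounds at the root. -/
theorem measure_bound (L : Submodule ℚ (Fin (n + 1) → ℚ)) {ρ : ℝ} (hρ : 0 < ρ) (hρ1 : ρ ≤ 1)
    {X Y : (ℕ → Bool) → ℝ} {K : ℝ} (hX : Sep K X) (hXi : Function.Injective X)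
    (hXc : Continuous X) (hY : Sep K Y) (hYi : Function.Injective Y) (hYc : Continuous Y)
    (hfull : ∀ w : Om, 1 ≤ psV A B ⊤ (Y w.1) (X w.2))
    (hroot : ∀ V ∈ SL L, ∃ w : Om, ρ ≤ psV A B V (Y w.1) (X w.2))
    (l : ℕ) {e : ℝ} (he : 0 < e) (he1 : e ≤ 1)
    (heM : (((n + 1) * n : ℕ) + 1) * (e * (K * 9 ^ l) ^ ((n + 1) * n)) < 1) :
    mu {w : Om | ∃ a : Fin (n + 1) → ℤ, cv a ∉ L ∧
      (n + 1) * ‖hT A B (Y w.1) (X w.2) a‖ < ρ * e ^ 2} ≤
      kapT n * (2 * ((((n + 1) * n : ℕ) : ENNReal) * (2⁻¹ : ENNReal) ^ l)) := by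
  have hrk : ∀ V : Submodule ℚ (Fin (n + 1) → ℚ), rk V ≤ n + 1 := by
    intro V
    rw [rk_eq]
    have := Submodule.finrank_le V
    rwa [Module.finrank_fin_fun] at this
  have hcont : ∀ V : Submodule ℚ (Fin (n + 1) → ℚ),
      Continuous fun w : Om => psV (n := n) A B V (Y w.1) (X w.2) / ρ := by
    intro V
    have h1 : Continuous fun w : Om => (Y w.1, X w.2) :=
      (hYc.comp continuous_fst).prodMk (hXc.comp continuous_snd)
    exact ((PsT_cont A B (tup V)).comp h1).div_const _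
  have hgood : ∀ (V : Submodule ℚ (Fin (n + 1) → ℚ)) (j : ℕ) (w : Om),
      (∃ y ∈ Cell j w, 1 ≤ psV (n := n) A B V (Y y.1) (X y.2) / ρ) →
      mu {z ∈ Cell j w | psV (n := n) A B V (Y z.1) (X z.2) / ρ < e ^ 2} ≤
        (2 * ((((n + 1) * n : ℕ) : ENNReal) * (2⁻¹ : ENNReal) ^ l)) * mu (Cell j w) := by
    intro V j w hex
    obtain ⟨w1, hw1, h1⟩ := hex
    rw [le_div_iff₀ hρ, one_mul] at h1
    have hI : ∃ I : Fin (rk V) → Option (Fin (n + 1)),
        ρ ≤ |mT A B (tup V) I (Y w1.1) (X w1.2)| := by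
      by_contra! hc
      have : psV A B V (Y w1.1) (X w1.2) < ρ := (pi_norm_lt_iff hρ).2 hc
      linarith
    obtain ⟨I, hI⟩ := hI
    have h2 := good_two hX hXi hY hYi (d := (n + 1) * n)
      (F := fun w : Om => mT A B (tup V) I (Y w.1) (X w.2) / ρ)
      (by
        have h1 : Continuous fun w : Om => (Y w.1, X w.2) :=
          (hYc.comp continuous_fst).prodMk (hXc.comp continuous_snd)
        exact ((mT_cont A B (tup V) I).comp h1).div_const _)
      (by
        intro t
        obtain ⟨f, hf, hff⟩ := mT_poly_y A B (hrk V) (tup V) I (X t)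
        refine ⟨C ρ⁻¹ * f, (natDegree_C_mul_le _ _).trans hf, fun s => ?_⟩
        simp only [eval_mul, eval_C, ← hff]
        rw [div_eq_inv_mul])
      (by
        intro s
        obtain ⟨f, hf, hff⟩ := mT_poly_x A B (hrk V) (tup V) I (Y s)
        refine ⟨C ρ⁻¹ * f, (natDegree_C_mul_le _ _).trans hf, fun t => ?_⟩
        simp only [eval_mul, eval_C, ← hff]
        rw [div_eq_inv_mul])
      j l w w1 hw1 (by
        rw [abs_div, abs_of_pos hρ, le_div_iff₀ hρ, one_mul]
        exact hI) he heM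
    refine le_trans (measure_mono ?_) h2
    rintro z ⟨hz, hz2⟩
    refine ⟨hz, ?_⟩
    rw [abs_div, abs_of_pos hρ]
    refine lt_of_le_of_lt ?_ hz2
    gcongr
    exact le_PsT A B (tup V) _ _ I
  obtain ⟨w0⟩ : Nonempty Om := ⟨(fun _ => true, fun _ => true)⟩
  have hnd := nondivT (fun (V : Submodule ℚ (Fin (n + 1) → ℚ)) (w : Om) =>
      psV (n := n) A B V (Y w.1) (X w.2) / ρ) (e ^ 2) hcont hgood n (SL L)
      (fun F hF hch => SL_chain L F hF hch) 0 w0 (by
        intro V hV
        obtain ⟨w, hw⟩ := hroot V hV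
        refine ⟨w, ⟨fun i hi => by omega, fun i hi => by omega⟩, ?_⟩
        rw [le_div_iff₀ hρ, one_mul]
        exact hw)
  have hC0 : mu (Cell 0 w0) = 1 := by rw [mu_Cell]; simp
  rw [hC0, mul_one] at hnd
  refine le_trans (measure_mono ?_) hnd
  rintro w ⟨a, haL, ha⟩
  refine ⟨⟨fun i hi => by omega, fun i hi => by omega⟩, ?_⟩
  intro hmark
  have h1 := markedT_bound A B L hρ hρ1 Y X (hfull w) hmark a haL
  have h2 : min (e ^ 2) 1 = e ^ 2 := min_eq_left (pow_le_one₀ he.le he1)
  rw [h2] at h1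
  linarith

end forms

end Pool.Agent.W72
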