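import Mathlib

set_option autoImplicit false

namespace Pool.Agent.W72

open Polynomial Matrix

/-! ## Determinants with a distinguished last column -/

section ldet

variable {R : Type*} [CommRing R] {k : ℕ}

/-- determinant with a distinguished last column -/
def ld (T : Fin (k + 1) → Fin k → R) (v : Fin (k + 1) → R) : R :=
  (Matrix.of fun l => (Fin.snoc (α := fun _ => R) (T l) (v l) : Fin (k + 1) → R)).det

/-- cofactors -/
def cof (T : Fin (k + 1) → Fin k → R) (l : Fin (k + 1)) : R :=
  (-1) ^ ((l : ℕ) + k) * (Matrix.of fun i j => T (l.succAbove i) j).det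

theorem ld_eq (T : Fin (k + 1) → Fin k → R) (v : Fin (k + 1) → R) :
    ld T v = ∑ l, cof T l * v l := by
  unfold ld
  rw [Matrix.det_succ_column _ (Fin.last k)]
  refine Finset.sum_congr rfl fun l _ => ?_
  unfold cof
  have h1 : ((Matrix.of fun l => (Fin.snoc (α := fun _ => R) (T l) (v l) : Fin (k + 1) → R)).submatrix
      l.succAbove (Fin.last k).succAbove) = Matrix.of fun i j => T (l.succAbove i) j := by
    ext i j
    simp [Fin.succAbove_last]
  rw [h1]
  simp only [Matrix.of_apply, Fin.snoc_last, Fin.val_last]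
  ring

theorem ld_col (T : Fin (k + 1) → Fin k → R) (i : Fin k) : ld T (fun l => T l i) = 0 := by
  unfold ld
  refine Matrix.det_zero_of_column_eq (i := Fin.castSucc i) (j := Fin.last k)
    (Fin.castSucc_lt_last i).ne (fun l => ?_)
  simp

theorem ld_add (T : Fin (k + 1) → Fin k → R) (v w : Fin (k + 1) → R) :
    ld T (fun l => v l + w l) = ld T v + ld T w := by
  simp only [ld_eq, mul_add, Finset.sum_add_distrib]

theorem ld_smul (T : Fin (k + 1) → Fin k → R) (a : R) (v : Fin (k + 1) → R) :
    ld T (fun l => a * v l) = a * ld T v := by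
  simp only [ld_eq, Finset.mul_sum]
  refine Finset.sum_congr rfl fun l _ => ?_
  ring

theorem ld_sum {ι : Type*} (s : Finset ι) (T : Fin (k + 1) → Fin k → R) (a : ι → R)
    (v : ι → Fin (k + 1) → R) :
    ld T (fun l => ∑ i ∈ s, a i * v i l) = ∑ i ∈ s, a i * ld T (v i) := by
  simp only [ld_eq, Finset.mul_sum]
  rw [Finset.sum_comm]
  refine Finset.sum_congr rfl fun l _ => Finset.sum_congr rfl fun i _ => ?_
  ring

theorem ld_map {S : Type*} [CommRing S] (g : R →+* S) (T : Fin (k + 1) → Fin k → R)
    (v : Fin (k + 1) → R) : g (ld T v) = ld (fun l i => g (T l i)) (fun l => g (v l)) := by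
  unfold ld
  rw [RingHom.map_det]
  congr 1
  ext l c
  simp only [RingHom.mapMatrix_apply, Matrix.map_apply, Matrix.of_apply]
  refine Fin.lastCases ?_ (fun i => ?_) c
  · simp
  · simp

/-- multiplication by a square matrix -/
theorem ld_mul (A : Matrix (Fin (k + 1)) (Fin (k + 1)) R) (T : Fin (k + 1) → Fin k → R)
    (v : Fin (k + 1) → R) :
    ld (fun l i => ∑ m, A l m * T m i) (fun l => ∑ m, A l m * v m) = A.det * ld T v := by
  unfold ld
  rw [← Matrix.det_mul]
  congr 1
  ext l c
  rw [Matrix.mul_apply]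
  simp only [Matrix.of_apply]
  refine Fin.lastCases ?_ (fun i => ?_) c
  · simp
  · simp

end ldet

/-! ## Wronskians -/

section wron

variable {k : ℕ}

/-- Taylor coefficients -/
noncomputable def tay (Q : Fin (k + 1) → ℝ[X]) (y : ℝ) : Fin (k + 1) → Fin k → ℝ :=
  fun l i => (hasseDeriv i (Q l)).eval y

noncomputable def tayP (Q : Fin (k + 1) → ℝ[X]) : Fin (k + 1) → Fin k → ℝ[X] :=
  fun l i => hasseDeriv i (Q l)

noncomputable def DD (Q : Fin (k + 1) → ℝ[X]) (y x : ℝ) : ℝ := ld (tay Q y) fun l => (Q l).eval x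

noncomputable def WW (Q : Fin (k + 1) → ℝ[X]) (y : ℝ) : ℝ :=
  ld (tay Q y) fun l => (hasseDeriv k (Q l)).eval y

noncomputable def DDp (Q : Fin (k + 1) → ℝ[X]) (z : ℝ) : ℝ[X] :=
  ld (tayP Q) fun l => C ((Q l).eval z)

noncomputable def WWp (Q : Fin (k + 1) → ℝ[X]) : ℝ[X] :=
  ld (tayP Q) fun l => hasseDeriv k (Q l)

theorem eval_DDp (Q : Fin (k + 1) → ℝ[X]) (y z : ℝ) : (DDp Q z).eval y = DD Q y z := by
  have h := ld_map (Polynomial.evalRingHom y) (tayP Q) fun l => C ((Q l).eval z)
  simp only [Polynomial.coe_evalRingHom, eval_C] at h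
  exact h

theorem eval_WWp (Q : Fin (k + 1) → ℝ[X]) (y : ℝ) : (WWp Q).eval y = WW Q y := by
  have h := ld_map (Polynomial.evalRingHom y) (tayP Q) fun l => hasseDeriv k (Q l)
  simp only [Polynomial.coe_evalRingHom] at h
  exact h

/-- Factorisation of `DD`. -/
theorem DD_factor {n : ℕ} (hk : k ≤ n) (Q : Fin (k + 1) → ℝ[X]) (hQ : ∀ l, (Q l).natDegree ≤ n)
    (y : ℝ) : ∃ E : ℝ[X], E.natDegree ≤ n - k ∧ ∀ x, DD Q y x = (x - y) ^ k * E.eval x := by
  set f : ℝ[X] := ∑ l, C (cof (tay Q y) l) * Q l with hf
  have hfe : ∀ x, DD Q y x = f.eval x := by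
    intro x
    unfold DD
    rw [ld_eq, hf, eval_finsetSum]
    refine Finset.sum_congr rfl fun l _ => ?_
    simp
  have hfd : f.natDegree ≤ n :=
    natDegree_sum_le_of_forall_le _ _ fun l _ => (natDegree_C_mul_le _ _).trans (hQ l)
  have hcoef : ∀ i, i < k → (taylor y f).coeff i = 0 := by
    intro i hi
    rw [taylor_coeff, hf, map_sum, eval_finsetSum]
    have h1 := ld_col (tay Q y) ⟨i, hi⟩
    rw [ld_eq] at h1
    rw [← h1]
    refine Finset.sum_congr rfl fun l _ => ?_
    rw [← smul_eq_C_mul, map_smul, eval_smul, smul_eq_mul]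
    rfl
  have hdvd : (X - C y) ^ k ∣ f := by
    rw [X_sub_C_pow_dvd_iff, X_pow_dvd_iff]
    intro d hd
    have := hcoef d hd
    rwa [taylor_apply] at this
  obtain ⟨E, hE⟩ := hdvd
  by_cases hf0 : f = 0
  · refine ⟨0, by simp, fun x => ?_⟩
    rw [hfe, hf0]; simp
  · refine ⟨E, ?_, fun x => ?_⟩
    · have hE0 : E ≠ 0 := by rintro rfl; rw [mul_zero] at hE; exact hf0 hE
      have hp0 : (X - C y) ^ k ≠ 0 := pow_ne_zero _ (X_sub_C_ne_zero y)
      have h1 := congrArg natDegree hE
      rw [natDegree_mul hp0 hE0, natDegree_pow, natDegree_X_sub_C, mul_one] at h1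
      omega
    · rw [hfe, hE]; simp

/-- The full rank case. -/
theorem DD_full (Q : Fin (k + 1) → ℝ[X]) (hQ : ∀ l, (Q l).natDegree ≤ k) (y x : ℝ) :
    DD Q y x = (x - y) ^ k * WW Q y := by
  have h1 : ∀ l, (Q l).eval x =
      ∑ c ∈ Finset.range (k + 1), (x - y) ^ c * (hasseDeriv c (Q l)).eval y := by
    intro l
    have e1 : (taylor y (Q l)).eval (x - y) = (Q l).eval x := taylor_eval_sub _ _ _
    have hd : (taylor y (Q l)).natDegree < k + 1 := by
      rw [natDegree_taylor]; exact Nat.lt_succ_of_le (hQ l)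
    rw [← e1, eval_eq_sum_range' hd]
    refine Finset.sum_congr rfl fun c _ => ?_
    rw [taylor_coeff, mul_comm]
  unfold DD
  simp only [h1]
  rw [ld_sum, Finset.sum_range_succ]
  have h2 : ∑ c ∈ Finset.range k, (x - y) ^ c *
      ld (tay Q y) (fun l => (hasseDeriv c (Q l)).eval y) = 0 := by
    refine Finset.sum_eq_zero fun c hc => ?_
    have := ld_col (tay Q y) ⟨c, Finset.mem_range.mp hc⟩
    unfold tay at this ⊢
    rw [this, mul_zero]
  rw [h2, zero_add]
  rfl

end wron

/-- the Wronskian of a tuple -/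
noncomputable def wr {r : ℕ} (Q : Fin r → ℝ[X]) : ℝ[X] :=
  (Matrix.of fun l (i : Fin r) => hasseDeriv (i : ℕ) (Q l)).det

theorem WWp_eq_wr {k : ℕ} (Q : Fin (k + 1) → ℝ[X]) : WWp Q = wr Q := by
  unfold WWp wr ld
  congr 1
  ext1 l c
  simp only [Matrix.of_apply]
  refine Fin.lastCases ?_ (fun i => ?_) c
  · simp
  · simp [tayP]

/-- Determinants of binomial coefficients. -/
theorem det_choose_ne {r : ℕ} (d : Fin r → ℕ) (hd : Function.Injective d) :
    (Matrix.of fun l (i : Fin r) => (((d l).choose i : ℕ) : ℝ)).det ≠ 0 := by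
  have h := det_eval_matrixOfPolynomials_eq_det_vandermonde (fun l => ((d l : ℕ) : ℝ))
    (fun i : Fin r => descPochhammer ℝ i) (fun i => descPochhammer_natDegree ℝ i)
    (fun i => monic_descPochhammer ℝ i)
  have hv : (vandermonde fun l => ((d l : ℕ) : ℝ)).det ≠ 0 := by
    rw [det_vandermonde_ne_zero_iff]
    intro a b hab
    simp only [Nat.cast_inj] at hab
    exact hd hab
  have e : (Matrix.of fun l (i : Fin r) => (descPochhammer ℝ i).eval ((d l : ℕ) : ℝ)) =
      Matrix.of fun l (i : Fin r) => ((Nat.factorial i : ℕ) : ℝ) *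
        (Matrix.of fun l (i : Fin r) => (((d l).choose i : ℕ) : ℝ)) l i := by
    ext l i
    simp only [Matrix.of_apply]
    rw [descPochhammer_eval_eq_descFactorial, Nat.descFactorial_eq_factorial_mul_choose]
    push_cast
    ring
  rw [e, det_mul_row] at h
  intro h0
  rw [h0, mul_zero] at h
  exact hv h

theorem coeff_det_of_natDegree_le {r N : ℕ} (M : Matrix (Fin r) (Fin r) ℝ[X])
    (h : ∀ a b, (M a b).natDegree ≤ N) :
    M.det.coeff (r * N) = (Matrix.of fun a b => (M a b).coeff N).det := by
  rw [Matrix.det_apply, Matrix.det_apply, finsetSum_coeff]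
  refine Finset.sum_congr rfl fun σ _ => ?_
  have h1 : (∏ c, M (σ c) c).coeff (r * N) = ∏ c, (M (σ c) c).coeff N := by
    have := coeff_prod_of_natDegree_le (s := Finset.univ) (fun c => M (σ c) c) N
      (fun c _ => h _ _)
    rwa [Finset.card_univ, Fintype.card_fin] at this
  rcases Int.units_eq_one_or (Equiv.Perm.sign σ) with h2 | h2
  · rw [h2, one_smul, one_smul, h1]; rfl
  · rw [h2, Units.neg_smul, one_smul, Units.neg_smul, one_smul, coeff_neg, h1]; rfl

theorem wr_ne_of_injective {r : ℕ} (Q : Fin r → ℝ[X]) (hQ : ∀ l, Q l ≠ 0)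
    (hd : Function.Injective fun l => (Q l).natDegree) : wr Q ≠ 0 := by
  obtain ⟨N, hN⟩ : ∃ N, ∀ l, (Q l).natDegree ≤ N :=
    ⟨∑ l, (Q l).natDegree, fun l => Finset.single_le_sum (f := fun l => (Q l).natDegree)
      (fun _ _ => Nat.zero_le _) (Finset.mem_univ l)⟩
  set M : Matrix (Fin r) (Fin r) ℝ[X] := Matrix.of fun l i =>
    X ^ (N - (Q l).natDegree) * (Matrix.of fun l (i : Fin r) => X ^ (i : ℕ) *
      (Matrix.of fun l (i : Fin r) => hasseDeriv (i : ℕ) (Q l)) l i) l i with hM
  have hdet : M.det = (∏ l, X ^ (N - (Q l).natDegree)) * ((∏ i : Fin r, X ^ (i : ℕ)) * wr Q) := by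
    rw [hM, det_mul_column (fun l => X ^ (N - (Q l).natDegree)),
      det_mul_row (fun i : Fin r => (X : ℝ[X]) ^ (i : ℕ))]
    rfl
  have hentry : ∀ l i, M l i = X ^ (N - (Q l).natDegree + i) * hasseDeriv (i : ℕ) (Q l) := by
    intro l i
    simp only [hM, Matrix.of_apply]
    rw [pow_add, mul_assoc]
  have hdeg : ∀ l i, (M l i).natDegree ≤ N := by
    intro l i
    rw [hentry]
    by_cases hi : (i : ℕ) ≤ (Q l).natDegree
    · refine natDegree_mul_le.trans ?_
      have h1 := natDegree_X_pow_le (R := ℝ) (N - (Q l).natDegree + i)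
      have h2 := natDegree_hasseDeriv_le (Q l) i
      have h3 := hN l
      omega
    · rw [hasseDeriv_eq_zero_of_lt_natDegree _ _ (by omega), mul_zero, natDegree_zero]
      omega
  have hcoeff : (Matrix.of fun a b => (M a b).coeff N) = Matrix.of fun l (i : Fin r) =>
      (Q l).leadingCoeff * (Matrix.of fun l (i : Fin r) =>
        ((((Q l).natDegree).choose i : ℕ) : ℝ)) l i := by
    ext l i
    simp only [Matrix.of_apply]
    rw [hentry]
    by_cases hi : (i : ℕ) ≤ (Q l).natDegree
    · have h3 := hN l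
      have e : N = (Q l).natDegree - i + (N - (Q l).natDegree + i) := by omega
      have e1 : (X ^ (N - (Q l).natDegree + (i : ℕ)) * hasseDeriv (i : ℕ) (Q l)).coeff N =
          (hasseDeriv (i : ℕ) (Q l)).coeff ((Q l).natDegree - i) := by
        rw [mul_comm]
        have := coeff_mul_X_pow (hasseDeriv (i : ℕ) (Q l)) (N - (Q l).natDegree + i)
          ((Q l).natDegree - i)
        rwa [← e] at this
      rw [e1, hasseDeriv_coeff]
      have e2 : (Q l).natDegree - i + i = (Q l).natDegree := by omega
      rw [e2, leadingCoeff]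
      ring
    · rw [hasseDeriv_eq_zero_of_lt_natDegree _ _ (by omega), mul_zero, coeff_zero,
        Nat.choose_eq_zero_of_lt (by omega)]
      simp
  intro h0
  rw [h0, mul_zero, mul_zero] at hdet
  have h1 := coeff_det_of_natDegree_le M hdeg
  rw [hdet, coeff_zero, hcoeff, det_mul_column] at h1
  have h2 := det_choose_ne _ hd
  have h3 : (∏ l, (Q l).leadingCoeff) ≠ 0 :=
    Finset.prod_ne_zero_iff.mpr fun l _ => leadingCoeff_ne_zero.mpr (hQ l)
  exact (mul_ne_zero h3 h2) h1.symm

theorem wr_ne_aux {r : ℕ} (N : ℕ) : ∀ (Q : Fin r → ℝ[X]), LinearIndependent ℝ Q →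
    ∑ l, (Q l).natDegree = N → wr Q ≠ 0 := by
  induction N using Nat.strong_induction_on with
  | _ N ih =>
    intro Q hQ hN
    by_cases hd : Function.Injective fun l => (Q l).natDegree
    · exact wr_ne_of_injective Q (fun l => hQ.ne_zero l) hd
    · rw [Function.Injective] at hd
      push Not at hd
      obtain ⟨a, b, hab, hne⟩ := hd
      have hQa := hQ.ne_zero a
      have hQb := hQ.ne_zero b
      set c : ℝ := (Q b).leadingCoeff / (Q a).leadingCoeff with hc
      have hc0 : c ≠ 0 := div_ne_zero (leadingCoeff_ne_zero.mpr hQb) (leadingCoeff_ne_zero.mpr hQa)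
      set p : ℝ[X] := Q b - C c * Q a with hp
      set Q' : Fin r → ℝ[X] := Function.update Q b p with hQ'
      have hind : LinearIndependent ℝ Q' := by
        rw [Fintype.linearIndependent_iff] at hQ ⊢
        intro g hg
        have h1 : ∑ l, (g l - if l = a then c * g b else 0) • Q l = 0 := by
          rw [← hg]
          have e1 : ∑ l, (g l - if l = a then c * g b else 0) • Q l =
              (∑ l, g l • Q l) - (c * g b) • Q a := by
            simp only [sub_smul, Finset.sum_sub_distrib]
            congr 1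
            rw [Finset.sum_eq_single a]
            · simp
            · intro l _ hl; simp [hl]
            · simp
          have e2 : ∑ l, g l • Q' l = (∑ l, g l • Q l) + g b • (p - Q b) := by
            have : ∀ l, g l • Q' l = g l • Q l + if l = b then g b • (p - Q b) else 0 := by
              intro l
              by_cases hl : l = b
              · subst hl
                simp [hQ', smul_sub]
              · simp [hQ', hl]
            simp only [this, Finset.sum_add_distrib]
            simp
          rw [e1, e2, hp]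
          have : Q b - C c * Q a - Q b = -(c • Q a) := by
            rw [smul_eq_C_mul]; ring
          rw [this, smul_neg, smul_smul, mul_comm c (g b), sub_eq_add_neg]
        have h2 := hQ _ h1
        have hb : g b = 0 := by
          have := h2 b
          rw [if_neg (Ne.symm hne)] at this
          linarith
        intro l
        have := h2 l
        rw [hb] at this
        simpa using this
      have hp0 : p ≠ 0 := by
        have := hind.ne_zero b
        rwa [hQ', Function.update_self] at this
      have hdeg : p.natDegree < (Q b).natDegree := by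
        apply natDegree_lt_natDegree hp0
        apply degree_sub_lt_left _ hQb
        · rw [leadingCoeff_mul, leadingCoeff_C, hc,
            div_mul_cancel₀ _ (leadingCoeff_ne_zero.mpr hQa)]
        · rw [degree_C_mul hc0, degree_eq_natDegree hQb, degree_eq_natDegree hQa]
          exact_mod_cast hab.symm
      have hsum : ∑ l, (Q' l).natDegree < N := by
        rw [← hN]
        apply Finset.sum_lt_sum
        · intro l _
          by_cases hl : l = b
          · subst hl; rw [hQ', Function.update_self]; exact hdeg.le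
          · rw [hQ', Function.update_of_ne hl]
        · exact ⟨b, Finset.mem_univ _, by rw [hQ', Function.update_self]; exact hdeg⟩
      have h1 := ih _ hsum Q' hind rfl
      have h2 : wr Q' = wr Q := by
        unfold wr
        set M : Matrix (Fin r) (Fin r) ℝ[X] :=
          Matrix.of fun l (i : Fin r) => hasseDeriv (i : ℕ) (Q l) with hM
        have h3 := det_updateRow_add_smul_self M (Ne.symm hne) (-C c)
        rw [← h3]
        congr 1
        ext1 l i
        by_cases hl : l = b
        · subst hl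
          rw [updateRow_self]
          simp only [Matrix.of_apply, hQ', Function.update_self, hp, map_sub, Pi.add_apply,
            Pi.smul_apply, smul_eq_mul, hM]
          rw [← smul_eq_C_mul, map_smul, smul_eq_C_mul]
          ring
        · rw [updateRow_ne hl]
          simp only [Matrix.of_apply, hQ', Function.update_of_ne hl, hM]
      rwa [h2] at h1

theorem wr_ne {r : ℕ} (Q : Fin r → ℝ[X]) (hQ : LinearIndependent ℝ Q) : wr Q ≠ 0 :=
  wr_ne_aux _ Q hQ rfl

/-- The last column replaced by a nonzero constant vector. -/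
theorem ld_const_ne {k : ℕ} (Q : Fin (k + 1) → ℝ[X]) (hQ : LinearIndependent ℝ Q)
    (v : Fin (k + 1) → ℝ) (hv : v ≠ 0) : ld (tayP Q) (fun l => C (v l)) ≠ 0 := by
  obtain ⟨a, ha⟩ : ∃ a, v a ≠ 0 := by
    by_contra! hc
    exact hv (funext hc)
  -- the new tuple
  set Q' : Fin k → ℝ[X] := fun i => Q (a.succAbove i) - C (v (a.succAbove i) / v a) * Q a with hQ'
  have hind : LinearIndependent ℝ Q' := by
    rw [Fintype.linearIndependent_iff] at hQ ⊢
    intro g hg
    have h1 := hQ (a.insertNth (-(∑ i, g i * (v (a.succAbove i) / v a))) g) (by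
      rw [Fin.sum_univ_succAbove _ a]
      simp only [Fin.insertNth_apply_same, Fin.insertNth_apply_succAbove]
      rw [← hg]
      simp only [hQ', smul_sub, Finset.sum_sub_distrib]
      have : ∑ x, g x • (C (v (a.succAbove x) / v a) * Q a) =
          (∑ i, g i * (v (a.succAbove i) / v a)) • Q a := by
        rw [Finset.sum_smul]
        refine Finset.sum_congr rfl fun i _ => ?_
        rw [← smul_eq_C_mul, smul_smul]
      rw [this, neg_smul]
      ring)
    intro i
    have := h1 (a.succAbove i)
    rwa [Fin.insertNth_apply_succAbove] at this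
  have h1 := wr_ne Q' hind
  -- row operations
  set B : Matrix (Fin (k + 1)) (Fin (k + 1)) ℝ[X] := Matrix.of fun l =>
    (Fin.snoc (α := fun _ => ℝ[X]) (tayP Q l) (C (v l)) : Fin (k + 1) → ℝ[X]) with hB
  set c : Fin (k + 1) → ℝ[X] := fun l => if l = a then 0 else -C (v l / v a) with hc
  set A : Matrix (Fin (k + 1)) (Fin (k + 1)) ℝ[X] := Matrix.of fun l j => B l j + c l * B a j with hA
  have hdet : A.det = B.det := det_eq_of_forall_row_eq_smul_add_const c a (by simp [hc])
    (fun i j => by rw [hA, Matrix.of_apply])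
  have hAl : A = Matrix.of fun l => (Fin.snoc (α := fun _ => ℝ[X])
      (fun i : Fin k => A l (Fin.castSucc i)) (A l (Fin.last k)) : Fin (k + 1) → ℝ[X]) := by
    ext1 l j
    simp only [Matrix.of_apply]
    refine Fin.lastCases ?_ (fun i => ?_) j
    · simp
    · simp
  have hA2 : A.det = ld (fun l i => A l (Fin.castSucc i)) (fun l => A l (Fin.last k)) := by
    conv_lhs => rw [hAl]
    rfl
  have hlast : ∀ l, l ≠ a → A l (Fin.last k) = 0 := by
    intro l hl
    simp only [hA, hB, hc, Matrix.of_apply, Fin.snoc_last, if_neg hl]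
    rw [neg_mul, ← C_mul, div_mul_cancel₀ _ ha, add_neg_cancel]
  have hlasta : A a (Fin.last k) = C (v a) := by
    simp [hA, hB, hc]
  have hcof : cof (fun l i => A l (Fin.castSucc i)) a = (-1) ^ ((a : ℕ) + k) * wr Q' := by
    unfold cof wr
    congr 2
    ext1 i j
    have hne : a.succAbove i ≠ a := Fin.succAbove_ne a i
    simp only [Matrix.of_apply, hA, hB, hc, Fin.snoc_castSucc, if_neg hne, tayP, hQ', map_sub]
    rw [← smul_eq_C_mul, map_smul, smul_eq_C_mul]
    ring
  have h2 : B.det = (-1) ^ ((a : ℕ) + k) * wr Q' * C (v a) := by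
    rw [← hdet, hA2, ld_eq, Finset.sum_eq_single a, hcof, hlasta]
    · intro l _ hl
      rw [hlast l hl, mul_zero]
    · simp
  have h3 : ld (tayP Q) (fun l => C (v l)) = B.det := rfl
  rw [h3, h2]
  refine mul_ne_zero (mul_ne_zero (pow_ne_zero _ (by simp)) h1) ?_
  simpa using ha

end Pool.Agent.W72
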