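import Mathlib
import Pool.Agent.W72.BaC
import Pool.Agent.W72.BaD

set_option autoImplicit false

namespace Pool.Agent.W72

open Polynomial Matrix
open Pool.Agent.Results.MP_c5a493_nt.UniformBound (cv cv_sum cv_inj rk tup rk_eq tup_mem tup_ind
  tup_rep tup_span exists_minor)

/-! ## Coefficient bounds -/

theorem coeff_bound (S : Finset ℝ) (N : ℕ) (hS : S.card = N + 1) : ∃ C : ℝ, 0 < C ∧
    ∀ f : ℝ[X], f.natDegree ≤ N → ∀ m : ℝ, (∀ y ∈ S, |f.eval y| ≤ m) → ∀ i, |f.coeff i| ≤ C * m := by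
  classical
  refine ⟨1 + ∑ y ∈ S, ∑ i ∈ Finset.range (N + 1), |(Lagrange.basis S id y).coeff i|, ?_, ?_⟩
  · have : 0 ≤ ∑ y ∈ S, ∑ i ∈ Finset.range (N + 1), |(Lagrange.basis S id y).coeff i| :=
      Finset.sum_nonneg fun y _ => Finset.sum_nonneg fun i _ => abs_nonneg _
    linarith
  · intro f hf m hm i
    have hm0 : 0 ≤ m := by
      obtain ⟨y, hy⟩ : S.Nonempty := by rw [← Finset.card_pos, hS]; omega
      exact (abs_nonneg _).trans (hm y hy)
    set T : ℝ := ∑ y ∈ S, ∑ i ∈ Finset.range (N + 1), |(Lagrange.basis S id y).coeff i| with hT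
    have hT0 : 0 ≤ T := Finset.sum_nonneg fun y _ => Finset.sum_nonneg fun i _ => abs_nonneg _
    by_cases hi : i < N + 1
    · have hdeg : f.degree < S.card := by
        rw [hS]
        refine lt_of_le_of_lt Polynomial.degree_le_natDegree ?_
        exact_mod_cast Nat.lt_succ_of_le hf
      have h1 := Lagrange.eq_interpolate (v := id) (s := S) (f := f) (by simp) hdeg
      have h2 : f.coeff i = ∑ y ∈ S, f.eval y * (Lagrange.basis S id y).coeff i := by
        conv_lhs => rw [h1]
        rw [Lagrange.interpolate_apply, finsetSum_coeff]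
        refine Finset.sum_congr rfl fun y _ => ?_
        rw [coeff_C_mul]
        rfl
      rw [h2]
      refine (Finset.abs_sum_le_sum_abs _ _).trans ?_
      calc ∑ y ∈ S, |f.eval y * (Lagrange.basis S id y).coeff i|
          ≤ ∑ y ∈ S, (∑ i ∈ Finset.range (N + 1), |(Lagrange.basis S id y).coeff i|) * m := by
            refine Finset.sum_le_sum fun y hy => ?_
            rw [abs_mul, mul_comm]
            refine mul_le_mul ?_ (hm y hy) (abs_nonneg _)
              (Finset.sum_nonneg fun i _ => abs_nonneg _)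
            exact Finset.single_le_sum (f := fun i => |(Lagrange.basis S id y).coeff i|)
              (fun _ _ => abs_nonneg _) (Finset.mem_range.mpr hi)
        _ = T * m := by rw [← Finset.sum_mul]
        _ ≤ (1 + T) * m := by nlinarith
    · rw [coeff_eq_zero_of_natDegree_lt (by omega), abs_zero]
      positivity

/-! ## The norm form of the golden ratio -/

theorem norm_ge (G : ℤ[X]) (h : aeval Real.goldenRatio G ≠ 0) :
    1 ≤ |aeval Real.goldenRatio G| * |aeval Real.goldenConj G| := by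
  set F : ℤ[X] := X ^ 2 - X - 1 with hF
  have hFm : F.Monic := by
    have : F = X ^ 2 + (- X - 1) := by rw [hF]; ring
    rw [this]
    apply monic_X_pow_add
    refine lt_of_le_of_lt (b := (1 : WithBot ℕ)) ?_ (by norm_num)
    refine (degree_sub_le _ _).trans (max_le ?_ ?_)
    · rw [degree_neg]; exact degree_X_le
    · exact degree_one_le.trans (by norm_num)
  have hFd : F.natDegree = 2 := by
    rw [hF]; compute_degree!
  have h1 := modByMonic_add_div G F
  obtain ⟨r, hr⟩ : ∃ r, r = G %ₘ F := ⟨_, rfl⟩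
  rw [← hr] at h1
  have hrd : r.natDegree ≤ 1 := by
    have h2 := natDegree_modByMonic_lt G hFm (by intro h0; rw [h0, natDegree_one] at hFd; omega)
    rw [hFd, ← hr] at h2
    omega
  obtain ⟨b, c, hbc⟩ := exists_eq_X_add_C_of_natDegree_le_one hrd
  have hphi : aeval Real.goldenRatio F = 0 := by
    rw [hF]; simp [Real.goldenRatio_sq]
  have hpsi : aeval Real.goldenConj F = 0 := by
    rw [hF]; simp [Real.goldenConj_sq]
  have e1 : aeval Real.goldenRatio G = b * Real.goldenRatio + c := by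
    conv_lhs => rw [← h1]
    rw [map_add, map_mul, hphi, zero_mul, add_zero, hbc]
    simp
  have e2 : aeval Real.goldenConj G = b * Real.goldenConj + c := by
    conv_lhs => rw [← h1]
    rw [map_add, map_mul, hpsi, zero_mul, add_zero, hbc]
    simp
  have hprod : aeval Real.goldenRatio G * aeval Real.goldenConj G =
      ((c ^ 2 + b * c - b ^ 2 : ℤ) : ℝ) := by
    rw [e1, e2]
    push_cast
    have a1 := Real.goldenRatio_mul_goldenConj
    have a2 := Real.goldenRatio_add_goldenConj
    linear_combination (b : ℝ) ^ 2 * a1 + (b : ℝ) * c * a2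
  have hne : aeval Real.goldenConj G ≠ 0 := by
    intro h0
    rw [e2] at h0
    by_cases hb : b = 0
    · rw [hb] at h0
      simp only [Int.cast_zero, zero_mul, zero_add, Int.cast_eq_zero] at h0
      apply h
      rw [e1, hb, h0]; simp
    · have hirr := Real.goldenConj_irrational
      apply hirr
      refine ⟨-(c : ℚ) / b, ?_⟩
      have hb' : (b : ℝ) ≠ 0 := by exact_mod_cast hb
      push_cast
      rw [div_eq_iff hb']
      linarith
  have hz : c ^ 2 + b * c - b ^ 2 ≠ 0 := by
    intro h0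
    rw [h0, Int.cast_zero] at hprod
    exact (mul_ne_zero h hne) hprod
  rw [← abs_mul, hprod]
  exact_mod_cast Int.one_le_abs hz

/-! ## Real coefficient matrices -/

variable {n k : ℕ}

noncomputable def toR (b : Fin (n + 1) → ℝ) : ℝ[X] := ∑ j : Fin (n + 1), C (b j) * X ^ (j : ℕ)

theorem toR_natDegree (b : Fin (n + 1) → ℝ) : (toR b).natDegree ≤ n := by
  refine natDegree_sum_le_of_forall_le _ _ fun j _ => ?_
  refine (natDegree_C_mul_X_pow_le _ _).trans ?_
  omega

theorem toR_coeff (b : Fin (n + 1) → ℝ) (i : Fin (n + 1)) : (toR b).coeff i = b i := by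
  unfold toR
  simp only [finsetSum_coeff, coeff_C_mul, coeff_X_pow]
  rw [Finset.sum_eq_single i]
  · simp
  · intro k _ hk
    have : ¬ ((i : ℕ) = k) := fun h => hk (Fin.ext h.symm)
    simp [this]
  · simp

theorem toP_eq_toR (a : Fin (n + 1) → ℤ) : toP a = toR fun j => (a j : ℝ) := rfl

theorem hasse_toR (b : Fin (n + 1) → ℝ) (i : ℕ) (y : ℝ) : (hasseDeriv i (toR b)).eval y =
    ∑ j : Fin (n + 1), b j * (hasseDeriv i (X ^ (j : ℕ) : ℝ[X])).eval y := by
  unfold toR
  rw [map_sum, eval_finsetSum]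
  refine Finset.sum_congr rfl fun j _ => ?_
  rw [← smul_eq_C_mul, map_smul, eval_smul, smul_eq_mul]

theorem eval_toR (b : Fin (n + 1) → ℝ) (y : ℝ) : (toR b).eval y =
    ∑ j : Fin (n + 1), b j * y ^ (j : ℕ) := by
  unfold toR
  rw [eval_finsetSum]
  refine Finset.sum_congr rfl fun j _ => ?_
  simp

theorem ld_continuous {α : Type*} [TopologicalSpace α] (T : α → Fin (k + 1) → Fin k → ℝ)
    (v : α → Fin (k + 1) → ℝ) (hT : ∀ l i, Continuous fun a => T a l i)
    (hv : ∀ l, Continuous fun a => v a l) : Continuous fun a => ld (T a) (v a) := by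
  unfold ld
  apply Continuous.matrix_det
  apply continuous_matrix
  intro l c
  simp only [Matrix.of_apply]
  refine Fin.lastCases ?_ (fun i => ?_) c
  · simpa using hv l
  · simpa using hT l i

theorem cont_coef (g : Fin (n + 1) → ℝ) (l : Fin (k + 1)) :
    Continuous fun B : Fin (k + 1) → Fin (n + 1) → ℝ => ∑ j, B l j * g j := by
  refine continuous_finsetSum _ fun j _ => ?_
  exact (continuous_apply_apply l j).mul continuous_const

theorem WW_cont (y : ℝ) : Continuous fun B : Fin (k + 1) → Fin (n + 1) → ℝ =>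
    WW (fun l => toR (B l)) y := by
  unfold WW
  apply ld_continuous
  · intro l i
    simp only [tay, hasse_toR]
    exact cont_coef _ l
  · intro l
    simp only [hasse_toR]
    exact cont_coef _ l

theorem DD_cont (y z : ℝ) : Continuous fun B : Fin (k + 1) → Fin (n + 1) → ℝ =>
    DD (fun l => toR (B l)) y z := by
  unfold DD
  apply ld_continuous
  · intro l i
    simp only [tay, hasse_toR]
    exact cont_coef _ l
  · intro l
    simp only [eval_toR]
    exact cont_coef _ l

/-- the normalised matrices -/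
def KS (n k : ℕ) (I : Fin (k + 1) → Fin (n + 1)) : Set (Fin (k + 1) → Fin (n + 1) → ℝ) :=
  {B | (∀ l j, B l j ∈ Set.Icc (-1 : ℝ) 1) ∧ ∀ l c, B l (I c) = if l = c then 1 else 0}

theorem KS_compact (I : Fin (k + 1) → Fin (n + 1)) : IsCompact (KS n k I) := by
  have h1 : IsCompact (Set.pi Set.univ fun _ : Fin (k + 1) =>
      Set.pi Set.univ fun _ : Fin (n + 1) => Set.Icc (-1 : ℝ) 1) :=
    isCompact_univ_pi fun _ => isCompact_univ_pi fun _ => isCompact_Icc
  refine h1.of_isClosed_subset ?_ ?_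
  · have e : KS n k I = (⋂ l, ⋂ j, {B | B l j ∈ Set.Icc (-1 : ℝ) 1}) ∩
        ⋂ l, ⋂ c, {B | B l (I c) = if l = c then 1 else 0} := by
      ext B
      simp [KS]
    rw [e]
    refine IsClosed.inter ?_ ?_
    · refine isClosed_iInter fun l => isClosed_iInter fun j => ?_
      exact isClosed_Icc.preimage (continuous_apply_apply l j)
    · refine isClosed_iInter fun l => isClosed_iInter fun c => ?_
      exact isClosed_eq (continuous_apply_apply l (I c)) continuous_const
  · intro B hB l _ j _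
    exact hB.1 l j

theorem KS_indep (I : Fin (k + 1) → Fin (n + 1)) {B : Fin (k + 1) → Fin (n + 1) → ℝ}
    (hB : B ∈ KS n k I) : LinearIndependent ℝ fun l => toR (B l) := by
  rw [Fintype.linearIndependent_iff]
  intro g hg c
  have h1 := congrArg (fun p : ℝ[X] => p.coeff (I c)) hg
  simp only [finsetSum_coeff, coeff_smul, toR_coeff, smul_eq_mul, coeff_zero, hB.2] at h1
  simpa using h1

theorem natDegree_tay_det (Q : Fin (k + 1) → ℝ[X]) (hQ : ∀ l, (Q l).natDegree ≤ n)
    (v : Fin (k + 1) → ℝ[X]) (hv : ∀ l, (v l).natDegree ≤ n) :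
    (ld (tayP Q) v).natDegree ≤ (k + 1) * n := by
  unfold ld
  apply natDegree_det_le
  intro l c
  simp only [Matrix.of_apply]
  refine Fin.lastCases ?_ (fun i => ?_) c
  · simpa using hv l
  · simp only [Fin.snoc_castSucc, tayP]
    exact (natDegree_hasseDeriv_le _ _).trans ((Nat.sub_le _ _).trans (hQ l))

theorem natDegree_WWp (Q : Fin (k + 1) → ℝ[X]) (hQ : ∀ l, (Q l).natDegree ≤ n) :
    (WWp Q).natDegree ≤ (k + 1) * n :=
  natDegree_tay_det Q hQ _ fun l =>
    (natDegree_hasseDeriv_le _ _).trans ((Nat.sub_le _ _).trans (hQ l))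

theorem natDegree_DDp (Q : Fin (k + 1) → ℝ[X]) (hQ : ∀ l, (Q l).natDegree ≤ n) (z : ℝ) :
    (DDp Q z).natDegree ≤ (k + 1) * n :=
  natDegree_tay_det Q hQ _ fun l => by rw [natDegree_C]; omega

theorem exists_WW_ne (S : Finset ℝ) (hS : (k + 1) * n < S.card) (Q : Fin (k + 1) → ℝ[X])
    (hQ : ∀ l, (Q l).natDegree ≤ n) (hind : LinearIndependent ℝ Q) : ∃ y ∈ S, WW Q y ≠ 0 := by
  by_contra! hc
  apply wr_ne Q hind
  rw [← WWp_eq_wr]
  apply eq_zero_of_natDegree_lt_card_of_eval_eq_zero' (WWp Q) S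
  · intro y hy
    rw [eval_WWp]
    exact hc y hy
  · exact lt_of_le_of_lt (natDegree_WWp Q hQ) hS

/-- the comparison on normalised matrices -/
theorem KS_compare (S : Finset ℝ) (hS : (k + 1) * n < S.card) (z : ℝ)
    (I : Fin (k + 1) → Fin (n + 1)) : ∃ C : ℝ, 0 < C ∧ ∀ B ∈ KS n k I,
      ∑ y ∈ S, |DD (fun l => toR (B l)) y z| ≤ C * ∑ y ∈ S, |WW (fun l => toR (B l)) y| := by
  have hf1 : Continuous fun B : Fin (k + 1) → Fin (n + 1) → ℝ =>
      ∑ y ∈ S, |WW (fun l => toR (B l)) y| :=
    continuous_finsetSum _ fun y _ => (WW_cont y).abs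
  have hf2 : Continuous fun B : Fin (k + 1) → Fin (n + 1) → ℝ =>
      ∑ y ∈ S, |DD (fun l => toR (B l)) y z| :=
    continuous_finsetSum _ fun y _ => (DD_cont y z).abs
  rcases (KS n k I).eq_empty_or_nonempty with he | hne
  · exact ⟨1, one_pos, fun B hB => by rw [he] at hB; exact absurd hB (Set.notMem_empty _)⟩
  · obtain ⟨B0, hB0, hmin⟩ := (KS_compact I).exists_isMinOn hne hf1.continuousOn
    obtain ⟨B1, hB1, hmax⟩ := (KS_compact I).exists_isMaxOn hne hf2.continuousOn
    obtain ⟨c, hc⟩ : ∃ c : ℝ, c = ∑ y ∈ S, |WW (fun l => toR (B0 l)) y| := ⟨_, rfl⟩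
    obtain ⟨M, hM⟩ : ∃ M : ℝ, M = ∑ y ∈ S, |DD (fun l => toR (B1 l)) y z| := ⟨_, rfl⟩
    have hc0 : 0 < c := by
      obtain ⟨y, hy, hy0⟩ := exists_WW_ne S hS (fun l => toR (B0 l)) (fun l => toR_natDegree _)
        (KS_indep I hB0)
      rw [hc]
      exact lt_of_lt_of_le (abs_pos.mpr hy0)
        (Finset.single_le_sum (f := fun y => |WW (fun l => toR (B0 l)) y|)
          (fun _ _ => abs_nonneg _) hy)
    have hM0 : 0 ≤ M := by
      rw [hM]; exact Finset.sum_nonneg fun _ _ => abs_nonneg _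
    refine ⟨(M + 1) / c, by positivity, fun B hB => ?_⟩
    have h1 : c ≤ ∑ y ∈ S, |WW (fun l => toR (B l)) y| := by rw [hc]; exact hmin hB
    have h2 : ∑ y ∈ S, |DD (fun l => toR (B l)) y z| ≤ M := by rw [hM]; exact hmax hB
    calc ∑ y ∈ S, |DD (fun l => toR (B l)) y z| ≤ M + 1 := by linarith
      _ = (M + 1) / c * c := by field_simp
      _ ≤ _ := by gcongr

/-- transformation under a change of basis -/
theorem toR_mul (A : Matrix (Fin (k + 1)) (Fin (k + 1)) ℝ) (B : Fin (k + 1) → Fin (n + 1) → ℝ)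
    (B' : Fin (k + 1) → Fin (n + 1) → ℝ) (h : ∀ l j, B l j = ∑ m, A l m * B' m j) (y z : ℝ) :
    WW (fun l => toR (B l)) y = A.det * WW (fun l => toR (B' l)) y ∧
    DD (fun l => toR (B l)) y z = A.det * DD (fun l => toR (B' l)) y z := by
  have h1 : ∀ (l : Fin (k + 1)) (g : Fin (n + 1) → ℝ), ∑ j, B l j * g j =
      ∑ m, A l m * ∑ j, B' m j * g j := by
    intro l g
    simp only [h, Finset.sum_mul, Finset.mul_sum]
    rw [Finset.sum_comm]
    refine Finset.sum_congr rfl fun m _ => Finset.sum_congr rfl fun j _ => ?_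
    ring
  constructor
  · unfold WW
    rw [← ld_mul]
    congr 1
    · funext l i
      simp only [tay, hasse_toR, h1]
    · funext l
      simp only [hasse_toR, h1]
  · unfold DD
    rw [← ld_mul]
    congr 1
    · funext l i
      simp only [tay, hasse_toR, h1]
    · funext l
      simp only [eval_toR, h1]

/-- The comparison. -/
theorem DD_le_WW (S : Finset ℝ) (hS : (k + 1) * n < S.card) (z : ℝ) : ∃ C : ℝ, 0 < C ∧
    ∀ B : Fin (k + 1) → Fin (n + 1) → ℝ,
      (∃ I : Fin (k + 1) → Fin (n + 1), (Matrix.of fun l c => B l (I c)).det ≠ 0) →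
      ∀ M : ℝ, (∀ y ∈ S, |WW (fun l => toR (B l)) y| ≤ M) →
        ∀ y ∈ S, |DD (fun l => toR (B l)) y z| ≤ C * M := by
  choose C0 hC0 hC1 using KS_compare (n := n) (k := k) S hS z
  refine ⟨(∑ I, C0 I) * S.card, ?_, ?_⟩
  · refine mul_pos (Finset.sum_pos (fun I _ => hC0 I) Finset.univ_nonempty) ?_
    have : 0 < S.card := by omega
    exact_mod_cast this
  intro B hB M hM y hy
  obtain ⟨I, _, hI⟩ := Finset.exists_max_image Finset.univ
    (fun I : Fin (k + 1) → Fin (n + 1) => |(Matrix.of fun l c => B l (I c)).det|)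
    Finset.univ_nonempty
  set A : Matrix (Fin (k + 1)) (Fin (k + 1)) ℝ := Matrix.of fun l c => B l (I c) with hA
  have hdet : A.det ≠ 0 := by
    obtain ⟨J, hJ⟩ := hB
    intro h0
    have := hI J (Finset.mem_univ _)
    rw [h0, abs_zero] at this
    exact hJ (abs_eq_zero.mp (le_antisymm this (abs_nonneg _)))
  have hunit : IsUnit A.det := isUnit_iff_ne_zero.mpr hdet
  set Bm : Matrix (Fin (k + 1)) (Fin (n + 1)) ℝ := Matrix.of B with hBm
  set B' : Matrix (Fin (k + 1)) (Fin (n + 1)) ℝ := A⁻¹ * Bm with hB'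
  have hAB : A * B' = Bm := by
    rw [hB', ← Matrix.mul_assoc, Matrix.mul_nonsing_inv _ hunit, Matrix.one_mul]
  have hmul : ∀ l j, B l j = ∑ m, A l m * B' m j := by
    intro l j
    rw [← Matrix.mul_apply, hAB]
    rfl
  have hK : (fun l => B' l) ∈ KS n k I := by
    constructor
    · intro l j
      have h1 : B' l j = A.det⁻¹ * (Matrix.of fun l' c => B l' (Function.update I l j c)).det := by
        rw [hB', Matrix.inv_def, Matrix.smul_mul, Matrix.smul_apply, Ring.inverse_eq_inv',
          smul_eq_mul]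
        congr 1
        have e1 : (A.adjugate * Bm) l j = (A.adjugate *ᵥ fun m => B m j) l := by
          rw [Matrix.mul_apply]; rfl
        rw [e1, ← Matrix.cramer_eq_adjugate_mulVec, Matrix.cramer_apply]
        congr 1
        ext l' c
        by_cases hc : c = l
        · subst hc
          rw [Matrix.updateCol_self]
          simp
        · rw [Matrix.updateCol_ne hc]
          simp [hA, hc]
      have h2 := hI (Function.update I l j) (Finset.mem_univ _)
      have h3 : |B' l j| ≤ 1 := by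
        rw [h1, abs_mul, abs_inv, inv_mul_le_iff₀ (abs_pos.mpr hdet), mul_one]
        exact h2
      rw [Set.mem_Icc]
      exact abs_le.mp h3
    · intro l c
      have h1 : B' l (I c) = (A⁻¹ * A) l c := by
        rw [hB', Matrix.mul_apply, Matrix.mul_apply]
        rfl
      change B' l (I c) = _
      rw [h1, Matrix.nonsing_inv_mul _ hunit, Matrix.one_apply]
  have h1 := hC1 I _ hK
  have hW : ∑ y ∈ S, |WW (fun l => toR (B l)) y| ≤ S.card * M := by
    calc ∑ y ∈ S, |WW (fun l => toR (B l)) y| ≤ ∑ _y ∈ S, M := Finset.sum_le_sum hM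
      _ = _ := by rw [Finset.sum_const, nsmul_eq_mul]
  have hC0s : C0 I ≤ ∑ I, C0 I :=
    Finset.single_le_sum (f := C0) (fun J _ => (hC0 J).le) (Finset.mem_univ I)
  have hM0 : 0 ≤ M := (abs_nonneg _).trans (hM y hy)
  calc |DD (fun l => toR (B l)) y z|
      ≤ ∑ y ∈ S, |DD (fun l => toR (B l)) y z| :=
        Finset.single_le_sum (f := fun y => |DD (fun l => toR (B l)) y z|)
          (fun _ _ => abs_nonneg _) hy
    _ = |A.det| * ∑ y ∈ S, |DD (fun l => toR (B' l)) y z| := by
        rw [Finset.mul_sum]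
        refine Finset.sum_congr rfl fun y _ => ?_
        rw [(toR_mul A B (fun l => B' l) hmul y z).2, abs_mul]
    _ ≤ |A.det| * (C0 I * ∑ y ∈ S, |WW (fun l => toR (B' l)) y|) := by gcongr
    _ = C0 I * ∑ y ∈ S, |WW (fun l => toR (B l)) y| := by
        have : ∑ y ∈ S, |WW (fun l => toR (B l)) y| =
            |A.det| * ∑ y ∈ S, |WW (fun l => toR (B' l)) y| := by
          rw [Finset.mul_sum]
          refine Finset.sum_congr rfl fun y _ => ?_
          rw [(toR_mul A B (fun l => B' l) hmul y z).1, abs_mul]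
        rw [this]; ring
    _ ≤ (∑ I, C0 I) * (S.card * M) := by
        apply mul_le_mul hC0s hW (Finset.sum_nonneg fun _ _ => abs_nonneg _)
        exact (hC0 I).le.trans hC0s
    _ = _ := by ring

/-! ## Integrality -/

noncomputable def toZ (a : Fin (n + 1) → ℤ) : ℤ[X] := ∑ j : Fin (n + 1), C (a j) * X ^ (j : ℕ)

theorem toZ_map (a : Fin (n + 1) → ℤ) : (toZ a).map (Int.castRingHom ℝ) = toP a := by
  unfold toZ toP
  simp [Polynomial.map_sum]

theorem hasse_map (p : ℤ[X]) (i : ℕ) :
    (hasseDeriv i p).map (Int.castRingHom ℝ) = hasseDeriv i (p.map (Int.castRingHom ℝ)) := by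
  ext j
  rw [coeff_map, hasseDeriv_coeff, hasseDeriv_coeff, coeff_map]
  simp

theorem indep_of_cv (w : Fin (k + 1) → Fin (n + 1) → ℤ)
    (hind : LinearIndependent ℚ fun l => cv (w l)) :
    LinearIndependent ℝ fun l => toP (w l) := by
  obtain ⟨I, hI⟩ := exists_minor w hind
  rw [Fintype.linearIndependent_iff]
  intro g hg
  by_contra hc
  push Not at hc
  obtain ⟨i, hi⟩ := hc
  have hz : (Matrix.of fun l c => ((w l (I c) : ℤ) : ℝ)).det = 0 := by
    rw [← Matrix.exists_vecMul_eq_zero_iff]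
    refine ⟨g, fun h => hi (congrFun h i), ?_⟩
    funext c
    have h1 := congrArg (fun p : ℝ[X] => p.coeff (I c)) hg
    simp only [finsetSum_coeff, coeff_smul, toP_coeff, smul_eq_mul, coeff_zero] at h1
    simpa [Matrix.vecMul, dotProduct] using h1
  apply hI
  have h2 := (Int.castRingHom ℝ).map_det (Matrix.of fun l c => w l (I c))
  have h3 : ((Int.castRingHom ℝ).mapMatrix (Matrix.of fun l c => w l (I c))) =
      Matrix.of fun l c => ((w l (I c) : ℤ) : ℝ) := by
    ext l c; simp
  rw [h3, hz] at h2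
  simpa using h2

/-- lower bound for the Wronskian -/
theorem WW_lower (S : Finset ℝ) (hS : S.card = (k + 1) * n + 1) : ∃ C : ℝ, 0 < C ∧
    ∀ w : Fin (k + 1) → Fin (n + 1) → ℤ, (LinearIndependent ℚ fun l => cv (w l)) →
      ∀ M : ℝ, (∀ y ∈ S, |WW (fun l => toP (w l)) y| ≤ M) → 1 ≤ C * M := by
  obtain ⟨C, hC, hCb⟩ := coeff_bound S _ hS
  refine ⟨C, hC, fun w hind M hM => ?_⟩
  have hne := wr_ne _ (indep_of_cv w hind)
  rw [← WWp_eq_wr] at hne
  set W : ℤ[X] := ld (fun l (i : Fin k) => hasseDeriv (i : ℕ) (toZ (w l)))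
    (fun l => hasseDeriv k (toZ (w l))) with hW
  have hmap : W.map (Int.castRingHom ℝ) = WWp fun l => toP (w l) := by
    have h1 := ld_map (Polynomial.mapRingHom (Int.castRingHom ℝ))
      (fun l (i : Fin k) => hasseDeriv (i : ℕ) (toZ (w l))) (fun l => hasseDeriv k (toZ (w l)))
    rw [Polynomial.coe_mapRingHom] at h1
    rw [hW, h1]
    unfold WWp tayP
    simp only [hasse_map, toZ_map]
  obtain ⟨i, hi⟩ : ∃ i, (WWp fun l => toP (w l)).coeff i ≠ 0 := by
    by_contra! hc
    exact hne (Polynomial.ext (by simpa using hc))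
  have h1 := hCb (WWp fun l => toP (w l)) (natDegree_WWp _ fun l => toP_natDegree _) M (by
    intro y hy
    rw [eval_WWp]
    exact hM y hy) i
  refine le_trans ?_ h1
  rw [← hmap, coeff_map] at hi ⊢
  simp only [eq_intCast, ne_eq, Int.cast_eq_zero] at hi ⊢
  exact_mod_cast Int.one_le_abs hi

/-- the product bound -/
theorem DD_prod (S : Finset ℝ) (hS : S.card = (k + 1) * n + 1) : ∃ C : ℝ, 0 < C ∧
    ∀ w : Fin (k + 1) → Fin (n + 1) → ℤ, (LinearIndependent ℚ fun l => cv (w l)) →
      (∃ l, (toP (w l)).eval Real.goldenRatio ≠ 0) →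
      ∀ κ₁ κ₂ : ℝ, (∀ y ∈ S, |DD (fun l => toP (w l)) y Real.goldenRatio| ≤ κ₁) →
        (∀ y ∈ S, |DD (fun l => toP (w l)) y Real.goldenConj| ≤ κ₂) → 1 ≤ C * (κ₁ * κ₂) := by
  obtain ⟨C, hC, hCb⟩ := coeff_bound S _ hS
  refine ⟨C * C, by positivity, fun w hind hL κ₁ κ₂ h1 h2 => ?_⟩
  obtain ⟨l0, hl0⟩ := hL
  have hne := ld_const_ne (fun l => toP (w l)) (indep_of_cv w hind)
    (fun l => (toP (w l)).eval Real.goldenRatio) (fun h => hl0 (congrFun h l0))
  have hcoef : ∀ i, ∃ G : ℤ[X], ∀ z : ℝ, (DDp (fun l => toP (w l)) z).coeff i = aeval z G := by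
    intro i
    refine ⟨∑ l, Polynomial.C ((cof (fun l (i : Fin k) => hasseDeriv (i : ℕ) (toZ (w l))) l).coeff i) *
      toZ (w l), fun z => ?_⟩
    have hcm : ∀ l, cof (tayP fun l => toP (w l)) l =
        (cof (fun l (i : Fin k) => hasseDeriv (i : ℕ) (toZ (w l))) l).map (Int.castRingHom ℝ) := by
      intro l
      unfold cof
      rw [Polynomial.map_mul, Polynomial.map_pow, Polynomial.map_neg, Polynomial.map_one]
      congr 1
      have h3 := (Polynomial.mapRingHom (Int.castRingHom ℝ)).map_det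
        (Matrix.of fun i_1 j => (fun l (i : Fin k) => hasseDeriv (i : ℕ) (toZ (w l)))
          (l.succAbove i_1) j)
      rw [Polynomial.coe_mapRingHom] at h3
      rw [h3]
      congr 1
      ext1 a b
      simp [tayP, hasse_map, toZ_map]
    unfold DDp
    rw [ld_eq, finsetSum_coeff, map_sum]
    refine Finset.sum_congr rfl fun l _ => ?_
    rw [coeff_mul_C, hcm, coeff_map, map_mul, aeval_C]
    have e : aeval z (toZ (w l)) = (toP (w l)).eval z := by
      rw [← toZ_map, eval_map]
      rfl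
    rw [e]
    simp
  obtain ⟨i, hi⟩ : ∃ i, (DDp (fun l => toP (w l)) Real.goldenRatio).coeff i ≠ 0 := by
    by_contra! hc
    exact hne (Polynomial.ext fun i => by rw [coeff_zero]; exact hc i)
  obtain ⟨G, hG⟩ := hcoef i
  have a1 := hCb (DDp (fun l => toP (w l)) Real.goldenRatio)
    (natDegree_DDp _ (fun l => toP_natDegree _) _) κ₁ (by
      intro y hy
      rw [eval_DDp]
      exact h1 y hy) i
  have a2 := hCb (DDp (fun l => toP (w l)) Real.goldenConj)
    (natDegree_DDp _ (fun l => toP_natDegree _) _) κ₂ (by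
      intro y hy
      rw [eval_DDp]
      exact h2 y hy) i
  rw [hG] at hi a1 a2
  have a3 := norm_ge G hi
  calc (1 : ℝ) ≤ |aeval Real.goldenRatio G| * |aeval Real.goldenConj G| := a3
    _ ≤ (C * κ₁) * (C * κ₂) := by
        apply mul_le_mul a1 a2 (abs_nonneg _)
        exact (abs_nonneg _).trans a1
    _ = _ := by ring

end Pool.Agent.W72
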