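import Mathlib
import Pool.Agent.W72.BaE

set_option autoImplicit false

namespace Pool.Agent.W72

open Polynomial Matrix
open Pool.Agent.Results.MP_c5a493_nt.UniformBound (cv cv_sum cv_inj rk tup rk_eq tup_mem tup_ind
  tup_rep tup_span exists_minor)

/-- the weights -/
noncomputable def wA (n : ℕ) (q h : ℝ) : Fin (n + 1) → ℝ :=
  fun i => Real.exp ((n - 2 * (i : ℕ)) * q - h)
noncomputable def wB (n : ℕ) (w q h : ℝ) : ℝ := Real.exp (w * h - n * q)

theorem phi_bounds : 1 ≤ Real.goldenRatio ∧ Real.goldenRatio ≤ 2 := by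
  have h1 := Real.one_lt_goldenRatio
  have h2 := Real.goldenRatio_lt_two
  exact ⟨h1.le, h2.le⟩

theorem psi_bounds : -1 ≤ Real.goldenConj ∧ Real.goldenConj ≤ 0 := by
  have h1 := Real.neg_one_lt_goldenConj
  have h2 := Real.goldenConj_neg
  exact ⟨h1.le, h2.le⟩

theorem root_arith (k s a q h w wg : ℝ) (hk0 : 0 ≤ k) (hs1 : 1 ≤ s) (ha : 1 ≤ a)
    (hwa : w = a + k) (hq : 0 ≤ q) (hh : 0 ≤ h) (hwg : wg = w ∨ wg = w + 1)
    (i1 : 0 < (k + 1) * (h - s * q))
    (i2 : 0 < s * (wg - 1) * q - a * h - (k - 1) * s * q)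
    (i3 : 0 < (k + 1) * (h - s * q) - a * h - (k - 1) * s * q) : False := by
  have j1 : s * q < h := by
    by_contra hc
    push Not at hc
    have : (k + 1 : ℝ) * (h - s * q) ≤ 0 :=
      mul_nonpos_of_nonneg_of_nonpos (by linarith) (by linarith)
    linarith
  have hsq : 0 ≤ s * q := by positivity
  rcases hwg with h1 | h1
  · rw [h1, hwa] at i2
    have e : s * (a + k - 1) * q - a * h - (k - 1) * s * q = a * (s * q - h) := by ring
    rw [e] at i2
    have : a * (s * q - h) ≤ 0 := mul_nonpos_of_nonneg_of_nonpos (by linarith) (by linarith)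
    linarith
  · rw [h1, hwa] at i2
    have e2 : s * (a + k + 1 - 1) * q - a * h - (k - 1) * s * q = (a + 1) * (s * q) - a * h := by
      ring
    rw [e2] at i2
    have e3 : (k + 1) * (h - s * q) - a * h - (k - 1) * s * q =
        (k + 1 - a) * h - 2 * k * (s * q) := by ring
    rw [e3] at i3
    by_cases hka : (k : ℝ) + 1 ≤ a
    · have : (k + 1 - a) * h ≤ 0 := mul_nonpos_of_nonpos_of_nonneg (by linarith) hh
      have : 0 ≤ 2 * k * (s * q) := by positivity
      linarith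
    · push Not at hka
      have h2 : (k + 1 - a) * (a * h) < (k + 1 - a) * ((a + 1) * (s * q)) :=
        mul_lt_mul_of_pos_left (by linarith) (by linarith)
      have h3 : a * (2 * k * (s * q)) < a * ((k + 1 - a) * h) :=
        mul_lt_mul_of_pos_left (by linarith) (by linarith)
      have h4 : ((a - 1) * (a + k + 1)) * (s * q) < 0 := by
        have : a * (2 * k * (s * q)) < (k + 1 - a) * ((a + 1) * (s * q)) := by
          have e : a * ((k + 1 - a) * h) = (k + 1 - a) * (a * h) := by ring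
          linarith
        have e : ((a - 1) * (a + k + 1)) * (s * q) =
          a * (2 * k * (s * q)) - (k + 1 - a) * ((a + 1) * (s * q)) := by ring
        rw [e]; linarith
      have h5 : 0 ≤ ((a - 1) * (a + k + 1)) * (s * q) := by
        apply mul_nonneg (mul_nonneg (by linarith) (by linarith)) hsq
      linarith

theorem root_interp {n k s : ℕ} (hk : k ≤ n) (hs : s = n - k) (Q : Fin (k + 1) → ℝ[X])
    (hQ : ∀ l, (Q l).natDegree ≤ n) (y κ z R : ℝ) (hy : y ≤ 0) (hκ0 : 0 ≤ κ)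
    (x : Fin (s + 1) → ℝ) (hxinj : Function.Injective x) (hx : ∀ i, 1 ≤ x i)
    (hDκ : ∀ i, |DD Q y (x i)| ≤ κ) (hR : 0 ≤ R) (hzy : |z - y| ≤ 3)
    (hR2 : ∀ i j, i ≠ j → |z - x j| ≤ R * |x i - x j|) :
    |DD Q y z| ≤ 3 ^ k * ((s + 1) * (κ * R ^ s)) := by
  classical
  have hcard : (Finset.univ.image x).card = s + 1 := by
    rw [Finset.card_image_of_injective _ hxinj, Finset.card_univ, Fintype.card_fin]
  obtain ⟨E, hE1, hE2⟩ := DD_factor hk Q hQ y
  have h1 := lag_bound (f := E) (d := s) (by omega) (s := Finset.univ.image x) hcard (z := z)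
    (R := R) (e := κ) hκ0 (by
      intro a ha b hb hab
      obtain ⟨i, _, rfl⟩ := Finset.mem_image.mp ha
      obtain ⟨j, _, rfl⟩ := Finset.mem_image.mp hb
      exact hR2 i j (fun h => hab (by rw [h]))) (by
      intro a ha
      obtain ⟨i, _, rfl⟩ := Finset.mem_image.mp ha
      have h2 := hDκ i
      rw [hE2, abs_mul, abs_pow] at h2
      have h3 : 1 ≤ |x i - y| := by
        have := hx i
        refine le_trans ?_ (le_abs_self _)
        linarith
      have h4 : (1 : ℝ) ≤ |x i - y| ^ k := one_le_pow₀ h3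
      have h5 := abs_nonneg (E.eval (x i))
      nlinarith)
  rw [hE2, abs_mul, abs_pow]
  have h2 : |z - y| ^ k ≤ 3 ^ k := pow_le_pow_left₀ (abs_nonneg _) hzy k
  exact mul_le_mul h2 h1 (abs_nonneg _) (by positivity)

/-- The key inequality. -/
theorem root_k (n k : ℕ) (hk : k + 1 ≤ n) (w wg : ℝ) (hw : (n : ℝ) ≤ w)
    (hwg : wg = w ∨ wg = w + 1) (S : Finset ℝ) (hS : S.card = (k + 1) * n + 1)
    (hSY : ∀ y ∈ S, -1 ≤ y ∧ y ≤ 0) (R0 CF : ℝ) (hR0 : 1 ≤ R0) (hCF : 1 ≤ CF) :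
    ∃ ρ : ℝ, 0 < ρ ∧ ρ ≤ 1 ∧ ∀ (q h F : ℝ) (x : Fin (n - k + 1) → ℝ), 0 ≤ q → 0 ≤ h → 0 < F →
      F ≤ CF * Real.exp (2 * (wg - 1) * q) → (∀ i, 1 ≤ x i ∧ x i ≤ 3) →
      (∀ i j, i ≠ j → |Real.goldenRatio - x j| ≤ R0 * |x i - x j| ∧ 4 ≤ R0 * F * |x i - x j|) →
      ∀ W : Fin (k + 1) → Fin (n + 1) → ℤ, (LinearIndependent ℚ fun l => cv (W l)) →
        (∃ l, (toP (W l)).eval Real.goldenRatio ≠ 0) →
        (∀ y ∈ S, Real.exp ((k + 1) * ((n - k) * q - h)) * |WW (fun l => toP (W l)) y| ≤ ρ) →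
        (∀ y ∈ S, ∀ i, Real.exp ((w - k) * h + (k - 1) * (n - k) * q) *
          |DD (fun l => toP (W l)) y (x i)| ≤ ρ) → False := by
  obtain ⟨Cp, hCp, hprod⟩ := DD_prod (k := k) S hS
  obtain ⟨Cw, hCw, hWl⟩ := WW_lower (k := k) S hS
  obtain ⟨Cd, hCd, hcmp⟩ := DD_le_WW (n := n) (k := k) S (by omega) Real.goldenConj
  obtain ⟨s, hs⟩ : ∃ s : ℕ, s = n - k := ⟨_, rfl⟩
  have hs1 : 1 ≤ s := by omega
  have hsr : (s : ℝ) = n - k := by
    rw [hs, Nat.cast_sub (by omega)]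
  obtain ⟨C1, hC1⟩ : ∃ C1 : ℝ, C1 = 3 ^ k * ((s + 1) * R0 ^ s) := ⟨_, rfl⟩
  have hC10 : 0 < C1 := by rw [hC1]; positivity
  obtain ⟨C2, hC2⟩ : ∃ C2 : ℝ, C2 = Cp * C1 * C1 * CF ^ s := ⟨_, rfl⟩
  have hC20 : 0 < C2 := by rw [hC2]; positivity
  obtain ⟨C3, hC3⟩ : ∃ C3 : ℝ, C3 = Cp * C1 * Cd := ⟨_, rfl⟩
  have hC30 : 0 < C3 := by rw [hC3]; positivity
  obtain ⟨ρ, hρ⟩ : ∃ ρ : ℝ, ρ = 1 / (1 + C2 + C3 + Cw) := ⟨_, rfl⟩
  have hρ0 : 0 < ρ := by rw [hρ]; positivity
  have hρ1 : ρ ≤ 1 := by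
    rw [hρ, div_le_one (by positivity)]; linarith
  have hCρ : ∀ c, c ≤ C2 + C3 + Cw → c * ρ < 1 := by
    intro c hc
    rw [hρ, mul_one_div, div_lt_one (by positivity)]
    linarith
  refine ⟨ρ, hρ0, hρ1, ?_⟩
  rw [← hsr, ← hs]
  intro q h F x hq hh hF hFb hx hsep W hind hL hW hD
  -- the quantity kappa
  obtain ⟨u, hu⟩ : ∃ u : ℝ, u = (w - k) * h + (k - 1) * s * q := ⟨_, rfl⟩
  obtain ⟨v, hv⟩ : ∃ v : ℝ, v = (k + 1) * (s * q - h) := ⟨_, rfl⟩
  rw [← hu] at hD
  rw [← hv] at hW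
  obtain ⟨κ, hκ⟩ : ∃ κ : ℝ, κ = ρ * Real.exp (-u) := ⟨_, rfl⟩
  have hκ0 : 0 < κ := by rw [hκ]; positivity
  have hDκ : ∀ y ∈ S, ∀ i, |DD (fun l => toP (W l)) y (x i)| ≤ κ := by
    intro y hy i
    have h1 := hD y hy i
    rw [hκ, Real.exp_neg, ← div_eq_mul_inv, le_div_iff₀ (Real.exp_pos _), mul_comm]
    exact h1
  obtain ⟨M, hM⟩ : ∃ M : ℝ, M = ρ * Real.exp (-v) := ⟨_, rfl⟩
  have hM0 : 0 < M := by rw [hM]; positivity
  have hWM : ∀ y ∈ S, |WW (fun l => toP (W l)) y| ≤ M := by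
    intro y hy
    have h1 := hW y hy
    rw [hM, Real.exp_neg, ← div_eq_mul_inv, le_div_iff₀ (Real.exp_pos _), mul_comm]
    exact h1
  -- interpolation
  have hxinj : Function.Injective x := by
    intro i j hij
    by_contra hne
    have := (hsep i j hne).2
    rw [hij, sub_self, abs_zero, mul_zero] at this
    linarith
  have hphi := phi_bounds
  have hpsi := psi_bounds
  have hk1 : ∀ y ∈ S, |DD (fun l => toP (W l)) y Real.goldenRatio| ≤ C1 * κ := by
    intro y hy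
    have h1 := root_interp (by omega : k ≤ n) hs (fun l => toP (W l)) (fun l => toP_natDegree _)
      y κ Real.goldenRatio R0 (hSY y hy).2 hκ0.le x hxinj (fun i => (hx i).1) (hDκ y hy)
      (by linarith) (by
        have := hSY y hy
        rw [abs_le]; constructor <;> linarith) (fun i j hij => (hsep i j hij).1)
    rw [hC1]
    refine h1.trans (le_of_eq ?_)
    ring
  have hk2 : ∀ y ∈ S, |DD (fun l => toP (W l)) y Real.goldenConj| ≤ C1 * F ^ s * κ := by
    intro y hy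
    have h1 := root_interp (by omega : k ≤ n) hs (fun l => toP (W l)) (fun l => toP_natDegree _)
      y κ Real.goldenConj (R0 * F) (hSY y hy).2 hκ0.le x hxinj (fun i => (hx i).1) (hDκ y hy)
      (by positivity) (by
        have := hSY y hy
        rw [abs_le]; constructor <;> linarith) (fun i j hij => by
        refine le_trans ?_ (hsep i j hij).2
        have := hx j
        rw [abs_le]; constructor <;> linarith)
    rw [hC1]
    refine h1.trans (le_of_eq ?_)
    rw [mul_pow]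
    ring
  -- the three inequalities
  have i1 : 0 < -v := by
    by_contra hc
    push Not at hc
    have h1 := hWl W hind M hWM
    have h2 : M ≤ ρ * 1 := by
      rw [hM]
      have : Real.exp (-v) ≤ 1 := Real.exp_le_one_iff.mpr hc
      gcongr
    have h3 := hCρ Cw (by linarith)
    nlinarith
  obtain ⟨f, hf⟩ : ∃ f : ℝ, f = s * (2 * (wg - 1) * q) := ⟨_, rfl⟩
  have hFs : F ^ s ≤ CF ^ s * Real.exp f := by
    rw [hf, Real.exp_nat_mul, ← mul_pow]
    exact pow_le_pow_left₀ hF.le hFb s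
  have i2 : 0 < f - 2 * u := by
    by_contra hc
    push Not at hc
    have h1 := hprod W hind hL _ _ hk1 hk2
    have h3 : Cp * (C1 * κ * (C1 * F ^ s * κ)) ≤ C2 * ((κ * κ) * Real.exp f) := by
      rw [hC2]
      calc Cp * (C1 * κ * (C1 * F ^ s * κ)) = Cp * C1 * C1 * (κ * κ) * F ^ s := by ring
        _ ≤ Cp * C1 * C1 * (κ * κ) * (CF ^ s * Real.exp f) := by gcongr
        _ = _ := by ring
    have h4 : κ * κ * Real.exp f ≤ ρ * ρ := by
      have e1 : κ * κ * Real.exp f = ρ * ρ * Real.exp (f - 2 * u) := by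
        have e2 : f - 2 * u = -u + -u + f := by ring
        rw [hκ, e2, Real.exp_add, Real.exp_add]
        ring
      rw [e1]
      have h8 : Real.exp (f - 2 * u) ≤ 1 := Real.exp_le_one_iff.mpr hc
      calc ρ * ρ * Real.exp (f - 2 * u) ≤ ρ * ρ * 1 := by gcongr
        _ = ρ * ρ := mul_one _
    have h5 := hCρ C2 (by linarith)
    have h6 : C2 * ((κ * κ) * Real.exp f) ≤ C2 * (ρ * ρ) := by gcongr
    have h7 : C2 * (ρ * ρ) < 1 := by
      calc C2 * (ρ * ρ) = (C2 * ρ) * ρ := by ring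
        _ ≤ (C2 * ρ) * 1 := by gcongr
        _ < 1 := by linarith
    linarith
  have i3 : 0 < -v - u := by
    by_contra hc
    push Not at hc
    have hB : ∃ I : Fin (k + 1) → Fin (n + 1),
        (Matrix.of fun l c => (fun l j => ((W l j : ℤ) : ℝ)) l (I c)).det ≠ 0 := by
      obtain ⟨I, hI⟩ := exists_minor W hind
      refine ⟨I, fun h0 => hI ?_⟩
      have h2 := (Int.castRingHom ℝ).map_det (Matrix.of fun l c => W l (I c))
      have h3 : ((Int.castRingHom ℝ).mapMatrix (Matrix.of fun l c => W l (I c))) =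
          Matrix.of fun l c => (fun l j => ((W l j : ℤ) : ℝ)) l (I c) := by
        ext l c; simp
      rw [h3, h0] at h2
      simpa using h2
    have hk3 := hcmp (fun l j => ((W l j : ℤ) : ℝ)) hB M hWM
    have h1 := hprod W hind hL _ _ hk1 hk3
    have h4 : κ * M ≤ ρ * ρ := by
      have e1 : κ * M = ρ * ρ * Real.exp (-v - u) := by
        have e2 : -v - u = -u + -v := by ring
        rw [hκ, hM, e2, Real.exp_add]
        ring
      rw [e1]
      have h8 : Real.exp (-v - u) ≤ 1 := Real.exp_le_one_iff.mpr hc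
      calc ρ * ρ * Real.exp (-v - u) ≤ ρ * ρ * 1 := by gcongr
        _ = ρ * ρ := mul_one _
    have h5 := hCρ C3 (by linarith)
    have h6 : Cp * (C1 * κ * (Cd * M)) ≤ C3 * (ρ * ρ) := by
      rw [hC3]
      calc Cp * (C1 * κ * (Cd * M)) = Cp * C1 * Cd * (κ * M) := by ring
        _ ≤ _ := by gcongr
    have h7 : C3 * (ρ * ρ) < 1 := by
      calc C3 * (ρ * ρ) = (C3 * ρ) * ρ := by ring
        _ ≤ (C3 * ρ) * 1 := by gcongr
        _ < 1 := by linarith
    linarith
  -- the contradiction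
  have hk0 : (0 : ℝ) ≤ k := Nat.cast_nonneg k
  have hs1r : (1 : ℝ) ≤ s := by exact_mod_cast hs1
  apply root_arith k s (w - k) q h w wg hk0 hs1r (by linarith) (by ring) hq hh hwg
  · have e : (k + 1 : ℝ) * (h - s * q) = -v := by rw [hv]; ring
    rw [e]; exact i1
  · have e : s * (wg - 1) * q - (w - k) * h - (k - 1) * s * q = (f - 2 * u) / 2 := by
      rw [hf, hu]; ring
    rw [e]; linarith
  · have e : (k + 1) * (h - s * q) - (w - k) * h - (k - 1) * s * q = -v - u := by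
      rw [hv, hu]; ring
    rw [e]; exact i3

/-! ## Minors -/

theorem mT_W {n k : ℕ} (hk : k + 1 ≤ n + 1) (A : Fin (n + 1) → ℝ) (B : ℝ)
    (w : Fin (k + 1) → Fin (n + 1) → ℤ) (y x : ℝ) :
    mT A B w (fun c => some (Fin.castLE hk c)) y x =
      (∏ c : Fin (k + 1), A (Fin.castLE hk c)) * WW (fun l => toP (w l)) y := by
  unfold mT
  have h1 : (Matrix.of fun l c => hT A B y x (w l) (some (Fin.castLE hk c))) =
      Matrix.of fun l c => A (Fin.castLE hk c) *
        (Matrix.of fun l (c : Fin (k + 1)) => (hasseDeriv (c : ℕ) (toP (w l))).eval y) l c := by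
    ext l c
    simp [hT]
  rw [h1, det_mul_row]
  congr 1
  unfold WW ld
  congr 1
  ext1 l c
  simp only [Matrix.of_apply]
  refine Fin.lastCases ?_ (fun i => ?_) c
  · simp
  · simp [tay]

theorem mT_D {n k : ℕ} (hk : k ≤ n + 1) (A : Fin (n + 1) → ℝ) (B : ℝ)
    (w : Fin (k + 1) → Fin (n + 1) → ℤ) (y x : ℝ) :
    mT A B w (Fin.snoc (α := fun _ => Option (Fin (n + 1))) (fun c => some (Fin.castLE hk c)) none)
      y x = (∏ c : Fin k, A (Fin.castLE hk c)) * B * DD (fun l => toP (w l)) y x := by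
  unfold mT
  obtain ⟨v, hv⟩ : ∃ v : Fin (k + 1) → ℝ, v = Fin.snoc (α := fun _ => ℝ)
      (fun c => A (Fin.castLE hk c)) B := ⟨_, rfl⟩
  have h1 : (Matrix.of fun l c => hT A B y x (w l) ((Fin.snoc (α := fun _ => Option (Fin (n + 1)))
      (fun c => some (Fin.castLE hk c)) none : Fin (k + 1) → Option (Fin (n + 1))) c)) =
      Matrix.of fun l c => v c * (Matrix.of fun l => (Fin.snoc (α := fun _ => ℝ)
        (tay (fun l => toP (w l)) y l) ((toP (w l)).eval x) : Fin (k + 1) → ℝ)) l c := by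
    ext1 l c
    simp only [Matrix.of_apply, hv]
    refine Fin.lastCases ?_ (fun i => ?_) c
    · simp [hT]
    · simp [hT, tay]
  rw [h1, det_mul_row]
  have h2 : ∏ i, v i = (∏ c : Fin k, A (Fin.castLE hk c)) * B := by
    rw [Fin.prod_univ_castSucc, hv]
    simp
  rw [h2]
  rfl

theorem prod_wA {n k : ℕ} (hk : k ≤ n + 1) (q h : ℝ) :
    ∏ c : Fin k, wA n q h (Fin.castLE hk c) = Real.exp (k * (n - (k - 1)) * q - k * h) := by
  unfold wA
  rw [← Real.exp_sum]
  congr 1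
  simp only [Fin.val_castLE]
  have h1 : ∑ c : Fin k, ((n - 2 * ((c : ℕ) : ℝ)) * q - h) =
      ∑ c ∈ Finset.range k, ((n - 2 * (c : ℝ)) * q - h) :=
    Fin.sum_univ_eq_sum_range (fun c => ((n - 2 * (c : ℝ)) * q - h)) k
  rw [h1]
  clear h1 hk
  induction k with
  | zero => simp
  | succ k ih =>
    rw [Finset.sum_range_succ, ih]
    push_cast
    ring

/-- the full tuple -/
theorem WW_full {n : ℕ} (w : Fin (n + 1) → Fin (n + 1) → ℤ)
    (hind : LinearIndependent ℚ fun l => cv (w l)) (y : ℝ) : 1 ≤ |WW (fun l => toP (w l)) y| := by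
  have hdet : (Matrix.of w).det ≠ 0 := by
    intro h0
    obtain ⟨c, hc, hc0⟩ := Matrix.exists_vecMul_eq_zero_iff.2 h0
    apply hc
    have h1 : ∑ l, (c l : ℚ) • cv (w l) = 0 := by
      rw [← cv_sum]
      have : ∑ l, c l • w l = 0 := by
        funext i
        have h3 := congrFun hc0 i
        simpa [Matrix.vecMul, dotProduct] using h3
      rw [this]
      funext i
      simp [cv]
    have h2 := Fintype.linearIndependent_iff.1 hind (fun l => (c l : ℚ)) h1
    funext l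
    have := h2 l
    simpa using this
  set N : Matrix (Fin (n + 1)) (Fin (n + 1)) ℝ :=
    Matrix.of fun j c => (hasseDeriv (c : ℕ) (X ^ (j : ℕ) : ℝ[X])).eval y with hN
  have hNdet : N.det = 1 := by
    have ht : N.BlockTriangular OrderDual.toDual := by
      intro i j hij
      have hij' : (i : ℕ) < j := hij
      simp only [hN, Matrix.of_apply]
      rw [hasseDeriv_eq_zero_of_lt_natDegree _ _ (by rw [natDegree_X_pow]; exact hij'), eval_zero]
    rw [Matrix.det_of_isLowerTriangular N ht]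
    refine Finset.prod_eq_one fun i _ => ?_
    simp only [hN, Matrix.of_apply]
    have : hasseDeriv (i : ℕ) (X ^ (i : ℕ) : ℝ[X]) = 1 := by
      rw [← monomial_one_right_eq_X_pow, hasseDeriv_monomial]
      simp
    rw [this, eval_one]
  have h1 : WW (fun l => toP (w l)) y =
      ((Matrix.of fun l j => ((w l j : ℤ) : ℝ)) * N).det := by
    unfold WW ld
    congr 1
    ext1 l c
    rw [Matrix.mul_apply]
    simp only [Matrix.of_apply, hN]
    refine Fin.lastCases ?_ (fun i => ?_) c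
    · simp only [Fin.snoc_last, Fin.val_last, toP_eq_toR, hasse_toR]
    · simp only [Fin.snoc_castSucc, tay, toP_eq_toR, hasse_toR, Fin.val_castSucc]
  rw [h1, Matrix.det_mul, hNdet, mul_one]
  have h3 : (Matrix.of fun l c => ((w l c : ℤ) : ℝ)).det = ((Matrix.of w).det : ℝ) := by
    have := (Int.castRingHom ℝ).map_det (Matrix.of w)
    simp only [eq_intCast] at this
    rw [this]
    rfl
  rw [h3]
  have : 1 ≤ |(Matrix.of w).det| := Int.one_le_abs hdet
  exact_mod_cast this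

theorem PsT_full {n j : ℕ} (hj : j = n + 1) (W : Fin j → Fin (n + 1) → ℤ)
    (hind : LinearIndependent ℚ fun l => cv (W l)) (w : ℝ) (hw : (n : ℝ) ≤ w) (q h y x : ℝ)
    (hh : 0 ≤ h) (hy : y ≤ 0) (hx : 1 ≤ x) :
    1 ≤ PsT (wA n q h) (wB n w q h) W y x := by
  subst hj
  refine le_trans ?_ (le_PsT (wA n q h) (wB n w q h) W y x
    (Fin.snoc (α := fun _ => Option (Fin (n + 1)))
      (fun c => some (Fin.castLE (by omega : n ≤ n + 1) c)) none))
  rw [mT_D, prod_wA, DD_full _ (fun l => toP_natDegree _)]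
  have h1 := WW_full W hind y
  rw [abs_mul, abs_mul, abs_mul, abs_pow]
  have h2 : 1 ≤ |x - y| := by
    refine le_trans ?_ (le_abs_self _)
    linarith
  have h3 : (1 : ℝ) ≤ |x - y| ^ n := one_le_pow₀ h2
  have h4 : 1 ≤ |Real.exp (n * (n - (n - 1)) * q - n * h)| * |wB n w q h| := by
    unfold wB
    rw [abs_of_pos (Real.exp_pos _), abs_of_pos (Real.exp_pos _), ← Real.exp_add]
    apply Real.one_le_exp
    have e : n * (n - (n - 1)) * q - n * h + (w * h - n * q) = (w - n) * h := by ring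
    rw [e]
    exact mul_nonneg (by linarith) hh
  calc (1 : ℝ) = 1 * (1 * 1) := by norm_num
    _ ≤ _ := by gcongr

/-- lower bounds at the root -/
theorem root_all (n : ℕ) (w wg : ℝ) (hw : (n : ℝ) ≤ w) (hwg : wg = w ∨ wg = w + 1)
    (Y : (ℕ → Bool) → ℝ) (hYi : Function.Injective Y) (hYr : ∀ s, -1 ≤ Y s ∧ Y s ≤ 0)
    (R0 CF : ℝ) (hR0 : 1 ≤ R0) (hCF : 1 ≤ CF) (t : Fin (n + 1) → (ℕ → Bool)) :
    ∃ ρ : ℝ, 0 < ρ ∧ ρ ≤ 1 ∧ ∀ (q h F : ℝ) (X : (ℕ → Bool) → ℝ), 0 ≤ q → 0 ≤ h → 0 < F →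
      F ≤ CF * Real.exp (2 * (wg - 1) * q) → (∀ s, 1 ≤ X s ∧ X s ≤ 3) →
      (∀ i j, i ≠ j → |Real.goldenRatio - X (t j)| ≤ R0 * |X (t i) - X (t j)| ∧
        4 ≤ R0 * F * |X (t i) - X (t j)|) →
      ∀ (j : ℕ) (W : Fin j → Fin (n + 1) → ℤ), 1 ≤ j → j ≤ n →
        (LinearIndependent ℚ fun l => cv (W l)) →
        (∃ l, (toP (W l)).eval Real.goldenRatio ≠ 0) →
        ∃ v : Om, ρ ≤ PsT (wA n q h) (wB n w q h) W (Y v.1) (X v.2) := by
  classical
  have hinf : (Set.range Y).Infinite := by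
    have : Infinite (ℕ → Bool) := by infer_instance
    exact Set.infinite_range_of_injective hYi
  have hS : ∀ k : ℕ, ∃ S : Finset ℝ, (S : Set ℝ) ⊆ Set.range Y ∧ S.card = (k + 1) * n + 1 :=
    fun k => hinf.exists_subset_card_eq _
  choose S hSr hSc using hS
  have hρk : ∀ k : ℕ, ∃ ρ : ℝ, 0 < ρ ∧ ρ ≤ 1 ∧ (k + 1 ≤ n → ∀ (q h F : ℝ)
      (x : Fin (n - k + 1) → ℝ), 0 ≤ q → 0 ≤ h → 0 < F →
      F ≤ CF * Real.exp (2 * (wg - 1) * q) → (∀ i, 1 ≤ x i ∧ x i ≤ 3) →
      (∀ i j, i ≠ j → |Real.goldenRatio - x j| ≤ R0 * |x i - x j| ∧ 4 ≤ R0 * F * |x i - x j|) →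
      ∀ W : Fin (k + 1) → Fin (n + 1) → ℤ, (LinearIndependent ℚ fun l => cv (W l)) →
        (∃ l, (toP (W l)).eval Real.goldenRatio ≠ 0) →
        (∀ y ∈ S k, Real.exp ((k + 1) * ((n - k) * q - h)) * |WW (fun l => toP (W l)) y| ≤ ρ) →
        (∀ y ∈ S k, ∀ i, Real.exp ((w - k) * h + (k - 1) * (n - k) * q) *
          |DD (fun l => toP (W l)) y (x i)| ≤ ρ) → False) := by
    intro k
    by_cases hk : k + 1 ≤ n
    · obtain ⟨ρ, h1, h2, h3⟩ := root_k n k hk w wg hw hwg (S k) (hSc k) (by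
        intro y hy
        obtain ⟨s, hs⟩ := hSr k hy
        rw [← hs]
        exact hYr s) R0 CF hR0 hCF
      exact ⟨ρ, h1, h2, fun _ => h3⟩
    · exact ⟨1, one_pos, le_rfl, fun h => absurd h hk⟩
  choose ρk hk0 hk1 hk2 using hρk
  refine ⟨∏ k ∈ Finset.range n, ρk k, Finset.prod_pos fun k _ => hk0 k,
    Finset.prod_le_one (fun k _ => (hk0 k).le) (fun k _ => hk1 k), ?_⟩
  intro q h F X hq hh hF hFb hX hsep j W hj1 hjn hind hL
  obtain ⟨k, rfl⟩ : ∃ k, j = k + 1 := ⟨j - 1, by omega⟩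
  have hle : ∏ k ∈ Finset.range n, ρk k ≤ ρk k := by
    rw [← Finset.mul_prod_erase _ _ (Finset.mem_range.mpr (by omega : k < n))]
    have h1 : ∏ x ∈ (Finset.range n).erase k, ρk x ≤ 1 :=
      Finset.prod_le_one (fun k _ => (hk0 k).le) (fun k _ => hk1 k)
    calc ρk k * ∏ x ∈ (Finset.range n).erase k, ρk x ≤ ρk k * 1 := by
          have := (hk0 k).le
          gcongr
      _ = ρk k := mul_one _
  by_contra! hcon
  have hkn : ((n - k : ℕ) : ℝ) = n - k := by rw [Nat.cast_sub (by omega)]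
  apply hk2 k hjn q h F (fun i => X (t (Fin.castLE (by omega) i))) hq hh hF hFb
    (fun i => hX _) (fun i j hij => hsep _ _ (fun he => hij (by
      have := congrArg Fin.val he
      exact Fin.ext this))) W hind hL
  · intro y hy
    obtain ⟨s, hs⟩ := hSr k hy
    have h1 := hcon (s, fun _ => true)
    have h2 := le_PsT (wA n q h) (wB n w q h) W (Y s) (X fun _ => true)
      (fun c => some (Fin.castLE (by omega : k + 1 ≤ n + 1) c))
    rw [mT_W, prod_wA, abs_mul, abs_of_pos (Real.exp_pos _)] at h2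
    rw [← hs]
    have e : ((k + 1 : ℕ) : ℝ) * (n - (((k + 1 : ℕ) : ℝ) - 1)) * q - ((k + 1 : ℕ) : ℝ) * h =
        (k + 1) * ((n - k) * q - h) := by push_cast; ring
    rw [e] at h2
    simp only at h1
    linarith
  · intro y hy i
    obtain ⟨s, hs⟩ := hSr k hy
    have h1 := hcon (s, t (Fin.castLE (by omega) i))
    have h2 := le_PsT (wA n q h) (wB n w q h) W (Y s) (X (t (Fin.castLE (by omega) i)))
      (Fin.snoc (α := fun _ => Option (Fin (n + 1)))
        (fun c => some (Fin.castLE (by omega : k ≤ n + 1) c)) none)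
    rw [mT_D, prod_wA, abs_mul, abs_mul, abs_of_pos (Real.exp_pos _)] at h2
    unfold wB at h2
    rw [abs_of_pos (Real.exp_pos _), ← Real.exp_add] at h2
    rw [← hs]
    have e : (k : ℝ) * (n - (k - 1)) * q - k * h + (w * h - n * q) =
        (w - k) * h + (k - 1) * (n - k) * q := by ring
    rw [e] at h2
    simp only at h1
    unfold wB at h1
    linarith

end Pool.Agent.W72
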