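import Mathlib
import Pool.Agent.W72.BaF

set_option autoImplicit false

namespace Pool.Agent.W72

open Matrix

/-! ## Words -/

/-- word followed by a sequence -/
def app : List Bool → (ℕ → Bool) → (ℕ → Bool)
  | [], s => s
  | b :: L, s => scons b (app L s)

theorem app_append (L L' : List Bool) (s : ℕ → Bool) : app (L ++ L') s = app L (app L' s) := by
  induction L with
  | nil => rfl
  | cons b L ih => simp [app, ih]

theorem app_agr (L : List Bool) (s t : ℕ → Bool) (j : ℕ) (h : Agr j s t) :
    Agr (L.length + j) (app L s) (app L t) := by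
  induction L with
  | nil => simpa [app] using h
  | cons b L ih =>
    have e : (b :: L).length + j = (L.length + j) + 1 := by simp; ring
    rw [e]
    exact Agr.of_tail rfl ih

theorem app_injective (L : List Bool) : Function.Injective (app L) := by
  induction L with
  | nil => exact fun _ _ h => h
  | cons b L ih =>
    intro s t h
    apply ih
    have := congrArg stail h
    simpa [app] using this

def dz (b : Bool) : ℤ := if b then 2 else 1

theorem dz_cast (b : Bool) : ((dz b : ℤ) : ℝ) = dg b := by cases b <;> simp [dz, dg]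
theorem dz_ge (b : Bool) : 1 ≤ dz b := by cases b <;> simp [dz]
theorem dz_le (b : Bool) : dz b ≤ 2 := by cases b <;> simp [dz]

def Mb (b : Bool) : Matrix (Fin 2) (Fin 2) ℤ := !![dz b, 1; 1, 0]

def MM (L : List Bool) : Matrix (Fin 2) (Fin 2) ℤ := (L.map Mb).prod

theorem MM_nil : MM [] = 1 := rfl
theorem MM_cons (b : Bool) (L : List Bool) : MM (b :: L) = Mb b * MM L := by simp [MM]
theorem MM_append (L L' : List Bool) : MM (L ++ L') = MM L * MM L' := by simp [MM]

theorem MM_transpose (L : List Bool) : (MM L)ᵀ = MM L.reverse := by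
  induction L with
  | nil => simp [MM_nil]
  | cons b L ih =>
    rw [MM_cons, Matrix.transpose_mul, ih, List.reverse_cons, MM_append]
    congr 1
    simp only [MM, List.map_cons, List.map_nil, List.prod_cons, List.prod_nil, mul_one]
    unfold Mb
    ext i j
    fin_cases i <;> fin_cases j <;> rfl

theorem MM_cons_00 (b : Bool) (L : List Bool) : MM (b :: L) 0 0 = dz b * MM L 0 0 + MM L 1 0 := by
  rw [MM_cons, Matrix.mul_apply, Fin.sum_univ_two]; simp [Mb]
theorem MM_cons_01 (b : Bool) (L : List Bool) : MM (b :: L) 0 1 = dz b * MM L 0 1 + MM L 1 1 := by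
  rw [MM_cons, Matrix.mul_apply, Fin.sum_univ_two]; simp [Mb]
theorem MM_cons_10 (b : Bool) (L : List Bool) : MM (b :: L) 1 0 = MM L 0 0 := by
  rw [MM_cons, Matrix.mul_apply, Fin.sum_univ_two]; simp [Mb]
theorem MM_cons_11 (b : Bool) (L : List Bool) : MM (b :: L) 1 1 = MM L 0 1 := by
  rw [MM_cons, Matrix.mul_apply, Fin.sum_univ_two]; simp [Mb]

theorem MM_det (L : List Bool) : MM L 0 0 * MM L 1 1 - MM L 0 1 * MM L 1 0 = (-1) ^ L.length := by
  induction L with
  | nil => simp [MM_nil]
  | cons b L ih =>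
    rw [MM_cons_00, MM_cons_01, MM_cons_10, MM_cons_11, List.length_cons, pow_succ, ← ih]
    ring

theorem MM_det_abs (L : List Bool) : |MM L 0 0 * MM L 1 1 - MM L 0 1 * MM L 1 0| = 1 := by
  rw [MM_det, abs_pow, abs_neg, abs_one, one_pow]

theorem MM_nonneg (L : List Bool) : 1 ≤ MM L 0 0 ∧ 0 ≤ MM L 0 1 ∧ 0 ≤ MM L 1 0 ∧ 0 ≤ MM L 1 1 := by
  induction L with
  | nil => simp [MM_nil]
  | cons b L ih =>
    obtain ⟨h1, h2, h3, h4⟩ := ih
    have hb := dz_ge b
    rw [MM_cons_00, MM_cons_01, MM_cons_10, MM_cons_11]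
    refine ⟨by nlinarith, by nlinarith, by linarith, h2⟩

/-- relations between the entries -/
theorem MM_rel (L : List Bool) (hL : L ≠ []) : 1 ≤ MM L 1 0 ∧ MM L 1 1 ≤ MM L 1 0 ∧
    MM L 1 0 ≤ MM L 0 0 ∧ MM L 0 1 ≤ MM L 0 0 := by
  induction L with
  | nil => exact absurd rfl hL
  | cons b L ih =>
    have hb := dz_ge b
    obtain ⟨h1, h2, h3, h4⟩ := MM_nonneg L
    rw [MM_cons_00, MM_cons_01, MM_cons_10, MM_cons_11]
    by_cases hL' : L = []
    · subst hL'
      simp only [MM_nil, Matrix.one_apply_eq, ne_eq, one_ne_zero, not_false_eq_true,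
        Matrix.one_apply_ne, zero_ne_one]
      refine ⟨by norm_num, by norm_num, by linarith, by linarith⟩
    · obtain ⟨g1, g2, g3, g4⟩ := ih hL'
      refine ⟨h1, g4, by nlinarith, by nlinarith⟩

theorem MM_rel2 (L : List Bool) : MM L 0 0 ≤ 3 ^ L.length ∧ MM L 0 1 ≤ 3 ^ L.length ∧
    MM L 1 0 ≤ 3 ^ L.length ∧ MM L 1 1 ≤ 3 ^ L.length := by
  induction L with
  | nil => simp [MM_nil]
  | cons b L ih =>
    have hb := dz_le b
    obtain ⟨h1, h2, h3, h4⟩ := MM_nonneg L
    obtain ⟨g1, g2, g3, g4⟩ := ih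
    rw [MM_cons_00, MM_cons_01, MM_cons_10, MM_cons_11, List.length_cons, pow_succ]
    have h0 : (1 : ℤ) ≤ 3 ^ L.length := one_le_pow₀ (by norm_num)
    refine ⟨by nlinarith, by nlinarith, by linarith, by linarith⟩

theorem MM_growth (L : List Bool) : (2 : ℤ) ^ L.length ≤ 2 * MM L 0 0 ^ 2 := by
  induction h : L.length using Nat.strong_induction_on generalizing L with
  | _ N ih =>
    match L, h with
    | [], h => simp at h; subst h; simp [MM_nil]
    | [b], h =>
      simp at h; subst h
      have hb := dz_ge b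
      rw [MM_cons_00, MM_nil]
      simp
      exact le_trans hb (le_abs_self _)
    | b :: b' :: L, h =>
      simp only [List.length_cons] at h
      have h1 := ih L.length (by omega) L rfl
      have hb := dz_ge b
      have hb' := dz_ge b'
      obtain ⟨g1, g2, g3, g4⟩ := MM_nonneg L
      have h2 : 2 * MM L 0 0 ≤ MM (b :: b' :: L) 0 0 := by
        rw [MM_cons_00, MM_cons_00, MM_cons_10]
        nlinarith [mul_nonneg (by linarith : (0 : ℤ) ≤ dz b - 1)
          (by nlinarith : (0 : ℤ) ≤ dz b' * MM L 0 0 + MM L 1 0)]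
      rw [← h, pow_succ, pow_succ]
      have h3 : (2 * MM L 0 0) ^ 2 ≤ MM (b :: b' :: L) 0 0 ^ 2 :=
        pow_le_pow_left₀ (by linarith) h2 2
      nlinarith

/-- real entries -/
noncomputable def re (L : List Bool) (i j : Fin 2) : ℝ := ((MM L i j : ℤ) : ℝ)

theorem re_nonneg (L : List Bool) : 1 ≤ re L 0 0 ∧ 0 ≤ re L 0 1 ∧ 0 ≤ re L 1 0 ∧ 0 ≤ re L 1 1 := by
  obtain ⟨h1, h2, h3, h4⟩ := MM_nonneg L
  unfold re
  exact ⟨by exact_mod_cast h1, by exact_mod_cast h2, by exact_mod_cast h3, by exact_mod_cast h4⟩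

theorem re_rel (L : List Bool) (hL : L ≠ []) : 1 ≤ re L 1 0 ∧ re L 1 1 ≤ re L 1 0 ∧
    re L 1 0 ≤ re L 0 0 ∧ re L 0 1 ≤ re L 0 0 := by
  obtain ⟨h1, h2, h3, h4⟩ := MM_rel L hL
  unfold re
  exact ⟨by exact_mod_cast h1, by exact_mod_cast h2, by exact_mod_cast h3, by exact_mod_cast h4⟩

theorem re_det (L : List Bool) : |re L 0 0 * re L 1 1 - re L 0 1 * re L 1 0| = 1 := by
  have h := MM_det_abs L
  unfold re
  exact_mod_cast h

theorem re_den_pos (L : List Bool) {z : ℝ} (hz : 0 < z) : 0 < re L 1 0 * z + re L 1 1 := by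
  by_cases hL : L = []
  · subst hL; simp [re, MM_nil]
  · have h1 := re_rel L hL
    have h2 := re_nonneg L
    have : 0 < re L 1 0 * z := mul_pos (by linarith) hz
    linarith

/-- the Möbius map of a word -/
noncomputable def mL (L : List Bool) (z : ℝ) : ℝ := mob (re L 0 0) (re L 0 1) (re L 1 0) (re L 1 1) z

theorem mL_nil (z : ℝ) : mL [] z = z := by simp [mL, mob, re, MM_nil]

theorem mL_num_pos (L : List Bool) {z : ℝ} (hz : 0 < z) : 0 < re L 0 0 * z + re L 0 1 := by
  have h := re_nonneg L
  have : 0 < re L 0 0 * z := mul_pos (by linarith) hz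
  linarith

theorem mL_pos (L : List Bool) {z : ℝ} (hz : 0 < z) : 0 < mL L z :=
  div_pos (mL_num_pos L hz) (re_den_pos L hz)

theorem mL_cons (b : Bool) (L : List Bool) {z : ℝ} (hz : 0 < z) :
    mL (b :: L) z = dg b + 1 / mL L z := by
  have h1 := mL_num_pos L hz
  have h2 := re_den_pos L hz
  have h3 := re_den_pos (b :: L) hz
  unfold mL mob
  have e0 : re (b :: L) 0 0 = dg b * re L 0 0 + re L 1 0 := by
    unfold re; rw [MM_cons_00]; push_cast; rw [dz_cast]
  have e1 : re (b :: L) 0 1 = dg b * re L 0 1 + re L 1 1 := by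
    unfold re; rw [MM_cons_01]; push_cast; rw [dz_cast]
  have e2 : re (b :: L) 1 0 = re L 0 0 := by unfold re; rw [MM_cons_10]
  have e3 : re (b :: L) 1 1 = re L 0 1 := by unfold re; rw [MM_cons_11]
  have e5 : (re L 1 0 * z + re L 1 1) / (re L 0 0 * z + re L 0 1) *
      (re L 0 0 * z + re L 0 1) = re L 1 0 * z + re L 1 1 := div_mul_cancel₀ _ h1.ne'
  rw [e0, e1, e2, e3, one_div_div, div_eq_iff h1.ne']
  linear_combination (-1 : ℝ) * e5

theorem mL_append (L L' : List Bool) {z : ℝ} (hz : 0 < z) : mL (L ++ L') z = mL L (mL L' z) := by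
  induction L with
  | nil => rw [List.nil_append, mL_nil]
  | cons b L ih => rw [List.cons_append, mL_cons b _ hz, ih, mL_cons b _ (mL_pos L' hz)]

theorem eta_app (L : List Bool) (s : ℕ → Bool) : eta (app L s) = mL L (eta s) := by
  induction L with
  | nil => rw [mL_nil]; rfl
  | cons b L ih => rw [mL_cons b L (eta_pos s), ← ih]; exact eta_scons b _

theorem mL_sub (L : List Bool) {z w : ℝ} (hz : 0 < z) (hw : 0 < w) :
    |mL L z - mL L w| = |z - w| / ((re L 1 0 * z + re L 1 1) * (re L 1 0 * w + re L 1 1)) := by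
  have h1 := re_den_pos L hz
  have h2 := re_den_pos L hw
  unfold mL
  rw [mob_sub h1.ne' h2.ne', abs_div, abs_mul, re_det, one_mul, abs_of_pos (mul_pos h1 h2)]

/-! ## The golden ratio -/

theorem eta_inj : Function.Injective eta := by
  intro s t h
  by_contra hne
  obtain ⟨i, hi⟩ : ∃ i, s i ≠ t i := by
    by_contra! hc
    exact hne (funext hc)
  have h1 := eta_sep (i + 1) s t (fun hA => hi (hA i (by omega)))
  rw [h, sub_self, abs_zero] at h1
  have : (0 : ℝ) < 1 / 2 * (1 / 9 : ℝ) ^ (i + 1) := by positivity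
  linarith

theorem phi_fix (m : ℕ) : mL (List.replicate m false) Real.goldenRatio = Real.goldenRatio := by
  have hphi : 0 < Real.goldenRatio := Real.goldenRatio_pos
  induction m with
  | zero => exact mL_nil _
  | succ m ih =>
    rw [List.replicate_succ, mL_cons _ _ hphi, ih]
    have h1 : dg false = 1 := by simp [dg]
    rw [h1]
    have h2 := Real.goldenRatio_sq
    have h3 : 1 / Real.goldenRatio = Real.goldenRatio - 1 := by
      rw [div_eq_iff hphi.ne']
      linear_combination (-1 : ℝ) * h2
    rw [h3]; ring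

/-- the block of ones -/
noncomputable def NN (m : ℕ) : ℝ := re (List.replicate m false) 1 0

theorem NN_pos (m : ℕ) (hm : 1 ≤ m) : 1 ≤ NN m :=
  (re_rel _ (by intro h; have := congrArg List.length h; simp at this; omega)).1

/-- the points `x` -/
noncomputable def XX (m : ℕ) (t : ℕ → Bool) : ℝ :=
  eta (app (List.replicate m false ++ [true]) t)

noncomputable def YY (s : ℕ → Bool) : ℝ := -1 / eta (scons true s)

theorem XX_eq (m : ℕ) (t : ℕ → Bool) :
    XX m t = mL (List.replicate m false) (eta (scons true t)) := by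
  unfold XX
  rw [app_append, eta_app]
  rfl

theorem XX_mob (m : ℕ) (t : ℕ → Bool) : XX m t =
    mob (re (List.replicate m false ++ [true]) 0 0) (re (List.replicate m false ++ [true]) 0 1)
      (re (List.replicate m false ++ [true]) 1 0) (re (List.replicate m false ++ [true]) 1 1)
      (eta t) := by
  unfold XX
  rw [eta_app]
  rfl

theorem YY_mob (s : ℕ → Bool) : YY s = mob (-1) 0 2 1 (eta s) := by
  have h := eta_pos s
  unfold YY mob
  rw [eta_scons]
  have h1 : dg true = 2 := by simp [dg]
  rw [h1]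
  field_simp
  ring

theorem XX_Sep (m : ℕ) : Sep 9 (XX m) := by
  have h : XX m = fun t => mob (re (List.replicate m false ++ [true]) 0 0)
      (re (List.replicate m false ++ [true]) 0 1)
      (re (List.replicate m false ++ [true]) 1 0) (re (List.replicate m false ++ [true]) 1 1)
      (eta t) := funext (XX_mob m)
  rw [h]
  have h1 := re_nonneg (List.replicate m false ++ [true])
  have h2 := re_rel (List.replicate m false ++ [true]) (by simp)
  exact mob_Sep _ _ _ _ h1.2.2.1 h1.2.2.2 (by linarith)

theorem YY_Sep : Sep 9 YY := by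
  have h : YY = fun s => mob (-1) 0 2 1 (eta s) := funext YY_mob
  rw [h]
  exact mob_Sep _ _ _ _ (by norm_num) (by norm_num) (by norm_num)

theorem XX_inj (m : ℕ) : Function.Injective (XX m) := by
  intro s t h
  exact app_injective _ (eta_inj h)

theorem scons_inj (b : Bool) : Function.Injective (scons b) := by
  intro s t h
  have := congrArg stail h
  simpa using this

theorem YY_inj : Function.Injective YY := by
  intro s t h
  apply scons_inj true
  apply eta_inj
  unfold YY at h
  have h1 := (eta_pos (scons true s)).ne'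
  have h2 := (eta_pos (scons true t)).ne'
  rw [div_eq_div_iff h1 h2] at h
  linarith

theorem mob_eta_cont (a b c e : ℝ) (hc : 0 ≤ c) (he : 0 ≤ e) (hce : 0 < c + e) :
    Continuous fun s => mob a b c e (eta s) := by
  unfold mob
  exact ((continuous_const.mul eta_continuous).add continuous_const).div
    ((continuous_const.mul eta_continuous).add continuous_const)
    (fun s => (mob_den_pos hc he hce s).ne')

theorem XX_cont (m : ℕ) : Continuous (XX m) := by
  have h : XX m = fun t => mob (re (List.replicate m false ++ [true]) 0 0)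
      (re (List.replicate m false ++ [true]) 0 1)
      (re (List.replicate m false ++ [true]) 1 0) (re (List.replicate m false ++ [true]) 1 1)
      (eta t) := funext (XX_mob m)
  rw [h]
  have h1 := re_nonneg (List.replicate m false ++ [true])
  have h2 := re_rel (List.replicate m false ++ [true]) (by simp)
  exact mob_eta_cont _ _ _ _ h1.2.2.1 h1.2.2.2 (by linarith)

theorem YY_cont : Continuous YY := by
  have h : YY = fun s => mob (-1) 0 2 1 (eta s) := funext YY_mob
  rw [h]
  exact mob_eta_cont _ _ _ _ (by norm_num) (by norm_num) (by norm_num)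

theorem XX_mem (m : ℕ) (t : ℕ → Bool) : 1 ≤ XX m t ∧ XX m t ≤ 3 := by
  unfold XX
  have h1 := eta_ge (app (List.replicate m false ++ [true]) t)
  exact ⟨by linarith, eta_le _⟩

theorem YY_mem (s : ℕ → Bool) : -1 ≤ YY s ∧ YY s ≤ 0 := by
  unfold YY
  have h1 := eta_ge (scons true s)
  have h2 := eta_pos (scons true s)
  constructor
  · rw [le_div_iff₀ h2]; linarith
  · exact div_nonpos_of_nonpos_of_nonneg (by norm_num) h2.le

/-- separated points near the golden ratio -/
theorem XX_points (n : ℕ) : ∃ (R0 : ℝ) (t : Fin (n + 1) → (ℕ → Bool)), 1 ≤ R0 ∧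
    ∀ m, 1 ≤ m → ∀ i j, i ≠ j →
      |Real.goldenRatio - XX m (t j)| ≤ R0 * |XX m (t i) - XX m (t j)| ∧
      4 ≤ R0 * NN m ^ 2 * |XX m (t i) - XX m (t j)| := by
  classical
  set t : Fin (n + 1) → (ℕ → Bool) := fun i j => decide (j = (i : ℕ)) with ht
  have htinj : Function.Injective t := by
    intro i j hij
    have := congrFun hij i
    simp only [ht, decide_true] at this
    have h2 := of_decide_eq_true this.symm
    exact Fin.ext h2
  set z : Fin (n + 1) → ℝ := fun i => eta (scons true (t i)) with hz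
  have hzinj : Function.Injective z := fun i j h => htinj (scons_inj true (eta_inj h))
  obtain ⟨c, hc, hcc⟩ : ∃ c : ℝ, 0 < c ∧ ∀ i j, i ≠ j → c ≤ |z i - z j| := by
    set T : Finset (Fin (n + 1) × Fin (n + 1)) := Finset.univ.filter fun p => p.1 ≠ p.2 with hT
    rcases T.eq_empty_or_nonempty with h | h
    · refine ⟨1, one_pos, fun i j hij => ?_⟩
      have : (i, j) ∈ T := by simp [hT, hij]
      rw [h] at this
      exact absurd this (Finset.notMem_empty _)
    · obtain ⟨p, hp, hmin⟩ := T.exists_min_image (fun p => |z p.1 - z p.2|) h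
      refine ⟨|z p.1 - z p.2|, ?_, fun i j hij => hmin (i, j) (by simp [hT, hij])⟩
      have hne : p.1 ≠ p.2 := (Finset.mem_filter.mp hp).2
      exact abs_pos.mpr (sub_ne_zero.mpr fun h => hne (hzinj h))
  refine ⟨64 / c + 1, t, by have : 0 < 64 / c := by positivity
                            linarith, fun m hm i j hij => ?_⟩
  have hzi : ∀ i, 4 / 3 ≤ z i ∧ z i ≤ 3 := fun i => ⟨eta_ge _, eta_le _⟩
  have hzpos : ∀ i, 0 < z i := fun i => by have := (hzi i).1; linarith
  have hphi := phi_bounds
  have hN := NN_pos m hm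
  obtain ⟨N', hN'⟩ : ∃ N', N' = re (List.replicate m false) 1 1 := ⟨_, rfl⟩
  have hN'0 : 0 ≤ N' := by rw [hN']; exact (re_nonneg _).2.2.2
  have hN'N : N' ≤ NN m := by
    rw [hN']
    exact (re_rel _ (by intro h; have := congrArg List.length h; simp at this; omega)).2.1
  have e1 : |XX m (t i) - XX m (t j)| = |z i - z j| / ((NN m * z i + N') * (NN m * z j + N')) := by
    rw [XX_eq, XX_eq, mL_sub _ (hzpos i) (hzpos j), hN']
    rfl
  have e2 : |Real.goldenRatio - XX m (t j)| =
      |Real.goldenRatio - z j| / ((NN m * Real.goldenRatio + N') * (NN m * z j + N')) := by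
    rw [XX_eq]
    conv_lhs => rw [← phi_fix m]
    rw [mL_sub _ (by linarith) (hzpos j), hN']
    rfl
  have d1 : 0 < NN m * z i + N' := by have := hzpos i; positivity
  have d2 : 0 < NN m * z j + N' := by have := hzpos j; positivity
  have d3 : 0 < NN m * Real.goldenRatio + N' := by
    have : 0 < NN m * Real.goldenRatio := by
      have : 0 < Real.goldenRatio := by linarith
      positivity
    linarith
  have hcz := hcc i j hij
  have hR : 64 ≤ (64 / c + 1) * |z i - z j| := by
    have h1 : 64 / c * c = 64 := by field_simp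
    have h2 : 0 < 64 / c := by positivity
    nlinarith
  rw [e1, e2]
  constructor
  · rw [div_le_iff₀ (mul_pos d3 d2)]
    have e3 : (64 / c + 1) * (|z i - z j| / ((NN m * z i + N') * (NN m * z j + N'))) *
        ((NN m * Real.goldenRatio + N') * (NN m * z j + N')) =
        ((64 / c + 1) * |z i - z j|) * ((NN m * Real.goldenRatio + N') / (NN m * z i + N')) := by
      obtain ⟨Z, hZ⟩ : ∃ Z, Z = NN m * z i + N' := ⟨_, rfl⟩
      obtain ⟨U, hU⟩ : ∃ U, U = NN m * z j + N' := ⟨_, rfl⟩
      rw [← hZ] at d1 ⊢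
      rw [← hU] at d2 ⊢
      field_simp
    rw [e3]
    have h1 : |Real.goldenRatio - z j| ≤ 3 := by
      have := hzi j
      rw [abs_le]; constructor <;> linarith
    have h2 : 1 / 3 ≤ (NN m * Real.goldenRatio + N') / (NN m * z i + N') := by
      rw [le_div_iff₀ d1]
      have := (hzi i).2
      nlinarith
    calc |Real.goldenRatio - z j| ≤ 64 * (1 / 3) := by linarith
      _ ≤ _ := by gcongr
  · have e3 : (64 / c + 1) * NN m ^ 2 * (|z i - z j| / ((NN m * z i + N') * (NN m * z j + N'))) =
        ((64 / c + 1) * |z i - z j|) *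
          (NN m ^ 2 / ((NN m * z i + N') * (NN m * z j + N'))) := by ring
    rw [e3]
    have h1 : 1 / 16 ≤ NN m ^ 2 / ((NN m * z i + N') * (NN m * z j + N')) := by
      rw [le_div_iff₀ (mul_pos d1 d2)]
      have a1 : NN m * z i + N' ≤ 4 * NN m := by have := (hzi i).2; nlinarith
      have a2 : NN m * z j + N' ≤ 4 * NN m := by have := (hzi j).2; nlinarith
      have a3 : (NN m * z i + N') * (NN m * z j + N') ≤ (4 * NN m) * (4 * NN m) :=
        mul_le_mul a1 a2 d2.le (by positivity)
      nlinarith
    calc (4 : ℝ) = 64 * (1 / 16) := by norm_num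
      _ ≤ _ := by gcongr

end Pool.Agent.W72
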