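import Mathlib
import Pool.Agent.W72.BaG

set_option autoImplicit false

namespace Pool.Agent.W72

open Polynomial Matrix MeasureTheory
open Pool.Agent.Results.MP_c5a493_nt.UniformBound (cv cv_sum cv_inj rk tup rk_eq tup_mem tup_ind
  tup_rep tup_span exists_minor)

/-- rational vectors of polynomials vanishing at the golden ratio -/
noncomputable def LL (n : ℕ) : Submodule ℚ (Fin (n + 1) → ℚ) :=
  LinearMap.ker (∑ j : Fin (n + 1), (LinearMap.proj (R := ℚ) (φ := fun _ : Fin (n + 1) => ℚ) j).smulRight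
    ((Real.goldenRatio ^ (j : ℕ) : ℝ)))

theorem mem_LL {n : ℕ} (a : Fin (n + 1) → ℤ) :
    cv a ∈ LL n ↔ (toP a).eval Real.goldenRatio = 0 := by
  unfold LL
  rw [LinearMap.mem_ker]
  have : (∑ j : Fin (n + 1), (LinearMap.proj (R := ℚ) (φ := fun _ : Fin (n + 1) => ℚ) j).smulRight
    ((Real.goldenRatio ^ (j : ℕ) : ℝ))) (cv a) = (toP a).eval Real.goldenRatio := by
    rw [toP_eq_toR, eval_toR]
    simp only [LinearMap.sum_apply, LinearMap.smulRight_apply, LinearMap.proj_apply, cv]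
    refine Finset.sum_congr rfl fun j _ => ?_
    rw [Rat.smul_def]
    simp
  rw [this]

/-- the constant -/
theorem bad_aux (n : ℕ) (w wg : ℝ) (hw : (n : ℝ) ≤ w) (hwg : wg = w ∨ wg = w + 1)
    (CF : ℝ) (hCF : 1 ≤ CF) : ∃ c : ℝ, 0 < c ∧ ∀ (q h : ℝ) (m : ℕ), 0 ≤ q → 0 ≤ h → 1 ≤ m →
      NN m ^ 2 ≤ CF * Real.exp (2 * (wg - 1) * q) → ∀ l : ℕ,
      mu {v : Om | ∃ a : Fin (n + 1) → ℤ, (toP a).eval Real.goldenRatio ≠ 0 ∧
        ‖hT (wA n q h) (wB n w q h) (YY v.1) (XX m v.2) a‖ < c * ((1 / 81 : ℝ) ^ ((n + 1) * n)) ^ l} ≤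
      kapT n * (2 * ((((n + 1) * n : ℕ) : ENNReal) * (2⁻¹ : ENNReal) ^ l)) := by
  obtain ⟨R0, t, hR0, ht⟩ := XX_points n
  obtain ⟨ρ, hρ0, hρ1, hroot⟩ := root_all n w wg hw hwg YY YY_inj YY_mem R0 CF hR0 hCF t
  obtain ⟨D, hD⟩ : ∃ D : ℕ, D = (n + 1) * n := ⟨_, rfl⟩
  obtain ⟨c0, hc0⟩ : ∃ c0 : ℝ, c0 = 1 / (2 * ((D : ℝ) + 1) * 9 ^ D) := ⟨_, rfl⟩
  have hc00 : 0 < c0 := by rw [hc0]; positivity
  have hc01 : c0 ≤ 1 := by
    rw [hc0, div_le_one (by positivity)]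
    have h1 : (1 : ℝ) ≤ 9 ^ D := one_le_pow₀ (by norm_num)
    have h2 : (0 : ℝ) ≤ D := Nat.cast_nonneg D
    nlinarith
  refine ⟨ρ * c0 ^ 2 / (n + 1), by positivity, ?_⟩
  intro q h m hq hh hm hN l
  obtain ⟨e, he⟩ : ∃ e : ℝ, e = c0 * ((1 / 9 : ℝ) ^ D) ^ l := ⟨_, rfl⟩
  have he0 : 0 < e := by rw [he]; positivity
  have he1 : e ≤ 1 := by
    rw [he]
    have : (((1 : ℝ) / 9) ^ D) ^ l ≤ 1 :=
      pow_le_one₀ (by positivity) (pow_le_one₀ (by norm_num) (by norm_num))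
    calc c0 * ((1 / 9 : ℝ) ^ D) ^ l ≤ 1 * 1 := by gcongr
      _ = 1 := one_mul 1
  have hh1 : ((D : ℝ) + 1) * (e * (9 * 9 ^ l) ^ D) < 1 := by
    have e1 : ((D : ℝ) + 1) * (e * (9 * 9 ^ l) ^ D) = 1 / 2 := by
      rw [he, hc0, mul_pow]
      have h1 : ((1 / 9 : ℝ) ^ D) ^ l * (9 ^ l) ^ D = 1 := by
        rw [← pow_mul, ← pow_mul, mul_comm D l, ← mul_pow]
        norm_num
      have h2 : ((D : ℝ) + 1) * (1 / (2 * ((D : ℝ) + 1) * 9 ^ D) * ((1 / 9 : ℝ) ^ D) ^ l *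
          (9 ^ D * (9 ^ l) ^ D)) = ((D : ℝ) + 1) * (1 / (2 * ((D : ℝ) + 1) * 9 ^ D)) * 9 ^ D *
          (((1 / 9 : ℝ) ^ D) ^ l * (9 ^ l) ^ D) := by ring
      rw [h2, h1]
      field_simp
    rw [e1]; norm_num
  have hmain := measure_bound (n := n) (wA n q h) (wB n w q h) (LL n) hρ0 hρ1 (X := XX m) (Y := YY)
    (K := 9) (XX_Sep m) (XX_inj m) (XX_cont m) YY_Sep YY_inj YY_cont
    (fun v => PsT_full (by rw [rk_eq]; simp) _ (tup_ind ⊤) w hw q h _ _ hh (YY_mem _).2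
      (XX_mem m _).1)
    (by
      intro V hV
      have hj1 : 1 ≤ rk V := by
        rw [rk_eq]
        have : Module.finrank ℚ V ≠ 0 := fun h0 => hV.1 (by
          rw [Submodule.finrank_eq_zero.1 h0]; exact bot_le)
        omega
      have hjn : rk V ≤ n := by
        rw [rk_eq]
        have := Submodule.finrank_lt hV.2
        rw [Module.finrank_fin_fun] at this
        omega
      have hex : ∃ l, (toP (tup V l)).eval Real.goldenRatio ≠ 0 := by
        by_contra! hc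
        apply hV.1
        rw [← tup_span V, Submodule.span_le]
        rintro _ ⟨l, rfl⟩
        exact (mem_LL _).mpr (hc l)
      exact hroot q h (NN m ^ 2) (XX m) hq hh (by have := NN_pos m hm; positivity) hN (XX_mem m)
        (fun i j hij => by
          have := ht m hm i j hij
          exact this) (rk V) (tup V) hj1 hjn (tup_ind V) hex)
    l he0 he1 (by rw [← hD]; exact hh1)
  refine le_trans (measure_mono ?_) hmain
  rintro v ⟨a, ha, ha2⟩
  refine ⟨a, fun hmem => ha ((mem_LL a).mp hmem), ?_⟩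
  have hn0 : (0 : ℝ) < n + 1 := by positivity
  have e2 : ρ * e ^ 2 = (n + 1) * (ρ * c0 ^ 2 / (n + 1) * ((1 / 81 : ℝ) ^ D) ^ l) := by
    rw [he, mul_pow]
    have h1 : (((1 / 9 : ℝ) ^ D) ^ l) ^ 2 = ((1 / 81 : ℝ) ^ D) ^ l := by
      rw [← pow_mul, ← pow_mul, ← pow_mul]
      have e6 : D * (l * 2) = 2 * (D * l) := by ring
      rw [e6, pow_mul]
      norm_num
    rw [h1]
    field_simp
  rw [e2]
  rw [← hD] at ha2
  exact mul_lt_mul_of_pos_left ha2 hn0

theorem kapT_ne_top (m : ℕ) : kapT m ≠ ⊤ := by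
  induction m with
  | zero => simp [kapT]
  | succ m ih =>
    simp only [kapT]
    exact ENNReal.mul_ne_top (by norm_num) (ENNReal.add_ne_top.mpr ⟨ih, by norm_num⟩)

/-- The measure estimate in exponential form. -/
theorem bad_measure (n : ℕ) (hn : 1 ≤ n) (w wg : ℝ) (hw : (n : ℝ) ≤ w)
    (hwg : wg = w ∨ wg = w + 1) (CF : ℝ) (hCF : 1 ≤ CF) : ∃ C α : ℝ, 0 < C ∧ 0 < α ∧
      ∀ (q h u : ℝ) (m : ℕ), 0 ≤ q → 0 ≤ h → 1 ≤ m →
      NN m ^ 2 ≤ CF * Real.exp (2 * (wg - 1) * q) →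
      mu {v : Om | ∃ a : Fin (n + 1) → ℤ, (toP a).eval Real.goldenRatio ≠ 0 ∧
        ‖hT (wA n q h) (wB n w q h) (YY v.1) (XX m v.2) a‖ ≤ Real.exp (-u)} ≤
      ENNReal.ofReal (C * Real.exp (-α * u)) := by
  obtain ⟨c, hc, hbad⟩ := bad_aux n w wg hw hwg CF hCF
  obtain ⟨D, hD⟩ : ∃ D : ℕ, D = (n + 1) * n := ⟨_, rfl⟩
  have hD1 : 1 ≤ D := by rw [hD]; exact Nat.mul_pos (by omega) (by omega)
  have hDr : (1 : ℝ) ≤ D := by exact_mod_cast hD1
  rw [← hD] at hbad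
  obtain ⟨β, hβ⟩ : ∃ β : ℝ, β = D * Real.log 81 := ⟨_, rfl⟩
  have hl81 : 0 < Real.log 81 := Real.log_pos (by norm_num)
  have hβ0 : 0 < β := by rw [hβ]; positivity
  have hl2 : 0 < Real.log 2 := Real.log_pos (by norm_num)
  obtain ⟨α, hα⟩ : ∃ α : ℝ, α = Real.log 2 / β := ⟨_, rfl⟩
  have hα0 : 0 < α := by rw [hα]; positivity
  obtain ⟨u0, hu0⟩ : ∃ u0 : ℝ, u0 = |Real.log c| + 1 := ⟨_, rfl⟩
  have hu01 : 1 ≤ u0 := by rw [hu0]; have := abs_nonneg (Real.log c); linarith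
  obtain ⟨K, hK⟩ : ∃ K : ℝ, K = (kapT n).toReal * (2 * D) := ⟨_, rfl⟩
  have hK0 : 0 ≤ K := by rw [hK]; positivity
  refine ⟨(2 * K + 1) * Real.exp (α * u0), α, by positivity, hα0, ?_⟩
  intro q h u m hq hh hm hN
  by_cases hu : u < u0
  · -- trivial bound
    have h1 : (1 : ℝ) ≤ (2 * K + 1) * Real.exp (α * u0) * Real.exp (-α * u) := by
      rw [mul_assoc, ← Real.exp_add]
      have : 1 ≤ Real.exp (α * u0 + -α * u) := by
        apply Real.one_le_exp
        have : 0 ≤ α * (u0 - u) := mul_nonneg hα0.le (by linarith)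
        linarith
      nlinarith
    calc _ ≤ mu Set.univ := measure_mono (Set.subset_univ _)
      _ = 1 := measure_univ
      _ = ENNReal.ofReal 1 := by simp
      _ ≤ _ := ENNReal.ofReal_le_ofReal h1
  · push Not at hu
    obtain ⟨l, hl⟩ : ∃ l : ℕ, l = ⌊(u - u0) / β⌋₊ := ⟨_, rfl⟩
    have hl1 : (l : ℝ) ≤ (u - u0) / β := by
      rw [hl]; exact Nat.floor_le (div_nonneg (by linarith) hβ0.le)
    have hl2' : (u - u0) / β < l + 1 := by
      rw [hl]; exact Nat.lt_floor_add_one _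
    have h1 := hbad q h m hq hh hm hN l
    have hsub : {v : Om | ∃ a : Fin (n + 1) → ℤ, (toP a).eval Real.goldenRatio ≠ 0 ∧
        ‖hT (wA n q h) (wB n w q h) (YY v.1) (XX m v.2) a‖ ≤ Real.exp (-u)} ⊆
        {v : Om | ∃ a : Fin (n + 1) → ℤ, (toP a).eval Real.goldenRatio ≠ 0 ∧
        ‖hT (wA n q h) (wB n w q h) (YY v.1) (XX m v.2) a‖ < c * ((1 / 81 : ℝ) ^ D) ^ l} := by
      rintro v ⟨a, ha, ha2⟩
      refine ⟨a, ha, lt_of_le_of_lt ha2 ?_⟩
      have e1 : c * ((1 / 81 : ℝ) ^ D) ^ l = Real.exp (Real.log c - β * l) := by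
        rw [Real.exp_sub, Real.exp_log hc, ← pow_mul, _root_.one_div_pow, mul_one_div]
        congr 1
        rw [hβ]
        have : (D : ℝ) * Real.log 81 * l = ((D * l : ℕ) : ℝ) * Real.log 81 := by push_cast; ring
        rw [this, Real.exp_nat_mul, Real.exp_log (by norm_num)]
      rw [e1]
      apply Real.exp_lt_exp.mpr
      rw [le_div_iff₀ hβ0] at hl1
      have h3 := neg_abs_le (Real.log c)
      nlinarith
    refine (measure_mono hsub).trans (h1.trans ?_)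
    have e2 : kapT n * (2 * ((D : ENNReal) * (2⁻¹ : ENNReal) ^ l)) =
        ENNReal.ofReal (K * (1 / 2) ^ l) := by
      rw [hK]
      rw [ENNReal.ofReal_mul (by positivity), ENNReal.ofReal_mul (by positivity),
        ENNReal.ofReal_toReal (kapT_ne_top n), ENNReal.ofReal_pow (by norm_num)]
      have e3 : ENNReal.ofReal (2 * (D : ℝ)) = 2 * (D : ENNReal) := by
        rw [ENNReal.ofReal_mul (by norm_num), ENNReal.ofReal_natCast]
        norm_num
      have e4 : ENNReal.ofReal (1 / 2) = 2⁻¹ := by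
        rw [one_div, ENNReal.ofReal_inv_of_pos (by norm_num)]
        norm_num
      rw [e3, e4]
      ring
    rw [e2]
    apply ENNReal.ofReal_le_ofReal
    have e5 : ((1 : ℝ) / 2) ^ l ≤ 2 * Real.exp (α * u0) * Real.exp (-α * u) := by
      have h3 : Real.exp (-(Real.log 2 * (l + 1))) ≤ Real.exp (-(α * (u - u0))) := by
        apply Real.exp_le_exp.mpr
        rw [hα]
        have : Real.log 2 / β * (u - u0) = Real.log 2 * ((u - u0) / β) := by ring
        rw [this]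
        have := mul_le_mul_of_nonneg_left hl2'.le hl2.le
        linarith
      have h4 : Real.exp (-(Real.log 2 * (l + 1))) = (1 / 2 : ℝ) ^ (l + 1) := by
        rw [Real.exp_neg, _root_.one_div_pow, one_div]
        congr 1
        have : Real.log 2 * ((l : ℝ) + 1) = ((l + 1 : ℕ) : ℝ) * Real.log 2 := by push_cast; ring
        rw [this, Real.exp_nat_mul, Real.exp_log (by norm_num)]
      have h5 : Real.exp (-(α * (u - u0))) = Real.exp (α * u0) * Real.exp (-α * u) := by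
        rw [← Real.exp_add]; congr 1; ring
      rw [h4, h5, pow_succ] at h3
      linarith
    have hP : 0 < Real.exp (α * u0) * Real.exp (-α * u) := by positivity
    calc K * (1 / 2) ^ l ≤ K * (2 * Real.exp (α * u0) * Real.exp (-α * u)) := by gcongr
      _ ≤ (2 * K + 1) * Real.exp (α * u0) * Real.exp (-α * u) := by nlinarith

end Pool.Agent.W72
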