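import Mathlib
import Pool.Agent.Helper35.TSqMain

set_option autoImplicit false

namespace Pool.Agent.W72

open Polynomial Pool.Agent Pool.Agent.Helper35

/-- A real zero of a nonzero integer polynomial has a minimal polynomial dividing it. -/
theorem exists_minZ_dvd (E : ℤ[X]) (hE : E ≠ 0) (β : ℝ) (h0 : aeval β E = 0) :
    ∃ Q : ℤ[X], IsMinZ Q β ∧ Q ∣ E := by
  induction E using WfDvdMonoid.induction_on_irreducible with
  | zero => exact absurd rfl hE
  | unit u hu =>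
    exfalso
    obtain ⟨r, hr, rfl⟩ := Polynomial.isUnit_iff.mp hu
    rw [aeval_C] at h0
    simp only [algebraMap_int_eq, eq_intCast, Int.cast_eq_zero] at h0
    rw [h0] at hE
    simp at hE
  | mul a q ha hq ih =>
    by_cases hqz : aeval β q = 0
    · have hq0 : q ≠ 0 := hq.ne_zero
      have hdeg : q.natDegree ≠ 0 := by
        intro hd
        obtain ⟨r, rfl⟩ : ∃ r, q = C r := ⟨_, eq_C_of_natDegree_eq_zero hd⟩
        rw [aeval_C] at hqz
        simp only [algebraMap_int_eq, eq_intCast, Int.cast_eq_zero] at hqz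
        rw [hqz] at hq0
        simp at hq0
      have hprim : q.IsPrimitive := hq.isPrimitive hdeg
      rcases lt_or_gt_of_ne (leadingCoeff_ne_zero.mpr hq0) with hl | hl
      · have hqn : Irreducible (-q) := (Associated.neg_left (Associated.refl q)).irreducible_iff.mpr hq
        refine ⟨-q, ⟨hqn, ?_, ?_, ?_⟩, ?_⟩
        · exact hqn.isPrimitive (by rwa [natDegree_neg])
        · rw [leadingCoeff_neg]; omega
        · rw [map_neg, hqz, neg_zero]
        · exact (neg_dvd.mpr (dvd_mul_right q a))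
      · exact ⟨q, ⟨hq, hprim, hl, hqz⟩, dvd_mul_right q a⟩
    · rw [map_mul] at h0
      have h1 : aeval β a = 0 := (mul_eq_zero.mp h0).resolve_left hqz
      obtain ⟨Q, hQ1, hQ2⟩ := ih ha h1
      exact ⟨Q, hQ1, hQ2.mul_left q⟩

/-- A divisor has height bounded by a constant times the height. -/
theorem ht_dvd {Q E : ℤ[X]} (hE : E ≠ 0) (h : Q ∣ E) {n : ℕ} (hn : E.natDegree ≤ n) :
    (ht Q : ℝ) ≤ 2 ^ n * ((n : ℝ) + 1) * ht E := by
  obtain ⟨R, rfl⟩ := h
  have hQ0 : Q ≠ 0 := left_ne_zero_of_mul hE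
  have hR0 : R ≠ 0 := right_ne_zero_of_mul hE
  have hQd : Q.natDegree ≤ n := by
    rw [natDegree_mul hQ0 hR0] at hn
    omega
  have h1 := ht_le_mm Q
  have h2 := mm_le_ht (Q * R)
  rw [mm_mul] at h2
  have h3 : 1 ≤ mm R := one_le_mm hR0
  have h4 : 1 ≤ mm Q := one_le_mm hQ0
  have h5 : mm Q ≤ mm Q * mm R := by nlinarith
  have h6 : (2 : ℝ) ^ Q.natDegree ≤ 2 ^ n := pow_le_pow_right₀ (by norm_num) hQd
  have h7 : ((Q * R).natDegree : ℝ) + 1 ≤ (n : ℝ) + 1 := by
    have : ((Q * R).natDegree : ℝ) ≤ n := by exact_mod_cast hn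
    linarith
  calc (ht Q : ℝ) ≤ 2 ^ Q.natDegree * mm Q := h1
    _ ≤ 2 ^ n * (((n : ℝ) + 1) * ht (Q * R)) := by
        apply mul_le_mul h6 _ (by linarith) (by positivity)
        exact h5.trans (h2.trans (by gcongr))
    _ = _ := by ring

/-- The Graeffe transform: `E (X^2) = P(X) P(-X)`. -/
theorem graeffe (P : ℤ[X]) (hP : P ≠ 0) : ∃ E : ℤ[X], expand ℤ 2 E = P * Helper35.refl P ∧ E ≠ 0 ∧
    E.natDegree = P.natDegree ∧ (ht E : ℝ) ≤ ((P.natDegree : ℝ) + 1) * (ht P : ℝ) ^ 2 := by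
  have hF : Helper35.refl (P * Helper35.refl P) = P * Helper35.refl P := by rw [refl_mul, refl_refl, mul_comm]
  obtain ⟨E, hE⟩ := exists_expand_of_refl _ hF
  have hne : P * Helper35.refl P ≠ 0 := mul_ne_zero hP (refl_ne_zero hP)
  have hE0 : E ≠ 0 := by
    rintro rfl
    rw [map_zero] at hE
    exact hne hE.symm
  refine ⟨E, hE, hE0, ?_, ?_⟩
  · have h1 := congrArg natDegree hE
    rw [natDegree_expand, natDegree_mul hP (refl_ne_zero hP), refl_natDegree] at h1
    omega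
  · rw [← ht_expand, hE]
    have key : ht (P * Helper35.refl P) ≤ (P.natDegree + 1) * ht P ^ 2 := by
      apply ht_le_of
      intro i
      rw [coeff_mul]
      have hsum : ∑ x ∈ Finset.HasAntidiagonal.antidiagonal i, P.coeff x.1 * (Helper35.refl P).coeff x.2 =
          ∑ x ∈ (Finset.HasAntidiagonal.antidiagonal i).filter (fun x => x.1 ≤ P.natDegree),
            P.coeff x.1 * (Helper35.refl P).coeff x.2 := by
        rw [Finset.sum_filter]
        refine Finset.sum_congr rfl (fun x _ => ?_)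
        split_ifs with hx
        · rfl
        · rw [coeff_eq_zero_of_natDegree_lt (by omega), zero_mul]
      rw [hsum]
      refine (Int.natAbs_sum_le _ _).trans ?_
      have hcard : ((Finset.HasAntidiagonal.antidiagonal i).filter (fun x => x.1 ≤ P.natDegree)).card ≤
          P.natDegree + 1 := by
        rw [← Finset.card_range (P.natDegree + 1)]
        apply Finset.card_le_card_of_injOn (fun x => x.1)
        · intro x hx
          rw [Finset.mem_coe, Finset.mem_filter] at hx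
          simp only [Finset.coe_range, Set.mem_Iio]
          omega
        · intro x hx y hy hxy
          rw [Finset.mem_coe, Finset.mem_filter, Finset.HasAntidiagonal.mem_antidiagonal] at hx hy
          simp only at hxy
          ext
          · exact hxy
          · omega
      calc ∑ x ∈ (Finset.HasAntidiagonal.antidiagonal i).filter (fun x => x.1 ≤ P.natDegree),
            (P.coeff x.1 * (Helper35.refl P).coeff x.2).natAbs
          ≤ ∑ x ∈ (Finset.HasAntidiagonal.antidiagonal i).filter (fun x => x.1 ≤ P.natDegree), ht P ^ 2 := by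
            refine Finset.sum_le_sum (fun x _ => ?_)
            rw [Int.natAbs_mul, pow_two]
            refine Nat.mul_le_mul (natAbs_coeff_le_ht P _) ?_
            have := natAbs_coeff_le_ht (Helper35.refl P) x.2
            rwa [ht_refl] at this
        _ = _ := by rw [Finset.sum_const, smul_eq_mul]
        _ ≤ _ := Nat.mul_le_mul_right _ hcard
    exact_mod_cast key

/-- Transfer of approximations: from an infinite set of approximations of `ξ` with height
exponent `a` to approximations of `ξ'` with height exponent `b`, where the heights are related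
by `ht Q ≤ K * (ht P)^s` and the distances by a constant factor. -/
theorem transfer (ξ ξ' : ℝ) (n n' : ℕ) (w : ℝ) (hw0 : -1 < w) (s : ℕ) (hs : 1 ≤ s)
    (hwS : w ∈ SSet ξ n) (f : ℝ → ℝ) (A : Set ℝ) (hinj : Set.InjOn f A)
    (K D δ : ℝ) (hK : 1 ≤ K) (hD : 0 < D) (hδ : 0 < δ)
    (hA : ∀ α : ℝ, 0 < |ξ - α| → |ξ - α| < δ → α ∈ A)
    (hf : ∀ α ∈ A, ∀ P : ℤ[X], IsMinZ P α → P.natDegree ≤ n → 0 < |ξ - α| → |ξ - α| < δ →
      0 < |ξ' - f α| ∧ |ξ' - f α| ≤ D * |ξ - α| ∧
      ∃ Q : ℤ[X], IsMinZ Q (f α) ∧ Q.natDegree ≤ n' ∧ (ht Q : ℝ) ≤ K * (ht P : ℝ) ^ s)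
    (w' : ℝ) (hw' : (w' + 1) * s < w + 1) : w' ∈ SSet ξ' n' := by
  classical
  -- restrict to approximants with large height
  have hsr : (1 : ℝ) ≤ s := by exact_mod_cast hs
  set T : Set ℝ := {α : ℝ | ∃ P : ℤ[X], IsMinZ P α ∧ P.natDegree ≤ n ∧ 0 < |ξ - α| ∧
    |ξ - α| ≤ (ht P : ℝ) ^ (-w - 1)} with hT
  have hTinf : T.Infinite := hwS
  -- the set of elements of small height is finite
  have hfinB : ∀ B : ℕ, {α : ℝ | ∃ P : ℤ[X], IsMinZ P α ∧ P.natDegree ≤ n ∧ ht P ≤ B}.Finite := by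
    intro B
    by_contra hinf
    obtain ⟨α, hα, P, hP0, hPr, hPd, hle, hlt⟩ := exists_ht_gt_alg (n := n)
      (S := {α : ℝ | ∃ P : ℤ[X], IsMinZ P α ∧ P.natDegree ≤ n ∧ ht P ≤ B}) hinf
      (fun P α => ht P ≤ B) (fun α hα => by
        obtain ⟨P, h1, h2, h3⟩ := hα
        exact ⟨P, h1.1.ne_zero, h1.2.2.2, h2, h3⟩) B
    omega
  -- choice of the bound
  set v : ℝ := max w' (-1) with hv
  have hv1 : 0 ≤ v + 1 := by
    have := le_max_right w' (-1)
    linarith
  have hvs : (v + 1) * s < w + 1 := by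
    rcases le_total w' (-1) with h | h
    · rw [hv, max_eq_right h]; simp; linarith
    · rw [hv, max_eq_left h]; exact hw'
  set g : ℝ := (w + 1) - (v + 1) * s with hg
  have hgpos : 0 < g := by rw [hg]; linarith
  have hlim1 : Filter.Tendsto (fun H : ℕ => (H : ℝ) ^ g) Filter.atTop Filter.atTop :=
    (tendsto_rpow_atTop hgpos).comp tendsto_natCast_atTop_atTop
  have hlim2 : Filter.Tendsto (fun H : ℕ => (H : ℝ) ^ (w + 1)) Filter.atTop Filter.atTop :=
    (tendsto_rpow_atTop (by linarith)).comp tendsto_natCast_atTop_atTop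
  obtain ⟨B1, hB1⟩ := Filter.eventually_atTop.mp
    (hlim1.eventually_ge_atTop (D * K ^ (v + 1)))
  obtain ⟨B2, hB2⟩ := Filter.eventually_atTop.mp (hlim2.eventually_gt_atTop (1 / δ))
  set B : ℕ := max (max B1 B2) 1 with hB
  set T' : Set ℝ := T \ {α : ℝ | ∃ P : ℤ[X], IsMinZ P α ∧ P.natDegree ≤ n ∧ ht P ≤ B} with hT'
  have hT'inf : T'.Infinite := hTinf.sdiff (hfinB B)
  -- facts about elements of T'
  have hfacts : ∀ α ∈ T', ∃ P : ℤ[X], IsMinZ P α ∧ P.natDegree ≤ n ∧ 0 < |ξ - α| ∧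
      |ξ - α| ≤ (ht P : ℝ) ^ (-w - 1) ∧ B < ht P ∧ |ξ - α| < δ := by
    intro α hα
    obtain ⟨⟨P, h1, h2, h3, h4⟩, h5⟩ := hα
    have h6 : B < ht P := by
      by_contra hc
      exact h5 ⟨P, h1, h2, not_lt.mp hc⟩
    refine ⟨P, h1, h2, h3, h4, h6, lt_of_le_of_lt h4 ?_⟩
    have h7 := hB2 (ht P) (by omega)
    have hp : (0 : ℝ) < ht P := by exact_mod_cast (by omega : 0 < ht P)
    have e : (ht P : ℝ) ^ (-w - 1) = ((ht P : ℝ) ^ (w + 1))⁻¹ := by
      rw [← Real.rpow_neg hp.le]; congr 1; ring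
    rw [e]
    rw [one_div] at h7
    exact inv_lt_of_inv_lt₀ hδ h7
  have hinjT : Set.InjOn f T' := by
    intro α hα β hβ hab
    obtain ⟨_, _, _, h3, _, _, h4⟩ := hfacts α hα
    obtain ⟨_, _, _, h3', _, _, h4'⟩ := hfacts β hβ
    exact hinj (hA α h3 h4) (hA β h3' h4') hab
  have himg : (f '' T').Infinite := hT'inf.image hinjT
  unfold Helper35.SSet
  simp only [Set.mem_ofPred_eq]
  refine himg.mono ?_
  rintro _ ⟨α, hα, rfl⟩
  obtain ⟨P, h1, h2, h3, h4, h5, h6⟩ := hfacts α hα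
  obtain ⟨g1, g2, Q, g3, g4, g5⟩ := hf α (hA α h3 h6) P h1 h2 h3 h6
  refine ⟨Q, g3, g4, g1, ?_⟩
  have hp1 : (1 : ℝ) ≤ ht P := by exact_mod_cast (by omega : 1 ≤ ht P)
  have hp : (0 : ℝ) < ht P := by linarith
  have hq1 : (1 : ℝ) ≤ ht Q := by exact_mod_cast ht_pos g3.1.ne_zero
  have hq : (0 : ℝ) < ht Q := by linarith
  -- ht Q ^ (v+1) ≤ K^(v+1) * ht P^(s (v+1))
  have k1 : (ht Q : ℝ) ^ (v + 1) ≤ K ^ (v + 1) * (ht P : ℝ) ^ ((v + 1) * s) := by
    calc (ht Q : ℝ) ^ (v + 1) ≤ (K * (ht P : ℝ) ^ s) ^ (v + 1) :=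
          Real.rpow_le_rpow hq.le g5 hv1
      _ = K ^ (v + 1) * (ht P : ℝ) ^ ((v + 1) * s) := by
          rw [Real.mul_rpow (by linarith) (by positivity), ← Real.rpow_natCast (ht P : ℝ) s,
            ← Real.rpow_mul hp.le]
          congr 2
          ring
  have k2 := hB1 (ht P) (by omega)
  have k3 : D * (ht P : ℝ) ^ (-w - 1) * (ht Q : ℝ) ^ (v + 1) ≤ 1 := by
    calc D * (ht P : ℝ) ^ (-w - 1) * (ht Q : ℝ) ^ (v + 1)
        ≤ D * (ht P : ℝ) ^ (-w - 1) * (K ^ (v + 1) * (ht P : ℝ) ^ ((v + 1) * s)) := by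
          gcongr
      _ = (D * K ^ (v + 1)) * ((ht P : ℝ) ^ (-w - 1) * (ht P : ℝ) ^ ((v + 1) * s)) := by ring
      _ = (D * K ^ (v + 1)) * ((ht P : ℝ) ^ g)⁻¹ := by
          rw [← Real.rpow_add hp, ← Real.rpow_neg hp.le]
          congr 2
          rw [hg]; ring
      _ ≤ 1 := by
          rw [← div_eq_mul_inv, div_le_one (by positivity)]
          exact k2
  have k4 : |ξ' - f α| ≤ (ht Q : ℝ) ^ (-(v + 1)) := by
    rw [Real.rpow_neg hq.le, ← one_div, le_div_iff₀ (by positivity)]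
    refine le_trans ?_ k3
    gcongr
    exact g2.trans (by gcongr)
  refine k4.trans ?_
  apply Real.rpow_le_rpow_of_exponent_le hq1
  have := le_max_left w' (-1)
  linarith

/-- First inequality: approximations of `ξ` give approximations of `ξ^2`. -/
theorem SSet_sq (ξ : ℝ) (n : ℕ) (w : ℝ) (hw0 : -1 < w) (hwS : w ∈ SSet ξ n) (hξ : ξ ≠ 0)
    (w' : ℝ) (hw' : (w' + 1) * 2 < w + 1) : w' ∈ SSet (ξ ^ 2) n := by
  have hξa : 0 < |ξ| := abs_pos.mpr hξ
  refine transfer ξ (ξ ^ 2) n n w hw0 2 (by norm_num) hwS (fun α => α ^ 2)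
    {α | |ξ - α| < |ξ|} ?_ (2 ^ n * ((n : ℝ) + 1) * ((n : ℝ) + 1)) (3 * |ξ|) |ξ| ?_
    (by positivity) hξa ?_ ?_ w' (by push_cast; exact hw')
  · intro α hα β hβ hab
    simp only [Set.mem_ofPred_eq] at hα hβ hab
    have hprod : 0 < α * β := by
      rw [abs_lt] at hα hβ
      rcases lt_or_gt_of_ne hξ with h | h
      · rw [abs_of_neg h] at hα hβ
        nlinarith
      · rw [abs_of_pos h] at hα hβ
        nlinarith
    rcases sq_eq_sq_iff_eq_or_eq_neg.mp hab with h | h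
    · exact h
    · exfalso
      rw [h] at hprod
      nlinarith [sq_nonneg β]
  · have h1 : (1 : ℝ) ≤ 2 ^ n := one_le_pow₀ (by norm_num)
    have h2 : (1 : ℝ) ≤ (n : ℝ) + 1 := by
      have : (0 : ℝ) ≤ n := Nat.cast_nonneg n
      linarith
    calc (1 : ℝ) = 1 * 1 * 1 := by norm_num
      _ ≤ _ := by gcongr
  · intro α _ h
    exact h
  · intro α hα P hP hPd hpos hlt
    have hP0 : P ≠ 0 := hP.1.ne_zero
    have hfac : ξ ^ 2 - α ^ 2 = (ξ - α) * (ξ + α) := by ring
    have hsum : 0 < |ξ + α| ∧ |ξ + α| ≤ 3 * |ξ| := by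
      have e : ξ + α = 2 * ξ - (ξ - α) := by ring
      have h1 : |2 * ξ| = 2 * |ξ| := by rw [abs_mul]; norm_num
      constructor
      · have h2 := abs_sub_abs_le_abs_sub (2 * ξ) (ξ - α)
        rw [e]
        linarith
      · have h2 := abs_sub (2 * ξ) (ξ - α)
        rw [e]
        linarith
    refine ⟨?_, ?_, ?_⟩
    · rw [hfac, abs_mul]
      exact mul_pos hpos hsum.1
    · rw [hfac, abs_mul, mul_comm]
      gcongr
      exact hsum.2
    · obtain ⟨E, hE1, hE2, hE3, hE4⟩ := graeffe P hP0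
      have hval : aeval (α ^ 2) E = 0 := by
        have h1 : aeval α (expand ℤ 2 E) = aeval (α ^ 2) E := expand_aeval 2 E α
        rw [← h1, hE1, map_mul, hP.2.2.2, zero_mul]
      obtain ⟨Q, hQ1, hQ2⟩ := exists_minZ_dvd E hE2 _ hval
      refine ⟨Q, hQ1, ?_, ?_⟩
      · have := natDegree_le_of_dvd hQ2 hE2
        omega
      · have h1 := ht_dvd hE2 hQ2 (n := n) (by omega)
        have hPdr : (P.natDegree : ℝ) ≤ n := by exact_mod_cast hPd
        calc (ht Q : ℝ) ≤ 2 ^ n * ((n : ℝ) + 1) * ht E := h1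
          _ ≤ 2 ^ n * ((n : ℝ) + 1) * (((n : ℝ) + 1) * (ht P : ℝ) ^ 2) := by
              gcongr
              refine hE4.trans ?_
              gcongr
          _ = _ := by ring

/-- Second inequality: approximations of `ξ^2` give approximations of `ξ` of twice the degree. -/
theorem SSet_sqrt (ξ : ℝ) (n : ℕ) (w : ℝ) (hw0 : -1 < w) (hwS : w ∈ SSet (ξ ^ 2) n) (hξ : ξ ≠ 0)
    (w' : ℝ) (hw' : w' < w) : w' ∈ SSet ξ (2 * n) := by
  have hξa : 0 < |ξ| := abs_pos.mpr hξ
  have hξ2 : 0 < ξ ^ 2 := by positivity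
  set f : ℝ → ℝ := fun β => (if 0 < ξ then 1 else -1) * Real.sqrt β with hf
  have hfsq : ∀ β : ℝ, 0 ≤ β → (f β) ^ 2 = β := by
    intro β hβ
    rw [hf]
    simp only
    rw [mul_pow, Real.sq_sqrt hβ]
    split_ifs <;> ring
  have hsum : ∀ β : ℝ, |ξ| ≤ |ξ + f β| := by
    intro β
    rw [hf]
    simp only
    have hs := Real.sqrt_nonneg β
    split_ifs with h
    · rw [abs_of_pos h, one_mul, abs_of_pos (by linarith)]
      linarith
    · have h' : ξ < 0 := lt_of_le_of_ne (not_lt.mp h) hξ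
      rw [abs_of_neg h', abs_of_neg (by linarith)]
      linarith
  refine transfer (ξ ^ 2) ξ n (2 * n) w hw0 1 le_rfl hwS f {β | 0 < β} ?_
    (2 ^ (2 * n) * (((2 * n : ℕ) : ℝ) + 1)) (1 / |ξ|) (ξ ^ 2) ?_
    (by positivity) hξ2 ?_ ?_ w' (by push_cast; linarith)
  · intro α hα β hβ hab
    simp only [Set.mem_ofPred_eq] at hα hβ
    rw [← hfsq α hα.le, ← hfsq β hβ.le, hab]
  · have h1 : (1 : ℝ) ≤ 2 ^ (2 * n) := one_le_pow₀ (by norm_num)
    have h2 : (1 : ℝ) ≤ ((2 * n : ℕ) : ℝ) + 1 := by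
      have : (0 : ℝ) ≤ ((2 * n : ℕ) : ℝ) := Nat.cast_nonneg _
      linarith
    calc (1 : ℝ) = 1 * 1 := by norm_num
      _ ≤ _ := by gcongr
  · intro β _ h
    rw [abs_lt] at h
    simp only [Set.mem_ofPred_eq]
    linarith
  · intro β hβ P hP hPd hpos hlt
    simp only [Set.mem_ofPred_eq] at hβ
    have hP0 : P ≠ 0 := hP.1.ne_zero
    have hfac : ξ ^ 2 - β = (ξ - f β) * (ξ + f β) := by
      have := hfsq β hβ.le
      calc ξ ^ 2 - β = ξ ^ 2 - (f β) ^ 2 := by rw [this]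
        _ = _ := by ring
    have hs := hsum β
    have habs : |ξ ^ 2 - β| = |ξ - f β| * |ξ + f β| := by rw [hfac, abs_mul]
    refine ⟨?_, ?_, ?_⟩
    · rw [habs] at hpos
      by_contra hc
      have : |ξ - f β| = 0 := le_antisymm (not_lt.mp hc) (abs_nonneg _)
      rw [this, zero_mul] at hpos
      exact lt_irrefl _ hpos
    · rw [one_div, inv_mul_eq_div, le_div_iff₀ hξa, habs]
      gcongr
    · have hexp0 : expand ℤ 2 P ≠ 0 := by
        intro h0
        exact hP0 ((expand_eq_zero (by norm_num)).mp h0)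
      have hval : aeval (f β) (expand ℤ 2 P) = 0 := by
        have h1 : aeval (f β) (expand ℤ 2 P) = aeval ((f β) ^ 2) P := expand_aeval 2 P (f β)
        rw [h1, hfsq β hβ.le, hP.2.2.2]
      obtain ⟨Q, hQ1, hQ2⟩ := exists_minZ_dvd _ hexp0 _ hval
      have hdeg : (expand ℤ 2 P).natDegree ≤ 2 * n := by
        rw [natDegree_expand]; omega
      refine ⟨Q, hQ1, ?_, ?_⟩
      · exact (natDegree_le_of_dvd hQ2 hexp0).trans hdeg
      · have h1 := ht_dvd hexp0 hQ2 hdeg
        rw [ht_expand] at h1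
        rw [pow_one]
        exact h1

end Pool.Agent.W72
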