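import Mathlib
import Pool.Agent.W72.BaH
import Pool.Agent.W72.SqA

set_option autoImplicit false

namespace Pool.Agent.W72

open Polynomial Matrix MeasureTheory
open Pool.Agent.Helper35 (ht natAbs_coeff_le_ht)

/-! ## Transformation of polynomials by words -/

noncomputable def tr (U : List Bool) (n : ℕ) (P : ℤ[X]) : ℤ[X] :=
  ∑ j ∈ Finset.range (n + 1), C (P.coeff j) * ((C (MM U 0 0) * X + C (MM U 0 1)) ^ j *
    (C (MM U 1 0) * X + C (MM U 1 1)) ^ (n - j))

theorem tr_natDegree (U : List Bool) (n : ℕ) (P : ℤ[X]) : (tr U n P).natDegree ≤ n := by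
  unfold tr
  refine natDegree_sum_le_of_forall_le _ _ fun j hj => ?_
  have hj' : j ≤ n := by have := Finset.mem_range.mp hj; omega
  refine (natDegree_C_mul_le _ _).trans (natDegree_mul_le.trans ?_)
  have h1 : ∀ a b : ℤ, (C a * X + C b : ℤ[X]).natDegree ≤ 1 := fun a b => natDegree_linear_le
  have h2 := natDegree_pow_le_of_le j (h1 (MM U 0 0) (MM U 0 1))
  have h3 := natDegree_pow_le_of_le (n - j) (h1 (MM U 1 0) (MM U 1 1))
  omega

theorem tr_eval (U : List Bool) (n : ℕ) (P : ℤ[X]) (z : ℝ) : aeval z (tr U n P) =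
    ∑ j ∈ Finset.range (n + 1), (P.coeff j : ℝ) * ((re U 0 0 * z + re U 0 1) ^ j *
      (re U 1 0 * z + re U 1 1) ^ (n - j)) := by
  unfold tr
  rw [map_sum]
  refine Finset.sum_congr rfl fun j _ => ?_
  simp [re]

theorem aeval_sum (P : ℤ[X]) (n : ℕ) (hP : P.natDegree ≤ n) (z : ℝ) :
    aeval z P = ∑ j ∈ Finset.range (n + 1), (P.coeff j : ℝ) * z ^ j := by
  rw [aeval_eq_sum_range' (Nat.lt_succ_of_le hP)]
  refine Finset.sum_congr rfl fun j _ => ?_
  simp

theorem tr_eval_mL (U : List Bool) (n : ℕ) (P : ℤ[X]) (hP : P.natDegree ≤ n) {z : ℝ}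
    (hz : 0 < z) : aeval z (tr U n P) = (re U 1 0 * z + re U 1 1) ^ n * aeval (mL U z) P := by
  have h1 := re_den_pos U hz
  rw [tr_eval, aeval_sum P n hP, Finset.mul_sum]
  refine Finset.sum_congr rfl fun j hj => ?_
  have hj' : j ≤ n := by have := Finset.mem_range.mp hj; omega
  unfold mL mob
  obtain ⟨d, hd⟩ : ∃ d, d = re U 1 0 * z + re U 1 1 := ⟨_, rfl⟩
  rw [← hd] at h1 ⊢
  have e : d ^ n = d ^ j * d ^ (n - j) := by rw [← pow_add]; congr 1; omega
  rw [e, div_pow]
  field_simp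

/-- coefficient vector -/
def vec (n : ℕ) (Q : ℤ[X]) : Fin (n + 1) → ℤ := fun j => Q.coeff j

theorem toP_vec (n : ℕ) (Q : ℤ[X]) (hQ : Q.natDegree ≤ n) :
    toP (vec n Q) = Q.map (Int.castRingHom ℝ) := by
  ext i
  by_cases hi : i < n + 1
  · have := toP_coeff (vec n Q) ⟨i, hi⟩
    simp only [vec] at this
    rw [this, coeff_map]
    simp
  · rw [coeff_eq_zero_of_natDegree_lt (by have := toP_natDegree (vec n Q); omega),
      coeff_map, coeff_eq_zero_of_natDegree_lt (by omega)]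
    simp

theorem toP_vec_eval (n : ℕ) (Q : ℤ[X]) (hQ : Q.natDegree ≤ n) (z : ℝ) :
    (toP (vec n Q)).eval z = aeval z Q := by
  rw [toP_vec n Q hQ, eval_map]
  rfl

theorem re_p_le (U : List Bool) (hU : U ≠ []) : re U 0 0 ≤ 3 * re U 1 0 := by
  cases U with
  | nil => exact absurd rfl hU
  | cons b L =>
    have h1 : re (b :: L) 0 0 = dg b * re L 0 0 + re L 1 0 := by
      unfold re; rw [MM_cons_00]; push_cast; rw [dz_cast]
    have h2 : re (b :: L) 1 0 = re L 0 0 := by unfold re; rw [MM_cons_10]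
    have h3 : re L 1 0 ≤ re L 0 0 := by
      by_cases hL : L = []
      · subst hL; simp [re, MM_nil]
      · exact (re_rel L hL).2.2.1
    have h4 := dg_le b
    have h5 := re_nonneg L
    rw [h1, h2]
    nlinarith

theorem tr_taylor_bound (n : ℕ) : ∃ C : ℝ, 1 ≤ C ∧ ∀ (U : List Bool) (P : ℤ[X]) (y D : ℝ),
    U ≠ [] → 1 ≤ D → |y + re U 1 1 / re U 1 0| ≤ D / re U 1 0 ^ 2 → ∀ k : ℕ,
      |(hasseDeriv k (toP (vec n (tr U n P)))).eval y| ≤
        C * D ^ n * ht P * re U 1 0 ^ (2 * k) / re U 1 0 ^ n := by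
  classical
  set S : Finset ℝ := (Finset.range (n + 1)).image (fun i : ℕ => (i : ℝ)) with hS
  have hSc : S.card = n + 1 := by
    rw [hS, Finset.card_image_of_injective _ Nat.cast_injective, Finset.card_range]
  obtain ⟨C0, hC0, hCb⟩ := coeff_bound S n hSc
  have hn0 : (0 : ℝ) ≤ n := Nat.cast_nonneg n
  refine ⟨(C0 + 1) * ((n + 1) * (3 * n + 4) ^ n), ?_, ?_⟩
  · have h1 : (1 : ℝ) ≤ (3 * n + 4) ^ n := one_le_pow₀ (by linarith)
    calc (1 : ℝ) = 1 * (1 * 1) := by norm_num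
      _ ≤ _ := by gcongr <;> linarith
  intro U P y D hU hD hy k
  obtain ⟨q, hq⟩ : ∃ q, q = re U 1 0 := ⟨_, rfl⟩
  obtain ⟨q', hq'⟩ : ∃ q', q' = re U 1 1 := ⟨_, rfl⟩
  obtain ⟨p, hp⟩ : ∃ p, p = re U 0 0 := ⟨_, rfl⟩
  obtain ⟨p', hp'⟩ : ∃ p', p' = re U 0 1 := ⟨_, rfl⟩
  have hrel := re_rel U hU
  have hpq := re_p_le U hU
  have hdet := re_det U
  have hnn := re_nonneg U
  rw [← hp, ← hq] at hpq
  rw [← hq, ← hq', ← hp, ← hp'] at hrel hdet hnn
  rw [← hq, ← hq'] at hy
  rw [← hq]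
  have hq1 : 1 ≤ q := hrel.1
  have hq0 : 0 < q := by linarith
  obtain ⟨f, hf⟩ : ∃ f : ℝ[X], f = toP (vec n (tr U n P)) := ⟨_, rfl⟩
  rw [← hf]
  set F : ℝ[X] := (taylor y f).comp (C ((q ^ 2)⁻¹) * X) with hF
  have hFd : F.natDegree ≤ n := by
    rw [hF]
    refine natDegree_comp_le.trans ?_
    rw [natDegree_taylor]
    have h1 : f.natDegree ≤ n := by rw [hf]; exact toP_natDegree _
    have h2 : (C ((q ^ 2)⁻¹) * X : ℝ[X]).natDegree ≤ 1 :=
      (natDegree_C_mul_le _ _).trans natDegree_X_le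
    calc f.natDegree * (C ((q ^ 2)⁻¹) * X : ℝ[X]).natDegree ≤ n * 1 := Nat.mul_le_mul h1 h2
      _ = n := mul_one n
  have hFe : ∀ u : ℝ, F.eval u = aeval (y + u / q ^ 2) (tr U n P) := by
    intro u
    rw [hF, eval_comp, taylor_eval, hf, toP_vec_eval n _ (tr_natDegree U n P)]
    simp only [eval_mul, eval_C, eval_X]
    congr 1
    rw [add_comm]
    congr 1
    field_simp
  have hb : ∀ u ∈ S, |F.eval u| ≤ (n + 1) * (ht P * ((3 * n + 4) * D / q) ^ n) := by
    intro u hu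
    obtain ⟨i, hi, rfl⟩ := Finset.mem_image.mp hu
    have hi' : i ≤ n := by have := Finset.mem_range.mp hi; omega
    have hir : (i : ℝ) ≤ n := by exact_mod_cast hi'
    have hi0 : (0 : ℝ) ≤ i := Nat.cast_nonneg i
    obtain ⟨z, hz⟩ : ∃ z, z = y + (i : ℝ) / q ^ 2 := ⟨_, rfl⟩
    have hzd : |z + q' / q| ≤ (D + n) / q ^ 2 := by
      have e : z + q' / q = (y + q' / q) + (i : ℝ) / q ^ 2 := by rw [hz]; ring
      rw [e]
      refine (abs_add_le _ _).trans ?_
      rw [add_div]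
      apply add_le_add hy
      rw [abs_of_nonneg (by positivity)]
      gcongr
    have h1 : |q * z + q'| ≤ (3 * n + 4) * D / q := by
      have e : q * z + q' = q * (z + q' / q) := by field_simp
      rw [e, abs_mul, abs_of_pos hq0]
      calc q * |z + q' / q| ≤ q * ((D + n) / q ^ 2) := by gcongr
        _ = (D + n) / q := by field_simp
        _ ≤ _ := by
            apply div_le_div_of_nonneg_right _ hq0.le
            nlinarith
    have h2 : |p * z + p'| ≤ (3 * n + 4) * D / q := by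
      have e : p * z + p' = p * (z + q' / q) + -(p * q' - p' * q) / q := by
        field_simp; ring
      rw [e]
      refine (abs_add_le _ _).trans ?_
      have e2 : |-(p * q' - p' * q) / q| = 1 / q := by
        rw [abs_div, abs_neg, hdet, abs_of_pos hq0]
      rw [e2, abs_mul, abs_of_nonneg (by linarith : 0 ≤ p)]
      calc p * |z + q' / q| + 1 / q ≤ (3 * q) * ((D + n) / q ^ 2) + 1 / q := by gcongr
        _ = (3 * (D + n) + 1) / q := by field_simp
        _ ≤ _ := by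
            apply div_le_div_of_nonneg_right _ hq0.le
            nlinarith
    rw [hFe, ← hz, tr_eval, ← hp, ← hp', ← hq, ← hq']
    refine (Finset.abs_sum_le_sum_abs _ _).trans ?_
    have h3 : ∀ j ∈ Finset.range (n + 1), |(P.coeff j : ℝ) * ((p * z + p') ^ j *
        (q * z + q') ^ (n - j))| ≤ ht P * ((3 * n + 4) * D / q) ^ n := by
      intro j hj
      have hj' : j ≤ n := by have := Finset.mem_range.mp hj; omega
      rw [abs_mul, abs_mul, abs_pow, abs_pow]
      have hc : |(P.coeff j : ℝ)| ≤ ht P := by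
        have := natAbs_coeff_le_ht P j
        rw [← Int.cast_abs, Int.abs_eq_natAbs]
        exact_mod_cast this
      have hD0 : 0 ≤ (3 * n + 4) * D / q := by positivity
      have e : ((3 * n + 4) * D / q) ^ n =
          ((3 * n + 4) * D / q) ^ j * ((3 * n + 4) * D / q) ^ (n - j) := by
        rw [← pow_add]; congr 1; omega
      rw [e]
      gcongr
    calc ∑ j ∈ Finset.range (n + 1), |(P.coeff j : ℝ) * ((p * z + p') ^ j *
        (q * z + q') ^ (n - j))| ≤ ∑ j ∈ Finset.range (n + 1), ht P * ((3 * n + 4) * D / q) ^ n :=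
          Finset.sum_le_sum h3
      _ = _ := by rw [Finset.sum_const, Finset.card_range, nsmul_eq_mul]; push_cast; ring
  have h1 := hCb F hFd _ hb k
  have h2 : F.coeff k = (hasseDeriv k f).eval y * ((q ^ 2)⁻¹) ^ k := by
    rw [hF, comp_C_mul_X_coeff, taylor_coeff]
  rw [h2, abs_mul, abs_of_pos (by positivity : 0 < ((q ^ 2)⁻¹) ^ k), inv_pow, ← div_eq_mul_inv,
    div_le_iff₀ (by positivity), ← pow_mul] at h1
  refine h1.trans ?_
  have hht : (0 : ℝ) ≤ ht P := Nat.cast_nonneg _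
  rw [div_pow, mul_pow]
  have e : C0 * ((n + 1) * (ht P * ((3 * (n : ℝ) + 4) ^ n * D ^ n / q ^ n))) * q ^ (2 * k) =
      (C0 * ((n + 1) * (3 * (n : ℝ) + 4) ^ n)) * D ^ n * ht P * q ^ (2 * k) / q ^ n := by
    field_simp
  rw [e]
  have hle : C0 * ((n + 1) * (3 * (n : ℝ) + 4) ^ n) ≤ (C0 + 1) * ((n + 1) * (3 * n + 4) ^ n) := by
    gcongr
    linarith
  gcongr

/-- the reversed word controls `q'/q` -/
theorem y_close (W R : List Bool) (hW : W ≠ []) (s : ℕ → Bool) :
    |YY (app R.reverse s) + re (W ++ (R ++ [true])) 1 1 / re (W ++ (R ++ [true])) 1 0| ≤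
      8 * re W 1 0 ^ 2 / re (W ++ (R ++ [true])) 1 0 ^ 2 := by
  obtain ⟨L, hL⟩ : ∃ L, L = true :: R.reverse := ⟨_, rfl⟩
  have hLne : L ≠ [] := by rw [hL]; simp
  have hrev : L = (R ++ [true]).reverse := by rw [hL]; simp
  have hMt : (MM (R ++ [true])) = (MM L)ᵀ := by
    rw [MM_transpose, hrev, List.reverse_reverse]
  have hY : YY (app R.reverse s) = -1 / mL L (eta s) := by
    unfold YY
    have : scons true (app R.reverse s) = app L s := by rw [hL]; rfl
    rw [this, eta_app]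
  obtain ⟨P, hP⟩ : ∃ P, P = re L 0 0 := ⟨_, rfl⟩
  obtain ⟨P', hP'⟩ : ∃ P', P' = re L 0 1 := ⟨_, rfl⟩
  obtain ⟨S, hS⟩ : ∃ S, S = re L 1 0 := ⟨_, rfl⟩
  obtain ⟨S', hS'⟩ : ∃ S', S' = re L 1 1 := ⟨_, rfl⟩
  obtain ⟨u, hu⟩ : ∃ u, u = re W 1 0 := ⟨_, rfl⟩
  obtain ⟨v, hv⟩ : ∃ v, v = re W 1 1 := ⟨_, rfl⟩
  have hq : re (W ++ (R ++ [true])) 1 0 = u * P + v * P' := by
    rw [hu, hv, hP, hP']
    unfold re
    rw [MM_append, Matrix.mul_apply, Fin.sum_univ_two, hMt]
    simp [Matrix.transpose_apply]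
  have hq' : re (W ++ (R ++ [true])) 1 1 = u * S + v * S' := by
    rw [hu, hv, hS, hS']
    unfold re
    rw [MM_append, Matrix.mul_apply, Fin.sum_univ_two, hMt]
    simp [Matrix.transpose_apply]
  have hWr := re_rel W hW
  have hWn := re_nonneg W
  have hLr := re_rel L hLne
  have hLn := re_nonneg L
  have hdet := re_det L
  rw [← hu, ← hv] at hWr
  rw [← hu, ← hv] at hWn
  rw [← hP, ← hP', ← hS, ← hS'] at hLr hLn hdet
  obtain ⟨z, hz⟩ : ∃ z, z = eta s := ⟨_, rfl⟩
  have hz1 := eta_ge s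
  have hz3 := eta_le s
  rw [← hz] at hz1 hz3
  have hu1 : 1 ≤ u := hWr.1
  have hv0 : 0 ≤ v := hWn.2.2.2
  have hvu : v ≤ u := hWr.2.1
  have hP1 : 1 ≤ P := hLn.1
  have hP'0 : 0 ≤ P' := hLn.2.1
  have hP'P : P' ≤ P := hLr.2.2.2
  have hqpos : 0 < u * P + v * P' := by
    have : 0 < u * P := by positivity
    have : 0 ≤ v * P' := by positivity
    linarith
  have hden : 0 < P * z + P' := by
    have : 0 < P * z := by positivity
    linarith
  have hS0 : 0 < S * z + S' := by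
    have := re_den_pos L (z := z) (by linarith)
    rwa [← hS, ← hS'] at this
  rw [hY, hq, hq', ← hu]
  unfold mL mob
  rw [← hP, ← hP', ← hS, ← hS', ← hz]
  have e : -1 / ((P * z + P') / (S * z + S')) + (u * S + v * S') / (u * P + v * P') =
      (P * S' - P' * S) * (v * z - u) / ((u * P + v * P') * (P * z + P')) := by
    field_simp
    ring
  rw [e, abs_div, abs_mul, hdet, one_mul, abs_of_pos (mul_pos hqpos hden)]
  rw [div_le_div_iff₀ (mul_pos hqpos hden) (by positivity)]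
  have h1 : |v * z - u| ≤ 4 * u := by
    rw [abs_le]
    constructor
    · have : 0 ≤ v * z := by positivity
      linarith
    · nlinarith
  have h2 : u * P + v * P' ≤ 2 * u * (P * z + P') := by
    have a1 : v * P' ≤ u * P := mul_le_mul hvu hP'P hP'0 (by linarith)
    have a2 : u * P ≤ u * (P * z + P') := by
      apply mul_le_mul_of_nonneg_left _ (by linarith)
      nlinarith
    linarith
  calc |v * z - u| * (u * P + v * P') ^ 2 ≤ 4 * u * (u * P + v * P') ^ 2 := by gcongr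
    _ = 4 * u * ((u * P + v * P') * (u * P + v * P')) := by ring
    _ ≤ 4 * u * ((u * P + v * P') * (2 * u * (P * z + P'))) := by gcongr
    _ = _ := by ring

end Pool.Agent.W72
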