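import Mathlib
import Pool.Agent.W72.BaI

set_option autoImplicit false

namespace Pool.Agent.W72

open Polynomial Matrix MeasureTheory
open Pool.Agent.Helper35 (ht natAbs_coeff_le_ht)

theorem mL_ge_one (L : List Bool) {z : ℝ} (hz : 1 ≤ z) : 1 ≤ mL L z := by
  induction L with
  | nil => rwa [mL_nil]
  | cons b L ih =>
    rw [mL_cons b L (by linarith)]
    have h0 : 0 < mL L z := by linarith
    have h1 : 0 < 1 / mL L z := by positivity
    have := dg_ge b
    linarith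

theorem mL_le_three (L : List Bool) {z : ℝ} (hz : 1 ≤ z) (hz3 : z ≤ 3) : mL L z ≤ 3 := by
  cases L with
  | nil => rwa [mL_nil]
  | cons b L =>
    rw [mL_cons b L (by linarith)]
    have h0 := mL_ge_one L hz
    have h1 : 1 / mL L z ≤ 1 := by
      rw [div_le_one (by linarith)]; exact h0
    have := dg_le b
    linarith

theorem abs_pow_sub_le (j : ℕ) {x y : ℝ} (hx : |x| ≤ 3) (hy : |y| ≤ 3) :
    |x ^ j - y ^ j| ≤ j * 3 ^ j * |x - y| := by
  induction j with
  | zero => simp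
  | succ j ih =>
    have e : x ^ (j + 1) - y ^ (j + 1) = x * (x ^ j - y ^ j) + y ^ j * (x - y) := by ring
    rw [e]
    refine (abs_add_le _ _).trans ?_
    rw [abs_mul, abs_mul, abs_pow]
    have h1 : |y| ^ j ≤ 3 ^ j := pow_le_pow_left₀ (abs_nonneg _) hy j
    have h2 : 0 ≤ |x - y| := abs_nonneg _
    have h3 : (0 : ℝ) < 3 ^ j := by positivity
    calc |x| * |x ^ j - y ^ j| + |y| ^ j * |x - y|
        ≤ 3 * (j * 3 ^ j * |x - y|) + 3 ^ j * |x - y| := by gcongr
      _ ≤ ((j + 1 : ℕ) : ℝ) * 3 ^ (j + 1) * |x - y| := by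
          push_cast
          rw [pow_succ]
          have : 0 ≤ 3 ^ j * |x - y| := by positivity
          nlinarith

theorem aeval_lip (n : ℕ) (P : ℤ[X]) (hP : P.natDegree ≤ n) {x y : ℝ} (hx : |x| ≤ 3)
    (hy : |y| ≤ 3) : |aeval x P - aeval y P| ≤ ((n : ℝ) + 1) ^ 2 * 3 ^ n * ht P * |x - y| := by
  rw [aeval_sum P n hP, aeval_sum P n hP, ← Finset.sum_sub_distrib]
  refine (Finset.abs_sum_le_sum_abs _ _).trans ?_
  have h : ∀ j ∈ Finset.range (n + 1), |(P.coeff j : ℝ) * x ^ j - (P.coeff j : ℝ) * y ^ j| ≤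
      ((n : ℝ) + 1) * 3 ^ n * ht P * |x - y| := by
    intro j hj
    have hj' : j ≤ n := by have := Finset.mem_range.mp hj; omega
    rw [← mul_sub, abs_mul]
    have h1 := abs_pow_sub_le j hx hy
    have h2 := Pool.Agent.Helper35.abs_coeff_le_ht P j
    have h3 : (3 : ℝ) ^ j ≤ 3 ^ n := pow_le_pow_right₀ (by norm_num) hj'
    have h4 : (j : ℝ) ≤ n + 1 := by have : (j : ℝ) ≤ n := by exact_mod_cast hj'
                                    linarith
    have h5 : 0 ≤ |x - y| := abs_nonneg _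
    calc |(P.coeff j : ℝ)| * |x ^ j - y ^ j| ≤ ht P * ((n + 1) * 3 ^ n * |x - y|) := by
          apply mul_le_mul h2 _ (abs_nonneg _) (Nat.cast_nonneg _)
          refine h1.trans ?_
          gcongr
      _ = _ := by ring
  refine (Finset.sum_le_sum h).trans ?_
  rw [Finset.sum_const, Finset.card_range, nsmul_eq_mul]
  push_cast
  apply le_of_eq
  ring

theorem re10_growth (L : List Bool) (hL : L ≠ []) : (2 : ℝ) ^ L.length ≤ 4 * re L 1 0 ^ 2 := by
  cases L with
  | nil => exact absurd rfl hL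
  | cons b L =>
    have h1 := MM_growth L
    have h2 : re (b :: L) 1 0 = re L 0 0 := by unfold re; rw [MM_cons_10]
    have h3 : (2 : ℝ) ^ L.length ≤ 2 * re L 0 0 ^ 2 := by
      unfold re; exact_mod_cast h1
    rw [h2, List.length_cons, pow_succ]
    linarith

theorem mL_contr (L : List Bool) (hL : L ≠ []) {z w : ℝ} (hz : 1 ≤ z) (hz3 : z ≤ 3) (hw : 1 ≤ w)
    (hw3 : w ≤ 3) : |mL L z - mL L w| ≤ 8 / 2 ^ L.length := by
  rw [mL_sub L (by linarith) (by linarith)]
  have h1 := re_rel L hL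
  have h2 := re_nonneg L
  have h3 := re10_growth L hL
  have hq : 1 ≤ re L 1 0 := h1.1
  have h4 : re L 1 0 ≤ re L 1 0 * z + re L 1 1 := by nlinarith
  have h5 : re L 1 0 ≤ re L 1 0 * w + re L 1 1 := by nlinarith
  have h6 : |z - w| ≤ 2 := by rw [abs_le]; constructor <;> linarith
  rw [div_le_div_iff₀ (mul_pos (by linarith) (by linarith)) (by positivity)]
  have h7 : re L 1 0 * re L 1 0 ≤ (re L 1 0 * z + re L 1 1) * (re L 1 0 * w + re L 1 1) :=
    mul_le_mul h4 h5 (by linarith) (by linarith)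
  calc |z - w| * 2 ^ L.length ≤ 2 * (4 * re L 1 0 ^ 2) := by gcongr
    _ ≤ 8 * ((re L 1 0 * z + re L 1 1) * (re L 1 0 * w + re L 1 1)) := by nlinarith

/-! ## Blocks of ones -/

theorem NN_succ (m : ℕ) : NN (m + 1) = re (List.replicate m false) 0 0 := by
  unfold NN
  rw [List.replicate_succ]
  unfold re
  rw [MM_cons_10]

theorem NN_le_succ (m : ℕ) : NN m ≤ NN (m + 1) := by
  rw [NN_succ]
  by_cases hm : m = 0
  · subst hm
    simp [NN, re, MM_nil]
  · exact (re_rel _ (by intro h; have := congrArg List.length h; simp at this; omega)).2.2.1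

theorem NN_double (m : ℕ) (hm : 1 ≤ m) : NN (m + 1) ≤ 2 * NN m := by
  obtain ⟨k, rfl⟩ : ∃ k, m = k + 1 := ⟨m - 1, by omega⟩
  have h1 : NN (k + 1 + 1) = NN (k + 1) + NN k := by
    rw [NN_succ, NN_succ, List.replicate_succ]
    unfold NN re
    rw [MM_cons_00]
    have : dz false = 1 := rfl
    rw [this]
    push_cast
    ring
  have h2 := NN_le_succ k
  rw [h1]
  linarith

theorem NN_growth (m : ℕ) (hm : 1 ≤ m) : (2 : ℝ) ^ m ≤ 4 * NN m ^ 2 := by
  have h := re10_growth (List.replicate m false)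
    (by intro h; have := congrArg List.length h; simp at this; omega)
  rwa [List.length_replicate] at h

theorem NN_one : NN 1 = 1 := by
  rw [NN_succ]; simp [re, MM_nil]

theorem exists_NN (x : ℝ) : ∃ m, 1 ≤ m ∧ x ≤ NN m := by
  obtain ⟨k, hk⟩ := pow_unbounded_of_one_lt (4 * (|x| + 1) ^ 2) (by norm_num : (1 : ℝ) < 2)
  refine ⟨k + 1, by omega, ?_⟩
  have h1 := NN_growth (k + 1) (by omega)
  have h2 : (2 : ℝ) ^ k ≤ 2 ^ (k + 1) := pow_le_pow_right₀ (by norm_num) (by omega)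
  have h3 := NN_pos (k + 1) (by omega)
  have h4 : (|x| + 1) ^ 2 < NN (k + 1) ^ 2 := by linarith
  have h5 : |x| + 1 < NN (k + 1) := lt_of_pow_lt_pow_left₀ 2 (by linarith) h4
  have := le_abs_self x
  linarith

/-- length of the block of ones after the word `U` -/
noncomputable def mU (wg : ℝ) (U : List Bool) : ℕ :=
  sInf {m | 1 ≤ m ∧ re U 1 0 ^ (wg - 1) ≤ NN m}

theorem mU_mem (wg : ℝ) (U : List Bool) : 1 ≤ mU wg U ∧ re U 1 0 ^ (wg - 1) ≤ NN (mU wg U) :=
  Nat.sInf_mem (s := {m | 1 ≤ m ∧ re U 1 0 ^ (wg - 1) ≤ NN m}) (exists_NN _)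

theorem mU_pred (wg : ℝ) (U : List Bool) (k : ℕ) (hk : 1 ≤ k) (hk2 : k < mU wg U) :
    NN k < re U 1 0 ^ (wg - 1) := by
  by_contra hc
  push Not at hc
  have := Nat.sInf_le (s := {m | 1 ≤ m ∧ re U 1 0 ^ (wg - 1) ≤ NN m}) (m := k) ⟨hk, hc⟩
  unfold mU at hk2
  omega

theorem mU_upper (wg : ℝ) (hwg : 1 ≤ wg) (U : List Bool) (hU : U ≠ []) :
    NN (mU wg U) ≤ 2 * re U 1 0 ^ (wg - 1) := by
  have h1 := (mU_mem wg U).1
  have hq := (re_rel U hU).1
  have h2 : 1 ≤ re U 1 0 ^ (wg - 1) := Real.one_le_rpow hq (by linarith)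
  obtain ⟨k, hk⟩ : ∃ k, mU wg U = k + 1 := ⟨mU wg U - 1, by omega⟩
  rw [hk]
  by_cases hk0 : k = 0
  · subst hk0
    rw [NN_one]
    linarith
  · have h3 := mU_pred wg U k (by omega) (by omega)
    have h4 := NN_double k (by omega)
    linarith

theorem mU_length (wg : ℝ) (hwg : 1 ≤ wg) (U : List Bool) (hU : U ≠ []) :
    (mU wg U : ℝ) ≤ 3 + 4 * wg * U.length := by
  have h1 := (mU_mem wg U).1
  have hq := (re_rel U hU).1
  obtain ⟨k, hk⟩ : ∃ k, mU wg U = k + 1 := ⟨mU wg U - 1, by omega⟩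
  rw [hk]
  have hlen : (0 : ℝ) ≤ U.length := Nat.cast_nonneg _
  by_cases hk0 : k = 0
  · subst hk0
    push_cast
    nlinarith
  · have h3 := mU_pred wg U k (by omega) (by omega)
    have h4 := NN_growth k (by omega)
    have h5 : re U 1 0 ≤ 4 ^ U.length := by
      have h6 := (MM_rel2 U).2.2.1
      have h7 : re U 1 0 ≤ 3 ^ U.length := by unfold re; exact_mod_cast h6
      exact h7.trans (pow_le_pow_left₀ (by norm_num) (by norm_num) _)
    have h8 : re U 1 0 ^ (wg - 1) ≤ (2 : ℝ) ^ (2 * U.length * (wg - 1)) := by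
      calc re U 1 0 ^ (wg - 1) ≤ ((4 : ℝ) ^ U.length) ^ (wg - 1) :=
            Real.rpow_le_rpow (by linarith) h5 (by linarith)
        _ = _ := by
            have e : ((4 : ℝ) ^ U.length) = (2 : ℝ) ^ (2 * (U.length : ℝ)) := by
              rw [Real.rpow_mul (by norm_num), Real.rpow_natCast]
              norm_num
            rw [e, ← Real.rpow_mul (by norm_num)]
    have h9 : (2 : ℝ) ^ (k : ℝ) ≤ (2 : ℝ) ^ (2 + 2 * (2 * U.length * (wg - 1))) := by
      rw [Real.rpow_natCast]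
      have hNk := NN_pos k (by omega)
      calc (2 : ℝ) ^ k ≤ 4 * NN k ^ 2 := h4
        _ ≤ 4 * ((2 : ℝ) ^ (2 * U.length * (wg - 1))) ^ 2 := by
            have : NN k ≤ (2 : ℝ) ^ (2 * U.length * (wg - 1)) := by linarith
            gcongr
        _ = _ := by
            rw [Real.rpow_add (by norm_num), mul_comm (2 : ℝ) (2 * U.length * (wg - 1)),
              Real.rpow_mul (by norm_num) _ 2]
            norm_num
    have h10 := (Real.rpow_le_rpow_left_iff (by norm_num : (1 : ℝ) < 2)).mp h9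
    push_cast
    nlinarith

theorem mU_rel (wg : ℝ) (hwg : 1 ≤ wg) (U : List Bool) (hU : U ≠ []) (l : ℕ)
    (hl : Real.log (re U 1 0) ≤ l + 1) :
    NN (mU wg U) ^ 2 ≤ 4 * Real.exp (2 * (wg - 1)) * Real.exp (2 * (wg - 1) * l) := by
  have h1 := mU_upper wg hwg U hU
  have h2 := NN_pos _ (mU_mem wg U).1
  have hq := (re_rel U hU).1
  have h3 : re U 1 0 ^ (wg - 1) ≤ Real.exp ((wg - 1) * (l + 1)) := by
    rw [Real.rpow_def_of_pos (by linarith)]
    apply Real.exp_le_exp.mpr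
    rw [mul_comm]
    exact mul_le_mul_of_nonneg_left hl (by linarith)
  calc NN (mU wg U) ^ 2 ≤ (2 * Real.exp ((wg - 1) * (l + 1))) ^ 2 := by
        have : NN (mU wg U) ≤ 2 * Real.exp ((wg - 1) * (l + 1)) := by linarith
        gcongr
    _ = _ := by
        rw [mul_pow, mul_assoc, ← Real.exp_add, ← Real.exp_nat_mul]
        push_cast
        congr 2
        · norm_num
        · ring

/-! ## From small values of polynomials to short vectors -/

theorem fail_bad (n : ℕ) : ∃ CT : ℝ, 1 ≤ CT ∧ ∀ (w ε D : ℝ), (n : ℝ) ≤ w → 0 < ε → 1 ≤ D →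
    ∀ (W R : List Bool) (m : ℕ) (P : ℤ[X]) (s t : ℕ → Bool), W ≠ [] → 8 * re W 1 0 ^ 2 ≤ D →
    P.natDegree ≤ n → P ≠ 0 → aeval (mL (W ++ (R ++ [true])) Real.goldenRatio) P ≠ 0 →
    |aeval (mL (W ++ (R ++ [true])) (XX m t)) P| ≤ 2 * (ht P : ℝ) ^ (-w - ε) →
    ∀ (l i : ℕ), l = ⌊Real.log (re (W ++ (R ++ [true])) 1 0)⌋₊ → i = ⌊Real.log (ht P)⌋₊ →
    w * (1 + (Real.log (CT * D ^ n) + 2 * n)) + n * Real.log (4 * Real.exp 1) + Real.log 2 ≤
      ε / 2 * i → ∃ a : Fin (n + 1) → ℤ, (toP a).eval Real.goldenRatio ≠ 0 ∧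
      ‖hT (wA n l (i + 1 + ε / (2 * (w + 1)) * i + (Real.log (CT * D ^ n) + 2 * n)))
        (wB n w l (i + 1 + ε / (2 * (w + 1)) * i + (Real.log (CT * D ^ n) + 2 * n)))
        (YY (app R.reverse s)) (XX m t) a‖ ≤ Real.exp (-(ε / (2 * (w + 1)) * i)) := by
  obtain ⟨CT, hCT, hT1⟩ := tr_taylor_bound n
  refine ⟨CT, hCT, ?_⟩
  intro w ε D hw hε hD W R m P s t hW hWD hPn hP0 hPφ hPx l i hl hi hcond
  have hn0 : (0 : ℝ) ≤ n := Nat.cast_nonneg n
  have hw0 : 0 ≤ w := by linarith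
  obtain ⟨U, hU⟩ : ∃ U, U = W ++ (R ++ [true]) := ⟨_, rfl⟩
  have hUne : U ≠ [] := by rw [hU]; simp
  obtain ⟨κ, hκ⟩ : ∃ κ, κ = Real.log (CT * D ^ n) + 2 * n := ⟨_, rfl⟩
  obtain ⟨u, hu⟩ : ∃ u, u = ε / (2 * (w + 1)) * i := ⟨_, rfl⟩
  have hclose := y_close W R hW s
  rw [← hU] at hPφ hPx hl hclose
  rw [← hκ] at hcond ⊢
  rw [← hu]
  obtain ⟨q, hq⟩ : ∃ q, q = re U 1 0 := ⟨_, rfl⟩
  have hq1 : 1 ≤ q := by rw [hq]; exact (re_rel U hUne).1
  have hq0 : 0 < q := by linarith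
  have hq'1 : re U 1 1 ≤ q := by rw [hq]; exact (re_rel U hUne).2.1
  have hq'0 := (re_nonneg U).2.2.2
  have hx := XX_mem m t
  obtain ⟨x, hxd⟩ : ∃ x, x = XX m t := ⟨_, rfl⟩
  rw [← hxd] at hx hPx ⊢
  have hphi0 : 0 < Real.goldenRatio := Real.goldenRatio_pos
  refine ⟨vec n (tr U n P), ?_, ?_⟩
  · rw [toP_vec_eval n _ (tr_natDegree U n P), tr_eval_mL U n P hPn hphi0]
    exact mul_ne_zero (pow_ne_zero _ (re_den_pos U hphi0).ne') hPφ
  have hH1 : (1 : ℝ) ≤ ht P := by exact_mod_cast Pool.Agent.Helper35.ht_pos hP0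
  have hH0 : (0 : ℝ) < ht P := by linarith
  obtain ⟨H, hHd⟩ : ∃ H : ℝ, H = ht P := ⟨_, rfl⟩
  rw [← hHd] at hH1 hH0 hi hPx
  have hlogH : 0 ≤ Real.log H := Real.log_nonneg hH1
  have hi1 : (i : ℝ) ≤ Real.log H := by rw [hi]; exact Nat.floor_le hlogH
  have hi2 : Real.log H < i + 1 := by rw [hi]; exact Nat.lt_floor_add_one _
  have hlogq : 0 ≤ Real.log q := Real.log_nonneg hq1
  rw [← hq] at hl
  have hl1 : (l : ℝ) ≤ Real.log q := by rw [hl]; exact Nat.floor_le hlogq
  have hl2 : Real.log q < l + 1 := by rw [hl]; exact Nat.lt_floor_add_one _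
  have hHe : H ≤ Real.exp (i + 1) := by
    calc H = Real.exp (Real.log H) := (Real.exp_log hH0).symm
      _ ≤ _ := Real.exp_le_exp.mpr hi2.le
  have hqe : q = Real.exp (Real.log q) := (Real.exp_log hq0).symm
  have hCTD : 0 < CT * D ^ n := by positivity
  rw [pi_norm_le_iff_of_nonneg (Real.exp_pos _).le]
  intro o
  rcases o with _ | k
  · -- the value at `x`
    unfold hT wB
    rw [Real.norm_eq_abs, abs_mul, abs_of_pos (Real.exp_pos _),
      toP_vec_eval n _ (tr_natDegree U n P), tr_eval_mL U n P hPn (by linarith), abs_mul, abs_pow]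
    have hden : |re U 1 0 * x + re U 1 1| ≤ 4 * q := by
      rw [← hq, abs_of_nonneg (by nlinarith)]
      nlinarith
    have h1 : (4 * q) ^ n ≤ Real.exp (n * Real.log (4 * Real.exp 1) + n * l) := by
      have e : Real.exp (n * Real.log (4 * Real.exp 1) + n * l) =
          (4 * Real.exp 1 * Real.exp l) ^ n := by
        rw [Real.exp_add, Real.exp_nat_mul, Real.exp_nat_mul, Real.exp_log (by positivity),
          ← mul_pow]
      rw [e]
      apply pow_le_pow_left₀ (by positivity)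
      rw [mul_assoc, ← Real.exp_add]
      apply mul_le_mul_of_nonneg_left _ (by norm_num)
      calc q = Real.exp (Real.log q) := hqe
        _ ≤ _ := Real.exp_le_exp.mpr (by linarith)
    have h2 : H ^ (-w - ε) ≤ Real.exp ((-w - ε) * i) := by
      rw [Real.rpow_def_of_pos hH0]
      apply Real.exp_le_exp.mpr
      have : (-w - ε) * Real.log H ≤ (-w - ε) * i :=
        mul_le_mul_of_nonpos_left hi1 (by linarith)
      linarith
    have h3 : |aeval (mL U x) P| ≤ Real.exp (Real.log 2 + (-w - ε) * i) := by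
      rw [Real.exp_add, Real.exp_log (by norm_num)]
      linarith
    calc Real.exp (w * (i + 1 + u + κ) - n * l) *
          (|re U 1 0 * x + re U 1 1| ^ n * |aeval (mL U x) P|)
        ≤ Real.exp (w * (i + 1 + u + κ) - n * l) *
          (Real.exp (n * Real.log (4 * Real.exp 1) + n * l) *
            Real.exp (Real.log 2 + (-w - ε) * i)) := by
          have h4 : |re U 1 0 * x + re U 1 1| ^ n ≤ (4 * q) ^ n :=
            pow_le_pow_left₀ (abs_nonneg _) hden n
          have h5 := h4.trans h1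
          gcongr
      _ ≤ Real.exp (-u) := by
          rw [← Real.exp_add, ← Real.exp_add]
          apply Real.exp_le_exp.mpr
          have hwu : (w + 1) * u = ε / 2 * i := by
            rw [hu]; field_simp
          nlinarith
  · -- the derivatives at `y`
    unfold hT wA
    rw [Real.norm_eq_abs, abs_mul, abs_of_pos (Real.exp_pos _)]
    have hy : |YY (app R.reverse s) + re U 1 1 / re U 1 0| ≤ D / re U 1 0 ^ 2 := by
      refine hclose.trans ?_
      apply div_le_div_of_nonneg_right hWD (by positivity)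
    have h1 := hT1 U P _ D hUne hD hy k
    rw [← hq, ← hHd] at h1
    have hk : (k : ℕ) ≤ n := by have := k.2; omega
    have hkr : ((k : ℕ) : ℝ) ≤ n := by exact_mod_cast hk
    have hk0 : (0 : ℝ) ≤ ((k : ℕ) : ℝ) := Nat.cast_nonneg _
    have h2 : CT * D ^ n * H * q ^ (2 * (k : ℕ)) / q ^ n ≤
        Real.exp (Real.log (CT * D ^ n) + (i + 1) + (2 * (k : ℕ)) * Real.log q - n * Real.log q) := by
      have e : Real.exp (Real.log (CT * D ^ n) + (i + 1) + (2 * (k : ℕ)) * Real.log q -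
          n * Real.log q) = CT * D ^ n * Real.exp (i + 1) * q ^ (2 * (k : ℕ)) / q ^ n := by
        rw [Real.exp_sub, Real.exp_add, Real.exp_add, Real.exp_log hCTD, Real.exp_nat_mul,
          Real.exp_log hq0]
        have : (2 * ((k : ℕ) : ℝ)) * Real.log q = ((2 * (k : ℕ) : ℕ) : ℝ) * Real.log q := by
          push_cast; ring
        rw [this, Real.exp_nat_mul, Real.exp_log hq0]
      rw [e]
      gcongr
    obtain ⟨E, hE⟩ : ∃ E, E = Real.log (CT * D ^ n) + (i + 1) + (2 * (k : ℕ)) * Real.log q -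
      n * Real.log q := ⟨_, rfl⟩
    rw [← hE] at h2
    have h5 := h1.trans h2
    clear h1 h2
    obtain ⟨Z, hZ⟩ : ∃ Z, Z = |(hasseDeriv (k : ℕ) (toP (vec n (tr U n P)))).eval
      (YY (app R.reverse s))| := ⟨_, rfl⟩
    rw [← hZ] at h5 ⊢
    refine (mul_le_mul_of_nonneg_left h5 (Real.exp_pos _).le).trans ?_
    rw [← Real.exp_add]
    apply Real.exp_le_exp.mpr
    rw [hκ, hE]
    have h3 : ((k : ℕ) : ℝ) * (Real.log q - l) ≤ n * 1 :=
      mul_le_mul hkr (by linarith) (by linarith) hn0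
    have h4 : 0 ≤ (n : ℝ) * (Real.log q - l) := mul_nonneg hn0 (by linarith)
    clear hZ h5 hclose hy
    linarith

end Pool.Agent.W72
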