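import Mathlib
import Pool.Agent.W72.BaJ

set_option autoImplicit false

namespace Pool.Agent.W72

open Polynomial Matrix MeasureTheory
open Pool.Agent.Helper35 (ht natAbs_coeff_le_ht)

theorem exists_of_agr (L : List Bool) (s t : ℕ → Bool) (h : Agr L.length (app L s) t) :
    ∃ s', t = app L s' := by
  induction L generalizing t with
  | nil => exact ⟨t, rfl⟩
  | cons b L ih =>
    have h0 : t 0 = b := (h 0 (by simp)).symm
    have h1 : Agr L.length (app L s) (stail t) := fun i hi => h (i + 1) (by simp; omega)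
    obtain ⟨s', hs'⟩ := ih (stail t) h1
    refine ⟨s', ?_⟩
    show t = scons b (app L s')
    rw [← hs', ← h0, scons_stail]

theorem app_word_inj (L L' : List Bool) (s s' : ℕ → Bool) (hl : L.length = L'.length)
    (h : Agr L.length (app L s) (app L' s')) : L = L' := by
  induction L generalizing L' with
  | nil => exact (List.length_eq_zero_iff.mp hl.symm).symm
  | cons b L ih =>
    cases L' with
    | nil => simp at hl
    | cons b' L' =>
      have h0 : b = b' := h 0 (by simp)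
      have h1 : Agr L.length (app L s) (app L' s') := fun i hi => h (i + 1) (by simp; omega)
      rw [h0, ih L' (by simpa using hl) h1]

theorem card_le_mu {N N' : ℕ} (F : Finset ((Fin N → Bool) × (Fin N' → Bool))) (B : Set Om)
    (hB : ∀ p ∈ F, ∀ s t, ((app (List.ofFn p.1).reverse s, app (List.ofFn p.2) t) : Om) ∈ B) :
    (F.card : ENNReal) * ((2⁻¹ : ENNReal) ^ N * (2⁻¹ : ENNReal) ^ N') ≤ mu B := by
  classical
  obtain ⟨s0, hs0⟩ : ∃ s0 : ℕ → Bool, s0 = fun _ => true := ⟨_, rfl⟩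
  set D : ((Fin N → Bool) × (Fin N' → Bool)) → Set Om := fun p =>
    cyl N (app (List.ofFn p.1).reverse s0) ×ˢ cyl N' (app (List.ofFn p.2) s0) with hD
  have hlen1 : ∀ p : (Fin N → Bool) × (Fin N' → Bool), (List.ofFn p.1).reverse.length = N :=
    fun p => by simp
  have hlen2 : ∀ p : (Fin N → Bool) × (Fin N' → Bool), (List.ofFn p.2).length = N' :=
    fun p => by simp
  have hmeas : ∀ p, MeasurableSet (D p) := fun p =>
    ((isOpen_cyl _ _).prod (isOpen_cyl _ _)).measurableSet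
  have hmuD : ∀ p, mu (D p) = (2⁻¹ : ENNReal) ^ N * (2⁻¹ : ENNReal) ^ N' := by
    intro p
    unfold mu
    rw [hD]
    simp only
    rw [Measure.prod_prod, bet_cyl, bet_cyl]
  have hdisj : (F : Set ((Fin N → Bool) × (Fin N' → Bool))).PairwiseDisjoint D := by
    intro p _ p' _ hne
    rw [Function.onFun, Set.disjoint_left]
    rintro v ⟨h1, h2⟩ ⟨h3, h4⟩
    apply hne
    have e1 := app_word_inj _ _ s0 s0 ((hlen1 p).trans (hlen1 p').symm)
      (by rw [hlen1 p]; exact Agr.trans h1 (Agr.symm h3))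
    have e2 := app_word_inj _ _ s0 s0 ((hlen2 p).trans (hlen2 p').symm)
      (by rw [hlen2 p]; exact Agr.trans h2 (Agr.symm h4))
    exact Prod.ext (List.ofFn_injective (List.reverse_injective e1)) (List.ofFn_injective e2)
  have hsub : (⋃ p ∈ F, D p) ⊆ B := by
    intro v hv
    simp only [Set.mem_iUnion] at hv
    obtain ⟨p, hp, h1, h2⟩ := hv
    obtain ⟨s', hs'⟩ := exists_of_agr _ s0 v.1 (by rw [hlen1 p]; exact h1)
    obtain ⟨t', ht'⟩ := exists_of_agr _ s0 v.2 (by rw [hlen2 p]; exact h2)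
    have : v = (app (List.ofFn p.1).reverse s', app (List.ofFn p.2) t') := Prod.ext hs' ht'
    rw [this]
    exact hB p hp s' t'
  calc (F.card : ENNReal) * ((2⁻¹ : ENNReal) ^ N * (2⁻¹ : ENNReal) ^ N')
      = ∑ p ∈ F, mu (D p) := by
        rw [Finset.sum_congr rfl fun p _ => hmuD p, Finset.sum_const, nsmul_eq_mul]
    _ = mu (⋃ p ∈ F, D p) := (measure_biUnion_finset hdisj fun p _ => hmeas p).symm
    _ ≤ mu B := measure_mono hsub

/-- the failing condition -/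
def FailP (n : ℕ) (w wg ε : ℝ) (t t' : ℕ) (W R R' : List Bool) : Prop :=
  ∃ P : ℤ[X], P.natDegree ≤ n ∧ 2 ^ t ≤ ht P ∧ ht P < 2 ^ t' ∧
    aeval (mL (W ++ (R ++ [true])) Real.goldenRatio) P ≠ 0 ∧
    ∃ z : ℝ, 1 ≤ z ∧ z ≤ 3 ∧
      |aeval (mL ((W ++ (R ++ [true])) ++
        ((List.replicate (mU wg (W ++ (R ++ [true]))) false ++ [true]) ++ R')) z) P| <
        (ht P : ℝ) ^ (-w - ε)

/-- perturbation of the tail -/
theorem fail_perturb (n : ℕ) (w wg ε : ℝ) (hw : (n : ℝ) ≤ w) (hε : 0 < ε) (hε1 : ε ≤ 1) (t t' : ℕ)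
    (ht' : ((n : ℝ) + 1) ^ 2 * 3 ^ n * 8 ≤ 2 ^ t) (W R R' : List Bool) (P : ℤ[X])
    (hPn : P.natDegree ≤ n) (h1 : 2 ^ t ≤ ht P) (h2 : ht P < 2 ^ t')
    (hR' : R'.length = (⌈w⌉₊ + 3) * t')
    (z : ℝ) (hz : 1 ≤ z) (hz3 : z ≤ 3)
    (hz' : |aeval (mL ((W ++ (R ++ [true])) ++
        ((List.replicate (mU wg (W ++ (R ++ [true]))) false ++ [true]) ++ R')) z) P| <
        (ht P : ℝ) ^ (-w - ε)) (s : ℕ → Bool) :
    |aeval (mL (W ++ (R ++ [true])) (XX (mU wg (W ++ (R ++ [true]))) (app R' s))) P| ≤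
      2 * (ht P : ℝ) ^ (-w - ε) := by
  obtain ⟨U, hU⟩ : ∃ U, U = W ++ (R ++ [true]) := ⟨_, rfl⟩
  rw [← hU] at hz' ⊢
  obtain ⟨V, hV⟩ : ∃ V, V = List.replicate (mU wg U) false ++ [true] := ⟨_, rfl⟩
  have hXX : XX (mU wg U) (app R' s) = mL (V ++ R') (eta s) := by
    unfold XX
    rw [← hV, ← app_append, eta_app]
  rw [← hV] at hz'
  have he1 := eta_ge s
  have he3 := eta_le s
  rw [hXX, ← mL_append _ _ (by linarith)]
  obtain ⟨L, hL⟩ : ∃ L, L = U ++ (V ++ R') := ⟨_, rfl⟩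
  rw [← hL] at hz' ⊢
  have hLne : L ≠ [] := by rw [hL, hU]; simp
  have hLlen : R'.length ≤ L.length := by rw [hL]; simp; omega
  have hb1 := mL_ge_one L hz
  have hb2 := mL_le_three L hz hz3
  have hb3 := mL_ge_one L (by linarith : 1 ≤ eta s)
  have hb4 := mL_le_three L (by linarith : 1 ≤ eta s) he3
  have hlip := aeval_lip n P hPn (x := mL L (eta s)) (y := mL L z)
    (by rw [abs_of_nonneg (by linarith)]; exact hb4) (by rw [abs_of_nonneg (by linarith)]; exact hb2)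
  have hcon := mL_contr L hLne (by linarith : 1 ≤ eta s) he3 hz hz3
  have hn0 : (0 : ℝ) ≤ n := Nat.cast_nonneg n
  obtain ⟨H, hH⟩ : ∃ H : ℝ, H = ht P := ⟨_, rfl⟩
  have hH1 : (2 : ℝ) ^ t ≤ H := by rw [hH]; exact_mod_cast h1
  have hH2 : H ≤ 2 ^ t' := by rw [hH]; exact_mod_cast h2.le
  have hHone : 1 ≤ H := le_trans (one_le_pow₀ (by norm_num)) hH1
  have hH0 : 0 < H := by linarith
  rw [← hH] at hlip hz' ⊢
  have hpow : H ^ (w + ε) * H ^ 2 ≤ 2 ^ L.length := by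
    have e0 : H ^ (w + ε) * H ^ 2 ≤ H ^ (((⌈w⌉₊ + 3 : ℕ)) : ℝ) := by
      rw [← Real.rpow_natCast H 2, ← Real.rpow_add hH0]
      apply Real.rpow_le_rpow_of_exponent_le hHone
      push_cast
      have := Nat.le_ceil w
      linarith
    refine e0.trans ?_
    rw [Real.rpow_natCast]
    calc H ^ (⌈w⌉₊ + 3) ≤ (2 ^ t') ^ (⌈w⌉₊ + 3) := pow_le_pow_left₀ hH0.le hH2 _
      _ = 2 ^ R'.length := by rw [← pow_mul, hR', mul_comm]
      _ ≤ 2 ^ L.length := pow_le_pow_right₀ (by norm_num) hLlen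
  have hfin : |aeval (mL L (eta s)) P - aeval (mL L z) P| ≤ H ^ (-w - ε) := by
    refine hlip.trans ?_
    have e1 : H ^ (-w - ε) = 1 / H ^ (w + ε) := by
      rw [show -w - ε = -(w + ε) by ring, Real.rpow_neg hH0.le, one_div]
    rw [e1]
    have hP1 : 0 < H ^ (w + ε) := Real.rpow_pos_of_pos hH0 _
    calc ((n : ℝ) + 1) ^ 2 * 3 ^ n * H * |mL L (eta s) - mL L z|
        ≤ ((n : ℝ) + 1) ^ 2 * 3 ^ n * H * (8 / 2 ^ L.length) := by gcongr
      _ ≤ ((n : ℝ) + 1) ^ 2 * 3 ^ n * H * (8 / (H ^ (w + ε) * H ^ 2)) := by gcongr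
      _ = (((n : ℝ) + 1) ^ 2 * 3 ^ n * 8) * (1 / H ^ (w + ε)) / H := by field_simp
      _ ≤ 1 / H ^ (w + ε) := by
          rw [div_le_iff₀ hH0]
          have : ((n : ℝ) + 1) ^ 2 * 3 ^ n * 8 ≤ H := ht'.trans hH1
          have h3 : 0 ≤ 1 / H ^ (w + ε) := by positivity
          nlinarith
  have := abs_add_le (aeval (mL L (eta s)) P - aeval (mL L z) P) (aeval (mL L z) P)
  rw [sub_add_cancel] at this
  linarith

end Pool.Agent.W72
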