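import Mathlib
import Pool.Agent.W72.BaK

set_option autoImplicit false

namespace Pool.Agent.W72

open Polynomial Matrix MeasureTheory
open Pool.Agent.Helper35 (ht natAbs_coeff_le_ht)

theorem eventually_small (K r : ℝ) (hr0 : 0 ≤ r) (hr1 : r < 1) :
    ∃ j0 : ℕ, ∀ j, j0 ≤ j → K * ((j : ℝ) ^ 2 * r ^ j) ≤ 1 / 16 := by
  have h := tendsto_pow_const_mul_const_pow_of_abs_lt_one 2 (by rw [abs_of_nonneg hr0]; exact hr1)
  have h2 := h.const_mul K
  rw [mul_zero] at h2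
  have h3 := h2.eventually_lt_const (by norm_num : (0 : ℝ) < 1 / 16)
  obtain ⟨j0, hj0⟩ := Filter.eventually_atTop.mp h3
  exact ⟨j0, fun j hj => (hj0 j hj).le⟩

open Classical in
theorem stage_count (n : ℕ) (hn : 1 ≤ n) (w wg : ℝ) (hw : (n : ℝ) ≤ w) (hwg : wg = w ∨ wg = w + 1)
    (ε : ℝ) (hε : 0 < ε) (hε1 : ε ≤ 1) (A : ℕ) :
    ∃ t0 : ℕ, ∀ t, t0 ≤ t → ∀ t' : ℕ, ∀ W : List Bool, W ≠ [] → W.length ≤ A →
      16 * (Finset.univ.filter (fun p : (Fin ((⌈w⌉₊ + 3) * t) → Bool) ×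
        (Fin ((⌈w⌉₊ + 3) * t') → Bool) =>
        FailP n w wg ε t t' W (List.ofFn p.1) (List.ofFn p.2))).card ≤
      2 ^ ((⌈w⌉₊ + 3) * t) * 2 ^ ((⌈w⌉₊ + 3) * t') := by
  obtain ⟨CT, hCT, hfail⟩ := fail_bad n
  have hn1 : (1 : ℝ) ≤ n := by exact_mod_cast hn
  have hwg1 : 1 ≤ wg := by rcases hwg with h | h <;> rw [h] <;> linarith
  have hwgw : wg ≤ w + 1 := by rcases hwg with h | h <;> rw [h] <;> linarith
  have hw0 : 0 < w + 1 := by linarith
  obtain ⟨CF, hCF⟩ : ∃ CF, CF = 4 * Real.exp (2 * (wg - 1)) := ⟨_, rfl⟩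
  have hCF1 : 1 ≤ CF := by
    rw [hCF]
    have := Real.one_le_exp (by linarith : 0 ≤ 2 * (wg - 1))
    linarith
  obtain ⟨C, α, hC, hα, hbad⟩ := bad_measure n hn w wg hw hwg CF hCF1
  obtain ⟨D, hD⟩ : ∃ D : ℝ, D = 8 * 9 ^ A := ⟨_, rfl⟩
  have hD1 : 1 ≤ D := by
    rw [hD]; have : (1 : ℝ) ≤ 9 ^ A := one_le_pow₀ (by norm_num)
    linarith
  obtain ⟨κ, hκ⟩ : ∃ κ, κ = Real.log (CT * D ^ n) + 2 * n := ⟨_, rfl⟩
  have hκ0 : 0 ≤ κ := by
    rw [hκ]
    have h1 : 1 ≤ CT * D ^ n := by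
      have : 1 ≤ D ^ n := one_le_pow₀ hD1
      nlinarith
    have := Real.log_nonneg h1
    linarith
  obtain ⟨c, hc⟩ : ∃ c, c = ⌈w⌉₊ + 3 := ⟨_, rfl⟩
  obtain ⟨β, hβ⟩ : ∃ β, β = ε / (2 * (w + 1)) := ⟨_, rfl⟩
  have hβ0 : 0 < β := by rw [hβ]; positivity
  obtain ⟨r, hr⟩ : ∃ r, r = Real.exp (-(α * β)) := ⟨_, rfl⟩
  have hr0 : 0 < r := by rw [hr]; exact Real.exp_pos _
  have hr1 : r < 1 := by
    rw [hr, Real.exp_lt_one_iff]
    have : 0 < α * β := mul_pos hα hβ0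
    linarith
  -- thresholds
  obtain ⟨ta, hta⟩ := pow_unbounded_of_one_lt (((n : ℝ) + 1) ^ 2 * 3 ^ n * 8)
    (by norm_num : (1 : ℝ) < 2)
  obtain ⟨jb, hjb⟩ := exists_nat_gt ((w * (1 + κ) + n * Real.log (4 * Real.exp 1) + Real.log 2) /
    (ε / 2))
  obtain ⟨jc, hjc⟩ := eventually_small
    (24 * (⌈w⌉₊ + 1) * (A + 3 * c + 1) ^ 2 * C / (1 - r)) r hr0.le hr1
  refine ⟨ta + 2 * jb + 2 * jc + 2, fun t htge t' W hW hWA => ?_⟩
  obtain ⟨j, hj⟩ : ∃ j, j = t / 2 := ⟨_, rfl⟩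
  have hj1 : 1 ≤ j := by omega
  have hjb' : jb ≤ j := by omega
  have hjc' : jc ≤ j := by omega
  have htj : t ≤ 2 * j + 1 := by omega
  have hcondA : ((n : ℝ) + 1) ^ 2 * 3 ^ n * 8 ≤ 2 ^ t :=
    hta.le.trans (pow_le_pow_right₀ (by norm_num) (by omega))
  have hcondB : ∀ i : ℕ, j ≤ i → w * (1 + κ) + n * Real.log (4 * Real.exp 1) + Real.log 2 ≤
      ε / 2 * i := by
    intro i hi
    have h1 : (jb : ℝ) ≤ i := by exact_mod_cast hjb'.trans hi
    rw [div_lt_iff₀ (by positivity)] at hjb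
    have h2 : (jb : ℝ) * (ε / 2) ≤ i * (ε / 2) := by gcongr
    linarith
  obtain ⟨Λ, hΛ⟩ : ∃ Λ : ℕ, Λ = A + c * t + 1 := ⟨_, rfl⟩
  obtain ⟨M, hM⟩ : ∃ M : ℕ, M = 3 + 4 * (⌈w⌉₊ + 1) * Λ := ⟨_, rfl⟩
  rw [← hc]
  -- the bad sets
  set Bd : ℕ → ℕ → ℕ → Set Om := fun i l m => {v : Om |
    (1 ≤ m ∧ NN m ^ 2 ≤ CF * Real.exp (2 * (wg - 1) * l)) ∧
    ∃ a : Fin (n + 1) → ℤ, (toP a).eval Real.goldenRatio ≠ 0 ∧
      ‖hT (wA n l (i + 1 + β * i + κ)) (wB n w l (i + 1 + β * i + κ)) (YY v.1) (XX m v.2) a‖ ≤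
        Real.exp (-(β * i))} with hBd
  have hBdm : ∀ i l m, mu (Bd i l m) ≤ ENNReal.ofReal (C * r ^ i) := by
    intro i l m
    by_cases hcm : 1 ≤ m ∧ NN m ^ 2 ≤ CF * Real.exp (2 * (wg - 1) * l)
    · have h1 := hbad l (i + 1 + β * i + κ) (β * i) m (Nat.cast_nonneg _) (by positivity) hcm.1
        hcm.2
      have e : Real.exp (-α * (β * i)) = r ^ i := by
        rw [hr, ← Real.exp_nat_mul]
        congr 1
        ring
      rw [e] at h1
      refine le_trans (measure_mono ?_) h1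
      rintro v ⟨_, hv⟩
      exact hv
    · have : Bd i l m = ∅ := by
        ext v
        simp only [hBd, Set.mem_ofPred_eq, Set.mem_empty_iff_false, iff_false]
        exact fun h => hcm h.1
      rw [this, measure_empty]
      exact zero_le
  set B : Set Om := ⋃ i ∈ Finset.Ico j (t' + 1), ⋃ l ∈ Finset.range (2 * Λ + 1),
    ⋃ m ∈ Finset.range (M + 1), Bd i l m with hB
  have hmuB : mu B ≤ ENNReal.ofReal (1 / 16) := by
    have h1 : mu B ≤ ∑ i ∈ Finset.Ico j (t' + 1), ∑ l ∈ Finset.range (2 * Λ + 1),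
        ∑ m ∈ Finset.range (M + 1), ENNReal.ofReal (C * r ^ i) := by
      rw [hB]
      refine (measure_biUnion_finset_le _ _).trans (Finset.sum_le_sum fun i _ => ?_)
      refine (measure_biUnion_finset_le _ _).trans (Finset.sum_le_sum fun l _ => ?_)
      exact (measure_biUnion_finset_le _ _).trans (Finset.sum_le_sum fun m _ => hBdm i l m)
    refine h1.trans ?_
    simp only [Finset.sum_const, Finset.card_range, nsmul_eq_mul]
    have h2 : ∑ i ∈ Finset.Ico j (t' + 1), (((2 * Λ + 1 : ℕ) : ENNReal) *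
        (((M + 1 : ℕ) : ENNReal) * ENNReal.ofReal (C * r ^ i))) =
        ENNReal.ofReal (((2 * Λ + 1 : ℕ) : ℝ) * ((M + 1 : ℕ) : ℝ) * C *
          ∑ i ∈ Finset.Ico j (t' + 1), r ^ i) := by
      rw [Finset.mul_sum, ENNReal.ofReal_sum_of_nonneg (fun i _ => by positivity)]
      refine Finset.sum_congr rfl fun i _ => ?_
      rw [show ((2 * Λ + 1 : ℕ) : ℝ) * ((M + 1 : ℕ) : ℝ) * C * r ^ i =
        ((2 * Λ + 1 : ℕ) : ℝ) * (((M + 1 : ℕ) : ℝ) * (C * r ^ i)) by ring,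
        ENNReal.ofReal_mul (Nat.cast_nonneg _), ENNReal.ofReal_mul (Nat.cast_nonneg _),
        ENNReal.ofReal_natCast, ENNReal.ofReal_natCast]
    rw [h2]
    apply ENNReal.ofReal_le_ofReal
    have h3 := geom_sum_Ico_le_of_lt_one (m := j) (n := t' + 1) hr0.le hr1
    have h4 := hjc j hjc'
    have hjr : (1 : ℝ) ≤ j := by exact_mod_cast hj1
    have hΛj : (Λ : ℝ) ≤ (A + 3 * c + 1) * j := by
      have h5 : (t : ℝ) ≤ 3 * j := by
        have : (t : ℝ) ≤ 2 * j + 1 := by exact_mod_cast htj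
        linarith
      rw [hΛ]
      push_cast
      have hc0 : (0 : ℝ) ≤ c := Nat.cast_nonneg _
      have hA0 : (0 : ℝ) ≤ A := Nat.cast_nonneg _
      nlinarith [mul_le_mul_of_nonneg_left h5 hc0]
    have hΛ1 : (1 : ℝ) ≤ Λ := by
      have : 1 ≤ Λ := by omega
      exact_mod_cast this
    have hΛ0 : (0 : ℝ) ≤ Λ := by linarith
    have h6 : ((2 * Λ + 1 : ℕ) : ℝ) * ((M + 1 : ℕ) : ℝ) ≤ 24 * (⌈w⌉₊ + 1) * (Λ : ℝ) ^ 2 := by
      rw [hM]
      push_cast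
      have hcw : (0 : ℝ) ≤ (⌈w⌉₊ : ℝ) := Nat.cast_nonneg _
      have h7 : (2 * (Λ : ℝ) + 1) ≤ 3 * Λ := by linarith
      have h8 : (3 + 4 * ((⌈w⌉₊ : ℝ) + 1) * Λ + 1) ≤ 8 * ((⌈w⌉₊ : ℝ) + 1) * Λ := by nlinarith
      calc (2 * (Λ : ℝ) + 1) * (3 + 4 * ((⌈w⌉₊ : ℝ) + 1) * Λ + 1)
          ≤ (3 * Λ) * (8 * ((⌈w⌉₊ : ℝ) + 1) * Λ) := by gcongr
        _ = _ := by ring
    have h9 : ((2 * Λ + 1 : ℕ) : ℝ) * ((M + 1 : ℕ) : ℝ) ≤
        24 * (⌈w⌉₊ + 1) * ((A + 3 * c + 1) * j) ^ 2 := by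
      refine h6.trans ?_
      gcongr
    have hr' : 0 < 1 - r := by linarith
    calc ((2 * Λ + 1 : ℕ) : ℝ) * ((M + 1 : ℕ) : ℝ) * C * ∑ i ∈ Finset.Ico j (t' + 1), r ^ i
        ≤ (24 * (⌈w⌉₊ + 1) * ((A + 3 * c + 1) * j) ^ 2) * C * (r ^ j / (1 - r)) := by
          gcongr
      _ = 24 * (⌈w⌉₊ + 1) * (A + 3 * c + 1) ^ 2 * C / (1 - r) * ((j : ℝ) ^ 2 * r ^ j) := by ring
      _ ≤ _ := h4
  -- the failing pairs lie in the bad set
  have hcard := card_le_mu (Finset.univ.filter (fun p : (Fin (c * t) → Bool) ×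
        (Fin (c * t') → Bool) =>
        FailP n w wg ε t t' W (List.ofFn p.1) (List.ofFn p.2))) B (by
    intro p hp s s'
    obtain ⟨P, hPn, hP1, hP2, hPφ, z, hz, hz3, hz'⟩ := (Finset.mem_filter.mp hp).2
    obtain ⟨R, hR⟩ : ∃ R, R = List.ofFn p.1 := ⟨_, rfl⟩
    obtain ⟨R', hR'⟩ : ∃ R', R' = List.ofFn p.2 := ⟨_, rfl⟩
    have hRl : R.length = c * t := by rw [hR]; simp
    have hR'l : R'.length = (⌈w⌉₊ + 3) * t' := by rw [hR', ← hc]; simp
    rw [← hR, ← hR'] at hz'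
    rw [← hR] at hPφ
    rw [← hR, ← hR']
    have hpert := fail_perturb n w wg ε hw hε hε1 t t' hcondA W R R' P hPn hP1 hP2 hR'l z hz hz3
      hz' s'
    obtain ⟨U, hU⟩ : ∃ U, U = W ++ (R ++ [true]) := ⟨_, rfl⟩
    have hUne : U ≠ [] := by rw [hU]; simp
    have hUl : U.length ≤ Λ := by
      rw [hU, hΛ]
      simp only [List.length_append, List.length_singleton, hRl]
      omega
    have hUlr : (U.length : ℝ) ≤ Λ := by exact_mod_cast hUl
    have hP0 : P ≠ 0 := by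
      rintro rfl
      simp at hPφ
    have hWr : re W 1 0 ≤ 3 ^ A := by
      have h1 : re W 1 0 ≤ 3 ^ W.length := by
        unfold re; exact_mod_cast (MM_rel2 W).2.2.1
      exact h1.trans (pow_le_pow_right₀ (by norm_num) hWA)
    have hWD : 8 * re W 1 0 ^ 2 ≤ D := by
      have h0 := (re_nonneg W).2.2.1
      have h1 : re W 1 0 ^ 2 ≤ (3 ^ A) ^ 2 := pow_le_pow_left₀ h0 hWr 2
      have h2 : ((3 : ℝ) ^ A) ^ 2 = 9 ^ A := by rw [← pow_mul, mul_comm, pow_mul]; norm_num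
      rw [hD]
      linarith
    have hHpos : (0 : ℝ) < ht P := by
      have := Pool.Agent.Helper35.ht_pos hP0
      exact_mod_cast this
    obtain ⟨i, hi⟩ : ∃ i, i = ⌊Real.log (ht P)⌋₊ := ⟨_, rfl⟩
    have hl2 : 1 / 2 ≤ Real.log 2 := by have := Real.log_two_gt_d9; linarith
    have hl2' : Real.log 2 ≤ 1 := by have := Real.log_two_lt_d9; linarith
    have hij : j ≤ i := by
      rw [hi]
      apply Nat.le_floor
      have h1 : (t : ℝ) * Real.log 2 ≤ Real.log (ht P) := by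
        rw [← Real.log_pow]
        apply Real.log_le_log (by positivity)
        exact_mod_cast hP1
      have h2 : (j : ℝ) * 2 ≤ t := by
        have : j * 2 ≤ t := by omega
        exact_mod_cast this
      have h3 : (0 : ℝ) ≤ t := Nat.cast_nonneg _
      nlinarith
    have hit : i < t' + 1 := by
      have h1 : Real.log (ht P) ≤ t' := by
        have h2 : Real.log (ht P) ≤ t' * Real.log 2 := by
          rw [← Real.log_pow]
          apply Real.log_le_log hHpos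
          exact_mod_cast hP2.le
        have h3 : (0 : ℝ) ≤ t' := Nat.cast_nonneg _
        nlinarith
      rw [hi, Nat.lt_succ_iff]
      exact Nat.floor_le_of_le h1
    obtain ⟨l, hl⟩ : ∃ l, l = ⌊Real.log (re U 1 0)⌋₊ := ⟨_, rfl⟩
    have hq1 : 1 ≤ re U 1 0 := (re_rel U hUne).1
    have hlΛ : l < 2 * Λ + 1 := by
      have h1 : Real.log (re U 1 0) ≤ ((2 * Λ : ℕ) : ℝ) := by
        have h2 : re U 1 0 ≤ 3 ^ U.length := by
          unfold re; exact_mod_cast (MM_rel2 U).2.2.1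
        have h3 : Real.log (re U 1 0) ≤ U.length * Real.log 3 := by
          rw [← Real.log_pow]
          exact Real.log_le_log (by linarith) h2
        have h4 : Real.log 3 ≤ 2 := by
          have := Real.log_le_sub_one_of_pos (by norm_num : (0 : ℝ) < 3)
          linarith
        have h5 : (0 : ℝ) ≤ U.length := Nat.cast_nonneg _
        push_cast
        nlinarith
      rw [hl, Nat.lt_succ_iff]
      exact Nat.floor_le_of_le h1
    obtain ⟨m, hm⟩ : ∃ m, m = mU wg U := ⟨_, rfl⟩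
    have hmM : m < M + 1 := by
      have h1 := mU_length wg hwg1 U hUne
      rw [← hm] at h1
      have h2 : (m : ℝ) ≤ (M : ℝ) := by
        refine h1.trans ?_
        rw [hM]
        push_cast
        have h3 : wg ≤ (⌈w⌉₊ : ℝ) + 1 := by
          have := Nat.le_ceil w
          linarith
        have h4 : wg * U.length ≤ ((⌈w⌉₊ : ℝ) + 1) * Λ := by
          apply mul_le_mul h3 hUlr (Nat.cast_nonneg _)
          positivity
        linarith
      have : m ≤ M := by exact_mod_cast h2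
      omega
    have hrel : NN m ^ 2 ≤ CF * Real.exp (2 * (wg - 1) * l) := by
      rw [hm, hCF]
      apply mU_rel wg hwg1 U hUne l
      rw [hl]
      exact (Nat.lt_floor_add_one _).le
    rw [← hU, ← hm] at hpert
    have hfb := hfail w ε D hw hε hD1 W R m P s (app R' s') hW hWD hPn hP0
      hPφ (by rw [← hU]; exact hpert) l i (by rw [← hU]; exact hl) hi
      (by rw [← hκ]; exact hcondB i hij)
    rw [← hκ, ← hβ] at hfb
    rw [hB]
    simp only [Set.mem_iUnion, Finset.mem_Ico, Finset.mem_range]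
    refine ⟨i, ⟨hij, hit⟩, l, hlΛ, m, hmM, ⟨(by rw [hm]; exact (mU_mem wg U).1), hrel⟩, ?_⟩
    exact hfb)
  have hfin := hcard.trans hmuB
  obtain ⟨K, hK⟩ : ∃ K, K = (Finset.univ.filter (fun p : (Fin (c * t) → Bool) ×
        (Fin (c * t') → Bool) =>
        FailP n w wg ε t t' W (List.ofFn p.1) (List.ofFn p.2))).card := ⟨_, rfl⟩
  rw [← hK] at hfin ⊢
  have e1 : (K : ENNReal) * ((2⁻¹ : ENNReal) ^ (c * t) * (2⁻¹ : ENNReal) ^ (c * t')) =
      ENNReal.ofReal (K * ((1 / 2) ^ (c * t) * (1 / 2) ^ (c * t'))) := by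
    rw [ENNReal.ofReal_mul (Nat.cast_nonneg _), ENNReal.ofReal_mul (by positivity),
      ENNReal.ofReal_pow (by norm_num), ENNReal.ofReal_pow (by norm_num), ENNReal.ofReal_natCast]
    have e4 : ENNReal.ofReal (1 / 2) = 2⁻¹ := by
      rw [one_div, ENNReal.ofReal_inv_of_pos (by norm_num)]
      norm_num
    rw [e4]
  rw [e1, ENNReal.ofReal_le_ofReal_iff (by norm_num)] at hfin
  have h5 : (K : ℝ) * ((1 / 2) ^ (c * t) * (1 / 2) ^ (c * t')) *
      (2 ^ (c * t) * 2 ^ (c * t')) = K := by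
    have a1 : ((1 : ℝ) / 2) ^ (c * t) * 2 ^ (c * t) = 1 := by rw [← mul_pow]; norm_num
    have a2 : ((1 : ℝ) / 2) ^ (c * t') * 2 ^ (c * t') = 1 := by rw [← mul_pow]; norm_num
    calc (K : ℝ) * ((1 / 2) ^ (c * t) * (1 / 2) ^ (c * t')) * (2 ^ (c * t) * 2 ^ (c * t'))
        = K * ((1 / 2) ^ (c * t) * 2 ^ (c * t)) * ((1 / 2) ^ (c * t') * 2 ^ (c * t')) := by ring
      _ = K := by rw [a1, a2]; ring
  have h6 : (16 : ℝ) * K ≤ 2 ^ (c * t) * 2 ^ (c * t') := by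
    have h7 : (0 : ℝ) < 2 ^ (c * t) * 2 ^ (c * t') := by positivity
    nlinarith
  exact_mod_cast h6

end Pool.Agent.W72
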