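import Mathlib
import Pool.Agent.W72.BaL

set_option autoImplicit false

namespace Pool.Agent.W72

open Polynomial Matrix MeasureTheory
open Pool.Agent.Helper35 (ht natAbs_coeff_le_ht)

theorem eq_app (L : List Bool) (s : ℕ → Bool) (h : ∀ i, i < L.length → s i = L.getD i true) :
    s = app L (fun i => s (i + L.length)) := by
  induction L generalizing s with
  | nil => rfl
  | cons b L ih =>
    have h0 : s 0 = b := by
      have := h 0 (by simp)
      simpa using this
    have h1 := ih (stail s) (fun i hi => by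
      have := h (i + 1) (by simp; omega)
      simpa [stail] using this)
    calc s = scons (s 0) (stail s) := (scons_stail s).symm
      _ = scons b (app L fun i => stail s (i + L.length)) := by rw [h0, ← h1]
      _ = app (b :: L) (fun i => s (i + (b :: L).length)) := rfl

theorem limit_word (W : ℕ → List Bool) (V : ℕ → List Bool) (hV : ∀ k, V k ≠ [])
    (hW : ∀ k, W (k + 1) = W k ++ V k) :
    ∃ s : ℕ → Bool, ∀ k, ∃ σ, s = app (W k) σ := by
  have hlen : ∀ k, k ≤ (W k).length := by
    intro k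
    induction k with
    | zero => exact Nat.zero_le _
    | succ k ih =>
      rw [hW, List.length_append]
      have := List.length_pos_iff.mpr (hV k)
      omega
  have hpre : ∀ k j, ∃ X, W (k + j) = W k ++ X := by
    intro k j
    induction j with
    | zero => exact ⟨[], by simp⟩
    | succ j ih =>
      obtain ⟨X, hX⟩ := ih
      exact ⟨X ++ V (k + j), by rw [← add_assoc, hW, hX, List.append_assoc]⟩
  have hget : ∀ k k' i, i < (W k).length → i < (W k').length →
      (W k).getD i true = (W k').getD i true := by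
    have key : ∀ k j i, i < (W k).length → (W k).getD i true = (W (k + j)).getD i true := by
      intro k j i hi
      obtain ⟨X, hX⟩ := hpre k j
      rw [hX, List.getD_append _ _ _ _ hi]
    intro k k' i hi hi'
    rcases le_total k k' with h | h
    · obtain ⟨j, rfl⟩ := Nat.exists_eq_add_of_le h
      exact key k j i hi
    · obtain ⟨j, rfl⟩ := Nat.exists_eq_add_of_le h
      exact (key k' j i hi').symm
  refine ⟨fun i => (W (i + 1)).getD i true, fun k => ⟨_, eq_app (W k) _ (fun i hi => ?_)⟩⟩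
  exact hget _ _ _ (by have := hlen (i + 1); omega) hi

/-- the extended word -/
noncomputable def extW (wg : ℝ) (U : List Bool) : List Bool :=
  U ++ (List.replicate (mU wg U) false ++ [true])

structure St where
  W : List Bool
  t : ℕ
  G : Finset (List Bool)

def Good (c : ℕ) (t0f : ℕ → ℕ → ℕ) (k : ℕ) (st : St) : Prop :=
  st.W ≠ [] ∧ t0f k st.W.length ≤ st.t ∧ (∀ R ∈ st.G, R.length = c * st.t) ∧
    3 * 2 ^ (c * st.t) ≤ 4 * st.G.card

def Rel (n : ℕ) (w wg : ℝ) (k : ℕ) (st st' : St) : Prop :=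
  st.t < st'.t ∧ ∃ R ∈ st.G, st'.W = extW wg (st.W ++ (R ++ [true])) ∧
    ∀ R' ∈ st'.G, ¬ FailP n w wg (1 / ((k : ℝ) + 1)) st.t st'.t st.W R R'

open Classical in
theorem step (n : ℕ) (w wg : ℝ) (c : ℕ) (t0f : ℕ → ℕ → ℕ) (k : ℕ)
    (hcount : ∀ A t, t0f k A ≤ t → ∀ t' : ℕ, ∀ W : List Bool, W ≠ [] → W.length ≤ A →
      16 * (Finset.univ.filter (fun p : (Fin (c * t) → Bool) × (Fin (c * t') → Bool) =>
        FailP n w wg (1 / ((k : ℝ) + 1)) t t' W (List.ofFn p.1) (List.ofFn p.2))).card ≤
      2 ^ (c * t) * 2 ^ (c * t'))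
    (st : St) (hst : Good c t0f k st) : ∃ st', Good c t0f (k + 1) st' ∧ Rel n w wg k st st' := by
  obtain ⟨hW, ht0, hGl, hGc⟩ := hst
  obtain ⟨t', ht'⟩ : ∃ t' : ℕ, t' = st.t + 1 +
    st.G.sup (fun R => t0f (k + 1) (extW wg (st.W ++ (R ++ [true]))).length) := ⟨_, rfl⟩
  have hc := hcount st.W.length st.t ht0 t' st.W hW le_rfl
  obtain ⟨N, hN⟩ : ∃ N : (Fin (c * st.t) → Bool) → ℕ, N = fun f =>
    (Finset.univ.filter (fun f' : Fin (c * t') → Bool =>
      FailP n w wg (1 / ((k : ℝ) + 1)) st.t t' st.W (List.ofFn f) (List.ofFn f'))).card :=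
    ⟨_, rfl⟩
  have hFN : (Finset.univ.filter (fun p : (Fin (c * st.t) → Bool) × (Fin (c * t') → Bool) =>
        FailP n w wg (1 / ((k : ℝ) + 1)) st.t t' st.W (List.ofFn p.1) (List.ofFn p.2))).card =
      ∑ f, N f := by
    rw [Finset.card_filter, Fintype.sum_prod_type]
    refine Finset.sum_congr rfl fun f _ => ?_
    rw [hN]
    simp only
    rw [Finset.card_filter]
  rw [hFN] at hc
  obtain ⟨G0, hG0⟩ : ∃ G0 : Finset (Fin (c * st.t) → Bool), G0 =
    Finset.univ.filter (fun f => List.ofFn f ∈ st.G) := ⟨_, rfl⟩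
  have hG0c : st.G.card ≤ G0.card := by
    have hsub : st.G ⊆ G0.image List.ofFn := by
      intro R hR
      rw [Finset.mem_image]
      have hl := hGl R hR
      refine ⟨fun i => R.get (Fin.cast hl.symm i), ?_, ?_⟩
      · rw [hG0, Finset.mem_filter]
        refine ⟨Finset.mem_univ _, ?_⟩
        have e : List.ofFn (fun i : Fin (c * st.t) => R.get (Fin.cast hl.symm i)) = R := by
          apply List.ext_get
          · simp [hl]
          · intro i h1 h2
            simp
        rw [e]
        exact hR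
      · apply List.ext_get
        · simp [hl]
        · intro i h1 h2
          simp
    exact (Finset.card_le_card hsub).trans Finset.card_image_le
  have hpos : 0 < 2 ^ (c * st.t) := by positivity
  have hpos' : 0 < 2 ^ (c * t') := by positivity
  obtain ⟨f, hf, hfN⟩ : ∃ f ∈ G0, 4 * N f ≤ 2 ^ (c * t') := by
    by_contra! hcon
    have h1 : ∑ f ∈ G0, (2 ^ (c * t') + 1) ≤ ∑ f ∈ G0, 4 * N f :=
      Finset.sum_le_sum fun f hf => hcon f hf
    rw [Finset.sum_const, smul_eq_mul, ← Finset.mul_sum] at h1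
    have h2 : ∑ f ∈ G0, N f ≤ ∑ f, N f :=
      Finset.sum_le_sum_of_subset (Finset.subset_univ _)
    have h3 : 3 * 2 ^ (c * st.t) ≤ 4 * G0.card := by omega
    have h4 : 4 * (G0.card * (2 ^ (c * t') + 1)) ≤ 2 ^ (c * st.t) * 2 ^ (c * t') := by
      calc 4 * (G0.card * (2 ^ (c * t') + 1)) ≤ 4 * (4 * ∑ f ∈ G0, N f) := by gcongr
        _ ≤ 4 * (4 * ∑ f, N f) := by gcongr
        _ = 16 * ∑ f, N f := by ring
        _ ≤ _ := hc
    have h5 : (3 * 2 ^ (c * st.t)) * (2 ^ (c * t') + 1) ≤ 4 * G0.card * (2 ^ (c * t') + 1) := by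
      gcongr
    nlinarith
  have hfG : List.ofFn f ∈ st.G := by
    rw [hG0] at hf
    exact (Finset.mem_filter.mp hf).2
  refine ⟨⟨extW wg (st.W ++ (List.ofFn f ++ [true])), t',
    (Finset.univ.filter (fun f' : Fin (c * t') → Bool =>
      ¬ FailP n w wg (1 / ((k : ℝ) + 1)) st.t t' st.W (List.ofFn f) (List.ofFn f'))).image
      List.ofFn⟩, ⟨?_, ?_, ?_, ?_⟩, ?_, List.ofFn f, hfG, rfl, ?_⟩
  · show extW wg (st.W ++ (List.ofFn f ++ [true])) ≠ []
    unfold extW
    simp
  · show t0f (k + 1) (extW wg (st.W ++ (List.ofFn f ++ [true]))).length ≤ t'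
    have := Finset.le_sup (f := fun R => t0f (k + 1) (extW wg (st.W ++ (R ++ [true]))).length) hfG
    rw [ht']
    exact le_trans this (Nat.le_add_left _ _)
  · intro R hR
    obtain ⟨f', _, rfl⟩ := Finset.mem_image.mp hR
    show (List.ofFn f').length = c * t'
    simp
  · show 3 * 2 ^ (c * t') ≤ 4 * (Finset.image _ _).card
    rw [Finset.card_image_of_injective _ List.ofFn_injective]
    have h1 := Finset.card_filter_add_card_filter_not (s := (Finset.univ : Finset (Fin (c * t') → Bool)))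
      (fun f' : Fin (c * t') → Bool =>
      FailP n w wg (1 / ((k : ℝ) + 1)) st.t t' st.W (List.ofFn f) (List.ofFn f'))
    rw [Finset.card_univ, Fintype.card_fun, Fintype.card_fin, Fintype.card_bool] at h1
    have h2 : N f = (Finset.univ.filter (fun f' : Fin (c * t') → Bool =>
      FailP n w wg (1 / ((k : ℝ) + 1)) st.t t' st.W (List.ofFn f) (List.ofFn f'))).card := by
      rw [hN]
    omega
  · show st.t < t'
    omega
  · intro R' hR'
    obtain ⟨f', hf', rfl⟩ := Finset.mem_image.mp hR'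
    exact (Finset.mem_filter.mp hf').2

theorem construction (n : ℕ) (hn : 1 ≤ n) (w wg : ℝ) (hw : (n : ℝ) ≤ w)
    (hwg : wg = w ∨ wg = w + 1) :
    ∃ (s : ℕ → Bool) (U : ℕ → List Bool) (σ : ℕ → ℕ → Bool) (t : ℕ → ℕ), StrictMono t ∧
      (∀ k, ∃ V, U k = V ++ [true]) ∧ (∀ k, k < (U k).length) ∧
      (∀ k, s = app (extW wg (U k)) (σ k)) ∧
      ∀ k, ∀ P : ℤ[X], P.natDegree ≤ n → 2 ^ (t k) ≤ ht P → ht P < 2 ^ (t (k + 1)) →
        aeval (mL (U k) Real.goldenRatio) P ≠ 0 →
        (ht P : ℝ) ^ (-w - 1 / ((k : ℝ) + 1)) ≤ |aeval (eta s) P| := by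
  classical
  obtain ⟨c, hc⟩ : ∃ c, c = ⌈w⌉₊ + 3 := ⟨_, rfl⟩
  have h1 : ∀ k : ℕ, ∀ A : ℕ, ∃ t0 : ℕ, ∀ t, t0 ≤ t → ∀ t' : ℕ, ∀ W : List Bool, W ≠ [] →
      W.length ≤ A →
      16 * (Finset.univ.filter (fun p : (Fin (c * t) → Bool) × (Fin (c * t') → Bool) =>
        FailP n w wg (1 / ((k : ℝ) + 1)) t t' W (List.ofFn p.1) (List.ofFn p.2))).card ≤
      2 ^ (c * t) * 2 ^ (c * t') := by
    intro k A
    rw [hc]
    refine stage_count n hn w wg hw hwg (1 / ((k : ℝ) + 1)) (by positivity) ?_ A
    rw [div_le_one (by positivity)]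
    have : (0 : ℝ) ≤ k := Nat.cast_nonneg _
    linarith
  choose t0f ht0f using h1
  have hstep : ∀ k st, Good c t0f k st → ∃ st', Good c t0f (k + 1) st' ∧ Rel n w wg k st st' :=
    fun k st hst => step n w wg c t0f k (fun A t ht t' W hW hWA => ht0f k A t ht t' W hW hWA) st hst
  -- initial state
  have hinit : ∃ st, Good c t0f 0 st := by
    refine ⟨⟨[true], t0f 0 1, (Finset.univ : Finset (Fin (c * t0f 0 1) → Bool)).image List.ofFn⟩,
      ?_, ?_, ?_, ?_⟩
    · simp
    · show t0f 0 1 ≤ t0f 0 1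
      exact le_rfl
    · intro R hR
      obtain ⟨f', _, rfl⟩ := Finset.mem_image.mp hR
      show (List.ofFn f').length = c * t0f 0 1
      simp
    · show 3 * 2 ^ (c * t0f 0 1) ≤ 4 * (Finset.image _ _).card
      rw [Finset.card_image_of_injective _ List.ofFn_injective, Finset.card_univ,
        Fintype.card_fun, Fintype.card_fin, Fintype.card_bool]
      omega
  obtain ⟨st0, hst0⟩ := hinit
  choose! nxt hnxt1 hnxt2 using hstep
  obtain ⟨f, hf0, hfs⟩ : ∃ f : ℕ → St, f 0 = st0 ∧ ∀ k, f (k + 1) = nxt k (f k) :=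
    ⟨fun k => Nat.rec st0 (fun k st => nxt k st) k, rfl, fun k => rfl⟩
  have hgood : ∀ k, Good c t0f k (f k) := by
    intro k
    induction k with
    | zero => rw [hf0]; exact hst0
    | succ k ih => rw [hfs]; exact hnxt1 k _ ih
  have hrel : ∀ k, Rel n w wg k (f k) (f (k + 1)) := by
    intro k
    rw [hfs]
    exact hnxt2 k _ (hgood k)
  have hR : ∀ k, ∃ R ∈ (f k).G, (f (k + 1)).W = extW wg ((f k).W ++ (R ++ [true])) ∧
    ∀ R' ∈ (f (k + 1)).G, ¬ FailP n w wg (1 / ((k : ℝ) + 1)) (f k).t (f (k + 1)).t (f k).W R R' :=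
    fun k => (hrel k).2
  choose R hRG hRW hRF using hR
  obtain ⟨s, hs⟩ := limit_word (fun k => (f k).W)
    (fun k => (R k ++ [true]) ++ (List.replicate (mU wg ((f k).W ++ (R k ++ [true]))) false ++
      [true])) (fun k => by simp) (fun k => by
        show (f (k + 1)).W = _
        rw [hRW k]
        unfold extW
        rw [List.append_assoc])
  obtain ⟨U, hU⟩ : ∃ U : ℕ → List Bool, U = fun k => (f k).W ++ (R k ++ [true]) := ⟨_, rfl⟩
  have hUk : ∀ k, U k = (f k).W ++ (R k ++ [true]) := fun k => by rw [hU]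
  have hsU : ∀ k, ∃ σ, s = app (extW wg (U k)) σ := by
    intro k
    obtain ⟨σ, hσ⟩ := hs (k + 1)
    refine ⟨σ, ?_⟩
    rw [hUk, ← hRW k]
    exact hσ
  choose σ hσ using hsU
  have hlen : ∀ k, k < (U k).length := by
    have h2 : ∀ k, k ≤ (f k).W.length := by
      intro k
      induction k with
      | zero => exact Nat.zero_le _
      | succ k ih =>
        rw [hRW k]
        unfold extW
        simp only [List.length_append, List.length_singleton]
        omega
    intro k
    rw [hUk]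
    have := h2 k
    simp only [List.length_append, List.length_singleton]
    omega
  refine ⟨s, U, σ, fun k => (f k).t, ?_, ?_, hlen, hσ, ?_⟩
  · exact strictMono_nat_of_lt_succ fun k => (hrel k).1
  · intro k
    exact ⟨(f k).W ++ R k, by rw [hUk, List.append_assoc]⟩
  · intro k P hPn hP1 hP2 hPφ
    by_contra hcon
    push Not at hcon
    obtain ⟨σ', hσ'⟩ := hs (k + 2)
    have e1 : (f (k + 2)).W = (U k ++ ((List.replicate (mU wg (U k)) false ++ [true]) ++
        R (k + 1))) ++ ([true] ++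
        (List.replicate (mU wg (U (k + 1))) false ++ [true])) := by
      have h2 : (f (k + 2)).W = extW wg (U (k + 1)) := by
        rw [hUk]; exact hRW (k + 1)
      have h3 : (f (k + 1)).W = extW wg (U k) := by
        rw [hUk]; exact hRW k
      rw [h2]
      conv_lhs => unfold extW
      have h4 : U (k + 1) = extW wg (U k) ++ (R (k + 1) ++ [true]) := by rw [hUk (k + 1), h3]
      nth_rewrite 1 [h4]
      unfold extW
      simp only [List.append_assoc]
    have e2 : s = app (U k ++ ((List.replicate (mU wg (U k)) false ++ [true]) ++ R (k + 1)))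
        (app ([true] ++ (List.replicate (mU wg (U (k + 1))) false ++ [true])) σ') := by
      rw [← app_append, ← e1]
      exact hσ'
    have e3 : eta s = mL (U k ++ ((List.replicate (mU wg (U k)) false ++ [true]) ++ R (k + 1)))
        (eta (app ([true] ++ (List.replicate (mU wg (U (k + 1))) false ++ [true])) σ')) := by
      rw [← eta_app, ← e2]
    have h5 := eta_ge (app ([true] ++ (List.replicate (mU wg (U (k + 1))) false ++ [true])) σ')
    have h6 := eta_le (app ([true] ++ (List.replicate (mU wg (U (k + 1))) false ++ [true])) σ')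
    refine hRF k (R (k + 1)) (hRG (k + 1)) ⟨P, hPn, hP1, hP2, ?_, _, by linarith, h6, ?_⟩
    · rw [← hUk]; exact hPφ
    · rw [← hUk, ← e3]; exact hcon

end Pool.Agent.W72
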