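import Mathlib
import Pool.Agent.W72.BaM

set_option autoImplicit false

namespace Pool.Agent.W72

open Polynomial Matrix MeasureTheory
open Pool.Agent.Helper35 (ht natAbs_coeff_le_ht)

/-! ## Badly approximable -/

def pre (s : ℕ → Bool) : ℕ → List Bool
  | 0 => []
  | j + 1 => pre s j ++ [s j]

theorem pre_length (s : ℕ → Bool) (j : ℕ) : (pre s j).length = j := by
  induction j with
  | zero => rfl
  | succ j ih => simp [pre, ih]

theorem pre_app (s : ℕ → Bool) (j : ℕ) : s = app (pre s j) (fun i => s (i + j)) := by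
  induction j with
  | zero => rfl
  | succ j ih =>
    rw [pre, app_append]
    conv_lhs => rw [ih]
    congr 1
    show (fun i => s (i + j)) = scons (s j) (fun i => s (i + (j + 1)))
    funext i
    cases i with
    | zero => simp
    | succ i =>
      simp only [scons_succ]
      congr 1
      ring

theorem MM_snoc_10 (L : List Bool) (b : Bool) :
    MM (L ++ [b]) 1 0 = MM L 1 0 * dz b + MM L 1 1 := by
  rw [MM_append, Matrix.mul_apply, Fin.sum_univ_two]
  simp [MM, Mb]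

theorem MM_snoc_11 (L : List Bool) (b : Bool) : MM (L ++ [b]) 1 1 = MM L 1 0 := by
  rw [MM_append, Matrix.mul_apply, Fin.sum_univ_two]
  simp [MM, Mb]

theorem dist_lower (L : List Bool) (hL : L ≠ []) (x : ℝ) (hx : 1 ≤ x) (p q : ℤ) (hq : 1 ≤ q)
    (hqL : q < MM L 1 0) : 1 / (2 * re L 1 0) ≤ |q * mL L x - p| := by
  obtain ⟨P, hP⟩ : ∃ P, P = MM L 0 0 := ⟨_, rfl⟩
  obtain ⟨P', hP'⟩ : ∃ P', P' = MM L 0 1 := ⟨_, rfl⟩
  obtain ⟨Q, hQ⟩ : ∃ Q, Q = MM L 1 0 := ⟨_, rfl⟩
  obtain ⟨Q', hQ'⟩ : ∃ Q', Q' = MM L 1 1 := ⟨_, rfl⟩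
  have hdet := MM_det_abs L
  have hnn := MM_nonneg L
  have hrel := MM_rel L hL
  rw [← hP, ← hP', ← hQ, ← hQ'] at hdet hnn hrel
  rw [← hQ] at hqL
  obtain ⟨d, hd⟩ : ∃ d, d = P * Q' - P' * Q := ⟨_, rfl⟩
  rw [← hd] at hdet
  have hd2 : d * d = 1 := by
    rcases abs_eq (by norm_num : (0 : ℤ) ≤ 1) |>.mp hdet with h | h <;> rw [h] <;> norm_num
  -- coordinates
  obtain ⟨a, ha⟩ : ∃ a, a = d * (p * Q' - P' * q) := ⟨_, rfl⟩
  obtain ⟨b, hb⟩ : ∃ b, b = d * (P * q - p * Q) := ⟨_, rfl⟩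
  have hqab : q = a * Q + b * Q' := by
    have : a * Q + b * Q' = (d * d) * q := by
      rw [ha, hb]
      have : d * d = d * (P * Q' - P' * Q) := by rw [← hd]
      rw [this]; ring
    rw [this, hd2, one_mul]
  have hkey : x ≤ |(b : ℝ) * x - a| := by
    have hQ1 : 1 ≤ Q := hrel.1
    have hQ'0 : 0 ≤ Q' := hnn.2.2.2
    rcases lt_trichotomy b 0 with hb0 | hb0 | hb0
    · have ha0 : 0 ≤ a := by
        by_contra hc
        push Not at hc
        nlinarith
      have h1 : (b : ℝ) ≤ -1 := by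
        have : b ≤ -1 := by omega
        exact_mod_cast this
      have h2 : (0 : ℝ) ≤ a := by exact_mod_cast ha0
      rw [abs_of_nonpos (by nlinarith)]
      nlinarith
    · exfalso
      rw [hb0, zero_mul, add_zero] at hqab
      rcases lt_or_ge a 1 with h | h
      · nlinarith
      · nlinarith
    · have ha0 : a ≤ 0 := by
        by_contra hc
        push Not at hc
        nlinarith
      have h1 : (1 : ℝ) ≤ b := by exact_mod_cast hb0
      have h2 : (a : ℝ) ≤ 0 := by exact_mod_cast ha0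
      rw [abs_of_nonneg (by nlinarith)]
      nlinarith
  have hden : 0 < re L 1 0 * x + re L 1 1 := re_den_pos L (by linarith)
  have hrr := re_rel L hL
  have hrn := re_nonneg L
  have e : |(q : ℝ) * mL L x - p| = |(b : ℝ) * x - a| / (re L 1 0 * x + re L 1 1) := by
    have hd1 : |(d : ℝ)| = 1 := by exact_mod_cast hdet
    have e1 : (q : ℝ) * mL L x - p = d * ((b : ℝ) * x - a) / (re L 1 0 * x + re L 1 1) := by
      unfold mL mob
      rw [eq_div_iff hden.ne', sub_mul, mul_assoc, div_mul_cancel₀ _ hden.ne']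
      have e2 : re L 0 0 = P := by rw [hP]; rfl
      have e3 : re L 0 1 = P' := by rw [hP']; rfl
      have e4 : re L 1 0 = Q := by rw [hQ]; rfl
      have e5 : re L 1 1 = Q' := by rw [hQ']; rfl
      rw [e2, e3, e4, e5]
      have e6 : (a : ℝ) = d * (p * Q' - P' * q) := by rw [ha]; push_cast; ring
      have e7 : (b : ℝ) = d * (P * q - p * Q) := by rw [hb]; push_cast; ring
      have e8 : (d : ℝ) * d = 1 := by exact_mod_cast hd2
      rw [e6, e7]
      linear_combination (-((P : ℝ) * q - p * Q) * x + (p * Q' - P' * q)) * e8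
    rw [e1, abs_div, abs_mul, hd1, one_mul, abs_of_pos hden]
  rw [e, div_le_div_iff₀ (by linarith) hden]
  nlinarith

theorem eta_bad (s : ℕ → Bool) (p q : ℤ) (hq : 1 ≤ q) : 1 / (6 * (q : ℝ)) ≤ |q * eta s - p| := by
  have hex : ∃ j, q < MM (pre s j) 1 0 := by
    obtain ⟨k, hk⟩ := pow_unbounded_of_one_lt (4 * (q : ℝ) ^ 2) (by norm_num : (1 : ℝ) < 2)
    refine ⟨k + 1, ?_⟩
    have hne : pre s (k + 1) ≠ [] := by
      intro h
      have := congrArg List.length h
      rw [pre_length] at this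
      simp at this
    have h1 := re10_growth (pre s (k + 1)) hne
    rw [pre_length, pow_succ] at h1
    have h2 := (re_rel _ hne).1
    have hq1 : (1 : ℝ) ≤ q := by exact_mod_cast hq
    have h3 : (q : ℝ) ^ 2 < re (pre s (k + 1)) 1 0 ^ 2 := by nlinarith
    have h4 : (q : ℝ) < re (pre s (k + 1)) 1 0 := lt_of_pow_lt_pow_left₀ 2 (by linarith) h3
    unfold re at h4
    exact_mod_cast h4
  classical
  obtain ⟨j, hj⟩ : ∃ j, j = Nat.find hex := ⟨_, rfl⟩
  have hj1 : q < MM (pre s j) 1 0 := by rw [hj]; exact Nat.find_spec hex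
  have hj2 : ∀ i, i < j → MM (pre s i) 1 0 ≤ q := by
    intro i hi
    rw [hj] at hi
    have := Nat.find_min hex hi
    omega
  have hj0 : j ≠ 0 := by
    rintro h0
    rw [h0] at hj1
    simp [pre, MM_nil] at hj1
    omega
  obtain ⟨i, rfl⟩ : ∃ i, j = i + 1 := ⟨j - 1, by omega⟩
  have hne : pre s (i + 1) ≠ [] := by simp [pre]
  have h1 := dist_lower (pre s (i + 1)) hne (eta (fun l => s (l + (i + 1))))
    (by have := eta_ge (fun l => s (l + (i + 1))); linarith) p q hq hj1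
  rw [← eta_app, ← pre_app] at h1
  refine le_trans ?_ h1
  have h2 : MM (pre s (i + 1)) 1 0 ≤ 3 * q := by
    rw [pre, MM_snoc_10]
    have h3 := hj2 i (by omega)
    have h4 := dz_le (s i)
    have h5 := dz_ge (s i)
    have h6 := (MM_nonneg (pre s i)).2.2.1
    have h7 : MM (pre s i) 1 1 ≤ q := by
      by_cases hi : i = 0
      · subst hi
        simp [pre, MM_nil]
        exact hq
      · have hne' : pre s i ≠ [] := by
          intro h
          have := congrArg List.length h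
          rw [pre_length] at this
          simp at this
          exact hi this
        exact (MM_rel _ hne').2.1.trans h3
    nlinarith
  have h3 : re (pre s (i + 1)) 1 0 ≤ 3 * q := by unfold re; exact_mod_cast h2
  have h4 := (re_rel _ hne).1
  apply one_div_le_one_div_of_le (by linarith)
  linarith

/-! ## The quadratic approximations -/

theorem lin_bounds {N N' z c : ℝ} (hN1 : 1 ≤ N) (h0 : 0 ≤ N') (h1 : N' ≤ N) (hz1 : 1 ≤ z)
    (hz : z ≤ c) : N ≤ N * z + N' ∧ N * z + N' ≤ (c + 1) * N := by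
  have h2 : N * 1 ≤ N * z := mul_le_mul_of_nonneg_left hz1 (by linarith)
  have h3 : N * z ≤ N * c := mul_le_mul_of_nonneg_left hz (by linarith)
  constructor <;> linarith

theorem approx_final {F E T q δ : ℝ} (hq : 0 < q ^ 2) (hT : 0 < T ^ 2) (c1 : F ≤ 12 * (4 * T ^ 2))
    (c2 : T ^ 2 ≤ F) (c3 : E ≤ 12 * q ^ 2) (c4 : q ^ 2 ≤ E) (hδ1 : 1 / 2 ≤ δ) (hδ2 : δ ≤ 2) :
    1 / (1152 * (q ^ 2 * T ^ 2)) ≤ δ / F / E ∧ δ / F / E ≤ 2 / (q ^ 2 * T ^ 2) := by
  have hF0 : 0 < F := by linarith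
  have hE0 : 0 < E := by linarith
  rw [div_div]
  constructor
  · rw [div_le_div_iff₀ (by positivity) (mul_pos hF0 hE0)]
    have : F * E ≤ (12 * (4 * T ^ 2)) * (12 * q ^ 2) := mul_le_mul c1 c3 hE0.le (by positivity)
    have h2 : 0 < q ^ 2 * T ^ 2 := by positivity
    nlinarith
  · rw [div_le_div_iff₀ (mul_pos hF0 hE0) (by positivity)]
    have : T ^ 2 * q ^ 2 ≤ F * E := mul_le_mul c2 c4 (by positivity) hF0.le
    have h2 : 0 < q ^ 2 * T ^ 2 := by positivity
    nlinarith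

theorem approx (wg : ℝ) (hwg : 1 ≤ wg) (U : List Bool) (hU : U ≠ []) (σ : ℕ → Bool) :
    1 / (1152 * re U 1 0 ^ (2 * wg)) ≤
      |eta (app (extW wg U) σ) - mL U Real.goldenRatio| ∧
    |eta (app (extW wg U) σ) - mL U Real.goldenRatio| ≤ 2 / re U 1 0 ^ (2 * wg) := by
  obtain ⟨m, hm⟩ : ∃ m, m = mU wg U := ⟨_, rfl⟩
  have hm1 : 1 ≤ m := by rw [hm]; exact (mU_mem wg U).1
  have hNl : re U 1 0 ^ (wg - 1) ≤ NN m := by rw [hm]; exact (mU_mem wg U).2
  have hNu : NN m ≤ 2 * re U 1 0 ^ (wg - 1) := by rw [hm]; exact mU_upper wg hwg U hU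
  have hx : eta (app (extW wg U) σ) = mL U (XX m σ) := by
    unfold extW XX
    rw [← hm, app_append, eta_app]
  have hphi := phi_bounds
  have hphi2 : Real.goldenRatio ≤ 1.7 := by
    have := Real.goldenRatio_sq
    nlinarith
  have hphi1 : 1.6 ≤ Real.goldenRatio := by
    have := Real.goldenRatio_sq
    nlinarith
  obtain ⟨z, hz⟩ : ∃ z, z = eta (scons true σ) := ⟨_, rfl⟩
  have hz3 : z ≤ 3 := by rw [hz]; exact eta_le _
  have hz2 : 2 + 1 / 3 ≤ z := by
    rw [hz, eta_scons]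
    have h1 := eta_le σ
    have h2 := eta_pos σ
    have h3 : dg true = 2 := by simp [dg]
    rw [h3]
    have : (1 : ℝ) / 3 ≤ 1 / eta σ := one_div_le_one_div_of_le h2 h1
    linarith
  obtain ⟨N, hN⟩ : ∃ N, N = NN m := ⟨_, rfl⟩
  obtain ⟨N', hN'⟩ : ∃ N', N' = re (List.replicate m false) 1 1 := ⟨_, rfl⟩
  have hN'0 : 0 ≤ N' := by rw [hN']; exact (re_nonneg _).2.2.2
  have hN'N : N' ≤ N := by
    rw [hN', hN]
    exact (re_rel _ (by intro h; have := congrArg List.length h; simp at this; omega)).2.1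
  rw [← hN] at hNl hNu
  have hN1 : 1 ≤ N := by rw [hN]; exact NN_pos m hm1
  have e1 : |XX m σ - Real.goldenRatio| =
      |z - Real.goldenRatio| / ((N * z + N') * (N * Real.goldenRatio + N')) := by
    rw [XX_eq, ← hz]
    conv_lhs => rw [← phi_fix m]
    rw [phi_fix m]
    conv_lhs => rw [← phi_fix m]
    rw [mL_sub _ (by linarith) (by linarith), hN', hN]
    rfl
  obtain ⟨q, hq⟩ : ∃ q, q = re U 1 0 := ⟨_, rfl⟩
  obtain ⟨q', hq'⟩ : ∃ q', q' = re U 1 1 := ⟨_, rfl⟩
  have hq1 : 1 ≤ q := by rw [hq]; exact (re_rel U hU).1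
  have hq'q : q' ≤ q := by rw [hq, hq']; exact (re_rel U hU).2.1
  have hq'0 : 0 ≤ q' := by rw [hq']; exact (re_nonneg U).2.2.2
  have hX := XX_mem m σ
  obtain ⟨x, hxd⟩ : ∃ x, x = XX m σ := ⟨_, rfl⟩
  rw [← hxd] at hX hx e1
  have e2 : |mL U x - mL U Real.goldenRatio| =
      |x - Real.goldenRatio| / ((q * x + q') * (q * Real.goldenRatio + q')) := by
    rw [mL_sub _ (by linarith) (by linarith), hq, hq']
  rw [← hq] at hNl hNu
  rw [hx, ← hq, e2, e1]
  have hqp : q ^ (2 * wg) = q ^ 2 * (q ^ (wg - 1)) ^ 2 := by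
    rw [← Real.rpow_natCast q 2, ← Real.rpow_natCast (q ^ (wg - 1)) 2, ← Real.rpow_mul (by linarith),
      ← Real.rpow_add (by linarith)]
    congr 1
    push_cast
    ring
  obtain ⟨T, hT⟩ : ∃ T, T = q ^ (wg - 1) := ⟨_, rfl⟩
  have hT1 : 1 ≤ T := by rw [hT]; exact Real.one_le_rpow hq1 (by linarith)
  rw [← hT] at hNl hNu hqp
  rw [hqp]
  have hzφ1 : 1 / 2 ≤ |z - Real.goldenRatio| := by
    rw [abs_of_nonneg (by linarith)]; linarith
  have hzφ2 : |z - Real.goldenRatio| ≤ 2 := by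
    rw [abs_of_nonneg (by linarith)]; linarith
  obtain ⟨g, hg⟩ : ∃ g, g = Real.goldenRatio := ⟨_, rfl⟩
  rw [← hg] at hzφ1 hzφ2 hphi hphi1 hphi2 ⊢
  obtain ⟨a3, a1⟩ := lin_bounds hN1 hN'0 hN'N (by linarith : 1 ≤ z) hz3
  obtain ⟨a4, a2⟩ := lin_bounds hN1 hN'0 hN'N (by linarith : 1 ≤ g) (by linarith : g ≤ 2)
  obtain ⟨b3, b1⟩ := lin_bounds hq1 hq'0 hq'q (by linarith : 1 ≤ x) (by linarith : x ≤ 3)
  obtain ⟨b4, b2⟩ := lin_bounds hq1 hq'0 hq'q (by linarith : 1 ≤ g) (by linarith : g ≤ 2)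
  have c1 : (N * z + N') * (N * g + N') ≤ 12 * (4 * T ^ 2) := by
    have : (N * z + N') * (N * g + N') ≤ ((3 + 1) * N) * ((2 + 1) * N) := by
      apply mul_le_mul a1 a2 (by linarith) (by linarith)
    have h2 : N ^ 2 ≤ (2 * T) ^ 2 := pow_le_pow_left₀ (by linarith) hNu 2
    linarith
  have c2 : T ^ 2 ≤ (N * z + N') * (N * g + N') := by
    have : N * N ≤ (N * z + N') * (N * g + N') := by
      apply mul_le_mul a3 a4 (by linarith) (by linarith)
    have h2 : T ^ 2 ≤ N ^ 2 := pow_le_pow_left₀ (by linarith) hNl 2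
    linarith
  have c3 : (q * x + q') * (q * g + q') ≤ 12 * q ^ 2 := by
    have : (q * x + q') * (q * g + q') ≤ ((3 + 1) * q) * ((2 + 1) * q) := by
      apply mul_le_mul b1 b2 (by linarith) (by linarith)
    linarith
  have c4 : q ^ 2 ≤ (q * x + q') * (q * g + q') := by
    have : q * q ≤ (q * x + q') * (q * g + q') := by
      apply mul_le_mul b3 b4 (by linarith) (by linarith)
    linarith
  exact approx_final (by positivity) (by positivity) c1 c2 c3 c4 hzφ1 hzφ2

end Pool.Agent.W72
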