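import Mathlib
import Pool.Agent.W72.BaN

set_option autoImplicit false

namespace Pool.Agent.W72

open Polynomial Matrix MeasureTheory
open Pool.Agent.Helper35 (ht natAbs_coeff_le_ht IrrQ)

/-! ## The quadratic polynomials -/

noncomputable def PU (U : List Bool) : ℤ[X] :=
  C (MM U 1 1 ^ 2 + MM U 1 0 * MM U 1 1 - MM U 1 0 ^ 2) * X ^ 2 +
  C (-2 * MM U 0 1 * MM U 1 1 - MM U 1 1 * MM U 0 0 - MM U 0 1 * MM U 1 0 +
    2 * MM U 0 0 * MM U 1 0) * X +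
  C (MM U 0 1 ^ 2 + MM U 0 0 * MM U 0 1 - MM U 0 0 ^ 2)

theorem PU_natDegree_le (U : List Bool) : (PU U).natDegree ≤ 2 := natDegree_quadratic_le

theorem PU_coeff (U : List Bool) :
    (PU U).coeff 0 = MM U 0 1 ^ 2 + MM U 0 0 * MM U 0 1 - MM U 0 0 ^ 2 ∧
    (PU U).coeff 1 = -2 * MM U 0 1 * MM U 1 1 - MM U 1 1 * MM U 0 0 - MM U 0 1 * MM U 1 0 +
      2 * MM U 0 0 * MM U 1 0 ∧
    (PU U).coeff 2 = MM U 1 1 ^ 2 + MM U 1 0 * MM U 1 1 - MM U 1 0 ^ 2 := by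
  unfold PU
  obtain ⟨a, ha⟩ : ∃ a, a = MM U 1 1 ^ 2 + MM U 1 0 * MM U 1 1 - MM U 1 0 ^ 2 := ⟨_, rfl⟩
  obtain ⟨b, hb⟩ : ∃ b, b = -2 * MM U 0 1 * MM U 1 1 - MM U 1 1 * MM U 0 0 - MM U 0 1 * MM U 1 0 +
    2 * MM U 0 0 * MM U 1 0 := ⟨_, rfl⟩
  obtain ⟨c, hc⟩ : ∃ c, c = MM U 0 1 ^ 2 + MM U 0 0 * MM U 0 1 - MM U 0 0 ^ 2 := ⟨_, rfl⟩
  rw [← ha, ← hb, ← hc]
  refine ⟨?_, ?_, ?_⟩ <;>
  simp only [coeff_add, coeff_C_mul, coeff_X_pow, coeff_X, coeff_C] <;> norm_num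

theorem PU_eval (U : List Bool) {x : ℝ} (hx : 0 < x) : aeval (mL U x) (PU U) =
    (x ^ 2 - x - 1) / (re U 1 0 * x + re U 1 1) ^ 2 := by
  have hden := re_den_pos U hx
  have hdet : (re U 0 0 * re U 1 1 - re U 0 1 * re U 1 0) ^ 2 = 1 := by
    rw [← sq_abs, re_det, one_pow]
  unfold PU mL mob
  simp only [map_add, map_mul, map_pow, aeval_X, eq_intCast, map_intCast]
  push_cast
  have e : ∀ i j, ((MM U i j : ℤ) : ℝ) = re U i j := fun _ _ => rfl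
  simp only [e]
  obtain ⟨p, hp⟩ : ∃ p, p = re U 0 0 := ⟨_, rfl⟩
  obtain ⟨p', hp'⟩ : ∃ p', p' = re U 0 1 := ⟨_, rfl⟩
  obtain ⟨q, hq⟩ : ∃ q, q = re U 1 0 := ⟨_, rfl⟩
  obtain ⟨q', hq'⟩ : ∃ q', q' = re U 1 1 := ⟨_, rfl⟩
  rw [← hq, ← hq'] at hden
  rw [← hp, ← hp', ← hq, ← hq'] at hdet
  simp only [← hp, ← hp', ← hq, ← hq']
  rw [eq_div_iff (pow_pos hden 2).ne']
  have e1 : (p * x + p') / (q * x + q') * (q * x + q') = p * x + p' := div_mul_cancel₀ _ hden.ne'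
  obtain ⟨Z, hZ⟩ : ∃ Z, Z = (p * x + p') / (q * x + q') := ⟨_, rfl⟩
  rw [← hZ] at e1 ⊢
  have e2 : ((q' ^ 2 + q * q' - q ^ 2) * Z ^ 2 + (-2 * p' * q' - q' * p - p' * q + 2 * p * q) * Z +
      (p' ^ 2 + p * p' - p ^ 2)) * (q * x + q') ^ 2 =
      (q' ^ 2 + q * q' - q ^ 2) * (Z * (q * x + q')) ^ 2 +
      (-2 * p' * q' - q' * p - p' * q + 2 * p * q) * (Z * (q * x + q')) * (q * x + q') +
      (p' ^ 2 + p * p' - p ^ 2) * (q * x + q') ^ 2 := by ring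
  rw [e2, e1]
  linear_combination (x ^ 2 - x - 1) * hdet

theorem PU_root (U : List Bool) : aeval (mL U Real.goldenRatio) (PU U) = 0 := by
  rw [PU_eval U Real.goldenRatio_pos]
  have := Real.goldenRatio_sq
  rw [this]
  simp

theorem coef_bounds (p p' q q' : ℤ) (h1 : 1 ≤ q) (h2 : q' ≤ q) (hp0 : 0 ≤ p) (hp3 : p ≤ 3 * q)
    (hp'0 : 0 ≤ p') (hp'3 : p' ≤ 3 * q) (hq'0 : 0 ≤ q') :
    |p' ^ 2 + p * p' - p ^ 2| ≤ 100 * q ^ 2 ∧
    |-2 * p' * q' - q' * p - p' * q + 2 * p * q| ≤ 100 * q ^ 2 ∧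
    |q' ^ 2 + q * q' - q ^ 2| ≤ 100 * q ^ 2 := by
  have hqq : 0 ≤ q * q := by nlinarith
  have b1 : p * p ≤ (3 * q) * (3 * q) := mul_le_mul hp3 hp3 hp0 (by linarith)
  have b2 : 0 ≤ p * p := by nlinarith
  have b3 : p' * p' ≤ (3 * q) * (3 * q) := mul_le_mul hp'3 hp'3 hp'0 (by linarith)
  have b4 : 0 ≤ p' * p' := by nlinarith
  have b5 : p * p' ≤ (3 * q) * (3 * q) := mul_le_mul hp3 hp'3 hp'0 (by linarith)
  have b6 : 0 ≤ p * p' := mul_nonneg hp0 hp'0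
  have b7 : q' * q' ≤ q * q := mul_le_mul h2 h2 hq'0 (by linarith)
  have b8 : 0 ≤ q' * q' := mul_nonneg hq'0 hq'0
  have b9 : q * q' ≤ q * q := mul_le_mul le_rfl h2 hq'0 (by linarith)
  have b10 : 0 ≤ q * q' := mul_nonneg (by linarith) hq'0
  have b11 : p' * q' ≤ (3 * q) * q := mul_le_mul hp'3 h2 hq'0 (by linarith)
  have b12 : 0 ≤ p' * q' := mul_nonneg hp'0 hq'0
  have b13 : q' * p ≤ q * (3 * q) := mul_le_mul h2 hp3 hp0 (by linarith)
  have b14 : 0 ≤ q' * p := mul_nonneg hq'0 hp0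
  have b15 : p' * q ≤ (3 * q) * q := mul_le_mul hp'3 le_rfl (by linarith) (by linarith)
  have b16 : 0 ≤ p' * q := mul_nonneg hp'0 (by linarith)
  have b17 : p * q ≤ (3 * q) * q := mul_le_mul hp3 le_rfl (by linarith) (by linarith)
  have b18 : 0 ≤ p * q := mul_nonneg hp0 (by linarith)
  refine ⟨?_, ?_, ?_⟩ <;> rw [abs_le] <;> constructor <;> linarith

theorem PU_ht (V : List Bool) (U : List Bool) (hU : U = V ++ [true]) :
    re U 1 0 ^ 2 / 4 ≤ ht (PU U) ∧ (ht (PU U) : ℝ) ≤ 100 * re U 1 0 ^ 2 := by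
  have hUne : U ≠ [] := by rw [hU]; simp
  obtain ⟨c0, c1, c2⟩ := PU_coeff U
  have hrel := MM_rel U hUne
  have hnn := MM_nonneg U
  have hple : MM U 0 0 ≤ 3 * MM U 1 0 := by
    have := re_p_le U hUne
    unfold re at this
    exact_mod_cast this
  have hq2 : 2 * MM U 1 1 ≤ MM U 1 0 := by
    rw [hU, MM_snoc_10, MM_snoc_11]
    have h1 : dz true = 2 := rfl
    have h2 := (MM_nonneg V).2.2.2
    rw [h1]
    linarith
  obtain ⟨p, hp⟩ : ∃ p, p = MM U 0 0 := ⟨_, rfl⟩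
  obtain ⟨p', hp'⟩ : ∃ p', p' = MM U 0 1 := ⟨_, rfl⟩
  obtain ⟨q, hq⟩ : ∃ q, q = MM U 1 0 := ⟨_, rfl⟩
  obtain ⟨q', hq'⟩ : ∃ q', q' = MM U 1 1 := ⟨_, rfl⟩
  have hre : re U 1 0 = (q : ℝ) := by rw [hq]; rfl
  rw [hre]
  simp only [← hp, ← hp', ← hq, ← hq'] at c0 c1 c2 hrel hnn hple hq2
  obtain ⟨h1, h2, h3, h4⟩ := hrel
  obtain ⟨g1, g2, g3, g4⟩ := hnn
  have hp'q : p' ≤ 3 * q := by linarith
  have hq'q : q' ≤ q := h2
  constructor
  · have h5 : (q ^ 2 : ℤ) ≤ 4 * ((PU U).coeff 2).natAbs := by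
      have h6 : ((PU U).coeff 2) ≤ 0 := by rw [c2]; nlinarith
      rw [Int.ofNat_natAbs_of_nonpos h6, c2]
      nlinarith
    have h7 := natAbs_coeff_le_ht (PU U) 2
    have h8 : (q ^ 2 : ℤ) ≤ 4 * (ht (PU U) : ℤ) := by
      have : (((PU U).coeff 2).natAbs : ℤ) ≤ (ht (PU U) : ℤ) := by exact_mod_cast h7
      linarith
    have h9 : ((q : ℝ) ^ 2) ≤ 4 * (ht (PU U) : ℝ) := by exact_mod_cast h8
    linarith
  · have hb : ∀ i, |(PU U).coeff i| ≤ 100 * q ^ 2 := by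
      intro i
      obtain ⟨d0, d1, d2⟩ := coef_bounds p p' q q' h1 h2 (by linarith) hple g2 hp'q g4
      by_cases hi : i ≤ 2
      · interval_cases i
        · rw [c0]; exact d0
        · rw [c1]; exact d1
        · rw [c2]; exact d2
      · rw [coeff_eq_zero_of_natDegree_lt (by have := PU_natDegree_le U; omega), abs_zero]
        positivity
    have h5 : (((100 * q ^ 2).natAbs : ℕ) : ℤ) = 100 * q ^ 2 := Int.natAbs_of_nonneg (by positivity)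
    have hle : ht (PU U) ≤ (100 * q ^ 2).natAbs := by
      apply Pool.Agent.Helper35.ht_le_of
      intro i
      have := hb i
      rw [Int.abs_eq_natAbs] at this
      omega
    have h6 : (ht (PU U) : ℤ) ≤ 100 * q ^ 2 := by
      rw [← h5]; exact_mod_cast hle
    exact_mod_cast h6

theorem PU_ne_zero (V : List Bool) (U : List Bool) (hU : U = V ++ [true]) : PU U ≠ 0 := by
  intro h
  have h1 := (PU_ht V U hU).1
  rw [h] at h1
  have h2 := (re_rel U (by rw [hU]; simp)).1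
  have h3 : ht (0 : ℤ[X]) = 0 := by simp [ht]
  rw [h3] at h1
  have : 0 < re U 1 0 ^ 2 / 4 := by positivity
  push_cast at h1
  linarith

/-- Integer polynomials of degree at most two vanishing at the golden ratio. -/
theorem phi_quad (Q : ℤ[X]) (hQ : Q.natDegree ≤ 2) (h0 : aeval Real.goldenRatio Q = 0) (z : ℝ) :
    aeval z Q = (Q.coeff 2 : ℝ) * (z ^ 2 - z - 1) := by
  rw [aeval_sum Q 2 hQ] at h0 ⊢
  simp only [Finset.sum_range_succ, Finset.sum_range_zero, pow_zero, mul_one, zero_add, pow_one]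
    at h0 ⊢
  rw [Real.goldenRatio_sq] at h0
  have h1 : ((Q.coeff 1 + Q.coeff 2 : ℤ) : ℝ) * Real.goldenRatio +
      ((Q.coeff 0 + Q.coeff 2 : ℤ) : ℝ) = 0 := by push_cast; linarith
  have h2 : Q.coeff 1 + Q.coeff 2 = 0 := by
    by_contra hne
    have h3 : Real.goldenRatio = ((-(Q.coeff 0 + Q.coeff 2) : ℤ) : ℝ) /
        ((Q.coeff 1 + Q.coeff 2 : ℤ) : ℝ) := by
      have : ((Q.coeff 1 + Q.coeff 2 : ℤ) : ℝ) ≠ 0 := by exact_mod_cast hne
      rw [eq_div_iff this]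
      push_cast at h1 ⊢
      linarith
    apply Real.goldenRatio_irrational
    refine ⟨((-(Q.coeff 0 + Q.coeff 2) : ℤ) : ℚ) / ((Q.coeff 1 + Q.coeff 2 : ℤ) : ℚ), ?_⟩
    rw [h3]
    push_cast
    ring
  rw [h2] at h1
  have h3 : Q.coeff 0 + Q.coeff 2 = 0 := by
    have : ((Q.coeff 0 + Q.coeff 2 : ℤ) : ℝ) = 0 := by simpa using h1
    exact_mod_cast this
  have h4 : (Q.coeff 1 : ℝ) = -(Q.coeff 2 : ℝ) := by
    have : Q.coeff 1 = -Q.coeff 2 := by omega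
    rw [this]; push_cast; ring
  have h5 : (Q.coeff 0 : ℝ) = -(Q.coeff 2 : ℝ) := by
    have : Q.coeff 0 = -Q.coeff 2 := by omega
    rw [this]; push_cast; ring
  rw [h4, h5]
  ring

theorem mL_inj (U : List Bool) {z w : ℝ} (hz : 0 < z) (hw : 0 < w) (h : mL U z = mL U w) :
    z = w := by
  have h1 := mL_sub U hz hw
  rw [h, sub_self, abs_zero] at h1
  have h2 := re_den_pos U hz
  have h3 := re_den_pos U hw
  have h4 : |z - w| = 0 := by
    rcases div_eq_zero_iff.mp h1.symm with h | h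
    · exact h
    · have := mul_pos h2 h3
      linarith
  have := abs_eq_zero.mp h4
  linarith

/-- An integer polynomial of degree at most two vanishing at the quadratic number is an integer
multiple of the standard one. -/
theorem PU_dvd (U : List Bool) (P : ℤ[X]) (hP : P.natDegree ≤ 2)
    (h0 : aeval (mL U Real.goldenRatio) P = 0) : ∃ r : ℤ, P = C r * PU U := by
  refine ⟨(tr U 2 P).coeff 2, ?_⟩
  obtain ⟨r, hr⟩ : ∃ r, r = (tr U 2 P).coeff 2 := ⟨_, rfl⟩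
  rw [← hr]
  have h1 : aeval Real.goldenRatio (tr U 2 P) = 0 := by
    rw [tr_eval_mL U 2 P hP Real.goldenRatio_pos, h0, mul_zero]
  have h2 : ∀ z : ℝ, 0 < z → aeval (mL U z) P = aeval (mL U z) (C r * PU U) := by
    intro z hz
    have h3 := phi_quad _ (tr_natDegree U 2 P) h1 z
    rw [tr_eval_mL U 2 P hP hz, ← hr] at h3
    rw [map_mul, PU_eval U hz]
    have h4 := (re_den_pos U hz).ne'
    have h5 : aeval (mL U z) (C r : ℤ[X]) = (r : ℝ) := by simp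
    rw [h5, ← mul_div_assoc, eq_div_iff (pow_ne_zero 2 h4)]
    linarith
  have hinj : Function.Injective (Int.castRingHom ℝ) := RingHom.injective_int _
  apply Polynomial.map_injective _ hinj
  apply Polynomial.eq_of_infinite_eval_eq
  have h3 : Set.range (fun k : ℕ => mL U ((k : ℝ) + 1)) ⊆
      {x : ℝ | eval x (P.map (Int.castRingHom ℝ)) = eval x ((C r * PU U).map (Int.castRingHom ℝ))} := by
    rintro _ ⟨k, rfl⟩
    have h4 := h2 ((k : ℝ) + 1) (by positivity)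
    simp only [Set.mem_ofPred_eq, eval_map]
    exact h4
  refine (Set.infinite_range_of_injective ?_).mono h3
  intro k l hkl
  have := mL_inj U (by positivity) (by positivity) hkl
  have h5 : (k : ℝ) = l := by linarith
  exact_mod_cast h5

/-- The value of the quadratic polynomial. -/
theorem PU_value (wg : ℝ) (hwg : 1 ≤ wg) (V U : List Bool) (hU : U = V ++ [true])
    (σ : ℕ → Bool) :
    1 / (18432 * re U 1 0 ^ (2 * wg)) ≤ |aeval (eta (app (extW wg U) σ)) (PU U)| ∧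
    |aeval (eta (app (extW wg U) σ)) (PU U)| ≤ 96 / re U 1 0 ^ (2 * wg) := by
  have hUne : U ≠ [] := by rw [hU]; simp
  obtain ⟨ha1, ha2⟩ := approx wg hwg U hUne σ
  have hx : eta (app (extW wg U) σ) = mL U (XX (mU wg U) σ) := by
    unfold extW XX
    rw [app_append, eta_app]
  obtain ⟨x, hxd⟩ : ∃ x, x = XX (mU wg U) σ := ⟨_, rfl⟩
  have hX := XX_mem (mU wg U) σ
  rw [← hxd] at hx hX
  obtain ⟨q, hq⟩ : ∃ q, q = re U 1 0 := ⟨_, rfl⟩
  obtain ⟨q', hq'⟩ : ∃ q', q' = re U 1 1 := ⟨_, rfl⟩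
  have hq1 : 1 ≤ q := by rw [hq]; exact (re_rel U hUne).1
  have hq'q : q' ≤ q := by rw [hq, hq']; exact (re_rel U hUne).2.1
  have hq'0 : 0 ≤ q' := by rw [hq']; exact (re_nonneg U).2.2.2
  have hphi := phi_bounds
  obtain ⟨g, hg⟩ : ∃ g, g = Real.goldenRatio := ⟨_, rfl⟩
  have hg2 := Real.goldenRatio_sq
  rw [hx] at ha1 ha2 ⊢
  rw [mL_sub U (by linarith) Real.goldenRatio_pos] at ha1 ha2
  rw [PU_eval U (by linarith)]
  rw [← hq, ← hq', ← hg] at ha1 ha2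
  rw [← hq, ← hq']
  rw [← hg] at hphi hg2
  obtain ⟨b3, b1⟩ := lin_bounds hq1 hq'0 hq'q (by linarith : 1 ≤ x) (by linarith : x ≤ 3)
  obtain ⟨b4, b2⟩ := lin_bounds hq1 hq'0 hq'q (by linarith : 1 ≤ g) (by linarith : g ≤ 2)
  have e1 : x ^ 2 - x - 1 = (x - g) * (x + g - 1) := by linear_combination hg2
  rw [e1, abs_div, abs_mul, abs_of_nonneg (by linarith : 0 ≤ x + g - 1),
    abs_of_pos (pow_pos (by linarith) 2 : 0 < (q * x + q') ^ 2)]
  obtain ⟨A, hA⟩ : ∃ A, A = q * x + q' := ⟨_, rfl⟩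
  obtain ⟨B, hB⟩ : ∃ B, B = q * g + q' := ⟨_, rfl⟩
  rw [← hA] at b3 b1 ha1 ha2 ⊢
  rw [← hB] at b4 b2 ha1 ha2
  obtain ⟨δ, hδ⟩ : ∃ δ, δ = |x - g| := ⟨_, rfl⟩
  rw [← hδ] at ha1 ha2 ⊢
  have hδ0 : 0 ≤ δ := by rw [hδ]; exact abs_nonneg _
  have hA0 : 0 < A := by linarith
  have hB0 : 0 < B := by linarith
  obtain ⟨T, hT⟩ : ∃ T, T = q ^ (2 * wg) := ⟨_, rfl⟩
  have hT0 : 0 < T := by rw [hT]; positivity
  rw [← hT] at ha1 ha2 ⊢
  have e2 : δ * (x + g - 1) / A ^ 2 = δ / (A * B) * ((x + g - 1) * (B / A)) := by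
    field_simp
  rw [e2]
  have hBA1 : 1 / 4 ≤ B / A := by
    rw [div_le_div_iff₀ (by norm_num) hA0]
    linarith
  have hBA2 : B / A ≤ 3 := by
    rw [div_le_iff₀ hA0]
    linarith
  have hs1 : 1 ≤ x + g - 1 := by linarith
  have hs2 : x + g - 1 ≤ 4 := by linarith
  have hm1 : 1 * (1 / 4) ≤ (x + g - 1) * (B / A) :=
    mul_le_mul hs1 hBA1 (by norm_num) (by linarith)
  have hm2 : (x + g - 1) * (B / A) ≤ 4 * 3 :=
    mul_le_mul hs2 hBA2 (by positivity) (by norm_num)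
  have hd0 : 0 ≤ δ / (A * B) := by positivity
  constructor
  · calc 1 / (18432 * T) ≤ 1 / (1152 * T) * (1 * (1 / 4)) := by
          rw [div_mul_eq_mul_div, div_le_div_iff₀ (by positivity) (by positivity)]
          linarith
      _ ≤ _ := mul_le_mul ha1 hm1 (by norm_num) hd0
  · calc δ / (A * B) * ((x + g - 1) * (B / A)) ≤ 2 / T * (4 * 3) :=
          mul_le_mul ha2 hm2 (by linarith) (by positivity)
      _ ≤ 96 / T := by
          rw [div_mul_eq_mul_div, div_le_div_iff₀ hT0 hT0]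
          linarith

end Pool.Agent.W72
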