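import Mathlib
import Pool.Agent.W72.BaO

set_option autoImplicit false

namespace Pool.Agent.W72

open Polynomial Matrix MeasureTheory
open Pool.Agent.Helper35 (ht natAbs_coeff_le_ht IrrQ mm one_le_mm ht_le_mm ht_intCast_mul ht_pos
  boxF mem_boxF mm_mul mm_le_ht)

theorem general_bound_real (ξ : ℝ) (n : ℕ) (E : ℝ) (hE : 0 ≤ E) (κ0 : ℝ) (hκ0 : 0 < κ0) (H0 : ℕ)
    (h : ∀ P : ℤ[X], IrrQ P → P.natDegree ≤ n → H0 ≤ ht P → κ0 ≤ |aeval ξ P| * (ht P : ℝ) ^ E) :
    ∃ c : ℝ, 0 < c ∧ ∀ P : ℤ[X], P ≠ 0 → P.natDegree ≤ n → c ≤ |aeval ξ P| * (ht P : ℝ) ^ E := by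
  classical
  have hne : ∀ P : ℤ[X], IrrQ P → P.natDegree ≤ n → aeval ξ P ≠ 0 := by
    intro P hP hPn h0
    have hK : ((H0 : ℤ) + 1) ≠ 0 := by omega
    have h1 := h (C ((H0 : ℤ) + 1) * P) (hP.C_mul _ hK)
      (by rw [natDegree_C_mul hK]; exact hPn) (by
        rw [ht_intCast_mul]
        have : 1 ≤ ht P := ht_pos hP.ne_zero
        have h2 : ((H0 : ℤ) + 1).natAbs = H0 + 1 := by omega
        rw [h2]
        nlinarith)
    rw [map_mul, h0, mul_zero, abs_zero, zero_mul] at h1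
    linarith
  set S : Finset ℤ[X] := (boxF n H0).filter (fun P => aeval ξ P ≠ 0) with hS
  obtain ⟨κ, hκ0', hκ⟩ : ∃ κ : ℝ, 0 < κ ∧ ∀ P ∈ S, κ ≤ |aeval ξ P| := by
    by_cases hSe : S.Nonempty
    · obtain ⟨P0, hP0, hmin⟩ := S.exists_min_image (fun P => |aeval ξ P|) hSe
      refine ⟨|aeval ξ P0|, ?_, hmin⟩
      rw [hS, Finset.mem_filter] at hP0
      exact abs_pos.mpr hP0.2
    · exact ⟨1, one_pos, fun P hP => absurd ⟨P, hP⟩ hSe⟩
  obtain ⟨c1, hc1⟩ : ∃ c1 : ℝ, c1 = κ0 / (2 ^ n) ^ E := ⟨_, rfl⟩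
  have h2nE : (0 : ℝ) < ((2 : ℝ) ^ n) ^ E := Real.rpow_pos_of_pos (by positivity) _
  have hc1pos : 0 < c1 := by rw [hc1]; positivity
  obtain ⟨c, hc⟩ : ∃ c : ℝ, c = min (min c1 κ) 1 := ⟨_, rfl⟩
  have hcpos : 0 < c := by rw [hc]; exact lt_min (lt_min hc1pos hκ0') one_pos
  have hc_1 : c ≤ 1 := by rw [hc]; exact min_le_right _ _
  have hcc1 : c ≤ c1 := by rw [hc]; exact (min_le_left _ _).trans (min_le_left _ _)
  have hcκ : c ≤ κ := by rw [hc]; exact (min_le_left _ _).trans (min_le_right _ _)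
  have hirr : ∀ q : ℤ[X], IrrQ q → q.natDegree ≤ n → c ≤ |aeval ξ q| * mm q ^ E := by
    intro q hq hqn
    have hmq : 1 ≤ mm q := one_le_mm hq.ne_zero
    by_cases hbig : H0 ≤ ht q
    · have h1 := h q hq hqn hbig
      have h2 : (ht q : ℝ) ≤ 2 ^ n * mm q := by
        refine (ht_le_mm q).trans ?_
        gcongr
        norm_num
      have h3 : κ0 ≤ |aeval ξ q| * (((2 : ℝ) ^ n) ^ E * mm q ^ E) := by
        calc κ0 ≤ |aeval ξ q| * (ht q : ℝ) ^ E := h1
          _ ≤ |aeval ξ q| * (2 ^ n * mm q) ^ E := by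
              apply mul_le_mul_of_nonneg_left _ (abs_nonneg _)
              exact Real.rpow_le_rpow (Nat.cast_nonneg _) h2 hE
          _ = _ := by rw [Real.mul_rpow (by positivity) (by linarith)]
      refine hcc1.trans ?_
      rw [hc1, div_le_iff₀ h2nE]
      linarith
    · push Not at hbig
      have h1 : q ∈ S := by
        rw [hS, Finset.mem_filter]
        exact ⟨mem_boxF hqn hbig.le, hne q hq hqn⟩
      calc c ≤ κ := hcκ
        _ ≤ |aeval ξ q| := hκ q h1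
        _ = |aeval ξ q| * 1 := (mul_one _).symm
        _ ≤ |aeval ξ q| * mm q ^ E := by
            apply mul_le_mul_of_nonneg_left _ (abs_nonneg _)
            exact Real.one_le_rpow hmq hE
  have hall : ∀ P : ℤ[X], P ≠ 0 → P.natDegree ≤ n →
      c ^ P.natDegree ≤ |aeval ξ P| * mm P ^ E := by
    intro P
    induction P using WfDvdMonoid.induction_on_irreducible with
    | zero => intro h0; exact absurd rfl h0
    | unit u hu =>
      intro _ _
      obtain ⟨r, hr, rfl⟩ := Polynomial.isUnit_iff.mp hu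
      rw [natDegree_C, pow_zero]
      have h1 : 1 ≤ mm (C r) := one_le_mm (by
        intro h0
        exact hr.ne_zero (by simpa using h0))
      have h2 : |aeval ξ (C r : ℤ[X])| = 1 := by
        rcases Int.isUnit_iff.mp hr with h | h <;> simp [h]
      rw [h2, one_mul]
      exact Real.one_le_rpow h1 hE
    | mul a q ha hq ih =>
      intro hne0 hdeg
      have hq0 : q ≠ 0 := hq.ne_zero
      have hdeg2 : (q * a).natDegree = q.natDegree + a.natDegree := natDegree_mul hq0 ha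
      rw [hdeg2] at hdeg ⊢
      have iha := ih ha (by omega)
      have hmq : 1 ≤ mm q := one_le_mm hq0
      have hma : 1 ≤ mm a := one_le_mm ha
      rw [map_mul, abs_mul, mm_mul, Real.mul_rpow (by linarith) (by linarith), pow_add]
      have hfac : c ^ q.natDegree ≤ |aeval ξ q| * mm q ^ E := by
        by_cases hq1 : q.natDegree = 0
        · rw [hq1, pow_zero]
          obtain ⟨r, rfl⟩ : ∃ r, q = C r := ⟨_, eq_C_of_natDegree_eq_zero hq1⟩
          have hr0 : r ≠ 0 := by rintro rfl; simp at hq0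
          have h2 : 1 ≤ |aeval ξ (C r : ℤ[X])| := by
            rw [aeval_C]
            simp only [algebraMap_int_eq, eq_intCast]
            exact_mod_cast Int.one_le_abs hr0
          calc (1 : ℝ) = 1 * 1 := (one_mul 1).symm
            _ ≤ _ := mul_le_mul h2 (Real.one_le_rpow hmq hE) zero_le_one (abs_nonneg _)
        · have hprim : q.IsPrimitive := hq.isPrimitive hq1
          have hirrq : IrrQ q :=
            (IsPrimitive.Int.irreducible_iff_irreducible_map_cast hprim).mp hq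
          have h1 := hirr q hirrq (by omega)
          calc c ^ q.natDegree ≤ c ^ 1 :=
                pow_le_pow_of_le_one hcpos.le hc_1 (by omega)
            _ = c := pow_one c
            _ ≤ _ := h1
      have hp1 : 0 ≤ |aeval ξ q| * mm q ^ E :=
        mul_nonneg (abs_nonneg _) (Real.rpow_nonneg (by linarith) _)
      calc c ^ q.natDegree * c ^ a.natDegree ≤
            (|aeval ξ q| * mm q ^ E) * (|aeval ξ a| * mm a ^ E) :=
            mul_le_mul hfac iha (by positivity) hp1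
        _ = _ := by ring
  have hn1E : (0 : ℝ) < ((n : ℝ) + 1) ^ E := Real.rpow_pos_of_pos (by positivity) _
  refine ⟨c ^ n / (((n : ℝ) + 1) ^ E), by positivity, ?_⟩
  intro P hP hPn
  have h1 := hall P hP hPn
  have h2 : c ^ n ≤ c ^ P.natDegree := pow_le_pow_of_le_one hcpos.le hc_1 hPn
  have h3 : mm P ≤ ((n : ℝ) + 1) * ht P := by
    refine (mm_le_ht P).trans ?_
    gcongr
  have hmP : 1 ≤ mm P := one_le_mm hP
  rw [div_le_iff₀ hn1E]
  calc c ^ n ≤ |aeval ξ P| * mm P ^ E := h2.trans h1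
    _ ≤ |aeval ξ P| * (((n : ℝ) + 1) * ht P) ^ E := by
        apply mul_le_mul_of_nonneg_left _ (abs_nonneg _)
        exact Real.rpow_le_rpow (by linarith) h3 hE
    _ = |aeval ξ P| * (ht P : ℝ) ^ E * ((n : ℝ) + 1) ^ E := by
        rw [Real.mul_rpow (by positivity) (Nat.cast_nonneg _)]; ring

/-- An irreducible polynomial has degree at most that of any polynomial sharing a root. -/
theorem irr_deg_le (P Q : ℤ[X]) (hP : IrrQ P) (hQ : Q ≠ 0) (α : ℝ) (h1 : aeval α P = 0)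
    (h2 : aeval α Q = 0) : P.natDegree ≤ Q.natDegree := by
  have hmap : ∀ R : ℤ[X], aeval α (R.map (Int.castRingHom ℚ)) = aeval α R := by
    intro R
    have : (Int.castRingHom ℚ) = algebraMap ℤ ℚ := rfl
    rw [this, aeval_map_algebraMap]
  have hdvd : (P.map (Int.castRingHom ℚ)) ∣ (Q.map (Int.castRingHom ℚ)) := by
    apply (Irreducible.dvd_iff_not_isCoprime hP).mpr
    rintro ⟨a, b, hab⟩
    have h3 := congrArg (aeval α) hab
    rw [map_add, map_mul, map_mul, hmap, hmap, h1, h2, mul_zero, mul_zero, add_zero, map_one] at h3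
    exact zero_ne_one h3
  have hQ' : Q.map (Int.castRingHom ℚ) ≠ 0 :=
    (Polynomial.map_ne_zero_iff (RingHom.injective_int _)).mpr hQ
  have h3 := natDegree_le_of_dvd hdvd hQ'
  rwa [IrrQ.natDegree_map, IrrQ.natDegree_map] at h3

/-- The alternative for irreducible polynomials of large height. -/
theorem dichotomy (n : ℕ) (w : ℝ) (ξ : ℝ) (U : ℕ → List Bool) (t : ℕ → ℕ) (htm : StrictMono t)
    (hU : ∀ k, ∃ V, U k = V ++ [true])
    (hlow : ∀ k, ∀ P : ℤ[X], P.natDegree ≤ n → 2 ^ (t k) ≤ ht P → ht P < 2 ^ (t (k + 1)) →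
        aeval (mL (U k) Real.goldenRatio) P ≠ 0 →
        (ht P : ℝ) ^ (-w - 1 / ((k : ℝ) + 1)) ≤ |aeval ξ P|) (ε : ℝ) (hε : 0 < ε) :
    ∃ H0 : ℕ, ∀ P : ℤ[X], IrrQ P → P.natDegree ≤ n → H0 ≤ ht P →
      1 ≤ |aeval ξ P| * (ht P : ℝ) ^ (w + ε) ∨ ∃ k, ∃ r : ℤ, r ≠ 0 ∧ P = C r * PU (U k) := by
  classical
  obtain ⟨k0, hk0⟩ := exists_nat_gt (1 / ε)
  refine ⟨2 ^ (t k0), fun P hP hPn hPH => ?_⟩
  have hex : ∃ j, ht P < 2 ^ (t j) := by
    refine ⟨ht P, lt_of_lt_of_le Nat.lt_two_pow_self ?_⟩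
    exact Nat.pow_le_pow_right (by norm_num) (htm.id_le _)
  obtain ⟨j, hj⟩ : ∃ j, j = Nat.find hex := ⟨_, rfl⟩
  have hj1 : ht P < 2 ^ (t j) := by rw [hj]; exact Nat.find_spec hex
  have hj2 : ∀ i, i < j → 2 ^ (t i) ≤ ht P := by
    intro i hi
    rw [hj] at hi
    have := Nat.find_min hex hi
    omega
  have hjk : k0 < j := by
    by_contra hc
    push Not at hc
    have h1 : t j ≤ t k0 := htm.monotone hc
    have h2 : 2 ^ (t j) ≤ 2 ^ (t k0) := Nat.pow_le_pow_right (by norm_num) h1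
    omega
  obtain ⟨k, rfl⟩ : ∃ k, j = k + 1 := ⟨j - 1, by omega⟩
  have hk : k0 ≤ k := by omega
  have hP0 := hP.ne_zero
  have hH1 : (1 : ℝ) ≤ ht P := by exact_mod_cast ht_pos hP0
  by_cases h0 : aeval (mL (U k) Real.goldenRatio) P = 0
  · right
    obtain ⟨V, hV⟩ := hU k
    have hd : P.natDegree ≤ 2 := (irr_deg_le P (PU (U k)) hP (PU_ne_zero V _ hV) _ h0
      (PU_root (U k))).trans (PU_natDegree_le _)
    obtain ⟨r, hr⟩ := PU_dvd (U k) P hd h0
    refine ⟨k, r, ?_, hr⟩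
    rintro rfl
    rw [map_zero, zero_mul] at hr
    exact hP0 hr
  · left
    have h1 := hlow k P hPn (hj2 k (by omega)) hj1 h0
    have hkε : 1 / ((k : ℝ) + 1) ≤ ε := by
      rw [div_le_iff₀ (by positivity)]
      have h2 : (k0 : ℝ) ≤ k := by exact_mod_cast hk
      rw [div_lt_iff₀ hε] at hk0
      nlinarith
    have hHpos : (0 : ℝ) < ht P := by linarith
    calc (1 : ℝ) ≤ (ht P : ℝ) ^ (ε - 1 / ((k : ℝ) + 1)) := Real.one_le_rpow hH1 (by linarith)
      _ = (ht P : ℝ) ^ (-w - 1 / ((k : ℝ) + 1)) * (ht P : ℝ) ^ (w + ε) := by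
          rw [← Real.rpow_add hHpos]; congr 1; ring
      _ ≤ _ := mul_le_mul_of_nonneg_right h1 (Real.rpow_nonneg hHpos.le _)

theorem ht_zero : ht (0 : ℤ[X]) = 0 := by simp [ht]

/-- Comparison of `q` with the height. -/
theorem q_le_ht (wg : ℝ) (hwg : 0 ≤ wg) (V U : List Bool) (hU : U = V ++ [true]) (r : ℤ)
    (hr : r ≠ 0) : re U 1 0 ^ (2 * wg) ≤ 4 ^ wg * (ht (C r * PU U) : ℝ) ^ wg := by
  have h1 := (PU_ht V U hU).1
  have hq := (re_rel U (by rw [hU]; simp)).1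
  have h2 : ht (PU U) ≤ ht (C r * PU U) := by
    rw [ht_intCast_mul]
    have : 1 ≤ r.natAbs := Int.natAbs_pos.mpr hr
    nlinarith
  have h3 : (ht (PU U) : ℝ) ≤ ht (C r * PU U) := by exact_mod_cast h2
  have h4 : re U 1 0 ^ 2 ≤ 4 * (ht (C r * PU U) : ℝ) := by linarith
  calc re U 1 0 ^ (2 * wg) = (re U 1 0 ^ 2) ^ wg := by
        rw [Real.rpow_mul (by linarith)]
        norm_num
    _ ≤ (4 * (ht (C r * PU U) : ℝ)) ^ wg := Real.rpow_le_rpow (by positivity) h4 hwg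
    _ = _ := Real.mul_rpow (by norm_num) (Nat.cast_nonneg _)

end Pool.Agent.W72
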