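import Mathlib
import Pool.Agent.W72.BaP

set_option autoImplicit false

namespace Pool.Agent.W72

open Polynomial Matrix MeasureTheory
open Pool.Agent.Helper35 (ht natAbs_coeff_le_ht IrrQ ht_intCast_mul ht_pos SSet IsMinZ)

theorem q_large (U : ℕ → List Bool) (hl : ∀ k, k < (U k).length) (M : ℝ) :
    ∃ k0, ∀ k, k0 ≤ k → M ≤ re (U k) 1 0 := by
  obtain ⟨k0, hk0⟩ := pow_unbounded_of_one_lt (4 * (|M| + 1) ^ 2) (by norm_num : (1 : ℝ) < 2)
  refine ⟨k0, fun k hk => ?_⟩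
  have hne : U k ≠ [] := by
    intro h
    have := hl k
    rw [h] at this
    simp at this
  have h1 := re10_growth (U k) hne
  have h2 := (re_rel (U k) hne).1
  have h3 : (2 : ℝ) ^ k0 ≤ 2 ^ (U k).length :=
    pow_le_pow_right₀ (by norm_num) (by have := hl k; omega)
  have h4 : (|M| + 1) ^ 2 < re (U k) 1 0 ^ 2 := by linarith
  have h5 : |M| + 1 < re (U k) 1 0 := lt_of_pow_lt_pow_left₀ 2 (by linarith) h4
  have := le_abs_self M
  linarith

theorem small_aux (A B w w' : ℝ) (hA : 0 < A) (hB : 0 < B) (hw' : 0 ≤ w') (hw : w' < w) :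
    ∃ M : ℝ, 1 ≤ M ∧ ∀ q, M ≤ q → ∀ h : ℝ, 0 < h → h ≤ B * q ^ 2 →
      A / q ^ (2 * w) ≤ h ^ (-w') := by
  have hd : 0 < 2 * (w - w') := by linarith
  obtain ⟨K, hK⟩ : ∃ K, K = A * B ^ w' := ⟨_, rfl⟩
  have hK0 : 0 < K := by rw [hK]; positivity
  refine ⟨max 1 (K ^ (1 / (2 * (w - w')))), le_max_left _ _, fun q hq h hh hhq => ?_⟩
  have hq1 : 1 ≤ q := (le_max_left _ _).trans hq
  have hq0 : 0 < q := by linarith
  have hqK : K ≤ q ^ (2 * (w - w')) := by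
    calc K = (K ^ (1 / (2 * (w - w')))) ^ (2 * (w - w')) := by
          rw [← Real.rpow_mul hK0.le, one_div, inv_mul_cancel₀ hd.ne', Real.rpow_one]
      _ ≤ _ := Real.rpow_le_rpow (by positivity) ((le_max_right _ _).trans hq) hd.le
  rw [Real.rpow_neg hh.le, ← one_div]
  have hh1 : 0 < h ^ w' := Real.rpow_pos_of_pos hh _
  have hqw : 0 < q ^ (2 * w) := Real.rpow_pos_of_pos hq0 _
  rw [div_le_div_iff₀ hqw hh1, one_mul]
  have h1 : h ^ w' ≤ B ^ w' * q ^ (2 * w') := by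
    calc h ^ w' ≤ (B * q ^ 2) ^ w' := Real.rpow_le_rpow hh.le hhq hw'
      _ = B ^ w' * (q ^ 2) ^ w' := Real.mul_rpow hB.le (by positivity)
      _ = _ := by
          congr 1
          rw [Real.rpow_mul hq0.le]
          norm_num
  have e : q ^ (2 * w) = q ^ (2 * (w - w')) * q ^ (2 * w') := by
    rw [← Real.rpow_add hq0]; congr 1; ring
  rw [e]
  have hq2 : 0 < q ^ (2 * w') := Real.rpow_pos_of_pos hq0 _
  calc A * h ^ w' ≤ A * (B ^ w' * q ^ (2 * w')) := by gcongr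
    _ = K * q ^ (2 * w') := by rw [hK]; ring
    _ ≤ _ := by gcongr

theorem mahler_main (n : ℕ) (hn : 2 ≤ n) (w : ℝ) (hw : (n : ℝ) ≤ w) : ∃ s : ℕ → Bool,
    (∀ ε : ℝ, 0 < ε → ∃ c : ℝ, 0 < c ∧ ∀ P : ℤ[X], P ≠ 0 → P.natDegree ≤ n →
      c ≤ |aeval (eta s) P| * (ht P : ℝ) ^ (w + ε)) ∧
    ∀ w' : ℝ, 0 ≤ w' → w' < w → {P : ℤ[X] | P ≠ 0 ∧ P.natDegree ≤ n ∧ 0 < |aeval (eta s) P| ∧
      |aeval (eta s) P| ≤ (ht P : ℝ) ^ (-w')}.Infinite := by
  have hn2 : (2 : ℝ) ≤ n := by exact_mod_cast hn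
  obtain ⟨s, U, σ, t, htm, hU, hl, hs, hlow⟩ := construction n (by omega) w w hw (Or.inl rfl)
  refine ⟨s, ?_, ?_⟩
  · intro ε hε
    obtain ⟨H0, hH0⟩ := dichotomy n w (eta s) U t htm hU hlow ε hε
    obtain ⟨κ0, hκ0⟩ : ∃ κ0 : ℝ, κ0 = min 1 (1 / (18432 * 4 ^ w)) := ⟨_, rfl⟩
    have h4w : (0 : ℝ) < 4 ^ w := Real.rpow_pos_of_pos (by norm_num) _
    have hκ0pos : 0 < κ0 := by rw [hκ0]; exact lt_min one_pos (by positivity)
    refine general_bound_real (eta s) n (w + ε) (by linarith) κ0 hκ0pos H0 ?_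
    intro P hP hPn hPH
    rcases hH0 P hP hPn hPH with h | ⟨k, r, hr, hPr⟩
    · exact (by rw [hκ0]; exact min_le_left _ _ : κ0 ≤ 1).trans h
    · obtain ⟨V, hV⟩ := hU k
      have h1 := (PU_value w (by linarith) V (U k) hV (σ k)).1
      rw [← hs k] at h1
      have h2 := q_le_ht w (by linarith) V (U k) hV r hr
      rw [← hPr] at h2
      have hH1 : (1 : ℝ) ≤ ht P := by exact_mod_cast ht_pos hP.ne_zero
      have h3 : |aeval (eta s) (PU (U k))| ≤ |aeval (eta s) P| := by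
        rw [hPr, map_mul, abs_mul]
        have h4 : 1 ≤ |aeval (eta s) (C r : ℤ[X])| := by
          rw [aeval_C]
          simp only [algebraMap_int_eq, eq_intCast]
          exact_mod_cast Int.one_le_abs hr
        nlinarith [abs_nonneg (aeval (eta s) (PU (U k)))]
      have hHw : (0 : ℝ) < (ht P : ℝ) ^ w := Real.rpow_pos_of_pos (by linarith) _
      have hq := (re_rel (U k) (by rw [hV]; simp)).1
      have hqw : 0 < re (U k) 1 0 ^ (2 * w) := Real.rpow_pos_of_pos (by linarith) _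
      calc κ0 ≤ 1 / (18432 * 4 ^ w) := by rw [hκ0]; exact min_le_right _ _
        _ = 1 / (18432 * (4 ^ w * (ht P : ℝ) ^ w)) * (ht P : ℝ) ^ w := by field_simp
        _ ≤ 1 / (18432 * re (U k) 1 0 ^ (2 * w)) * (ht P : ℝ) ^ w := by gcongr
        _ ≤ |aeval (eta s) P| * (ht P : ℝ) ^ w := by
            have := h1.trans h3
            gcongr
        _ ≤ _ := by
            apply mul_le_mul_of_nonneg_left _ (abs_nonneg _)
            exact Real.rpow_le_rpow_of_exponent_le hH1 (by linarith)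
  · intro w' hw'0 hw'
    obtain ⟨M, hM1, hM⟩ := small_aux 96 100 w w' (by norm_num) (by norm_num) hw'0 hw'
    intro hfin
    obtain ⟨B, hB⟩ := (hfin.image ht).bddAbove
    obtain ⟨k, hk⟩ := q_large U hl (max M (4 * (B + 1)))
    have hk' := hk k le_rfl
    obtain ⟨V, hV⟩ := hU k
    have hq1 := (re_rel (U k) (by rw [hV]; simp)).1
    obtain ⟨v1, v2⟩ := PU_value w (by linarith) V (U k) hV (σ k)
    rw [← hs k] at v1 v2
    obtain ⟨g1, g2⟩ := PU_ht V (U k) hV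
    have hne := PU_ne_zero V (U k) hV
    have hqw : 0 < re (U k) 1 0 ^ (2 * w) := Real.rpow_pos_of_pos (by linarith) _
    have hpos : (0 : ℝ) < ht (PU (U k)) := by exact_mod_cast ht_pos hne
    have hmem : PU (U k) ∈ {P : ℤ[X] | P ≠ 0 ∧ P.natDegree ≤ n ∧ 0 < |aeval (eta s) P| ∧
        |aeval (eta s) P| ≤ (ht P : ℝ) ^ (-w')} := by
      refine ⟨hne, (PU_natDegree_le _).trans hn, lt_of_lt_of_le (by positivity) v1, ?_⟩
      exact v2.trans (hM _ ((le_max_left _ _).trans hk') _ hpos g2)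
    have hle : ht (PU (U k)) ≤ B := hB ⟨_, hmem, rfl⟩
    have hle' : (ht (PU (U k)) : ℝ) ≤ B := by exact_mod_cast hle
    have h1 : 4 * ((B : ℝ) + 1) ≤ re (U k) 1 0 := (le_max_right _ _).trans hk'
    have hB0 : (0 : ℝ) ≤ B := Nat.cast_nonneg _
    nlinarith

/-! ## Algebraic approximation -/

theorem norm_pow_sub_le (j : ℕ) {x y : ℂ} (hx : ‖x‖ ≤ 4) (hy : ‖y‖ ≤ 4) :
    ‖x ^ j - y ^ j‖ ≤ j * 4 ^ j * ‖x - y‖ := by
  induction j with
  | zero => simp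
  | succ j ih =>
    have e : x ^ (j + 1) - y ^ (j + 1) = x * (x ^ j - y ^ j) + y ^ j * (x - y) := by ring
    rw [e]
    refine (norm_add_le _ _).trans ?_
    rw [norm_mul, norm_mul, norm_pow]
    have h1 : ‖y‖ ^ j ≤ 4 ^ j := pow_le_pow_left₀ (norm_nonneg _) hy j
    have h2 : 0 ≤ ‖x - y‖ := norm_nonneg _
    have h3 : (0 : ℝ) < 4 ^ j := by positivity
    calc ‖x‖ * ‖x ^ j - y ^ j‖ + ‖y‖ ^ j * ‖x - y‖
        ≤ 4 * (j * 4 ^ j * ‖x - y‖) + 4 ^ j * ‖x - y‖ := by gcongr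
      _ ≤ ((j + 1 : ℕ) : ℝ) * 4 ^ (j + 1) * ‖x - y‖ := by
          push_cast
          rw [pow_succ]
          have : 0 ≤ 4 ^ j * ‖x - y‖ := by positivity
          nlinarith

theorem aeval_sumC (P : ℤ[X]) (n : ℕ) (hP : P.natDegree ≤ n) (z : ℂ) :
    aeval z P = ∑ j ∈ Finset.range (n + 1), (P.coeff j : ℂ) * z ^ j := by
  rw [aeval_eq_sum_range' (Nat.lt_succ_of_le hP)]
  refine Finset.sum_congr rfl fun j _ => ?_
  simp

theorem aeval_lipC (n : ℕ) (P : ℤ[X]) (hP : P.natDegree ≤ n) {x y : ℂ} (hx : ‖x‖ ≤ 4)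
    (hy : ‖y‖ ≤ 4) : ‖aeval x P - aeval y P‖ ≤ ((n : ℝ) + 1) ^ 2 * 4 ^ n * ht P * ‖x - y‖ := by
  rw [aeval_sumC P n hP, aeval_sumC P n hP, ← Finset.sum_sub_distrib]
  refine (norm_sum_le _ _).trans ?_
  have h : ∀ j ∈ Finset.range (n + 1), ‖(P.coeff j : ℂ) * x ^ j - (P.coeff j : ℂ) * y ^ j‖ ≤
      ((n : ℝ) + 1) * 4 ^ n * ht P * ‖x - y‖ := by
    intro j hj
    have hj' : j ≤ n := by have := Finset.mem_range.mp hj; omega
    rw [← mul_sub, norm_mul]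
    have h1 := norm_pow_sub_le j hx hy
    have h2 : ‖(P.coeff j : ℂ)‖ ≤ ht P := by
      have := Pool.Agent.Helper35.abs_coeff_le_ht P j
      rw [Complex.norm_intCast]
      exact this
    have h3 : (4 : ℝ) ^ j ≤ 4 ^ n := pow_le_pow_right₀ (by norm_num) hj'
    have h4 : (j : ℝ) ≤ n + 1 := by have : (j : ℝ) ≤ n := by exact_mod_cast hj'
                                    linarith
    have h5 : 0 ≤ ‖x - y‖ := norm_nonneg _
    calc ‖(P.coeff j : ℂ)‖ * ‖x ^ j - y ^ j‖ ≤ ht P * ((n + 1) * 4 ^ n * ‖x - y‖) := by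
          apply mul_le_mul h2 _ (norm_nonneg _) (Nat.cast_nonneg _)
          refine h1.trans ?_
          gcongr
      _ = _ := by ring
  refine (Finset.sum_le_sum h).trans ?_
  rw [Finset.sum_const, Finset.card_range, nsmul_eq_mul]
  push_cast
  apply le_of_eq
  ring

theorem aeval_coe (P : ℤ[X]) (x : ℝ) : aeval (x : ℂ) P = ((aeval x P : ℝ) : ℂ) := by
  have := aeval_algebraMap_apply ℂ x P
  simpa using this

/-- Distance to any complex root of the quadratic polynomial. -/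
theorem root_dist (wg : ℝ) (hwg : 1 ≤ wg) (V U : List Bool) (hU : U = V ++ [true])
    (σ : ℕ → Bool) (α : ℂ) (hα : aeval α (PU U) = 0) :
    1 / (3686400 * re U 1 0 ^ (2 * wg)) ≤ ‖((eta (app (extW wg U) σ) : ℝ) : ℂ) - α‖ := by
  have hUne : U ≠ [] := by rw [hU]; simp
  obtain ⟨ξ, hξ⟩ : ∃ ξ, ξ = eta (app (extW wg U) σ) := ⟨_, rfl⟩
  obtain ⟨β, hβ⟩ : ∃ β, β = mL U Real.goldenRatio := ⟨_, rfl⟩
  obtain ⟨a1, a2⟩ := approx wg hwg U hUne σ
  obtain ⟨v1, v2⟩ := PU_value wg hwg V U hU σ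
  obtain ⟨g1, g2⟩ := PU_ht V U hU
  have hroot := PU_root U
  have hq1 := (re_rel U hUne).1
  rw [← hξ, ← hβ] at a1 a2
  rw [← hξ] at v1 v2 ⊢
  rw [← hβ] at hroot
  obtain ⟨q, hq⟩ : ∃ q, q = re U 1 0 := ⟨_, rfl⟩
  rw [← hq] at a1 a2 v1 v2 g1 g2 hq1 ⊢
  obtain ⟨T, hT⟩ : ∃ T, T = q ^ (2 * wg) := ⟨_, rfl⟩
  have hqT : q ^ 2 ≤ T := by
    rw [hT, ← Real.rpow_natCast q 2]
    apply Real.rpow_le_rpow_of_exponent_le hq1
    push_cast
    linarith
  rw [← hT] at a1 a2 v1 v2 ⊢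
  have hT0 : 0 < T := lt_of_lt_of_le (by positivity) hqT
  by_cases hαβ : α = (β : ℂ)
  · rw [hαβ, ← Complex.ofReal_sub, Complex.norm_real, Real.norm_eq_abs]
    refine le_trans ?_ a1
    apply one_div_le_one_div_of_le (by positivity)
    linarith
  · have hexp : ∀ z : ℂ, aeval z (PU U) = ((PU U).coeff 0 : ℂ) + ((PU U).coeff 1 : ℂ) * z +
        ((PU U).coeff 2 : ℂ) * z ^ 2 := by
      intro z
      rw [aeval_sumC (PU U) 2 (PU_natDegree_le U)]
      simp only [Finset.sum_range_succ, Finset.sum_range_zero, pow_zero, mul_one, zero_add, pow_one]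
    have hrootC : aeval (β : ℂ) (PU U) = 0 := by rw [aeval_coe, hroot]; simp
    have hcoef2 : ‖((PU U).coeff 2 : ℂ)‖ ≤ 100 * q ^ 2 := by
      rw [Complex.norm_intCast]
      exact (Pool.Agent.Helper35.abs_coeff_le_ht (PU U) 2).trans g2
    have hval : ‖aeval (ξ : ℂ) (PU U)‖ = |aeval ξ (PU U)| := by
      rw [aeval_coe, Complex.norm_real, Real.norm_eq_abs]
    rw [hexp] at hα hrootC hval
    obtain ⟨c0, hc0⟩ : ∃ c0 : ℂ, c0 = ((PU U).coeff 0 : ℂ) := ⟨_, rfl⟩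
    obtain ⟨c1, hc1⟩ : ∃ c1 : ℂ, c1 = ((PU U).coeff 1 : ℂ) := ⟨_, rfl⟩
    obtain ⟨c2, hc2⟩ : ∃ c2 : ℂ, c2 = ((PU U).coeff 2 : ℂ) := ⟨_, rfl⟩
    rw [← hc0, ← hc1, ← hc2] at hα hrootC hval
    rw [← hc2] at hcoef2
    have h1 : (α - β) * (c2 * (α + β) + c1) = 0 := by linear_combination hα - hrootC
    have h2 : c2 * (α + β) + c1 = 0 := (mul_eq_zero.mp h1).resolve_left (sub_ne_zero.mpr hαβ)
    have h3 : c0 + c1 * (ξ : ℂ) + c2 * (ξ : ℂ) ^ 2 = ((ξ : ℂ) - β) * (c2 * ((ξ : ℂ) - α)) := by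
      linear_combination hrootC + ((ξ : ℂ) - β) * h2
    rw [h3, norm_mul, norm_mul, ← Complex.ofReal_sub, Complex.norm_real, Real.norm_eq_abs] at hval
    rw [← hval] at v1
    have h4 : |ξ - β| * (‖c2‖ * ‖(ξ : ℂ) - α‖) ≤ 2 / T * (100 * q ^ 2 * ‖(ξ : ℂ) - α‖) := by
      gcongr
    have h5 : 1 / (18432 * T) ≤ 2 / T * (100 * q ^ 2 * ‖(ξ : ℂ) - α‖) := v1.trans h4
    have h6 : 2 / T * (100 * q ^ 2 * ‖(ξ : ℂ) - α‖) = (200 * q ^ 2 * ‖(ξ : ℂ) - α‖) / T := by ring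
    rw [h6, div_le_div_iff₀ (by positivity) hT0] at h5
    have h7 : 1 ≤ 18432 * (200 * q ^ 2 * ‖(ξ : ℂ) - α‖) := by
      have : 1 * T ≤ (18432 * (200 * q ^ 2 * ‖(ξ : ℂ) - α‖)) * T := by linarith
      exact le_of_mul_le_mul_right this hT0
    rw [div_le_iff₀ (by positivity)]
    have h8 : q ^ 2 * ‖(ξ : ℂ) - α‖ ≤ T * ‖(ξ : ℂ) - α‖ := by gcongr
    linarith

theorem koksma_main (n : ℕ) (hn : 2 ≤ n) (w : ℝ) (hw : (n : ℝ) ≤ w) : ∃ s : ℕ → Bool,
    (∀ ε : ℝ, 0 < ε → ∃ c : ℝ, 0 < c ∧ ∃ H0 : ℕ, ∀ (P : ℤ[X]) (α : ℂ), Irreducible P →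
      P.IsPrimitive → aeval α P = 0 → P.natDegree ≤ n → ‖((eta s : ℝ) : ℂ) - α‖ ≤ 1 →
      H0 ≤ ht P → c ≤ ‖((eta s : ℝ) : ℂ) - α‖ * (ht P : ℝ) ^ (w + ε + 1)) ∧
    ∀ w' : ℝ, 0 ≤ w' → w' < w → w' ∈ SSet (eta s) n := by
  have hn2 : (2 : ℝ) ≤ n := by exact_mod_cast hn
  obtain ⟨s, U, σ, t, htm, hU, hl, hs, hlow⟩ := construction n (by omega) w (w + 1) hw (Or.inr rfl)
  refine ⟨s, ?_, ?_⟩
  · intro ε hε
    obtain ⟨H0, hH0⟩ := dichotomy n w (eta s) U t htm hU hlow ε hε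
    have h4w : (0 : ℝ) < 4 ^ (w + 1) := Real.rpow_pos_of_pos (by norm_num) _
    obtain ⟨K, hK⟩ : ∃ K : ℝ, K = ((n : ℝ) + 1) ^ 2 * 4 ^ n := ⟨_, rfl⟩
    have hK0 : 0 < K := by rw [hK]; positivity
    refine ⟨min (1 / K) (1 / (3686400 * 4 ^ (w + 1))), lt_min (by positivity) (by positivity), H0,
      ?_⟩
    intro P α hPirr hPprim hPα hPn hclose hPH
    have hP0 : P ≠ 0 := hPirr.ne_zero
    have hirrQ : IrrQ P := (IsPrimitive.Int.irreducible_iff_irreducible_map_cast hPprim).mp hPirr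
    have hH1 : (1 : ℝ) ≤ ht P := by exact_mod_cast ht_pos hP0
    have hHpos : (0 : ℝ) < ht P := by linarith
    have hξ3 := eta_le s
    have hξ1 := eta_ge s
    have hξn : ‖((eta s : ℝ) : ℂ)‖ ≤ 3 := by
      rw [Complex.norm_real, Real.norm_eq_abs, abs_of_nonneg (by linarith)]; exact hξ3
    have hαn : ‖α‖ ≤ 4 := by
      have : α = ((eta s : ℝ) : ℂ) - (((eta s : ℝ) : ℂ) - α) := by ring
      rw [this]
      exact (norm_sub_le _ _).trans (by linarith)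
    rcases hH0 P hirrQ hPn hPH with h | ⟨k, r, hr, hPr⟩
    · refine (min_le_left _ _).trans ?_
      have h1 := aeval_lipC n P hPn (x := ((eta s : ℝ) : ℂ)) (y := α) (by linarith) hαn
      rw [hPα, sub_zero, aeval_coe, Complex.norm_real, Real.norm_eq_abs, ← hK] at h1
      rw [div_le_iff₀ hK0]
      calc (1 : ℝ) ≤ |aeval (eta s) P| * (ht P : ℝ) ^ (w + ε) := h
        _ ≤ (K * ht P * ‖((eta s : ℝ) : ℂ) - α‖) * (ht P : ℝ) ^ (w + ε) := by gcongr
        _ = _ := by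
            rw [Real.rpow_add_one hHpos.ne']
            ring
    · refine (min_le_right _ _).trans ?_
      obtain ⟨V, hV⟩ := hU k
      have hα' : aeval α (PU (U k)) = 0 := by
        rw [hPr, map_mul] at hPα
        have h1 : aeval α (C r : ℤ[X]) ≠ 0 := by
          rw [aeval_C]
          simpa using hr
        exact (mul_eq_zero.mp hPα).resolve_left h1
      have h1 := root_dist (w + 1) (by linarith) V (U k) hV (σ k) α hα'
      rw [← hs k] at h1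
      have h2 := q_le_ht (w + 1) (by linarith) V (U k) hV r hr
      rw [← hPr] at h2
      have hHw : (0 : ℝ) < (ht P : ℝ) ^ (w + 1) := Real.rpow_pos_of_pos (by linarith) _
      have hq := (re_rel (U k) (by rw [hV]; simp)).1
      have hqw : 0 < re (U k) 1 0 ^ (2 * (w + 1)) := Real.rpow_pos_of_pos (by linarith) _
      calc (1 : ℝ) / (3686400 * 4 ^ (w + 1)) =
            1 / (3686400 * (4 ^ (w + 1) * (ht P : ℝ) ^ (w + 1))) * (ht P : ℝ) ^ (w + 1) := by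
              field_simp
        _ ≤ 1 / (3686400 * re (U k) 1 0 ^ (2 * (w + 1))) * (ht P : ℝ) ^ (w + 1) := by gcongr
        _ ≤ ‖((eta s : ℝ) : ℂ) - α‖ * (ht P : ℝ) ^ (w + 1) := by gcongr
        _ ≤ _ := by
            apply mul_le_mul_of_nonneg_left _ (norm_nonneg _)
            exact Real.rpow_le_rpow_of_exponent_le hH1 (by linarith)
  · intro w' hw'0 hw'
    obtain ⟨M, hM1, hM⟩ := small_aux 2 1200 (w + 1) (w' + 1) (by norm_num) (by norm_num)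
      (by linarith) (by linarith)
    have hmem : ∀ k, M ≤ re (U k) 1 0 → mL (U k) Real.goldenRatio ∈
        {α : ℝ | ∃ P : ℤ[X], IsMinZ P α ∧ P.natDegree ≤ n ∧ 0 < |eta s - α| ∧
          |eta s - α| ≤ (ht P : ℝ) ^ (-w' - 1)} := by
      intro k hk
      obtain ⟨V, hV⟩ := hU k
      have hne := PU_ne_zero V (U k) hV
      obtain ⟨Q, hQ1, hQ2⟩ := exists_minZ_dvd (PU (U k)) hne _ (PU_root (U k))
      obtain ⟨a1, a2⟩ := approx (w + 1) (by linarith) (U k) (by rw [hV]; simp) (σ k)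
      rw [← hs k] at a1 a2
      have hq1 := (re_rel (U k) (by rw [hV]; simp)).1
      have hqw : 0 < re (U k) 1 0 ^ (2 * (w + 1)) := Real.rpow_pos_of_pos (by linarith) _
      have h1 := ht_dvd hne hQ2 (PU_natDegree_le (U k))
      have h2 := (PU_ht V (U k) hV).2
      have h3 : (ht Q : ℝ) ≤ 1200 * re (U k) 1 0 ^ 2 := by
        push_cast at h1
        linarith
      have hQ0 : Q ≠ 0 := hQ1.1.ne_zero
      have hpos : (0 : ℝ) < ht Q := by exact_mod_cast ht_pos hQ0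
      refine ⟨Q, hQ1, ((natDegree_le_of_dvd hQ2 hne).trans (PU_natDegree_le _)).trans hn,
        lt_of_lt_of_le (by positivity) a1, ?_⟩
      have h4 := hM _ hk _ hpos h3
      rw [show -(w' + 1) = -w' - 1 by ring] at h4
      exact a2.trans h4
    show Set.Infinite _
    intro hfin
    obtain ⟨k1, hk1⟩ := q_large U hl M
    obtain ⟨α0, hα0, hmin⟩ := hfin.toFinset.exists_min_image (fun α => |eta s - α|)
      ⟨_, hfin.mem_toFinset.mpr (hmem k1 (hk1 k1 le_rfl))⟩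
    have hα0' := hfin.mem_toFinset.mp hα0
    obtain ⟨_, _, _, hδ, _⟩ := hα0'
    obtain ⟨k2, hk2⟩ := q_large U hl (max M (4 / |eta s - α0|))
    have hk2' := hk2 k2 le_rfl
    have hm2 := hmin _ (hfin.mem_toFinset.mpr (hmem k2 ((le_max_left _ _).trans hk2')))
    obtain ⟨V, hV⟩ := hU k2
    obtain ⟨_, a2⟩ := approx (w + 1) (by linarith) (U k2) (by rw [hV]; simp) (σ k2)
    rw [← hs k2] at a2
    have hq1 := (re_rel (U k2) (by rw [hV]; simp)).1
    have h4 : 4 / |eta s - α0| ≤ re (U k2) 1 0 := (le_max_right _ _).trans hk2'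
    have h5 : re (U k2) 1 0 ≤ re (U k2) 1 0 ^ (2 * (w + 1)) := by
      calc re (U k2) 1 0 = re (U k2) 1 0 ^ (1 : ℝ) := (Real.rpow_one _).symm
        _ ≤ _ := Real.rpow_le_rpow_of_exponent_le hq1 (by linarith)
    have h6 : 2 / re (U k2) 1 0 ^ (2 * (w + 1)) < |eta s - α0| := by
      have hqp : 0 < re (U k2) 1 0 ^ (2 * (w + 1)) := by linarith
      rw [div_lt_iff₀ hqp]
      rw [div_le_iff₀ hδ] at h4
      nlinarith
    linarith

end Pool.Agent.W72
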