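import Mathlib
import Pool.Agent.W72.SqA

set_option autoImplicit false

namespace Pool.Agent.W72

open Polynomial Pool.Agent Pool.Agent.Helper35

variable {e V Mq : ℕ → ℕ} (X : SData e V Mq)

/-- Nonvanishing at `ξ`. -/
theorem ne_zero_at (hM : Demand e Mq) (hV : ∀ j, 22 ≤ V j) (hmono : Monotone V)
    (hV40 : ∀ j, 40 * (j + 1) ≤ V j) (P : ℤ[X]) (hP : P ≠ 0) : aeval X.ξ P ≠ 0 := by
  intro h0
  obtain ⟨c, hc, hcc⟩ := X.bound_all hM hV P.natDegree (V P.natDegree) (hV40 _)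
    (fun j hj => hmono hj.le)
  have := hcc P hP le_rfl
  rw [h0, abs_zero, zero_mul] at this
  linarith

/-- The convergence of the translates. -/
theorem alpha_close (hV : ∀ j, 22 ≤ V j) (k : ℕ) :
    |X.ξ - X.α k| ≤ 2 / (X.N k : ℝ) := by
  have h1 := X.lo' k
  have h2 := X.hi' k
  have h3 := X.r_pos k
  have h4 := X.N_one_le k
  rw [abs_of_nonneg (by linarith)]
  have h5 : X.r k ≤ 1 / (X.N k : ℝ) := by
    unfold SData.r
    apply one_div_le_one_div_of_le (by linarith)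
    exact le_self_pow₀ h4 (SData.dV_ne hV k)
  have h6 : 2 / (X.N k : ℝ) = 2 * (1 / (X.N k : ℝ)) := by ring
  rw [h6]
  linarith

/-- The reflected special polynomials are not small at `ξ`. -/
theorem refl_lower (hM : Demand e Mq) (hV : ∀ j, 22 ≤ V j) (hmono : Monotone V)
    (hV40 : ∀ j, 40 * (j + 1) ≤ V j) (j : ℕ) :
    ∃ c : ℝ, 0 < c ∧ ∀ k, e k = j → c * (X.N k : ℝ) ^ (j + 1) ≤
      |aeval X.ξ (Helper35.refl (X.S k))| := by
  classical
  obtain ⟨T, hT⟩ : ∃ T : ℤ[X], T = (TD j).T := ⟨_, rfl⟩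
  obtain ⟨θ, hθ⟩ : ∃ θ : ℝ, θ = (TD j).θ := ⟨_, rfl⟩
  have hne0 : ∀ P : ℤ[X], P ≠ 0 → aeval X.ξ P ≠ 0 := ne_zero_at X hM hV hmono hV40
  -- `T(θ - 2ξ) ≠ 0`
  have hTne : aeval (θ - 2 * X.ξ) T ≠ 0 := by
    intro h0
    have hTalg : IsAlgebraic ℤ (θ - 2 * X.ξ) := ⟨T, by rw [hT]; exact (TD j).irr.ne_zero, h0⟩
    have hθalg : IsAlgebraic ℤ θ := ⟨T, by rw [hT]; exact (TD j).irr.ne_zero, by
      rw [hT, hθ]; exact (TD j).root⟩
    have h1 : IsAlgebraic ℤ (2 * X.ξ) := by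
      have h2 : 2 * X.ξ = θ - (θ - 2 * X.ξ) := by ring
      rw [h2]
      exact hθalg.sub hTalg
    have h2 : IsAlgebraic ℚ X.ξ := by
      have h3 : IsAlgebraic ℚ (2 * X.ξ) := (IsFractionRing.isAlgebraic_iff ℤ ℚ ℝ).mp h1
      have h4 : IsAlgebraic ℚ ((1 / 2 : ℝ)) := by
        have : ((1 / 2 : ℝ)) = algebraMap ℚ ℝ (1 / 2) := by simp
        rw [this]
        exact isAlgebraic_algebraMap _
      have h5 := h4.mul h3
      have e5 : (1 / 2 : ℝ) * (2 * X.ξ) = X.ξ := by ring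
      rwa [e5] at h5
    rw [← IsFractionRing.isAlgebraic_iff ℤ ℚ ℝ] at h2
    obtain ⟨P, hP, h0⟩ := h2
    exact hne0 P hP h0
  -- continuity
  have hcont : Continuous (fun x : ℝ => aeval x T) := Polynomial.continuous_aeval T
  set κ : ℝ := |aeval (θ - 2 * X.ξ) T| / 2 with hκ
  have hκ0 : 0 < κ := by rw [hκ]; have := abs_pos.mpr hTne; linarith
  obtain ⟨δ, hδ, hδ2⟩ := Metric.continuousAt_iff.mp (hcont.continuousAt (x := θ - 2 * X.ξ)) κ hκ0
  have hbig : ∀ k, e k = j → ⌈2 / δ⌉₊ < k → κ * (X.N k : ℝ) ^ (j + 1) ≤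
      |aeval X.ξ (Helper35.refl (X.S k))| := by
    intro k hk hkb
    obtain ⟨_, _, _, hev, _⟩ := X.S_props k
    have hval : aeval X.ξ (Helper35.refl (X.S k)) = aeval (-X.ξ) (X.S k) := by
      unfold Helper35.refl
      rw [aeval_comp]
      simp
    have hN := X.N_one_le k
    have hNpos : (0 : ℝ) < X.N k := by linarith
    rw [hval, hev, abs_mul, abs_of_nonneg (by positivity), hk, ← hT, mul_comm]
    gcongr
    have hkN : ((⌈2 / δ⌉₊ : ℕ) : ℝ) < X.N k := by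
      have := X.k_le_N hM k
      exact_mod_cast (by omega : ⌈2 / δ⌉₊ < X.N k)
    have h1 : 2 / δ < X.N k := lt_of_le_of_lt (Nat.le_ceil _) hkN
    have h2 : 2 / (X.N k : ℝ) < δ := by
      rw [div_lt_iff₀ hδ] at h1
      rw [div_lt_iff₀ hNpos]
      linarith
    have h3 := alpha_close X hV k
    have h4 : dist (-X.ξ - (X.n k : ℝ) / (X.N k : ℝ)) (θ - 2 * X.ξ) < δ := by
      rw [Real.dist_eq]
      have e4 : -X.ξ - (X.n k : ℝ) / (X.N k : ℝ) - (θ - 2 * X.ξ) = X.ξ - X.α k := by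
        unfold SData.α
        rw [hk, ← hθ]; ring
      rw [e4]
      linarith
    have h5 := hδ2 h4
    rw [Real.dist_eq] at h5
    have h6 := abs_sub_abs_le_abs_sub (aeval (θ - 2 * X.ξ) T)
      (aeval (-X.ξ - (X.n k : ℝ) / (X.N k : ℝ)) T)
    rw [abs_sub_comm] at h6
    have h7 : |aeval (θ - 2 * X.ξ) T| = 2 * κ := by rw [hκ]; ring
    linarith
  -- the finitely many remaining stages
  set B : ℕ := ⌈2 / δ⌉₊ with hB
  obtain ⟨c0, hc0, hc0'⟩ : ∃ c0 : ℝ, 0 < c0 ∧ ∀ k ≤ B, c0 * (X.N k : ℝ) ^ (j + 1) ≤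
      |aeval X.ξ (Helper35.refl (X.S k))| := by
    have hpos : ∀ k, 0 < |aeval X.ξ (Helper35.refl (X.S k))| / (X.N k : ℝ) ^ (j + 1) := by
      intro k
      have h1 : aeval X.ξ (Helper35.refl (X.S k)) ≠ 0 :=
        hne0 _ (refl_ne_zero (X.S_irr k).ne_zero)
      have h2 := X.N_one_le k
      have : (0 : ℝ) < X.N k := by linarith
      have := abs_pos.mpr h1
      positivity
    obtain ⟨k0, _, hk0⟩ := (Finset.range (B + 1)).exists_min_image
      (fun k => |aeval X.ξ (Helper35.refl (X.S k))| / (X.N k : ℝ) ^ (j + 1))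
      ⟨0, Finset.mem_range.mpr (by omega)⟩
    refine ⟨_, hpos k0, fun k hk => ?_⟩
    have h1 := hk0 k (Finset.mem_range.mpr (by omega))
    have h2 := X.N_one_le k
    have h3 : (0 : ℝ) < (X.N k : ℝ) ^ (j + 1) := by
      have : (0 : ℝ) < X.N k := by linarith
      positivity
    rwa [le_div_iff₀ h3] at h1
  refine ⟨min κ c0, lt_min hκ0 hc0, fun k hk => ?_⟩
  have h2 := X.N_one_le k
  have h3 : (0 : ℝ) < (X.N k : ℝ) ^ (j + 1) := by
    have : (0 : ℝ) < X.N k := by linarith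
    positivity
  rcases le_or_gt k B with h | h
  · refine le_trans ?_ (hc0' k h)
    gcongr
    exact min_le_right _ _
  · refine le_trans ?_ (hbig k hk h)
    gcongr
    exact min_le_left _ _

end Pool.Agent.W72
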