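import Mathlib
import Pool.Agent.W72.SqB

set_option autoImplicit false

namespace Pool.Agent.W72

open Polynomial Pool.Agent Pool.Agent.Helper35

variable {e V Mq : ℕ → ℕ} (X : SData e V Mq)

/-- Polynomials not divisible by any special polynomial. -/
theorem pred_bound (hne : ∀ P : ℤ[X], P ≠ 0 → aeval X.ξ P ≠ 0) (n' : ℕ) :
    ∃ c : ℝ, 0 < c ∧ ∀ P : ℤ[X], (∀ k, ¬ X.S k ∣ P) → P ≠ 0 →
      P.natDegree ≤ n' → c ≤ |aeval X.ξ P| * (ht P : ℝ) ^ (40 * (n' + 1)) := by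
  apply general_bound_pred X.ξ n' (40 * (n' + 1)) (fun P => ∀ k, ¬ X.S k ∣ P)
  · intro a b hab
    exact ⟨fun k hk => hab k (hk.mul_right b), fun k hk => hab k (hk.mul_left a)⟩
  · exact hne
  · intro m' hm' hmn'
    obtain ⟨H0, hH0⟩ := X.irr_main' m' m' le_rfl
    refine ⟨H0, fun P hGP hP hPd hH => ?_⟩
    have hHr : (1 : ℝ) ≤ ht P := by exact_mod_cast ht_pos hP.ne_zero
    rcases hH0 P hP hPd hH with ⟨k, g, _, hg, hPg⟩ | h
    · exact absurd ⟨C g, by rw [hPg, mul_comm]⟩ (hGP k)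
    · refine h.trans ?_
      have h3 : (ht P : ℝ) ^ (40 * (m' + 1)) ≤ (ht P : ℝ) ^ (40 * (n' + 1)) :=
        pow_le_pow_right₀ hHr (by omega)
      gcongr

/-- The bound at `ξ^2`. -/
theorem bound_sq' (hodd : ∀ k, Odd (e k + 1)) (hM : Demand e Mq) (U : ℕ → ℕ)
    (hVU : ∀ j, V j = 2 * U j) (hU : StrictMono U) (hU80 : ∀ j, 80 * j + 41 ≤ U j) (n : ℕ) :
    ∃ c : ℝ, 0 < c ∧ ∀ P : ℤ[X], P ≠ 0 → P.natDegree ≤ n →
      c ≤ |aeval (X.ξ ^ 2) P| * (ht P : ℝ) ^ (U n) := by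
  have hV : ∀ j, 22 ≤ V j := fun j => by rw [hVU]; have := hU80 j; omega
  have hmono : Monotone V := fun a b hab => by
    rw [hVU, hVU]; have := hU.monotone hab; omega
  have hV40 : ∀ j, 40 * (j + 1) ≤ V j := fun j => by rw [hVU]; have := hU80 j; omega
  have hne := ne_zero_at X hM hV hmono hV40
  apply general_bound
  intro m hm hmn
  obtain ⟨c1, hc1, hcc1⟩ := pred_bound X hne (2 * m)
  obtain ⟨c2, hc2, hcc2⟩ := refl_lower X hM hV hmono hV40 (m - 1)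
  have hCh : 1 ≤ SData.Ch (m - 1) := SData.Ch_one_le _
  have hCh0 : 0 < SData.Ch (m - 1) := by linarith
  obtain ⟨Ch, hChd⟩ : ∃ Ch : ℝ, Ch = SData.Ch (m - 1) := ⟨_, rfl⟩
  rw [← hChd] at hCh hCh0
  obtain ⟨c3, hc3d⟩ : ∃ c3 : ℝ, c3 = c2 / Ch / Ch ^ (2 * U (m - 1)) := ⟨_, rfl⟩
  have hc3 : 0 < c3 := by rw [hc3d]; positivity
  refine ⟨⌈1 / c1⌉₊ + ⌈1 / c3⌉₊, fun P hP hPd hH => ?_⟩
  have hH1 : (1 : ℝ) ≤ ht P := by exact_mod_cast ht_pos hP.ne_zero
  have hHc1 : 1 ≤ c1 * ht P := by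
    have h1 : 1 / c1 ≤ ht P := (Nat.le_ceil _).trans (by exact_mod_cast (by omega))
    rw [div_le_iff₀ hc1] at h1
    linarith
  have hHc3 : 1 ≤ c3 * ht P := by
    have h1 : 1 / c3 ≤ ht P := (Nat.le_ceil _).trans (by exact_mod_cast (by omega))
    rw [div_le_iff₀ hc3] at h1
    linarith
  have hval : aeval X.ξ (expand ℤ 2 P) = aeval (X.ξ ^ 2) P := expand_aeval 2 P X.ξ
  by_cases hG : ∀ k, ¬ X.S k ∣ expand ℤ 2 P
  · have hR0 : expand ℤ 2 P ≠ 0 := by
      intro h0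
      exact hP.ne_zero ((expand_eq_zero (by norm_num)).mp h0)
    have h1 := hcc1 (expand ℤ 2 P) hG hR0 (by rw [natDegree_expand]; omega)
    rw [hval, ht_expand] at h1
    have hUn : 80 * n + 41 ≤ U n := hU80 n
    calc (1 : ℝ) ≤ c1 * ht P := hHc1
      _ ≤ (|aeval (X.ξ ^ 2) P| * (ht P : ℝ) ^ (40 * (2 * m + 1))) * ht P := by gcongr
      _ = |aeval (X.ξ ^ 2) P| * (ht P : ℝ) ^ (40 * (2 * m + 1) + 1) := by ring
      _ ≤ _ := by
          have : (ht P : ℝ) ^ (40 * (2 * m + 1) + 1) ≤ (ht P : ℝ) ^ (U n) :=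
            pow_le_pow_right₀ hH1 (by omega)
          gcongr
  · push Not at hG
    obtain ⟨k, hk⟩ := hG
    obtain ⟨hdeg, u, hu, hfac⟩ := X.split_of_dvd hodd P hP k hk
    have hek : e k = m - 1 := by omega
    have hS0 := (X.S_irr k).ne_zero
    obtain ⟨hS, hhS⟩ : ∃ a : ℝ, a = (ht (X.S k) : ℝ) := ⟨_, rfl⟩
    have hS1 : 1 ≤ hS := by rw [hhS]; exact_mod_cast ht_pos hS0
    have hSpos : 0 < hS := by linarith
    -- bound for S_k
    have h1 := X.spec_lower hM hV k 1 one_ne_zero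
    rw [C_1, one_mul, ← hhS, hVU, hek] at h1
    -- bound for the reflection
    have h2 := hcc2 k hek
    have h3 := X.ht_S_upper hV k
    rw [hek, ← hhS, ← hChd] at h3
    have h2' : c2 / Ch * hS ≤ |aeval X.ξ (Helper35.refl (X.S k))| := by
      refine le_trans ?_ h2
      rw [div_mul_eq_mul_div, div_le_iff₀ hCh0]
      calc c2 * hS ≤ c2 * (Ch * (X.N k : ℝ) ^ (m - 1 + 1)) := by gcongr
        _ = _ := by ring
    -- heights
    have h4 : hS ^ 2 ≤ Ch ^ 2 * ht P := by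
      have h5 : hS ^ 2 ≤ (Ch * (X.N k : ℝ) ^ (m - 1 + 1)) ^ 2 := by gcongr
      refine h5.trans ?_
      rw [mul_pow]
      have h6 : ((X.N k : ℝ) ^ (m - 1 + 1)) ^ 2 ≤ ht P := by
        have h7 := natAbs_coeff_le_ht (expand ℤ 2 P) (expand ℤ 2 P).natDegree
        rw [coeff_natDegree, ht_expand, hfac, leadingCoeff_mul, leadingCoeff_mul, leadingCoeff_C,
          refl_leadingCoeff, X.lead_S, hek, Int.natAbs_mul, Int.natAbs_mul, Int.natAbs_mul,
          Int.natAbs_mul, Int.natAbs_pow, Int.natAbs_pow, Int.natAbs_natCast, Int.natAbs_neg,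
          Int.natAbs_one, one_pow, one_mul] at h7
        have hT : 1 ≤ (TD (m - 1)).T.leadingCoeff.natAbs :=
          Int.natAbs_pos.mpr (leadingCoeff_ne_zero.mpr (TD (m - 1)).irr.ne_zero)
        have hu1 : 1 ≤ u.natAbs := Int.natAbs_pos.mpr hu
        have h8 : (X.N k ^ (m - 1 + 1)) ^ 2 ≤ ht P := by
          refine le_trans ?_ h7
          rw [Int.natAbs_mul ((X.N k : ℤ) ^ (m - 1 + 1)), Int.natAbs_pow, Int.natAbs_natCast]
          calc (X.N k ^ (m - 1 + 1)) ^ 2 =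
                1 * ((X.N k ^ (m - 1 + 1) * 1) * (X.N k ^ (m - 1 + 1) * 1)) := by ring
            _ ≤ _ := by gcongr
        exact_mod_cast h8
      gcongr
    have h5 : hS ^ (2 * U (m - 1)) ≤ Ch ^ (2 * U (m - 1)) * (ht P : ℝ) ^ (U (m - 1)) := by
      calc hS ^ (2 * U (m - 1)) = (hS ^ 2) ^ (U (m - 1)) := by rw [← pow_mul]
        _ ≤ (Ch ^ 2 * ht P) ^ (U (m - 1)) := by gcongr
        _ = _ := by rw [mul_pow, ← pow_mul]
    -- combination
    have h9 : |aeval (X.ξ ^ 2) P| =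
        |(u : ℝ)| * (|aeval X.ξ (X.S k)| * |aeval X.ξ (Helper35.refl (X.S k))|) := by
      rw [← hval, hfac, map_mul, map_mul, abs_mul, abs_mul, aeval_C]
      simp
    have hu1 : (1 : ℝ) ≤ |(u : ℝ)| := by exact_mod_cast Int.one_le_abs hu
    have h10 : c3 ≤ |aeval (X.ξ ^ 2) P| * (ht P : ℝ) ^ (U (m - 1)) := by
      rw [hc3d, div_le_iff₀ (by positivity), h9]
      calc c2 / Ch = 1 * (1 * (c2 / Ch * 1)) := by ring
        _ ≤ |(u : ℝ)| * ((|aeval X.ξ (X.S k)| * hS ^ (2 * U (m - 1))) * (c2 / Ch * hS)) := by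
            gcongr
        _ ≤ |(u : ℝ)| * ((|aeval X.ξ (X.S k)| * (Ch ^ (2 * U (m - 1)) *
              (ht P : ℝ) ^ (U (m - 1)))) * |aeval X.ξ (Helper35.refl (X.S k))|) := by
            gcongr
        _ = _ := by ring
    have h11 : U (m - 1) + 1 ≤ U n := hU (by omega : m - 1 < n)
    calc (1 : ℝ) ≤ c3 * ht P := hHc3
      _ ≤ (|aeval (X.ξ ^ 2) P| * (ht P : ℝ) ^ (U (m - 1))) * ht P := by gcongr
      _ = |aeval (X.ξ ^ 2) P| * (ht P : ℝ) ^ (U (m - 1) + 1) := by ring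
      _ ≤ _ := by
          have : (ht P : ℝ) ^ (U (m - 1) + 1) ≤ (ht P : ℝ) ^ (U n) :=
            pow_le_pow_right₀ hH1 h11
          gcongr

/-- If a prime power `p^A` with `A` odd is the exact power dividing an integer then the integer
is not plus or minus a square. -/
theorem not_square_of_odd (p : ℕ) (hp : p.Prime) (A : ℕ) (hA : Odd A) (b s : ℤ)
    (hb : ¬ (p : ℤ) ∣ b) (h : (p : ℤ) ^ A * b = s ^ 2 ∨ (p : ℤ) ^ A * b = -s ^ 2) : False := by
  have hpp : Prime (p : ℤ) := Nat.prime_iff_prime_int.mp hp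
  have hb0 : b ≠ 0 := by rintro rfl; exact hb (dvd_zero _)
  have hp0 : (p : ℤ) ≠ 0 := hpp.ne_zero
  have h' : ((p : ℤ) ^ A * b).natAbs = s.natAbs ^ 2 := by
    rcases h with h | h
    · rw [h, Int.natAbs_pow]
    · rw [h, Int.natAbs_neg, Int.natAbs_pow]
  rw [Int.natAbs_mul, Int.natAbs_pow, Int.natAbs_natCast] at h'
  have hb' : ¬ p ∣ b.natAbs := by
    intro hd
    exact hb (Int.natCast_dvd.mpr hd)
  have hs0 : s.natAbs ≠ 0 := by
    intro h0
    rw [h0] at h'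
    have : p ^ A * b.natAbs ≠ 0 := Nat.mul_ne_zero (pow_ne_zero _ hp.ne_zero) (by simpa using hb0)
    simp at h'
    rcases h' with h1 | h1
    · exact hp.ne_zero h1.1
    · exact hb0 h1
  have h1 := congrArg (fun x => x.factorization p) h'
  rw [Nat.factorization_mul (pow_ne_zero _ hp.ne_zero) (by simpa using hb0),
    Nat.factorization_pow, Nat.factorization_pow] at h1
  simp only [Finsupp.coe_add, Finsupp.coe_smul, Pi.add_apply, Pi.smul_apply, smul_eq_mul,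
    hp.factorization_self, mul_one, Nat.factorization_eq_zero_of_not_dvd hb', add_zero] at h1
  obtain ⟨t, ht⟩ := hA
  omega

end Pool.Agent.W72
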