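import Mathlib
import Pool.Agent.W72.SqC

set_option autoImplicit false

namespace Pool.Agent.W72

open Polynomial Pool.Agent Pool.Agent.Helper35

variable {e V Mq : ℕ → ℕ} (X : SData e V Mq)

theorem S_coeff_zero' (k : ℕ) : ¬ ((X.p k : ℕ) : ℤ) ∣ (X.S k).coeff 0 := by
  have hp := X.prime k
  have hpp : Prime ((X.p k : ℕ) : ℤ) := Nat.prime_iff_prime_int.mp hp
  intro h0
  have e0 : (X.S k).coeff 0 = ∑ j ∈ Finset.range ((TD (e k)).T.natDegree + 1),
      (TD (e k)).T.coeff j * (X.N k : ℤ) ^ ((TD (e k)).T.natDegree - j) * (-(X.n k)) ^ j := by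
    rw [SData.S, SP, shf, finsetSum_coeff]
    refine Finset.sum_congr rfl (fun j _ => ?_)
    rw [coeff_C_mul]
    congr 1
    rw [coeff_zero_eq_eval_zero]
    simp
  rw [e0, Finset.sum_range_succ] at h0
  have h1 : ((X.p k : ℕ) : ℤ) ∣ ∑ j ∈ Finset.range (TD (e k)).T.natDegree,
      (TD (e k)).T.coeff j * (X.N k : ℤ) ^ ((TD (e k)).T.natDegree - j) * (-(X.n k)) ^ j := by
    apply Finset.dvd_sum
    intro j hj
    have hj' := Finset.mem_range.mp hj
    have h2 : ((X.p k : ℕ) : ℤ) ∣ (X.N k : ℤ) := by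
      have h3 : X.p k ∣ X.N k := dvd_pow_self _ (by have := SData.EA_pos k; omega)
      exact_mod_cast h3
    have h3 : ((X.p k : ℕ) : ℤ) ∣ (X.N k : ℤ) ^ ((TD (e k)).T.natDegree - j) :=
      h2.trans (dvd_pow_self _ (by omega))
    exact Dvd.dvd.mul_right (Dvd.dvd.mul_left h3 _) _
  have h3 : ((X.p k : ℕ) : ℤ) ∣ (TD (e k)).T.coeff (TD (e k)).T.natDegree *
      (X.N k : ℤ) ^ ((TD (e k)).T.natDegree - (TD (e k)).T.natDegree) *
      (-(X.n k)) ^ (TD (e k)).T.natDegree := (Int.dvd_iff_dvd_of_dvd_add h0).mp h1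
  rw [Nat.sub_self, pow_zero, mul_one] at h3
  rcases hpp.dvd_or_dvd h3 with h4 | h4
  · exact X.plead k h4
  · have := hpp.dvd_of_dvd_pow h4
    rw [dvd_neg] at this
    exact X.pn k this

theorem EA_odd (k : ℕ) : Odd (EA k) := ⟨2 * (k + 2) ^ 2, by unfold EA; ring⟩

/-- `S_k (X^2)` is not `± p(X) p(-X)`. -/
theorem S_not_norm (hodd : ∀ k, Odd (e k + 1)) (k : ℕ) (p : ℤ[X]) (u : ℤ) (hu : IsUnit u)
    (h : expand ℤ 2 (X.S k) = C u * (p * Helper35.refl p)) : False := by
  have h1 := congrArg (fun Q : ℤ[X] => Q.coeff 0) h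
  have h2 := congrArg leadingCoeff h
  simp only [mul_coeff_zero, refl_coeff, pow_zero, one_mul, coeff_C_zero] at h1
  have e1 : (expand ℤ 2 (X.S k)).coeff 0 = (X.S k).coeff 0 := by
    rw [coeff_expand (by norm_num)]; simp
  rw [e1] at h1
  have e2 : (expand ℤ 2 (X.S k)).leadingCoeff = (X.S k).leadingCoeff := leadingCoeff_expand (by norm_num)
  rw [e2, leadingCoeff_mul, leadingCoeff_mul, leadingCoeff_C, refl_leadingCoeff, X.lead_S] at h2
  have hN : ((X.N k : ℕ) : ℤ) = ((X.p k : ℕ) : ℤ) ^ EA k := by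
    unfold SData.N; push_cast; rfl
  rw [hN, ← pow_mul] at h2
  have hA : Odd (EA k * (e k + 1)) := (EA_odd k).mul (hodd k)
  have hpp : Prime ((X.p k : ℕ) : ℤ) := Nat.prime_iff_prime_int.mp (X.prime k)
  have hb : ¬ ((X.p k : ℕ) : ℤ) ∣ (TD (e k)).T.leadingCoeff * (X.S k).coeff 0 := by
    intro hd
    rcases hpp.dvd_or_dvd hd with h3 | h3
    · exact X.plead k h3
    · exact S_coeff_zero' X k h3
  apply not_square_of_odd (X.p k) (X.prime k) _ hA _ (p.leadingCoeff * p.coeff 0) hb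
  have hu2 : u * u = 1 := by
    rcases Int.isUnit_iff.mp hu with h | h <;> rw [h] <;> norm_num
  have h3 : ((X.p k : ℕ) : ℤ) ^ (EA k * (e k + 1)) * ((TD (e k)).T.leadingCoeff * (X.S k).coeff 0)
      = (-1) ^ p.natDegree * (p.leadingCoeff * p.coeff 0) ^ 2 := by
    rw [← mul_assoc, h2, h1]
    calc u * (p.leadingCoeff * ((-1) ^ p.natDegree * p.leadingCoeff)) * (u * (p.coeff 0 * p.coeff 0))
        = (u * u) * ((-1) ^ p.natDegree * (p.leadingCoeff * p.coeff 0) ^ 2) := by ring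
      _ = _ := by rw [hu2, one_mul]
  rcases Nat.even_or_odd p.natDegree with h4 | h4
  · left; rw [h3, h4.neg_one_pow, one_mul]
  · right; rw [h3, h4.neg_one_pow]; ring

/-- If `p` is irreducible, divides the even polynomial `F` and `p(-X)` is not associated to `p`
then `p(X) p(-X)` divides `F`. -/
theorem mul_refl_dvd {p F : ℤ[X]} (hp : Irreducible p) (hF : Helper35.refl F = F)
    (hn : ¬ Helper35.refl p ∣ p) (h : p ∣ F) : p * Helper35.refl p ∣ F := by
  obtain ⟨A, hA⟩ := h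
  have h1 : Helper35.refl p ∣ p * A := by
    rw [← hA, ← hF, hA, refl_mul]
    exact dvd_mul_right _ _
  rcases (refl_irreducible hp).prime.dvd_or_dvd h1 with h2 | h2
  · exact absurd h2 hn
  · rw [hA]
    exact mul_dvd_mul_left _ h2

/-- The norm of an irreducible polynomial which is not even is not divisible by the `S_k`. -/
theorem S_not_dvd_norm (hodd : ∀ k, Odd (e k + 1)) (k : ℕ) (p : ℤ[X]) (hp : Irreducible p)
    (hn : ¬ Helper35.refl p ∣ p) (g : ℤ) (hg : g ≠ 0) (E : ℤ[X])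
    (hE : expand ℤ 2 E = C g * (p * Helper35.refl p)) : ¬ X.S k ∣ E := by
  intro hd
  obtain ⟨F, hF⟩ : ∃ F, F = expand ℤ 2 (X.S k) := ⟨_, rfl⟩
  have hFd : F ∣ C g * (p * Helper35.refl p) := by
    rw [← hE, hF]
    obtain ⟨B, rfl⟩ := hd
    rw [map_mul]
    exact dvd_mul_right _ _
  have hFr : Helper35.refl F = F := by rw [hF, refl_expand]
  have hS0 := (X.S_irr k).ne_zero
  have hF0 : F ≠ 0 := by
    rw [hF]
    intro h0
    exact hS0 ((expand_eq_zero (by norm_num)).mp h0)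
  have hFdeg : F.natDegree = 2 * (e k + 1) := by
    rw [hF, natDegree_expand, (X.S_props k).2.2.1]; ring
  have hFprim : F.IsPrimitive := by
    intro r hr
    apply (X.S_props k).2.1 r
    rw [C_dvd_iff_dvd_coeff] at hr ⊢
    intro i
    have h1 := hr (2 * i)
    rw [hF, coeff_expand (by norm_num), if_pos (dvd_mul_right 2 i)] at h1
    rwa [Nat.mul_div_cancel_left i (by norm_num)] at h1
  have hFnu : ¬ IsUnit F := by
    intro hu
    have := natDegree_eq_zero_of_isUnit hu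
    omega
  obtain ⟨q, hq, hqF⟩ := WfDvdMonoid.exists_irreducible_factor hFnu hF0
  have hqdeg : q.natDegree ≠ 0 := by
    intro h0
    obtain ⟨r, hr⟩ : ∃ r, q = C r := ⟨_, eq_C_of_natDegree_eq_zero h0⟩
    rw [hr] at hqF hq
    have := hFprim r hqF
    exact hq.not_isUnit (isUnit_C.mpr this)
  have hpr : Irreducible (Helper35.refl p) := refl_irreducible hp
  have hpF : p ∣ F := by
    have h1 : q ∣ C g * (p * Helper35.refl p) := hqF.trans hFd
    rcases hq.prime.dvd_or_dvd h1 with h2 | h2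
    · exfalso
      have hCg : (C g : ℤ[X]) ≠ 0 := by simpa using hg
      have := natDegree_le_of_dvd h2 hCg
      rw [natDegree_C] at this
      omega
    · rcases hq.prime.dvd_or_dvd h2 with h3 | h3
      · exact (hq.associated_of_dvd hp h3).symm.dvd.trans hqF
      · have h4 : Helper35.refl p ∣ F := (hq.associated_of_dvd hpr h3).symm.dvd.trans hqF
        obtain ⟨A, hA⟩ := h4
        refine ⟨Helper35.refl A, ?_⟩
        rw [← hFr, hA, refl_mul, refl_refl]
  have hpp := mul_refl_dvd hp hFr hn hpF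
  obtain ⟨R, hR⟩ := hpp
  have hne : p * Helper35.refl p ≠ 0 := mul_ne_zero hp.ne_zero hpr.ne_zero
  have hRg : R ∣ C g := by
    rw [hR] at hFd
    have h1 : (p * Helper35.refl p) * R ∣ (p * Helper35.refl p) * C g := by
      rwa [mul_comm (p * Helper35.refl p) (C g)]
    exact (mul_dvd_mul_iff_left hne).mp h1
  have hRdeg : R.natDegree = 0 := by
    have hCg : (C g : ℤ[X]) ≠ 0 := by simpa using hg
    have := natDegree_le_of_dvd hRg hCg
    rw [natDegree_C] at this
    omega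
  obtain ⟨r, hr⟩ : ∃ r, R = C r := ⟨_, eq_C_of_natDegree_eq_zero hRdeg⟩
  have hru : IsUnit r := by
    apply hFprim r
    rw [hR, hr]
    exact dvd_mul_left _ _
  apply S_not_norm X hodd k p r hru
  rw [← hF, hR, hr, mul_comm]

/-- The bound at `√ξ`. -/
theorem bound_sqrt (hodd : ∀ k, Odd (e k + 1)) (hM : Demand e Mq)
    (hmono : Monotone V) (hV160 : ∀ j, 160 * j + 161 ≤ V j) (n : ℕ) :
    ∃ c : ℝ, 0 < c ∧ ∀ P : ℤ[X], P ≠ 0 → P.natDegree ≤ n →
      c ≤ |aeval (Real.sqrt X.ξ) P| * (ht P : ℝ) ^ (V (n / 2) + 1) := by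
  have hV : ∀ j, 22 ≤ V j := fun j => by have := hV160 j; omega
  have hV40 : ∀ j, 40 * (j + 1) ≤ V j := fun j => by have := hV160 j; omega
  have hne := ne_zero_at X hM hV hmono hV40
  obtain ⟨s, hs⟩ : ∃ s, s = Real.sqrt X.ξ := ⟨_, rfl⟩
  have hξ0 := X.ξ0
  have hξ1 := X.ξ1
  have hs2 : s ^ 2 = X.ξ := by rw [hs]; exact Real.sq_sqrt hξ0
  have hξpos : 0 < X.ξ := by
    refine lt_of_le_of_ne hξ0 (fun h => ?_)
    have := hne Polynomial.X X_ne_zero
    rw [aeval_X] at this
    exact this h.symm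
  have hspos : 0 < s := by rw [hs]; exact Real.sqrt_pos.mpr hξpos
  have hs1 : s ≤ 1 := by rw [hs]; exact Real.sqrt_le_one.mpr hξ1
  rw [← hs]
  apply general_bound
  intro m hm hmn
  obtain ⟨c0, hc0, hcc0⟩ := X.bound_all hM hV (n / 2) (V (n / 2)) (hV40 _)
    (fun j hj => hmono hj.le)
  obtain ⟨c1, hc1, hcc1⟩ := pred_bound X hne m
  obtain ⟨L, hL⟩ : ∃ L : ℝ, L = (m : ℝ) + 1 := ⟨_, rfl⟩
  have hL1 : 1 ≤ L := by
    have : (0 : ℝ) ≤ m := Nat.cast_nonneg m
    linarith
  obtain ⟨c2, hc2d⟩ : ∃ c2 : ℝ, c2 = c1 / (L * L ^ (40 * (m + 1))) := ⟨_, rfl⟩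
  have hc2 : 0 < c2 := by rw [hc2d]; positivity
  refine ⟨⌈1 / c0⌉₊ + ⌈1 / c2⌉₊ + ⌈1 / s⌉₊, fun P hP hPd hH => ?_⟩
  have hP0 := hP.ne_zero
  have hH1 : (1 : ℝ) ≤ ht P := by exact_mod_cast ht_pos hP0
  have hHc0 : 1 ≤ c0 * ht P := by
    have h1 : 1 / c0 ≤ ht P := (Nat.le_ceil _).trans (by exact_mod_cast (by omega))
    rw [div_le_iff₀ hc0] at h1
    linarith
  have hHc2 : 1 ≤ c2 * ht P := by
    have h1 : 1 / c2 ≤ ht P := (Nat.le_ceil _).trans (by exact_mod_cast (by omega))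
    rw [div_le_iff₀ hc2] at h1
    linarith
  have hHs : 1 ≤ s * ht P := by
    have h1 : 1 / s ≤ ht P := (Nat.le_ceil _).trans (by exact_mod_cast (by omega))
    rw [div_le_iff₀ hspos] at h1
    linarith
  -- primitive part
  have hPfac : P = C P.content * P.primPart := P.eq_C_content_mul_primPart
  obtain ⟨g, hg⟩ : ∃ g, g = P.content := ⟨_, rfl⟩
  obtain ⟨p, hp⟩ : ∃ p, p = P.primPart := ⟨_, rfl⟩
  rw [← hg, ← hp] at hPfac
  have hg0 : g ≠ 0 := by
    rintro rfl
    rw [C_0, zero_mul] at hPfac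
    exact hP0 hPfac
  have hpprim : p.IsPrimitive := by rw [hp]; exact P.isPrimitive_primPart
  have hpirr : Irreducible p := by
    rw [IsPrimitive.Int.irreducible_iff_irreducible_map_cast hpprim]
    have h1 : Irreducible ((C g * p).map (Int.castRingHom ℚ)) := by
      rw [← hPfac]; exact hP
    rw [Polynomial.map_mul, Polynomial.map_C] at h1
    rwa [irreducible_isUnit_mul (isUnit_C.mpr (IsUnit.mk0 _ (by simpa using hg0)))] at h1
  by_cases hA : Helper35.refl p ∣ p
  · -- then `refl p = ± p`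
    have hassoc : Associated (Helper35.refl p) p := (refl_irreducible hpirr).associated_of_dvd hpirr hA
    obtain ⟨u, hu⟩ := hassoc
    obtain ⟨r, hr, hru⟩ := Polynomial.isUnit_iff.mp u.isUnit
    rw [← hru] at hu
    rcases Int.isUnit_iff.mp hr with h1 | h1
    · -- even
      rw [h1, C_1, mul_one] at hu
      have hev : Helper35.refl P = P := by
        rw [hPfac, refl_mul, hu]
        congr 1
        unfold Helper35.refl
        rw [C_comp]
      obtain ⟨F, hF⟩ := exists_expand_of_refl P hev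
      have hF0 : F ≠ 0 := by
        rintro rfl
        rw [map_zero] at hF
        exact hP0 hF.symm
      have hFdeg : F.natDegree ≤ n / 2 := by
        have h2 := congrArg natDegree hF
        rw [natDegree_expand] at h2
        omega
      have h2 := hcc0 F hF0 hFdeg
      have hv : aeval s P = aeval X.ξ F := by rw [← hF, expand_aeval, hs2]
      have hh : ht F = ht P := by rw [← hF, ht_expand]
      rw [hh, ← hv] at h2
      calc (1 : ℝ) ≤ c0 * ht P := hHc0
        _ ≤ (|aeval s P| * (ht P : ℝ) ^ (V (n / 2))) * ht P := by gcongr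
        _ = _ := by ring
    · -- odd
      rw [h1] at hu
      have h2 := congrArg (fun Q : ℤ[X] => Q.coeff 0) hu
      simp only [mul_coeff_zero, refl_coeff, pow_zero, one_mul, coeff_C_zero] at h2
      have h3 : p.coeff 0 = 0 := by omega
      have h4 : Polynomial.X ∣ p := X_dvd_iff.mpr h3
      obtain ⟨v, hv⟩ := irreducible_X.associated_of_dvd hpirr h4
      obtain ⟨t, ht1, ht2⟩ := Polynomial.isUnit_iff.mp v.isUnit
      rw [← ht2] at hv
      have h5 : P = C (g * t) * Polynomial.X := by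
        rw [hPfac, ← hv, C_mul]; ring
      have hgt : g * t ≠ 0 := mul_ne_zero hg0 ht1.ne_zero
      have h6 : (1 : ℝ) ≤ |((g * t : ℤ) : ℝ)| := by exact_mod_cast Int.one_le_abs hgt
      have h7 : |aeval s P| = |((g * t : ℤ) : ℝ)| * s := by
        rw [h5, map_mul, aeval_C, aeval_X, abs_mul, abs_of_pos hspos]
        simp
      calc (1 : ℝ) ≤ s * ht P := hHs
        _ = (1 * s) * (ht P : ℝ) ^ 1 := by ring
        _ ≤ (|((g * t : ℤ) : ℝ)| * s) * (ht P : ℝ) ^ (V (n / 2) + 1) := by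
            have : (ht P : ℝ) ^ 1 ≤ (ht P : ℝ) ^ (V (n / 2) + 1) :=
              pow_le_pow_right₀ hH1 (by omega)
            gcongr
        _ = _ := by rw [h7]
  · -- the general case
    obtain ⟨E, hE1, hE2, hE3, hE4⟩ := graeffe P hP0
    have hE5 : expand ℤ 2 E = C (g * g) * (p * Helper35.refl p) := by
      have h1 : Helper35.refl P = C g * Helper35.refl p := by
        rw [hPfac, refl_mul]
        congr 1
        unfold Helper35.refl
        rw [C_comp]
      rw [hE1, h1]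
      conv_lhs => rw [hPfac]
      rw [C_mul]; ring
    have hG := fun k => S_not_dvd_norm X hodd k p hpirr hA (g * g) (mul_ne_zero hg0 hg0) E hE5
    have h1 := hcc1 E hG hE2 (by omega)
    have hval : aeval X.ξ E = aeval s P * aeval s (Helper35.refl P) := by
      rw [← hs2, ← expand_aeval, hE1, map_mul]
    have hrefl : |aeval s (Helper35.refl P)| ≤ L * ht P := by
      have h2 := abs_aeval_le (Helper35.refl P) s (by rw [abs_of_pos hspos]; exact hs1)
      rw [refl_natDegree, ht_refl, hPd, ← hL] at h2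
      exact h2
    rw [hPd, ← hL] at hE4
    have h3 : (ht E : ℝ) ^ (40 * (m + 1)) ≤ L ^ (40 * (m + 1)) * (ht P : ℝ) ^ (80 * (m + 1)) := by
      calc (ht E : ℝ) ^ (40 * (m + 1)) ≤ (L * (ht P : ℝ) ^ 2) ^ (40 * (m + 1)) := by gcongr
        _ = _ := by rw [mul_pow, ← pow_mul]; congr 2; ring
    have h4 : c1 ≤ (|aeval s P| * (L * ht P)) *
        (L ^ (40 * (m + 1)) * (ht P : ℝ) ^ (80 * (m + 1))) := by
      refine h1.trans ?_
      rw [hval, abs_mul]
      gcongr
    have h5 : c2 ≤ |aeval s P| * (ht P : ℝ) ^ (80 * (m + 1) + 1) := by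
      rw [hc2d, div_le_iff₀ (by positivity)]
      refine h4.trans (le_of_eq ?_)
      ring
    have h6 : 80 * (m + 1) + 2 ≤ V (n / 2) + 1 := by
      have := hV160 (n / 2)
      omega
    calc (1 : ℝ) ≤ c2 * ht P := hHc2
      _ ≤ (|aeval s P| * (ht P : ℝ) ^ (80 * (m + 1) + 1)) * ht P := by gcongr
      _ = |aeval s P| * (ht P : ℝ) ^ (80 * (m + 1) + 2) := by ring
      _ ≤ _ := by
          have : (ht P : ℝ) ^ (80 * (m + 1) + 2) ≤ (ht P : ℝ) ^ (V (n / 2) + 1) :=
            pow_le_pow_right₀ hH1 h6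
          gcongr

end Pool.Agent.W72
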